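import Mathlib

set_option autoImplicit false
set_option linter.unusedSectionVars false

/-! The first Bieberbach theorem, following Buser's geometric proof. -/

namespace Pool.Agent.FlatDich

open Metric Set Filter Topology

variable {V : Type*} [NormedAddCommGroup V] [InnerProductSpace ℝ V] [FiniteDimensional ℝ V]
variable {H : Type*} [Group H]

/-- A proper cocompact action of `H` on `V` by `x ↦ A h x + t h`. -/
structure Cryst (A : H → V ≃ₗᵢ[ℝ] V) (t : H → V) : Prop where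
  hA : ∀ h k x, A (h * k) x = A h (A k x)
  ht : ∀ h k, t (h * k) = A h (t k) + t h
  fin : ∀ R : ℝ, {h | ‖t h‖ ≤ R}.Finite
  coc : ∃ d : ℝ, ∀ x, ∃ h, ‖x - t h‖ ≤ d

def Close (ε : ℝ) (B : V ≃ₗᵢ[ℝ] V) : Prop := ∀ x, ‖B x - x‖ ≤ ε * ‖x‖

variable {A : H → V ≃ₗᵢ[ℝ] V} {t : H → V}

lemma Cryst.A_one (C : Cryst A t) (x : V) : A 1 x = x := by
  have := C.hA 1 1 x
  rw [mul_one] at this
  exact ((A 1).injective this).symm

lemma Cryst.t_one (C : Cryst A t) : t 1 = 0 := by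
  have := C.ht 1 1
  rw [mul_one, C.A_one] at this
  simpa using this

lemma Cryst.A_inv (C : Cryst A t) (h : H) (x : V) : A h (A h⁻¹ x) = x := by
  rw [← C.hA, mul_inv_cancel, C.A_one]

lemma Cryst.A_inv' (C : Cryst A t) (h : H) (x : V) : A h⁻¹ (A h x) = x := by
  rw [← C.hA, inv_mul_cancel, C.A_one]

lemma Cryst.exists_min (C : Cryst A t) {S : Set H} (hS : S.Nonempty) :
    ∃ h ∈ S, ∀ k ∈ S, ‖t h‖ ≤ ‖t k‖ := by
  obtain ⟨h0, hh0⟩ := hS
  obtain ⟨h, hh, hmin⟩ := Set.exists_min_image (S ∩ {h | ‖t h‖ ≤ ‖t h0‖}) (fun h => ‖t h‖)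
    ((C.fin _).inter_of_right S) ⟨h0, hh0, le_refl ‖t h0‖⟩
  refine ⟨h, hh.1, fun k hk => ?_⟩
  by_cases hk0 : ‖t k‖ ≤ ‖t h0‖
  · exact hmin k ⟨hk, hk0⟩
  · exact hh.2.trans (not_le.1 hk0).le

lemma Cryst.mini (C : Cryst A t) (u : V) {ε : ℝ} (hε : 0 < ε) :
    ∃ h, ∃ N : ℝ, Close ε (A h) ∧ 0 < N ∧ ‖t h - N • u‖ ≤ ε * N := by
  obtain ⟨d, hd⟩ := C.coc
  choose β hβ using fun k : ℕ => hd ((k : ℝ) • u)
  let B : ℕ → V →L[ℝ] V := fun k => (A (β k)).toLinearIsometry.toContinuousLinearMap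
  have hB : ∀ k, B k ∈ closedBall (0 : V →L[ℝ] V) 1 := fun k => by
    rw [mem_closedBall_zero_iff]
    exact (A (β k)).toLinearIsometry.norm_toContinuousLinearMap_le
  obtain ⟨L, -, φ, hφ, hL⟩ := (isCompact_closedBall (0 : V →L[ℝ] V) 1).tendsto_subseq hB
  obtain ⟨i, hi⟩ := Metric.tendsto_atTop.1 hL (ε / 2) (by positivity)
  set c := d + ‖t (β (φ i))‖ with hc
  obtain ⟨j0, hj0⟩ := exists_nat_gt (max (c / ε) 0)
  set j := max i j0 with hj
  have hN : (j0 : ℝ) ≤ φ j := by exact_mod_cast (le_max_right i j0).trans (hφ.id_le j)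
  have hN0 : (0 : ℝ) < φ j := ((le_max_right _ _).trans_lt hj0).trans_le hN
  have hcN : c ≤ ε * φ j := by
    have := ((le_max_left _ _).trans_lt hj0).trans_le hN
    rw [div_lt_iff₀ hε] at this
    linarith
  refine ⟨β (φ j) * (β (φ i))⁻¹, φ j, fun x => ?_, hN0, ?_⟩
  · have h1 : ‖B (φ j) - B (φ i)‖ ≤ ε := by
      rw [← dist_eq_norm]
      have a := hi j (le_max_left _ _)
      have b := hi i le_rfl
      simp only [Function.comp] at a b
      linarith [dist_triangle_right (B (φ j)) (B (φ i)) L]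
    have h2 := (B (φ j) - B (φ i)).le_of_opNorm_le h1 (A (β (φ i))⁻¹ x)
    rw [LinearIsometryEquiv.norm_map] at h2
    have e : (B (φ j) - B (φ i)) (A (β (φ i))⁻¹ x) = A (β (φ j) * (β (φ i))⁻¹) x - x := by
      rw [C.hA]
      change A _ _ - A _ _ = _
      rw [C.A_inv]
    rwa [e] at h2
  · have e := C.ht (β (φ j) * (β (φ i))⁻¹) (β (φ i))
    rw [inv_mul_cancel_right] at e
    have e2 : t (β (φ j) * (β (φ i))⁻¹) - (φ j : ℝ) • u =
        -(((φ j : ℝ) • u - t (β (φ j))) + A (β (φ j) * (β (φ i))⁻¹) (t (β (φ i)))) := by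
      rw [e]; abel
    rw [e2, norm_neg]
    refine (norm_add_le _ _).trans ?_
    rw [LinearIsometryEquiv.norm_map]
    linarith [hβ (φ j)]

lemma top_space (B : V ≃ₗᵢ[ℝ] V) (hne : ∃ x, B x ≠ x) (hB : Close (1 / 2) B) :
    ∃ (W : Submodule ℝ V) (m m' : ℝ) (u : V), u ∈ W ∧ ‖u‖ = 1 ∧ 0 ≤ m' ∧ m' < m ∧ m ≤ 1 / 2 ∧
      Close m B ∧ (∀ x ∈ W, ‖B x - x‖ = m * ‖x‖) ∧ (∀ x ∈ Wᗮ, ‖B x - x‖ ≤ m' * ‖x‖) ∧
      (∀ x ∈ W, B x ∈ W) ∧ (∀ x ∈ Wᗮ, B x ∈ Wᗮ) := by
  obtain ⟨x0, hx0⟩ := hne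
  let T : V →L[ℝ] V := B.toLinearIsometry.toContinuousLinearMap - 1
  have hT : ∀ x, T x = B x - x := fun x => rfl
  have scale : ∀ (S : Submodule ℝ V) (c : ℝ), (∀ x ∈ S, ‖x‖ = 1 → ‖T x‖ ≤ c) →
      ∀ x ∈ S, ‖T x‖ ≤ c * ‖x‖ := by
    intro S c h x hx
    by_cases h0 : x = 0
    · simp [h0]
    · have hp : 0 < ‖x‖ := norm_pos_iff.2 h0
      have := h (‖x‖⁻¹ • x) (S.smul_mem _ hx) (by rw [norm_smul]; simp [h0])
      rw [map_smul, norm_smul, norm_inv, norm_norm, inv_mul_le_iff₀ hp] at this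
      linarith
  have maxi : ∀ S : Submodule ℝ V, (∃ x ∈ S, x ≠ 0) →
      ∃ y ∈ S, ‖y‖ = 1 ∧ ∀ x ∈ S, ‖T x‖ ≤ ‖T y‖ * ‖x‖ := by
    rintro S ⟨x, hx, h0⟩
    have hc : IsCompact ((S : Set V) ∩ sphere 0 1) :=
      (isCompact_sphere 0 1).inter_left S.closed_of_finiteDimensional
    obtain ⟨y, hy, hmax⟩ := hc.exists_isMaxOn
      ⟨‖x‖⁻¹ • x, S.smul_mem _ hx, by rw [mem_sphere_zero_iff_norm, norm_smul]; simp [h0]⟩
      (T.continuous.norm).continuousOn
    exact ⟨y, hy.1, mem_sphere_zero_iff_norm.1 hy.2,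
      scale S _ fun z hz h1 => hmax ⟨hz, mem_sphere_zero_iff_norm.2 h1⟩⟩
  have hx00 : x0 ≠ 0 := by rintro rfl; simp at hx0
  obtain ⟨u, -, hu1, hu⟩ := maxi ⊤ ⟨x0, trivial, hx00⟩
  set m := ‖T u‖ with hm
  have hu' : ∀ x, ‖T x‖ ≤ m * ‖x‖ := fun x => hu x trivial
  have hm0 : 0 < m := by
    have h1 : 0 < ‖T x0‖ := norm_pos_iff.2 (by rw [hT]; exact sub_ne_zero.2 hx0)
    have h2 := hu' x0
    by_contra h
    have : m * ‖x0‖ ≤ 0 := mul_nonpos_of_nonpos_of_nonneg (not_lt.1 h) (norm_nonneg _)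
    linarith
  let W : Submodule ℝ V :=
    { carrier := {x | ‖T x‖ = m * ‖x‖}
      zero_mem' := by simp
      smul_mem' := fun c x hx => by
        change ‖T x‖ = m * ‖x‖ at hx
        change ‖T (c • x)‖ = m * ‖c • x‖
        rw [map_smul, norm_smul, norm_smul, hx]; ring
      add_mem' := fun {x y} hx hy => by
        change ‖T x‖ = m * ‖x‖ at hx
        change ‖T y‖ = m * ‖y‖ at hy
        change ‖T (x + y)‖ = m * ‖x + y‖
        have p1 := parallelogram_law_with_norm ℝ x y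
        have p2 := parallelogram_law_with_norm ℝ (T x) (T y)
        rw [← map_add, ← map_sub, hx, hy] at p2
        have a1 := pow_le_pow_left₀ (norm_nonneg _) (hu' (x + y)) 2
        have a2 := pow_le_pow_left₀ (norm_nonneg _) (hu' (x - y)) 2
        refine (pow_left_inj₀ (norm_nonneg _) (by positivity) two_ne_zero).1 ?_
        have p3 : (m * ‖x + y‖) ^ 2 + (m * ‖x - y‖) ^ 2 = ‖T (x + y)‖ ^ 2 + ‖T (x - y)‖ ^ 2 := by
          linear_combination m ^ 2 * p1 - p2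
        linarith }
  have hW : ∀ x, x ∈ W ↔ ‖T x‖ = m * ‖x‖ := fun x => Iff.rfl
  have comm : ∀ x, ‖T (B x)‖ = ‖T x‖ := fun x => by
    rw [hT, hT, ← map_sub, LinearIsometryEquiv.norm_map]
  have inv1 : ∀ x ∈ W, B x ∈ W := fun x hx => by
    rw [hW] at hx ⊢; rw [comm, LinearIsometryEquiv.norm_map, hx]
  have inv2 : ∀ x ∈ W, B.symm x ∈ W := fun x hx => by
    rw [hW] at hx ⊢
    rw [← comm, LinearIsometryEquiv.apply_symm_apply, LinearIsometryEquiv.norm_map, hx]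
  have inv3 : ∀ x ∈ Wᗮ, B x ∈ Wᗮ := fun x hx => by
    rw [Submodule.mem_orthogonal] at hx ⊢
    intro w hw
    rw [← B.apply_symm_apply w, B.inner_map_map]
    exact hx _ (inv2 w hw)
  have hm2 : m ≤ 1 / 2 := by rw [hm, hT]; simpa [hu1] using hB u
  have huW : u ∈ W := by rw [hW, hu1, mul_one]
  by_cases hperp : ∃ x ∈ Wᗮ, x ≠ 0
  · obtain ⟨y, hy, hy1, hmax⟩ := maxi Wᗮ hperp
    refine ⟨W, m, ‖T y‖, u, huW, hu1, norm_nonneg _, ?_, hm2, hu', fun x hx => hx, hmax, inv1,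
      inv3⟩
    refine lt_of_le_of_ne (by simpa [hy1] using hu' y) fun he => ?_
    have hyW : y ∈ W := by rw [hW, hy1, mul_one, he]
    have := (Submodule.mem_orthogonal W y).1 hy y hyW
    rw [inner_self_eq_zero] at this
    rw [this] at hy1
    simp at hy1
  · push Not at hperp
    refine ⟨W, m, 0, u, huW, hu1, le_rfl, hm0, hm2, hu', fun x hx => hx, fun x hx => ?_, inv1,
      inv3⟩
    simp [hperp x hx]

lemma Cryst.pure (C : Cryst A t) (α0 : H) (h0 : Close (1 / 2) (A α0)) (x0 : V) :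
    A α0 x0 = x0 := by
  by_contra hne
  obtain ⟨α, ⟨hα, hαne⟩, hαmin⟩ := C.exists_min
    (S := {h | Close (1 / 2) (A h) ∧ ∃ x, A h x ≠ x}) ⟨α0, h0, x0, hne⟩
  obtain ⟨W, m, m', u, huW, hu1, hm0, hmm, hm2, hcl, hWe, hWp, i1, i2⟩ :=
    top_space (A α) hαne hα
  set ε := (m - m') / 8 with hε
  have hε0 : 0 < ε := by rw [hε]; linarith
  have hε1 : ε ≤ 1 / 16 := by rw [hε]; linarith
  let P : V →L[ℝ] V := W.starProjection
  let Q : V →L[ℝ] V := Wᗮ.starProjection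
  have PQ : ∀ x, P x + Q x = x := fun x => W.starProjection_add_starProjection_orthogonal x
  have Pm : ∀ x, P x ∈ W := fun x => W.starProjection_apply_mem x
  have Qm : ∀ x, Q x ∈ Wᗮ := fun x => Wᗮ.starProjection_apply_mem x
  have Pn : ∀ x, ‖P x‖ ≤ ‖x‖ := fun x => W.norm_starProjection_apply_le x
  have Qn : ∀ x, ‖Q x‖ ≤ ‖x‖ := fun x => Wᗮ.norm_starProjection_apply_le x
  have P1 : ∀ x ∈ W, P x = x := fun x hx => Submodule.starProjection_eq_self_iff.2 hx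
  have Q1 : ∀ x ∈ Wᗮ, Q x = x := fun x hx => Submodule.starProjection_eq_self_iff.2 hx
  have P0 : ∀ x ∈ Wᗮ, P x = 0 := fun x hx => by
    have := PQ x; rw [Q1 x hx] at this; simpa using this
  have Q0 : ∀ x ∈ W, Q x = 0 := fun x hx => by
    have := PQ x; rw [P1 x hx] at this; simpa using this
  obtain ⟨β, ⟨hβ, hβ2⟩, hβmin⟩ := C.exists_min
    (S := {h | Close ε (A h) ∧ ‖Q (t h)‖ < ‖P (t h)‖}) (by
      obtain ⟨h, N, h1, hN, h2⟩ := C.mini u hε0
      refine ⟨h, h1, ?_⟩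
      have a1 := (Pn (t h - N • u)).trans h2
      have a2 := (Qn (t h - N • u)).trans h2
      rw [map_sub, map_smul, P1 u huW] at a1
      rw [map_sub, map_smul, Q0 u huW, smul_zero, sub_zero] at a2
      have a3 := norm_sub_norm_le (N • u) (P (t h))
      rw [norm_sub_rev, norm_smul, hu1, Real.norm_eq_abs, abs_of_pos hN] at a3
      nlinarith)
  set a := t α with ha
  set b := t β with hb
  set γ := α * β * α⁻¹ * β⁻¹ with hγ
  have Aγ : ∀ x, A γ x = A α (A β (A α⁻¹ (A β⁻¹ x))) := fun x => by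
    rw [hγ, C.hA, C.hA, C.hA]
  have hγc : Close ε (A γ) := by
    intro x
    set y := A α⁻¹ (A β⁻¹ x) with hy
    have hx : x = A β (A α y) := by rw [hy, C.A_inv, C.A_inv]
    have ny : ‖y‖ = ‖x‖ := by rw [hy]; simp
    have e : A γ x - x =
        (A α (A β y - y) - (A β y - y)) - (A β (A α y - y) - (A α y - y)) := by
      rw [Aγ, ← hy]
      conv_lhs => rw [hx]
      simp only [map_sub]; abel
    rw [e]
    have b1 := hcl (A β y - y)
    have b2 := hβ (A α y - y)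
    have b3 := hβ y
    have b4 := hcl y
    have b5 := norm_sub_le (A α (A β y - y) - (A β y - y)) (A β (A α y - y) - (A α y - y))
    rw [ny] at b3 b4
    have hm : 0 ≤ m := by linarith
    have b6 := mul_le_mul_of_nonneg_left b3 hm
    have b7 := mul_le_mul_of_nonneg_left b4 hε0.le
    have b8 : 0 ≤ ε * ‖x‖ := by positivity
    nlinarith
  have tγ : t γ = (A α b - b) + ((b - A γ b) + A α (A α⁻¹ a - A β (A α⁻¹ a))) := by
    have e1 := C.ht γ β
    have e2 := C.ht (α * β * α⁻¹) α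
    have e3 := C.ht α β
    rw [hγ, inv_mul_cancel_right, ← hγ] at e1
    rw [inv_mul_cancel_right, e3, e1, C.hA, C.hA] at e2
    rw [map_sub, C.A_inv]
    rw [← ha, ← hb] at e2
    have : t γ = A α b + a - A α (A β (A α⁻¹ a)) - A γ b := by rw [e2]; abel
    rw [this]; abel
  set r := (b - A γ b) + A α (A α⁻¹ a - A β (A α⁻¹ a)) with hr
  have nr : ‖r‖ ≤ 2 * ε * ‖b‖ := by
    by_cases hB : ∃ x, A β x ≠ x
    · have hab : ‖a‖ ≤ ‖b‖ := hαmin β ⟨fun x => (hβ x).trans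
        (mul_le_mul_of_nonneg_right (by linarith) (norm_nonneg _)), hB⟩
      have b1 := hγc b
      have b2 := hβ (A α⁻¹ a)
      rw [norm_sub_rev] at b1 b2
      rw [LinearIsometryEquiv.norm_map] at b2
      have b3 := norm_add_le (b - A γ b) (A α (A α⁻¹ a - A β (A α⁻¹ a)))
      rw [LinearIsometryEquiv.norm_map] at b3
      nlinarith
    · push Not at hB
      have hB' : ∀ x, A β⁻¹ x = x := fun x => by rw [← hB (A β⁻¹ x), C.A_inv]
      have : r = 0 := by rw [hr, Aγ, hB', hB, hB, C.A_inv]; simp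
      rw [this, norm_zero]; positivity
  have nb : ‖b‖ < 2 * ‖P b‖ := by
    have := norm_add_le (P b) (Q b)
    rw [PQ] at this
    linarith
  have nb0 : 0 < ‖b‖ := by linarith [Pn b, norm_nonneg (Q b)]
  have split : A α b - b = (A α (P b) - P b) + (A α (Q b) - Q b) := by
    conv_lhs => rw [← PQ b, map_add]
    abel
  have w1 : A α (P b) - P b ∈ W := W.sub_mem (i1 _ (Pm b)) (Pm b)
  have w2 : A α (Q b) - Q b ∈ Wᗮ := Wᗮ.sub_mem (i2 _ (Qm b)) (Qm b)
  have eP : P (t γ) = (A α (P b) - P b) + P r := by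
    rw [tγ, split, map_add, map_add, P1 _ w1, P0 _ w2, add_zero]
  have eQ : Q (t γ) = (A α (Q b) - Q b) + Q r := by
    rw [tγ, split, map_add, map_add, Q0 _ w1, Q1 _ w2, zero_add]
  have nP : m * ‖P b‖ - ‖r‖ ≤ ‖P (t γ)‖ := by
    have := norm_sub_le (P (t γ)) (P r)
    rw [eP, add_sub_cancel_right, hWe _ (Pm b), ← eP] at this
    linarith [Pn r]
  have nQ : ‖Q (t γ)‖ ≤ m' * ‖Q b‖ + ‖r‖ := by
    rw [eQ]
    linarith [norm_add_le (A α (Q b) - Q b) (Q r), hWp _ (Qm b), Qn r]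
  have hγS : ‖Q (t γ)‖ < ‖P (t γ)‖ := by
    have c1 : m' * ‖Q b‖ ≤ m' * ‖P b‖ := mul_le_mul_of_nonneg_left hβ2.le hm0
    have c2 : ε * ‖b‖ < ε * (2 * ‖P b‖) := mul_lt_mul_of_pos_left nb hε0
    have c3 : m * ‖P b‖ - m' * ‖P b‖ = 8 * (ε * ‖P b‖) := by rw [hε]; ring
    linarith
  have fin := hβmin γ ⟨hγc, hγS⟩
  have nt : ‖t γ‖ ≤ m * ‖b‖ + ‖r‖ := by
    rw [tγ]
    linarith [norm_add_le (A α b - b) r, hcl b]
  nlinarith

lemma Cryst.span_top (C : Cryst A t) :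
    Submodule.span ℝ {x | ∃ h, (∀ y, A h y = y) ∧ t h = x} = ⊤ := by
  set W := Submodule.span ℝ {x | ∃ h, (∀ y, A h y = y) ∧ t h = x} with hW
  rw [← Submodule.orthogonal_eq_bot_iff, Submodule.eq_bot_iff]
  intro u hu
  by_contra hu0
  have hp : 0 < ‖u‖ := norm_pos_iff.2 hu0
  obtain ⟨h, N, h1, hN, h2⟩ := C.mini u (ε := min (1 / 2) (‖u‖ / 2)) (by positivity)
  have hA : ∀ y, A h y = y := C.pure h fun x => (h1 x).trans
    (mul_le_mul_of_nonneg_right (min_le_left _ _) (norm_nonneg _))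
  have hm : t h ∈ W := Submodule.subset_span ⟨h, hA, rfl⟩
  have i0 : inner ℝ (t h) u = (0 : ℝ) := (Submodule.mem_orthogonal W u).1 hu _ hm
  have i1 : inner ℝ (t h - N • u) u = -(N * ‖u‖ ^ 2) := by
    rw [inner_sub_left, i0, inner_smul_left, real_inner_self_eq_norm_sq]; simp
  have i2 := abs_real_inner_le_norm (t h - N • u) u
  rw [i1, abs_neg, abs_of_nonneg (by positivity)] at i2
  have i3 : ‖t h - N • u‖ ≤ ‖u‖ / 2 * N :=
    h2.trans (mul_le_mul_of_nonneg_right (min_le_right _ _) hN.le)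
  have i4 := mul_le_mul_of_nonneg_right i3 hp.le
  have i5 : 0 < N * ‖u‖ ^ 2 := by positivity
  nlinarith

/-- In every dimension up to that of `V` there is a subspace on which translations of the group
act cocompactly. -/
lemma Cryst.subspace (C : Cryst A t) {n : ℕ} (hn : n ≤ Module.finrank ℝ V) :
    ∃ (W : Submodule ℝ V) (d : ℝ), Module.finrank ℝ W = n ∧
      ∀ x ∈ W, ∃ h, (∀ y, A h y = y) ∧ t h ∈ W ∧ ‖x - t h‖ ≤ d := by
  obtain ⟨s, hs, hspan, hli⟩ := exists_linearIndependent ℝ {x | ∃ h, (∀ y, A h y = y) ∧ t h = x}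
  rw [C.span_top] at hspan
  have hfin : s.Finite := hli.set_finite_of_isNoetherian
  have : Fintype s := hfin.fintype
  have hcard : Fintype.card s = Module.finrank ℝ V := by
    have := finrank_span_eq_card hli
    rw [Subtype.range_coe, hspan, finrank_top] at this
    exact this.symm
  obtain ⟨e⟩ : Nonempty (Fin n ↪ s) :=
    Function.Embedding.nonempty_of_card_le (by rw [Fintype.card_fin, hcard]; exact hn)
  let v : Fin n → V := fun i => e i
  have hv : LinearIndependent ℝ v := hli.comp e e.injective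
  let L : AddSubgroup V :=
    { carrier := {x | ∃ h, (∀ y, A h y = y) ∧ t h = x}
      zero_mem' := ⟨1, C.A_one, C.t_one⟩
      add_mem' := by
        rintro _ _ ⟨h, h1, rfl⟩ ⟨k, k1, rfl⟩
        exact ⟨h * k, fun y => by rw [C.hA, k1, h1], by rw [C.ht, h1, add_comm]⟩
      neg_mem' := by
        rintro _ ⟨h, h1, rfl⟩
        refine ⟨h⁻¹, fun y => by rw [← h1 (A h⁻¹ y), C.A_inv], ?_⟩
        have := C.ht h h⁻¹
        rw [mul_inv_cancel, C.t_one, h1] at this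
        exact eq_neg_of_add_eq_zero_left this.symm }
  refine ⟨Submodule.span ℝ (range v), ∑ i, ‖v i‖, ?_, fun x hx => ?_⟩
  · rw [finrank_span_eq_card hv, Fintype.card_fin]
  · obtain ⟨c, rfl⟩ := (Submodule.mem_span_range_iff_exists_fun ℝ).1 hx
    obtain ⟨h, h1, h2⟩ : ∑ i, ⌊c i⌋ • v i ∈ L :=
      L.sum_mem fun i _ => L.zsmul_mem (hs (e i).2) _
    refine ⟨h, h1, ?_, ?_⟩
    · rw [h2]
      exact Submodule.sum_mem _ fun i _ =>
        zsmul_mem (Submodule.subset_span (mem_range_self i)) _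
    · rw [h2, ← Finset.sum_sub_distrib]
      refine (norm_sum_le _ _).trans (Finset.sum_le_sum fun i _ => ?_)
      rw [← Int.cast_smul_eq_zsmul ℝ, ← sub_smul, norm_smul, Real.norm_eq_abs]
      refine mul_le_of_le_one_left (norm_nonneg _) ?_
      rw [abs_le]
      constructor <;> linarith [Int.floor_le (c i), Int.lt_floor_add_one (c i)]

end Pool.Agent.FlatDich
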