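import Mathlib
import Pool.Agent.K.MP_5e292f_al.C0

-- part Pool.Agent.P.MP_5e292f_al.Cat
section

set_option autoImplicit false
set_option linter.unusedSectionVars false

/-! Elementary geometry of flats in spaces with the CN midpoint inequality. -/

namespace Pool.Agent.FlatDich

open Metric Set

variable {X : Type*} [MetricSpace X]

/-- The CN inequality of Bruhat and Tits. -/
def CN (X : Type*) [MetricSpace X] : Prop :=
  ∀ x y : X, ∃ m : X, ∀ z : X,
    dist z m ^ 2 ≤ (dist z x ^ 2 + dist z y ^ 2) / 2 - dist x y ^ 2 / 4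

def IsMid (x y m : X) : Prop :=
  ∀ z : X, dist z m ^ 2 ≤ (dist z x ^ 2 + dist z y ^ 2) / 2 - dist x y ^ 2 / 4

lemma IsMid.left {x y m : X} (h : IsMid x y m) : dist x m ≤ dist x y / 2 := by
  have h1 := h x
  rw [dist_self] at h1
  have h2 : dist x m ^ 2 ≤ (dist x y / 2) ^ 2 := by nlinarith
  exact le_of_sq_le_sq h2 (by positivity)

lemma IsMid.right {x y m : X} (h : IsMid x y m) : dist y m ≤ dist x y / 2 := by
  have h1 := h y
  rw [dist_self, dist_comm y x] at h1
  have h2 : dist y m ^ 2 ≤ (dist x y / 2) ^ 2 := by nlinarith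
  exact le_of_sq_le_sq h2 (by positivity)

lemma isMid_of (hX : CN X) {x y m : X} (h1 : dist x m ≤ dist x y / 2)
    (h2 : dist y m ≤ dist x y / 2) : IsMid x y m := by
  obtain ⟨m', hm'⟩ := hX x y
  have h3 := hm' m
  rw [dist_comm m x, dist_comm m y] at h3
  have a1 : dist x m ^ 2 ≤ (dist x y / 2) ^ 2 := pow_le_pow_left₀ dist_nonneg h1 2
  have a2 : dist y m ^ 2 ≤ (dist x y / 2) ^ 2 := pow_le_pow_left₀ dist_nonneg h2 2
  have h4 : dist m m' ^ 2 ≤ 0 := by nlinarith
  have h5 : dist m m' = 0 := by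
    have := sq_nonneg (dist m m')
    exact pow_eq_zero_iff (two_ne_zero) |>.1 (le_antisymm h4 this)
  rw [dist_eq_zero] at h5
  subst h5
  exact hm'

lemma quad (hX : CN X) (x y z w : X) :
    dist x z ^ 2 + dist y w ^ 2 ≤ dist x y ^ 2 + dist y z ^ 2 + dist z w ^ 2 + dist w x ^ 2 := by
  obtain ⟨m, hm⟩ := hX x z
  have h1 := hm y
  have h2 := hm w
  have h3 : dist y w ≤ dist y m + dist w m := dist_triangle_right y w m
  have h4 : dist y w ^ 2 ≤ (dist y m + dist w m) ^ 2 := pow_le_pow_left₀ dist_nonneg h3 2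
  rw [dist_comm y x, dist_comm w z] at *
  nlinarith [sq_nonneg (dist y m - dist w m)]

lemma mid_mid (hX : CN X) {x y m x' y' m' : X} (h : IsMid x y m) (h' : IsMid x' y' m') :
    dist m m' ^ 2 ≤ (dist x x' ^ 2 + dist y y' ^ 2) / 2 := by
  have h1 := h m'
  have h2 := h' x
  have h3 := h' y
  have h4 := quad hX x y y' x'
  rw [dist_comm m' m, dist_comm m' x, dist_comm m' y] at h1
  rw [dist_comm y' x', dist_comm x' x] at h4
  nlinarith

variable {E : Type*} [NormedAddCommGroup E] [NormedSpace ℝ E]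

lemma flat_mid (hX : CN X) {f : E → X} (hf : Isometry f) (a b : E) :
    IsMid (f a) (f b) (f (midpoint ℝ a b)) := by
  apply isMid_of hX
  · rw [hf.dist_eq, hf.dist_eq, dist_left_midpoint (𝕜 := ℝ)]
    simp; linarith
  · rw [hf.dist_eq, hf.dist_eq, dist_right_midpoint (𝕜 := ℝ)]
    simp; linarith

lemma proj_ineq (hX : CN X) {f : E → X} (hf : Isometry f) {z : X} {a0 : E}
    (hmin : ∀ a, dist z (f a0) ≤ dist z (f a)) (a : E) :
    dist z (f a0) ^ 2 + dist a0 a ^ 2 ≤ dist z (f a) ^ 2 := by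
  have key : ∀ k : ℕ, ∀ a : E,
      dist z (f a0) ^ 2 + (1 - (1 / 2 : ℝ) ^ k) * dist a0 a ^ 2 ≤ dist z (f a) ^ 2 := by
    intro k
    induction k with
    | zero =>
      intro a
      have := pow_le_pow_left₀ dist_nonneg (hmin a) 2
      simpa using this
    | succ k ih =>
      intro a
      have h1 := ih (midpoint ℝ a0 a)
      have h2 := flat_mid hX hf a0 a z
      rw [hf.dist_eq] at h2
      have h3 : dist a0 (midpoint ℝ a0 a) = dist a0 a / 2 := by
        rw [dist_left_midpoint (𝕜 := ℝ)]; simp; ring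
      rw [h3] at h1
      rw [pow_succ (1 / 2 : ℝ) k]
      nlinarith
  have ht : Filter.Tendsto
      (fun k : ℕ => dist z (f a0) ^ 2 + (1 - (1 / 2 : ℝ) ^ k) * dist a0 a ^ 2) Filter.atTop
      (nhds (dist z (f a0) ^ 2 + (1 - 0) * dist a0 a ^ 2)) := by
    refine Filter.Tendsto.const_add _ (Filter.Tendsto.mul_const _ (Filter.Tendsto.const_sub _ ?_))
    exact tendsto_pow_atTop_nhds_zero_of_lt_one (by norm_num) (by norm_num)
  have := le_of_tendsto' ht (fun k => key k a)
  simpa using this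

lemma rect (hX : CN X) {p q : E → X} (hp : Isometry p) (hq : Isometry q) {D : ℝ}
    (h1 : ∀ a, dist (p a) (q a) ≤ D) (h2 : ∀ a b, D ≤ dist (p a) (q b)) (a b : E) :
    dist (p a) (q b) ^ 2 = D ^ 2 + dist a b ^ 2 := by
  have e : ∀ a, dist (q a) (p a) = D := fun a => by
    rw [dist_comm]; exact le_antisymm (h1 a) (h2 a a)
  have m : ∀ b c, dist (q b) (p b) ≤ dist (q b) (p c) := fun b c => by
    rw [e, dist_comm]; exact h2 c b
  have A := proj_ineq hX hp (m b) a
  have B := proj_ineq hX hp (m a) b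
  have C := quad hX (p a) (p b) (q b) (q a)
  rw [hp.dist_eq, hq.dist_eq, dist_comm (p b) (q b), e, e, dist_comm b a] at C
  rw [e, dist_comm b a, dist_comm (q b)] at A
  rw [e, dist_comm (q a)] at B
  linarith

/-- Aligned parallel flats. -/
def Al (f g : E → X) : Prop :=
  ∀ a b, dist (f a) (g b) ^ 2 = dist (f 0) (g 0) ^ 2 + dist a b ^ 2

lemma Al.symm {f g : E → X} (h : Al f g) : Al g f := fun a b => by
  rw [dist_comm (g a), dist_comm (g 0), h b a, dist_comm b a]

lemma Al.diag {f g : E → X} (h : Al f g) (a : E) : dist (f a) (g a) = dist (f 0) (g 0) := by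
  have := h a a
  rw [dist_self] at this
  exact (pow_left_inj₀ dist_nonneg dist_nonneg two_ne_zero).1 (by simpa using this)

lemma Al.le {f g : E → X} (h : Al f g) (a b : E) : dist (f 0) (g 0) ≤ dist (f a) (g b) := by
  have := h a b
  exact le_of_sq_le_sq (by nlinarith [sq_nonneg (dist a b)]) dist_nonneg

lemma Al.infDist_eq {f g : E → X} (h : Al f g) (a : E) :
    infDist (f a) (range g) = dist (f 0) (g 0) := by
  apply le_antisymm
  · rw [← h.diag a]; exact infDist_le_dist_of_mem (mem_range_self a)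
  · rw [le_infDist (range_nonempty g)]
    rintro _ ⟨b, rfl⟩
    exact h.le a b

lemma Al.refl {f : E → X} (hf : Isometry f) : Al f f := fun a b => by
  rw [hf.dist_eq, dist_self]; simp

/-- Parallel within `R`. -/
def ParR (R : ℝ) (f g : E → X) : Prop :=
  (∀ a, ∃ b, dist (f a) (g b) ≤ R) ∧ (∀ b, ∃ a, dist (f a) (g b) ≤ R)

def Par (f g : E → X) : Prop := ∃ R, ParR R f g

lemma ParR.symm {R : ℝ} {f g : E → X} (h : ParR R f g) : ParR R g f :=
  ⟨fun a => (h.2 a).imp fun b hb => by rwa [dist_comm],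
    fun a => (h.1 a).imp fun b hb => by rwa [dist_comm]⟩

lemma Par.symm {f g : E → X} (h : Par f g) : Par g f := h.imp fun _ h => h.symm

lemma Par.refl (f : E → X) : Par f f :=
  ⟨0, fun a => ⟨a, by simp⟩, fun a => ⟨a, by simp⟩⟩

lemma Par.trans {f g h : E → X} (h1 : Par f g) (h2 : Par g h) : Par f h := by
  obtain ⟨R, h1⟩ := h1
  obtain ⟨S, h2⟩ := h2
  refine ⟨R + S, fun a => ?_, fun c => ?_⟩
  · obtain ⟨b, hb⟩ := h1.1 a
    obtain ⟨c, hc⟩ := h2.1 b
    exact ⟨c, by linarith [dist_triangle (f a) (g b) (h c)]⟩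
  · obtain ⟨b, hb⟩ := h2.2 c
    obtain ⟨a, ha⟩ := h1.2 b
    exact ⟨a, by linarith [dist_triangle (f a) (g b) (h c)]⟩

lemma Al.parR {f g : E → X} (h : Al f g) : ParR (dist (f 0) (g 0)) f g :=
  ⟨fun a => ⟨a, (h.diag a).le⟩, fun a => ⟨a, (h.diag a).le⟩⟩

lemma Al.par {f g : E → X} (h : Al f g) : Par f g := ⟨_, h.parR⟩

lemma par_of_range_eq {f g : E → X} (h : range f = range g) : Par f g := by
  refine ⟨0, fun a => ?_, fun b => ?_⟩
  · obtain ⟨b, hb⟩ : f a ∈ range g := h ▸ mem_range_self a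
    exact ⟨b, by simp [hb]⟩
  · obtain ⟨a, ha⟩ : g b ∈ range f := h ▸ mem_range_self b
    exact ⟨a, by simp [ha]⟩

variable [ProperSpace X] [CompleteSpace E]

lemma exists_proj {f : E → X} (hf : Isometry f) (z : X) :
    ∃ a0, infDist z (range f) = dist z (f a0) := by
  obtain ⟨_, ⟨a0, rfl⟩, h⟩ := hf.isClosedEmbedding.isClosed_range.exists_infDist_eq_dist
    (range_nonempty f) z
  exact ⟨a0, h⟩

lemma const_dist (hX : CN X) {f g : E → X} (hf : Isometry f) (hg : Isometry g) {R : ℝ}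
    (h : ∀ a, ∃ b, dist (f a) (g b) ≤ R) (a a' : E) :
    infDist (f a) (range g) = infDist (f a') (range g) := by
  set δ : E → ℝ := fun a => infDist (f a) (range g) ^ 2 with hδ
  have hb : ∀ a, δ a ≤ R ^ 2 := fun a => by
    obtain ⟨b, hb⟩ := h a
    exact pow_le_pow_left₀ infDist_nonneg ((infDist_le_dist_of_mem (mem_range_self b)).trans hb) 2
  have hconv : ∀ a b, δ (midpoint ℝ a b) ≤ (δ a + δ b) / 2 := fun a b => by
    obtain ⟨p, hp⟩ := exists_proj hg (f a)
    obtain ⟨q, hq⟩ := exists_proj hg (f b)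
    have h1 := mid_mid hX (flat_mid hX hf a b) (flat_mid hX hg p q)
    have h2 : infDist (f (midpoint ℝ a b)) (range g) ≤ _ :=
      infDist_le_dist_of_mem (mem_range_self (midpoint ℝ p q))
    have h3 := pow_le_pow_left₀ infDist_nonneg h2 2
    simp only [hδ, hp, hq]
    linarith
  have hbdd : BddAbove (range δ) := ⟨R ^ 2, by rintro _ ⟨a, rfl⟩; exact hb a⟩
  have hS : ∀ a, δ a = ⨆ b, δ b := fun a => by
    apply le_antisymm (le_ciSup hbdd a)
    have : ∀ b, δ b ≤ (δ a + ⨆ b, δ b) / 2 := fun b => by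
      have e : b = midpoint ℝ a (b + b - a) := by
        rw [midpoint_eq_smul_add]
        simp only [invOf_eq_inv]
        rw [add_sub_cancel, ← two_smul ℝ b, smul_smul]; simp
      have h1 := hconv a (b + b - a)
      rw [← e] at h1
      linarith [le_ciSup hbdd (b + b - a)]
    have := ciSup_le this
    linarith
  have : δ a = δ a' := by rw [hS a, hS a']
  exact (pow_left_inj₀ infDist_nonneg infDist_nonneg two_ne_zero).1 this

lemma exists_al (hX : CN X) {f g : E → X} (hf : Isometry f) (hg : Isometry g) (h : Par f g) :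
    ∃ π : E → E, Isometry π ∧ Function.Surjective π ∧ Al f (g ∘ π) := by
  obtain ⟨R, h1, h2⟩ := h
  have h2' : ∀ b, ∃ a, dist (g b) (f a) ≤ R := fun b => (h2 b).imp fun a ha => by rwa [dist_comm]
  have c1 := const_dist hX hf hg h1
  have c2 := const_dist hX hg hf h2'
  choose π hπ using fun a => exists_proj hg (f a)
  choose σ hσ using fun b => exists_proj hf (g b)
  set D := infDist (f 0) (range g) with hD
  have lb : ∀ a b, D ≤ dist (f a) (g b) := fun a b => by
    rw [hD, c1 0 a]; exact infDist_le_dist_of_mem (mem_range_self b)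
  have e1 : ∀ a, dist (f a) (g (π a)) = D := fun a => by rw [← hπ, hD, c1 0 a]
  have e2 : ∀ b, dist (g b) (f (σ b)) = D := fun b => by
    apply le_antisymm
    · rw [← hσ, c2 b (π 0), ← e1 0, dist_comm]
      exact infDist_le_dist_of_mem (mem_range_self 0)
    · rw [dist_comm]; exact lb _ _
  have A : ∀ a q, D ^ 2 + dist (π a) q ^ 2 ≤ dist (f a) (g q) ^ 2 := fun a q => by
    have := proj_ineq hX hg (z := f a) (a0 := π a) (fun c => by rw [e1]; exact lb _ _) q
    rwa [e1] at this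
  have B : ∀ a b, D ^ 2 + dist a b ^ 2 ≤ dist (f b) (g (π a)) ^ 2 := fun a b => by
    have := proj_ineq hX hf (z := g (π a)) (a0 := a)
      (fun c => by rw [dist_comm, e1, dist_comm]; exact lb _ _) b
    rwa [dist_comm, e1, dist_comm (g (π a))] at this
  have hiso : Isometry π := by
    apply Isometry.of_dist_eq
    intro a b
    have C := quad hX (f a) (f b) (g (π b)) (g (π a))
    rw [hf.dist_eq, hg.dist_eq, e1, dist_comm (g (π a)), e1, dist_comm (π b)] at C
    have A1 := A a (π b)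
    have A2 := A b (π a)
    have B1 := B a b
    have B2 := B b a
    rw [dist_comm (π b)] at A2
    rw [dist_comm b] at B2
    exact (pow_left_inj₀ dist_nonneg dist_nonneg two_ne_zero).1 (by linarith)
  refine ⟨π, hiso, fun q => ⟨σ q, ?_⟩, ?_⟩
  · have := A (σ q) q
    rw [dist_comm (f _), e2] at this
    have h0 : dist (π (σ q)) q ^ 2 = 0 := le_antisymm (by linarith) (sq_nonneg _)
    exact dist_eq_zero.1 (pow_eq_zero_iff two_ne_zero |>.1 h0)
  · intro a b
    have := rect hX hf (hg.comp hiso) (D := D) (fun a => (e1 a).le) (fun a b => lb _ _) a b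
    rw [this]
    simp only [Function.comp, e1]

omit [ProperSpace X] [CompleteSpace E] in
lemma Al.mid (hX : CN X) {f g : E → X} (hf : Isometry f) (hg : Isometry g) (h : Al f g) :
    ∃ m : E → X, Isometry m ∧ (∀ a, IsMid (f a) (g a) (m a)) ∧ Al f m ∧ Al m g := by
  choose m hm using fun a => hX (f a) (g a)
  have hm' : ∀ a, IsMid (f a) (g a) (m a) := hm
  set D := dist (f 0) (g 0) with hD
  have l : ∀ a, dist (f a) (m a) ≤ D / 2 := fun a => by rw [hD, ← h.diag a]; exact (hm' a).left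
  have r : ∀ a, dist (g a) (m a) ≤ D / 2 := fun a => by rw [hD, ← h.diag a]; exact (hm' a).right
  have lbf : ∀ a b, D / 2 ≤ dist (f a) (m b) := fun a b => by
    have := h.le a b
    linarith [dist_triangle_right (f a) (g b) (m b), r b]
  have lbg : ∀ a b, D / 2 ≤ dist (m a) (g b) := fun a b => by
    have := h.le a b
    linarith [dist_triangle (f a) (m a) (g b), l a]
  have el : ∀ a, dist (f a) (m a) = D / 2 := fun a => le_antisymm (l a) (lbf a a)
  have er : ∀ a, dist (m a) (g a) = D / 2 := fun a =>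
    le_antisymm (by rw [dist_comm]; exact r a) (lbg a a)
  have B : ∀ a b, (D / 2) ^ 2 + dist a b ^ 2 ≤ dist (f b) (m a) ^ 2 := fun a b => by
    have := proj_ineq hX hf (z := m a) (a0 := a)
      (fun c => by rw [dist_comm, el, dist_comm]; exact lbf _ _) b
    rwa [dist_comm, el, dist_comm (m a)] at this
  have hiso : Isometry m := by
    apply Isometry.of_dist_eq
    intro a b
    have U := mid_mid hX (hm' a) (hm' b)
    rw [hf.dist_eq, hg.dist_eq] at U
    have C := quad hX (f a) (f b) (m b) (m a)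
    rw [hf.dist_eq, el, dist_comm (m a) (f a), el, dist_comm (m b)] at C
    have B1 := B a b
    have B2 := B b a
    rw [dist_comm b] at B2
    exact (pow_left_inj₀ dist_nonneg dist_nonneg two_ne_zero).1 (by linarith)
  refine ⟨m, hiso, hm', fun a b => ?_, fun a b => ?_⟩
  · rw [rect hX hf hiso l lbf a b, el]
  · rw [rect hX hiso hg (fun a => (er a).le) lbg a b, er]

lemma sqrt_bound {x D L : ℝ} (hL : 0 < L) (h : x ^ 2 = D ^ 2 + (L / 3) ^ 2) :
    x ≤ L / 3 + 3 * D ^ 2 / (2 * L) := by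
  have h1 : 0 ≤ 3 * D ^ 2 / (2 * L) := by positivity
  have h2 : 2 * (L / 3) * (3 * D ^ 2 / (2 * L)) = D ^ 2 := by field_simp
  exact le_of_sq_le_sq (by nlinarith [sq_nonneg (3 * D ^ 2 / (2 * L))]) (by positivity)
   

lemma Al.trans (hX : CN X) {f g h : E → X} (hf : Isometry f) (hh : Isometry h)
    (h1 : Al f g) (h2 : Al g h) : Al f h := by
  obtain ⟨π, -, -, h3⟩ := exists_al hX hh hf (h1.par.trans h2.par).symm
  suffices hπ : ∀ d, π d = d by
    have : f ∘ π = f := by funext d; simp [hπ]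
    rw [this] at h3
    exact h3.symm
  intro d
  by_contra hne
  set w := π d - d with hw
  have hw0 : 0 < ‖w‖ := norm_pos_iff.2 (sub_ne_zero.2 hne)
  set C := 3 * (dist (f 0) (g 0) ^ 2 + dist (g 0) (h 0) ^ 2 + dist (h 0) ((f ∘ π) 0) ^ 2) / 2
    with hC
  have hC0 : 0 ≤ C := by positivity
  have key : ∀ t : ℝ, 0 < t → t * ‖w‖ ^ 2 ≤ C := by
    intro t ht
    have hL : 0 < t * ‖w‖ := by positivity
    have n3 : ‖(t / 3) • w‖ = t * ‖w‖ / 3 := by
      rw [norm_smul, Real.norm_eq_abs, abs_of_pos (by positivity)]; ring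
    have d1 : dist (d - t • w) (d - (2 * t / 3) • w) = t * ‖w‖ / 3 := by
      rw [dist_comm, dist_eq_norm, ← n3]; congr 1; module
    have d2 : dist (d - (2 * t / 3) • w) (d - (t / 3) • w) = t * ‖w‖ / 3 := by
      rw [dist_comm, dist_eq_norm, ← n3]; congr 1; module
    have d3 : dist (d - (t / 3) • w) d = t * ‖w‖ / 3 := by
      rw [dist_comm, dist_eq_norm, ← n3]; congr 1; module
    have d4 : dist (d - t • w) (π d) = (t + 1) * ‖w‖ := by
      have : π d - (d - t • w) = (t + 1) • w := by rw [hw]; module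
      rw [dist_comm, dist_eq_norm, this, norm_smul, Real.norm_eq_abs, abs_of_pos (by positivity)]
    have s1 := sqrt_bound hL (d1 ▸ h1 (d - t • w) (d - (2 * t / 3) • w))
    have s2 := sqrt_bound hL (d2 ▸ h2 (d - (2 * t / 3) • w) (d - (t / 3) • w))
    have s3 := sqrt_bound hL (d3 ▸ h3 (d - (t / 3) • w) d)
    have tri := dist_triangle4 (f (d - t • w)) (g (d - (2 * t / 3) • w)) (h (d - (t / 3) • w))
      ((f ∘ π) d)
    have e : dist (f (d - t • w)) ((f ∘ π) d) = (t + 1) * ‖w‖ := by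
      rw [Function.comp, hf.dist_eq, d4]
    have sum : ‖w‖ ≤ C / (t * ‖w‖) := by
      have : C / (t * ‖w‖) = 3 * dist (f 0) (g 0) ^ 2 / (2 * (t * ‖w‖))
          + 3 * dist (g 0) (h 0) ^ 2 / (2 * (t * ‖w‖))
          + 3 * dist (h 0) ((f ∘ π) 0) ^ 2 / (2 * (t * ‖w‖)) := by
        rw [hC]; field_simp
      rw [this]; linarith
    rw [le_div_iff₀ hL] at sum
    nlinarith
  have := key ((C + 1) / ‖w‖ ^ 2) (by positivity)
  rw [div_mul_cancel₀ _ (by positivity)] at this
  linarith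

end Pool.Agent.FlatDich
end

-- part Pool.Agent.P.MP_5e292f_al.Strip
section

set_option autoImplicit false
set_option linter.unusedSectionVars false

/-! Flat strips between parallel flats, their limits, and tilted flats. -/

namespace Pool.Agent.FlatDich

open Metric Set Filter Topology

variable {X : Type*} [MetricSpace X]
variable {E : Type*} [NormedAddCommGroup E] [NormedSpace ℝ E]

lemma chain_weak (hX : CN X) (m : ℕ) : ∀ f g : E → X, Isometry f → Isometry g → Al f g →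
    ∃ F : ℕ → E → X, (∀ j ≤ 2 ^ m, Isometry (F j)) ∧ F 0 = f ∧ F (2 ^ m) = g ∧
      ∀ j < 2 ^ m, ∀ a, dist (F j a) (F (j + 1) a) ≤ dist (f 0) (g 0) / 2 ^ m := by
  induction m with
  | zero =>
    intro f g hf hg h
    refine ⟨fun j => if j = 0 then f else g, fun j _ => ?_, by simp, by simp, fun j hj a => ?_⟩
    · dsimp only; split_ifs; exacts [hf, hg]
    · have : j = 0 := by omega
      subst this
      simp [h.diag a]
  | succ m ih =>
    intro f g hf hg h
    obtain ⟨u, hu, hmid, h1, h2⟩ := h.mid hX hf hg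
    obtain ⟨F1, a1, b1, c1, d1⟩ := ih f u hf hu h1
    obtain ⟨F2, a2, b2, c2, d2⟩ := ih u g hu hg h2
    have l := (hmid 0).left
    have r := (hmid 0).right
    rw [dist_comm] at r
    have hp : (0 : ℝ) < 2 ^ m := by positivity
    have hN : 0 < 2 ^ m := by positivity
    have e : dist (f 0) (g 0) / 2 ^ (m + 1) = (dist (f 0) (g 0) / 2) / 2 ^ m := by
      rw [pow_succ]; field_simp
    refine ⟨fun j => if j ≤ 2 ^ m then F1 j else F2 (j - 2 ^ m), fun j hj => ?_, by simp [b1],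
      ?_, fun j hj a => ?_⟩
    · dsimp only; split_ifs with hh
      · exact a1 j hh
      · exact a2 _ (by rw [pow_succ] at hj; omega)
    · dsimp only
      rw [if_neg (by rw [pow_succ]; omega), ← c2]
      congr 1; rw [pow_succ]; omega
    · dsimp only
      rw [e]
      rcases lt_trichotomy j (2 ^ m) with hlt | heq | hgt
      · rw [if_pos hlt.le, if_pos (Nat.succ_le_of_lt hlt)]
        exact (d1 j hlt a).trans (div_le_div_of_nonneg_right l hp.le)
      · rw [if_pos heq.le, if_neg (by omega), heq, c1, ← b2]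
        have := d2 0 hN a
        rw [show 2 ^ m + 1 - 2 ^ m = 0 + 1 by omega]
        exact this.trans (div_le_div_of_nonneg_right r hp.le)
      · rw [if_neg (by omega), if_neg (by omega)]
        have := d2 (j - 2 ^ m) (by rw [pow_succ] at hj; omega) a
        rw [show j + 1 - 2 ^ m = j - 2 ^ m + 1 by omega]
        exact this.trans (div_le_div_of_nonneg_right r hp.le)

lemma chain (hX : CN X) (m : ℕ) {f g : E → X} (hf : Isometry f) (hg : Isometry g) (h : Al f g) :
    ∃ F : ℕ → E → X, ∀ i ≤ 2 ^ m, ∀ j ≤ 2 ^ m, ∀ a b,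
      dist (F i a) (F j b) ^ 2 =
        (((i : ℝ) - j) * (dist (f 0) (g 0) / 2 ^ m)) ^ 2 + dist a b ^ 2 := by
  obtain ⟨F, a1, b1, c1, d1⟩ := chain_weak hX m f g hf hg h
  set s := dist (f 0) (g 0) / 2 ^ m with hs
  have up : ∀ i k, i + k ≤ 2 ^ m → ∀ a, dist (F i a) (F (i + k) a) ≤ k * s := by
    intro i k
    induction k with
    | zero => intro _ a; simp
    | succ k ih =>
      intro hk a
      have h1 := ih (by omega) a
      have h2 := d1 (i + k) (by omega) a
      have h3 := dist_triangle (F i a) (F (i + k) a) (F (i + k + 1) a)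
      push_cast
      rw [← add_assoc]
      linarith
  have main : ∀ i k, i + k ≤ 2 ^ m → ∀ a b,
      dist (F i a) (F (i + k) b) ^ 2 = (k * s) ^ 2 + dist a b ^ 2 := by
    intro i k hk
    refine rect hX (a1 i (by omega)) (a1 _ hk) (up i k hk) (fun a b => ?_)
    have h1 := up 0 i (by omega) a
    obtain ⟨r, hr⟩ := Nat.exists_eq_add_of_le hk
    have h2 := up (i + k) r hr.ge b
    rw [← hr, c1] at h2
    rw [zero_add, b1] at h1
    have h3 := h.le a b
    have h4 := dist_triangle4 (f a) (F i a) (F (i + k) b) (g b)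
    have h5 : dist (f 0) (g 0) = (i + k + r : ℝ) * s := by
      have : ((2 : ℝ) ^ m) = (i + k + r : ℝ) := by exact_mod_cast hr
      rw [hs, ← this]; field_simp
    nlinarith
  refine ⟨F, fun i hi j hj a b => ?_⟩
  rcases le_total i j with hij | hij
  · obtain ⟨k, rfl⟩ := Nat.exists_eq_add_of_le hij
    rw [main i k hj a b]; push_cast; ring
  · obtain ⟨k, rfl⟩ := Nat.exists_eq_add_of_le hij
    rw [dist_comm, main j k hi b a, dist_comm b a]; push_cast; ring

lemma ultralimit [ProperSpace X] {Y : Type*} (d : Y → Y → ℝ) (G : ℕ → Y → X) (y0 : Y)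
    {K : Set X} (hK : IsCompact K) (h0 : ∀ k, G k y0 ∈ K)
    (hd : ∀ p q, Tendsto (fun k => dist (G k p) (G k q)) atTop (𝓝 (d p q))) :
    ∃ L : Y → X, ∀ p q, dist (L p) (L q) = d p q := by
  let U : Ultrafilter ℕ := hyperfilter ℕ
  have hU : (U : Filter ℕ) ≤ atTop := by
    rw [← Nat.cofinite_eq_atTop]; exact hyperfilter_le_cofinite
  have ex : ∀ p, ∃ x, Tendsto (fun k => G k p) U (𝓝 x) := by
    intro p
    have hc : IsCompact (cthickening (d p y0 + 1) K) := hK.cthickening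
    have hev : ∀ᶠ k in (U : Filter ℕ), G k p ∈ cthickening (d p y0 + 1) K := by
      apply hU
      filter_upwards [(hd p y0).eventually (gt_mem_nhds (lt_add_one _))] with k hk
      exact mem_cthickening_of_dist_le _ _ _ _ (h0 k) hk.le
    obtain ⟨x, -, hx⟩ := hc.ultrafilter_le_nhds (U.map fun k => G k p)
      (by rw [Ultrafilter.coe_map, le_principal_iff]; exact hev)
    exact ⟨x, hx⟩
  choose L hL using ex
  refine ⟨L, fun p q => ?_⟩
  exact tendsto_nhds_unique ((hL p).dist (hL q)) ((hd p q).mono_left hU)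

lemma exists_thick [ProperSpace X] (hX : CN X) {Γ : Type*} [Group Γ] [MulAction Γ X]
    [IsIsometricSMul Γ X] {K : Set X} (hK : IsCompact K) (hcov : ∀ x : X, ∃ γ : Γ, γ • x ∈ K)
    (hun : ∀ R : ℝ, ∃ f g : E → X, Isometry f ∧ Isometry g ∧ Al f g ∧ R ≤ dist (f 0) (g 0)) :
    ∃ L : E × ℝ → X, ∀ p q, dist (L p) (L q) ^ 2 = (p.2 - q.2) ^ 2 + dist p.1 q.1 ^ 2 := by
  have step : ∀ k : ℕ, ∃ (G : E × ℝ → X) (τ : ℝ → ℝ), G (0, 0) ∈ K ∧
      (∀ p q, dist (G p) (G q) ^ 2 = (τ p.2 - τ q.2) ^ 2 + dist p.1 q.1 ^ 2) ∧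
      ∀ t : ℝ, |t| ≤ k → |τ t - t| ≤ 1 / (k + 1) := by
    intro k
    obtain ⟨f, g, hf, hg, hal, hR⟩ := hun (2 * k + 1)
    set D := dist (f 0) (g 0) with hD
    have hD0 : 0 < D := by have : (0 : ℝ) ≤ k := k.cast_nonneg; linarith
    obtain ⟨m, hm⟩ := pow_unbounded_of_one_lt (D * (k + 1)) (one_lt_two (α := ℝ))
    obtain ⟨F, hF⟩ := chain hX m hf hg hal
    rw [← hD] at hF
    set s := D / 2 ^ m with hs
    have hp : (0 : ℝ) < 2 ^ m := by positivity
    have hs0 : 0 < s := by positivity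
    have hs1 : s ≤ 1 / (k + 1) := by
      rw [hs, div_le_div_iff₀ hp (by positivity)]; linarith
    let idx : ℝ → ℕ := fun t => min (2 ^ m) ⌊(t + D / 2) / s⌋₊
    obtain ⟨γ, hγ⟩ := hcov (F (idx 0) 0)
    refine ⟨fun p => γ • F (idx p.2) p.1, fun t => idx t * s - D / 2, hγ, fun p q => ?_,
      fun t ht => ?_⟩
    · rw [dist_smul, hF _ (min_le_left _ _) _ (min_le_left _ _)]; ring
    · rw [abs_le] at ht
      have h0 : 0 ≤ (t + D / 2) / s := div_nonneg (by linarith) hs0.le
      have h1 : (t + D / 2) / s ≤ 2 ^ m := by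
        rw [div_le_iff₀ hs0, hs, mul_div_cancel₀ _ hp.ne']; linarith
      have h2 : idx t = ⌊(t + D / 2) / s⌋₊ := by
        apply min_eq_right
        apply Nat.floor_le_of_le
        exact_mod_cast h1
      have h3 := Nat.floor_le h0
      have h4 := Nat.lt_floor_add_one ((t + D / 2) / s)
      rw [le_div_iff₀ hs0] at h3
      rw [div_lt_iff₀ hs0] at h4
      dsimp only
      rw [h2, abs_le]
      constructor <;> nlinarith
  choose G τ h0 hG hτ using step
  have hτ' : ∀ t, Tendsto (fun k => τ k t) atTop (𝓝 t) := by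
    intro t
    rw [tendsto_iff_dist_tendsto_zero]
    refine squeeze_zero' (Eventually.of_forall fun _ => dist_nonneg) ?_
      tendsto_one_div_add_atTop_nhds_zero_nat
    filter_upwards [eventually_ge_atTop ⌈|t|⌉₊] with k hk
    rw [Real.dist_eq]
    exact hτ k t ((Nat.le_ceil _).trans (by exact_mod_cast hk))
  obtain ⟨L, hL⟩ := ultralimit (fun p q : E × ℝ => √((p.2 - q.2) ^ 2 + dist p.1 q.1 ^ 2)) G (0, 0)
    hK h0 (fun p q => by
      have : (fun k => dist (G k p) (G k q)) =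
          fun k => √((τ k p.2 - τ k q.2) ^ 2 + dist p.1 q.1 ^ 2) := by
        funext k
        rw [← hG k p q, Real.sqrt_sq dist_nonneg]
      rw [this]
      exact ((((hτ' _).sub (hτ' _)).pow 2).add_const _).sqrt)
  refine ⟨L, fun p q => ?_⟩
  rw [hL, Real.sq_sqrt (by positivity)]

lemma tilt {V : Type*} [NormedAddCommGroup V] [InnerProductSpace ℝ V] {e : V} (he : ‖e‖ = 1)
    {L : V × ℝ → X} (hL : ∀ p q, dist (L p) (L q) ^ 2 = (p.2 - q.2) ^ 2 + dist p.1 q.1 ^ 2) :
    ∃ F : ℝ → V → X, (∀ s, Isometry (F s)) ∧ ∀ s t, s ≠ t → ¬ Par (F s) (F t) := by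
  let c : ℝ → ℝ := fun r => Real.cos (Real.arctan r)
  let s : ℝ → ℝ := fun r => Real.sin (Real.arctan r)
  have cs : ∀ r, c r ^ 2 + s r ^ 2 = 1 := fun r => Real.cos_sq_add_sin_sq _
  have hee : inner ℝ e e = (1 : ℝ) := by rw [real_inner_self_eq_norm_sq, he]; norm_num
  have nrm : ∀ (x : V) (t : ℝ), ‖x - t • e‖ ^ 2 = ‖x‖ ^ 2 - 2 * t * inner ℝ x e + t ^ 2 := by
    intro x t
    rw [norm_sub_sq_real, inner_smul_right, norm_smul, he, mul_one, Real.norm_eq_abs, sq_abs]
    ring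
  refine ⟨fun r a => L (a - ((1 - c r) * inner ℝ a e) • e, s r * inner ℝ a e), fun r => ?_,
    fun r r' hne => ?_⟩
  · apply Isometry.of_dist_eq
    intro a b
    refine (pow_left_inj₀ dist_nonneg dist_nonneg two_ne_zero).1 ?_
    rw [hL]
    dsimp only
    have : a - ((1 - c r) * inner ℝ a e) • e - (b - ((1 - c r) * inner ℝ b e) • e)
        = (a - b) - ((1 - c r) * inner ℝ (a - b) e) • e := by
      rw [inner_sub_left]; module
    rw [dist_eq_norm, dist_eq_norm, this, nrm, ← mul_sub, ← inner_sub_left]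
    have := cs r
    linear_combination (inner ℝ (a - b) e) ^ 2 * this
  · rintro ⟨R, h1, -⟩
    set κ := c r * s r' - s r * c r' with hκ
    have hκ0 : κ ≠ 0 := by
      intro h
      have h2 : Real.sin (Real.arctan r' - Real.arctan r) = 0 := by
        rw [Real.sin_sub]; simp only [hκ, c, s] at h; linarith
      have b1 := Real.arctan_lt_pi_div_two r
      have b2 := Real.arctan_lt_pi_div_two r'
      have b3 := Real.neg_pi_div_two_lt_arctan r
      have b4 := Real.neg_pi_div_two_lt_arctan r'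
      rw [Real.sin_eq_zero_iff_of_lt_of_lt (by linarith) (by linarith)] at h2
      exact hne (Real.arctan_injective (by linarith))
    have key : ∀ t : ℝ, (t * κ) ^ 2 ≤ R ^ 2 := by
      intro t
      obtain ⟨b, hb⟩ := h1 (t • e)
      have hb2 := pow_le_pow_left₀ dist_nonneg hb 2
      rw [hL] at hb2
      dsimp only at hb2
      set β := inner ℝ b e with hβ
      have i1 : inner ℝ (t • e) e = t := by rw [inner_smul_left, hee]; simp
      rw [i1, dist_eq_norm] at hb2
      set x := t • e - ((1 - c r) * t) • e - (b - ((1 - c r') * β) • e) with hx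
      have i2 : inner ℝ x e = c r * t - c r' * β := by
        rw [hx, inner_sub_left, inner_sub_left, inner_sub_left, inner_smul_left, inner_smul_left,
          inner_smul_left, hee, ← hβ]
        simp; ring
      have i3 : (inner ℝ x e) ^ 2 ≤ ‖x‖ ^ 2 := by
        have := abs_real_inner_le_norm x e
        rw [he, mul_one] at this
        rw [← sq_abs]
        exact pow_le_pow_left₀ (abs_nonneg _) this 2
      rw [i2] at i3
      have := cs r'
      have e1 : t * κ = (c r * t - c r' * β) * s r' - (s r * t - s r' * β) * c r' := by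
        rw [hκ]; ring
      rw [e1]
      set A := c r * t - c r' * β
      set B := s r * t - s r' * β
      nlinarith [sq_nonneg (A * c r' + B * s r')]
    have := key ((|R| + 1) / κ)
    rw [div_mul_cancel₀ _ hκ0, ← sq_abs R] at this
    nlinarith [abs_nonneg R]

end Pool.Agent.FlatDich
end

-- part Pool.Agent.P.MP_5e292f_al.Dyn
section

set_option autoImplicit false
set_option linter.unusedSectionVars false

/-! Minimal invariant families of flats, a Cantor scheme and a circumcentre argument. -/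

namespace Pool.Agent.FlatDich

open Metric Set Filter Topology Pointwise

lemma cantor_scheme {Y : Type*} [TopologicalSpace Y] [RegularSpace Y] {M U0 C : Set Y}
    (hM : IsClosed M) (hU0 : IsOpen U0) (hne : (U0 ∩ M).Nonempty) (hC : IsCompact C)
    (hsub : U0 ∩ M ⊆ C) (P : Y → Y → Prop) (hsymm : ∀ x y, P x y → P y x)
    (hP : IsClosed {p : Y × Y | p.1 ∈ M ∧ p.2 ∈ M ∧ P p.1 p.2})
    (H : ∀ U, IsOpen U → (U ∩ M).Nonempty → ∃ x ∈ U ∩ M, ∃ y ∈ U ∩ M, ¬ P x y) :
    ∃ φ : (ℕ → Bool) → Y, (∀ s, φ s ∈ M) ∧ ∀ s t, s ≠ t → ¬ P (φ s) (φ t) := by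
  let S := {U : Set Y // IsOpen U ∧ (U ∩ M).Nonempty}
  have shrink : ∀ (x : Y) (W : Set Y), W ∈ 𝓝 x → ∃ V, IsOpen V ∧ x ∈ V ∧ closure V ⊆ W := by
    intro x W hW
    obtain ⟨T, hT, hTc, hTW⟩ := exists_mem_nhds_isClosed_subset hW
    exact ⟨interior T, isOpen_interior, mem_interior_iff_mem_nhds.2 hT,
      (closure_minimal interior_subset hTc).trans hTW⟩
  have step : ∀ U : S, ∃ V : Bool → S, (∀ b, closure (V b).1 ⊆ U.1) ∧
      ∀ x ∈ (V true).1 ∩ M, ∀ y ∈ (V false).1 ∩ M, ¬ P x y := by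
    intro U
    obtain ⟨x, hx, y, hy, hxy⟩ := H U.1 U.2.1 U.2.2
    have : {p : Y × Y | p.1 ∈ M ∧ p.2 ∈ M ∧ P p.1 p.2}ᶜ ∈ 𝓝 (x, y) :=
      hP.isOpen_compl.mem_nhds (fun h => hxy h.2.2)
    obtain ⟨A, hA, B, hB, hAB⟩ := mem_nhds_prod_iff.1 this
    obtain ⟨V, hV, hxV, hVc⟩ := shrink x (A ∩ U.1) (inter_mem hA (U.2.1.mem_nhds hx.1))
    obtain ⟨W, hW, hyW, hWc⟩ := shrink y (B ∩ U.1) (inter_mem hB (U.2.1.mem_nhds hy.1))
    refine ⟨fun b => match b with
      | true => ⟨V, hV, x, hxV, hx.2⟩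
      | false => ⟨W, hW, y, hyW, hy.2⟩, fun b => ?_, fun x' hx' y' hy' hp => ?_⟩
    · cases b
      · exact hWc.trans inter_subset_right
      · exact hVc.trans inter_subset_right
    · exact hAB (mk_mem_prod (hVc (subset_closure hx'.1)).1 (hWc (subset_closure hy'.1)).1)
        ⟨hx'.2, hy'.2, hp⟩
  choose nxt h1 h2 using step
  let sq : (ℕ → Bool) → ℕ → S := fun s k => Nat.rec ⟨U0, hU0, hne⟩ (fun k U => nxt U (s k)) k
  have sq_succ : ∀ s k, sq s (k + 1) = nxt (sq s k) (s k) := fun s k => rfl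
  have ex : ∀ s, ∃ x ∈ M, ∀ k, x ∈ (sq s k).1 := by
    intro s
    have hcl : ∀ k, IsClosed (closure (sq s (k + 1)).1 ∩ M) := fun k => isClosed_closure.inter hM
    obtain ⟨x, hx⟩ := IsCompact.nonempty_iInter_of_sequence_nonempty_isCompact_isClosed
      (fun k => closure (sq s (k + 1)).1 ∩ M)
      (fun k => inter_subset_inter_left _ ((h1 _ _).trans subset_closure))
      (fun k => (sq s (k + 1)).2.2.mono (inter_subset_inter_left _ subset_closure))
      (hC.of_isClosed_subset (hcl 0) ((inter_subset_inter_left _ (h1 _ _)).trans hsub)) hcl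
    rw [mem_iInter] at hx
    exact ⟨x, (hx 0).2, fun k => h1 _ _ (hx k).1⟩
  choose φ hφM hφ using ex
  refine ⟨φ, hφM, fun s t hst => ?_⟩
  have hex : ∃ k, s k ≠ t k := Function.ne_iff.1 hst
  classical
  have agree : ∀ j, j ≤ Nat.find hex → sq s j = sq t j := by
    intro j
    induction j with
    | zero => intro _; rfl
    | succ j ih =>
      intro hj
      have : s j = t j := not_not.1 (Nat.find_min hex (Nat.lt_of_succ_le hj))
      rw [sq_succ, sq_succ, ih (Nat.le_of_succ_le hj), this]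
  have a := hφ s (Nat.find hex + 1)
  have b := hφ t (Nat.find hex + 1)
  rw [sq_succ] at a b
  rw [← agree _ le_rfl] at b
  have hd := Nat.find_spec hex
  cases hs : s (Nat.find hex) <;> cases ht : t (Nat.find hex) <;> rw [hs] at a hd <;>
    rw [ht] at b hd
  · exact absurd rfl hd
  · exact fun hp => h2 _ _ ⟨b, hφM t⟩ _ ⟨a, hφM s⟩ (hsymm _ _ hp)
  · exact h2 _ _ ⟨a, hφM s⟩ _ ⟨b, hφM t⟩
  · exact absurd rfl hd

variable {X : Type*} [MetricSpace X] [ProperSpace X]
variable {E : Type*} [NormedAddCommGroup E] [NormedSpace ℝ E] [ProperSpace E]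
variable {Γ : Type*} [Group Γ] [MulAction Γ X] [IsIsometricSMul Γ X]

lemma isClosed_isom : IsClosed {f : E → X | Isometry f} := by
  simp only [isometry_iff_dist_eq, ofPred_forall]
  exact isClosed_iInter fun a => isClosed_iInter fun b =>
    isClosed_eq ((continuous_apply a).dist (continuous_apply b)) continuous_const

lemma compact_isom {K : Set X} (hK : IsCompact K) :
    IsCompact {f : E → X | Isometry f ∧ f 0 ∈ K} := by
  refine (isCompact_univ_pi fun a : E => hK.cthickening (r := ‖a‖)).of_isClosed_subset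
    (isClosed_isom.inter (hK.isClosed.preimage (continuous_apply 0))) ?_
  rintro f ⟨hf, h0⟩ a -
  exact mem_cthickening_of_dist_le _ _ _ _ h0 (by rw [hf.dist_eq, dist_zero_right])

lemma closed_near (R : ℝ) (a : E) :
    IsClosed {p : (E → X) × (E → X) | Isometry p.2 ∧ ∃ b, dist (p.1 a) (p.2 b) ≤ R} := by
  rw [isClosed_iff_ultrafilter]
  intro x u hu hs
  have hiso : Isometry x.2 := by
    have hc : IsClosed {p : (E → X) × (E → X) | Isometry p.2} :=
      isClosed_isom.preimage continuous_snd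
    exact (isClosed_iff_ultrafilter.1 hc) x u hu (mem_of_superset hs fun p hp => hp.1)
  refine ⟨hiso, ?_⟩
  have : ∀ p : (E → X) × (E → X), ∃ b, (Isometry p.2 ∧ ∃ b, dist (p.1 a) (p.2 b) ≤ R) →
      dist (p.1 a) (p.2 b) ≤ R := by
    intro p
    by_cases h : ∃ b, dist (p.1 a) (p.2 b) ≤ R
    · exact h.imp fun b hb _ => hb
    · exact ⟨0, fun hh => absurd hh.2 h⟩
  choose β hβ using this
  have t : ∀ c : E, Tendsto (fun p : (E → X) × (E → X) => dist (p.1 a) (p.2 c)) u
      (𝓝 (dist (x.1 a) (x.2 c))) := fun c =>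
    ((((continuous_apply a).comp continuous_fst).dist
      ((continuous_apply c).comp continuous_snd)).tendsto x).mono_left hu
  have hev : ∀ᶠ p in (u : Filter _), β p ∈ closedBall (0 : E) (R + (dist (x.1 a) (x.2 0) + 1)) := by
    filter_upwards [hs, (t 0).eventually (gt_mem_nhds (lt_add_one _))] with p hp hp2
    rw [mem_closedBall, ← hp.1.dist_eq]
    linarith [hβ p hp, dist_triangle_left (p.2 (β p)) (p.2 0) (p.1 a)]
  obtain ⟨b0, -, hb0⟩ := (isCompact_closedBall (0 : E) _).ultrafilter_le_nhds (u.map β)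
    (by rw [Ultrafilter.coe_map, le_principal_iff]; exact hev)
  refine ⟨b0, ?_⟩
  have t2 : Tendsto (fun p => R + dist (β p) b0) u (𝓝 (R + 0)) :=
    (tendsto_iff_dist_tendsto_zero.1 hb0).const_add R
  rw [add_zero] at t2
  refine le_of_tendsto_of_tendsto (t b0) t2 ?_
  filter_upwards [hs] with p hp
  rw [← hp.1.dist_eq]
  linarith [hβ p hp, dist_triangle (p.1 a) (p.2 (β p)) (p.2 b0)]

lemma parR_closed (R : ℝ) {M : Set (E → X)} (hM : IsClosed M) (hiso : ∀ f ∈ M, Isometry f) :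
    IsClosed {p : (E → X) × (E → X) | p.1 ∈ M ∧ p.2 ∈ M ∧ ParR R p.1 p.2} := by
  have : {p : (E → X) × (E → X) | p.1 ∈ M ∧ p.2 ∈ M ∧ ParR R p.1 p.2} =
      (Prod.fst ⁻¹' M ∩ Prod.snd ⁻¹' M) ∩
      ((⋂ a, {p : (E → X) × (E → X) | Isometry p.2 ∧ ∃ b, dist (p.1 a) (p.2 b) ≤ R}) ∩
       ⋂ a, Prod.swap ⁻¹'
        {p : (E → X) × (E → X) | Isometry p.2 ∧ ∃ b, dist (p.1 a) (p.2 b) ≤ R}) := by
    ext p
    simp only [mem_ofPred_eq, mem_inter_iff, mem_preimage, mem_iInter, Prod.fst_swap,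
      Prod.snd_swap, ParR]
    constructor
    · rintro ⟨h1, h2, h3, h4⟩
      exact ⟨⟨h1, h2⟩, fun a => ⟨hiso _ h2, h3 a⟩,
        fun a => ⟨hiso _ h1, (h4 a).imp fun b hb => by rwa [dist_comm]⟩⟩
    · rintro ⟨⟨h1, h2⟩, h3, h4⟩
      exact ⟨h1, h2, fun a => (h3 a).2, fun a => (h4 a).2.imp fun b hb => by rwa [dist_comm]⟩
  rw [this]
  exact ((hM.preimage continuous_fst).inter (hM.preimage continuous_snd)).inter
    ((isClosed_iInter fun a => closed_near R a).inter
      (isClosed_iInter fun a => (closed_near R a).preimage continuous_swap))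

/-- The action of `Γ × E` on parametrised flats. -/
def act (γ : Γ) (v : E) (f : E → X) : E → X := fun a => γ • f (a + v)

lemma act_act (γ δ : Γ) (v w : E) (f : E → X) :
    act γ v (act δ w f) = act (γ * δ) (v + w) f := by
  funext a; simp [act, mul_smul, add_assoc]

lemma act_one (f : E → X) : act (1 : Γ) 0 f = f := by funext a; simp [act]

lemma continuous_act (γ : Γ) (v : E) : Continuous (act γ v : (E → X) → E → X) :=
  continuous_pi fun a => (continuous_apply (a + v)).const_smul γ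

lemma isometry_act (γ : Γ) (v : E) {f : E → X} (hf : Isometry f) : Isometry (act γ v f) :=
  (isometry_smul X γ).comp (hf.comp (isometry_add_right v))

lemma Par.act {f g : E → X} (h : Par f g) (γ : Γ) (v w : E) : Par (act γ v f) (act γ w g) := by
  obtain ⟨R, h1, h2⟩ := h
  refine ⟨R, fun a => ?_, fun b => ?_⟩
  · obtain ⟨b, hb⟩ := h1 (a + v)
    exact ⟨b - w, by simpa [FlatDich.act] using hb⟩
  · obtain ⟨a, ha⟩ := h2 (b + w)
    exact ⟨a - v, by simpa [FlatDich.act] using ha⟩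

variable (Γ) in
def Inv (M : Set (E → X)) : Prop :=
  M.Nonempty ∧ (∀ f ∈ M, Isometry f) ∧ IsClosed M ∧ ∀ (γ : Γ) (v : E), ∀ f ∈ M, act γ v f ∈ M

lemma exists_minimal {K : Set X} (hK : IsCompact K) (hcov : ∀ x : X, ∃ γ : Γ, γ • x ∈ K)
    {M0 : Set (E → X)} (h0 : Inv Γ M0) :
    ∃ M, M ⊆ M0 ∧ Inv Γ M ∧ ∀ M' ⊆ M, Inv Γ M' → M ⊆ M' := by
  obtain ⟨M, hM, hmin⟩ := zorn_superset_nonempty {M : Set (E → X) | Inv Γ M} (by
    intro c hc hch hne
    refine ⟨⋂₀ c, ⟨?_, ?_, isClosed_sInter fun M hM => (hc hM).2.2.1, ?_⟩,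
      fun s hs => sInter_subset_of_mem hs⟩
    · have : Nonempty c := hne.to_subtype
      obtain ⟨f, hf⟩ := IsCompact.nonempty_iInter_of_directed_nonempty_isCompact_isClosed
        (fun M : c => M.1 ∩ {f : E → X | Isometry f ∧ f 0 ∈ K})
        (fun A B => by
          rcases hch.total A.2 B.2 with h | h
          · exact ⟨A, Subset.rfl, inter_subset_inter_left _ h⟩
          · exact ⟨B, inter_subset_inter_left _ h, Subset.rfl⟩)
        (fun M => by
          obtain ⟨⟨f, hf⟩, hi, -, ha⟩ := hc M.2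
          obtain ⟨γ, hγ⟩ := hcov (f 0)
          exact ⟨act γ 0 f, ha γ 0 f hf, isometry_act γ 0 (hi f hf), by simpa [act] using hγ⟩)
        (fun M => (compact_isom hK).inter_left (hc M.2).2.2.1)
        (fun M => (hc M.2).2.2.1.inter (compact_isom hK).isClosed)
      rw [mem_iInter] at hf
      exact ⟨f, fun M hM => (hf ⟨M, hM⟩).1⟩
    · obtain ⟨M, hM⟩ := hne
      exact fun f hf => (hc hM).2.1 f (hf M hM)
    · exact fun γ v f hf M hM => (hc hM).2.2.2 γ v f (hf M hM)) M0 h0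
  exact ⟨M, hM, hmin.1, fun M' h1 h2 => hmin.2 h2 h1⟩

lemma range_act (γ : Γ) (v : E) (f : E → X) : range (act γ v f) = γ • range f := by
  ext x
  constructor
  · rintro ⟨a, rfl⟩; exact ⟨_, ⟨a + v, rfl⟩, rfl⟩
  · rintro ⟨_, ⟨a, rfl⟩, rfl⟩; exact ⟨a - v, by simp [act]⟩

lemma exists_al' (hX : CN X) {f g : E → X} (hf : Isometry f) (hg : Isometry g) (h : Par f g) :
    ∃ g' : E → X, Isometry g' ∧ Al f g' ∧ range g' = range g := by
  obtain ⟨π, h1, h2, h3⟩ := exists_al hX hf hg h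
  exact ⟨g ∘ π, hg.comp h1, h3, h2.range_comp g⟩

lemma centre (hX : CN X) {f0 : E → X} (hf0 : Isometry f0) (Λ : Subgroup Γ)
    (hΛ : ∀ l ∈ Λ, Par f0 (act l 0 f0)) {R : ℝ}
    (hR : ∀ g, Isometry g → Al f0 g → dist (f0 0) (g 0) ≤ R) :
    ∃ g, Isometry g ∧ Al f0 g ∧ ∀ l ∈ Λ, l • range g = range g := by
  set Z := {g : E → X | Isometry g ∧ Al f0 g} with hZ
  have hZc : IsCompact Z := by
    refine (compact_isom (isCompact_closedBall (f0 0) R)).of_isClosed_subset
      (isClosed_isom.inter ?_) fun g hg => ⟨hg.1, mem_closedBall'.2 (hR g hg.1 hg.2)⟩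
    change IsClosed {g : E → X | Al f0 g}
    simp only [Al, ofPred_forall]
    exact isClosed_iInter fun a => isClosed_iInter fun b => isClosed_eq
      ((continuous_const.dist (continuous_apply b)).pow 2)
      (((continuous_const.dist (continuous_apply 0)).pow 2).add continuous_const)
  have alZ : ∀ g ∈ Z, ∀ g' ∈ Z, Al g g' := fun g hg g' hg' =>
    Al.trans hX hg.1 hg'.1 hg.2.symm hg'.2
  choose h hh1 hh2 hh3 using fun l : Λ =>
    exists_al' hX hf0 (isometry_act (l : Γ) 0 hf0) (hΛ l l.2)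
  let r : X → ℝ := fun x => ⨆ l : Λ, dist x (h l 0)
  have bdd : ∀ x, BddAbove (range fun l : Λ => dist x (h l 0)) := fun x =>
    ⟨dist x (f0 0) + R, by
      rintro _ ⟨l, rfl⟩
      linarith [hR _ (hh1 l) (hh2 l), dist_triangle x (f0 0) (h l 0)]⟩
  have rle : ∀ x l, dist x (h l 0) ≤ r x := fun x l => le_ciSup (bdd x) l
  have rc : Continuous r := by
    refine (LipschitzWith.of_le_add fun x y => ciSup_le fun l => ?_).continuous
    linarith [rle y l, dist_triangle x y (h l 0)]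
  obtain ⟨g, hg, hmin⟩ := hZc.exists_isMinOn ⟨f0, hf0, Al.refl hf0⟩
    (rc.comp (continuous_apply (0 : E))).continuousOn
  have hmin' : ∀ g' ∈ Z, r (g 0) ≤ r (g' 0) := fun g' hg' => hmin hg'
  have uniq : ∀ g' ∈ Z, r (g' 0) ≤ r (g 0) → g' = g := by
    intro g' hg' hle
    have hal := alZ g hg g' hg'
    obtain ⟨m, hm, hmid, h1, -⟩ := hal.mid hX hg.1 hg'.1
    have hmZ : m ∈ Z := ⟨hm, Al.trans hX hf0 hm hg.2 h1⟩
    have b : ∀ l : Λ, dist (m 0) (h l 0) ^ 2 ≤ r (g 0) ^ 2 - dist (g 0) (g' 0) ^ 2 / 4 := by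
      intro l
      have := hmid 0 (h l 0)
      rw [dist_comm (h l 0), dist_comm (h l 0), dist_comm (h l 0)] at this
      have a1 := pow_le_pow_left₀ dist_nonneg (rle (g 0) l) 2
      have a2 := pow_le_pow_left₀ dist_nonneg ((rle (g' 0) l).trans hle) 2
      linarith
    have b0 : 0 ≤ r (g 0) ^ 2 - dist (g 0) (g' 0) ^ 2 / 4 := (sq_nonneg _).trans (b 1)
    have b1 : r (m 0) ≤ √(r (g 0) ^ 2 - dist (g 0) (g' 0) ^ 2 / 4) :=
      ciSup_le fun l => Real.le_sqrt_of_sq_le (b l)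
    have b2 := (hmin' m hmZ).trans b1
    have b3 := (Real.le_sqrt (dist_nonneg.trans (rle (g 0) 1)) b0).1 b2
    have b4 : dist (g 0) (g' 0) ^ 2 = 0 := le_antisymm (by linarith) (sq_nonneg _)
    have b5 : dist (g 0) (g' 0) = 0 := (pow_eq_zero_iff two_ne_zero).1 b4
    funext a
    have := hal.diag a
    rw [b5, dist_eq_zero] at this
    exact this.symm
  refine ⟨g, hg.1, hg.2, fun μ hμ => ?_⟩
  obtain ⟨g', a1, a2, a3⟩ := exists_al' hX hf0 (isometry_act μ 0 hg.1)
    ((hΛ μ hμ).trans (hg.2.par.act μ 0 0))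
  rw [range_act] at a3
  rw [← a3, uniq g' ⟨a1, a2⟩]
  refine ciSup_le fun l => ?_
  obtain ⟨a, ha⟩ : μ • g 0 ∈ range g' := a3 ▸ smul_mem_smul_set (mem_range_self 0)
  let l' : Λ := (⟨μ, hμ⟩ : Λ)⁻¹ * l
  obtain ⟨b, hb⟩ : μ • h l' 0 ∈ range (h l) := by
    have e : range (h l) = μ • range (h l') := by
      rw [hh3, hh3, range_act, range_act, smul_smul]
      simp [l']
    rw [e]
    exact smul_mem_smul_set (mem_range_self 0)
  have := (alZ g' ⟨a1, a2⟩ (h l) ⟨hh1 l, hh2 l⟩).le a b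
  rw [ha, hb, dist_smul] at this
  exact this.trans (rle _ l')

/-- Core dichotomy inside a closed invariant family, when parallel flats are uniformly close. -/
lemma core (hX : CN X) {K : Set X} (hK : IsCompact K) (hcov : ∀ x : X, ∃ γ : Γ, γ • x ∈ K)
    {M0 : Set (E → X)} (h0 : Inv Γ M0) {R : ℝ}
    (hR : ∀ f g : E → X, Isometry f → Isometry g → Al f g → dist (f 0) (g 0) ≤ R) :
    (∃ g : E → X, Isometry g ∧ (∃ f ∈ M0, Par f g) ∧ ∃ H : Subgroup Γ,
      (∀ h ∈ H, h • range g = range g) ∧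
      ∃ K' : Set X, IsCompact K' ∧ range g ⊆ ⋃ h ∈ H, h • K') ∨
    ∃ φ : (ℕ → Bool) → E → X, (∀ s, φ s ∈ M0) ∧ ∀ s t, s ≠ t → ¬ Par (φ s) (φ t) := by
  obtain ⟨M, hM0, ⟨⟨f1, hf1⟩, hiso, hcl, hinv⟩, hmin⟩ := exists_minimal hK hcov h0
  have parR : ∀ f g : E → X, Isometry f → Isometry g → Par f g → ParR R f g := by
    intro f g hf hg h
    obtain ⟨π, h1, h2, h3⟩ := exists_al hX hf hg h
    have b := hR _ _ hf (hg.comp h1) h3
    refine ⟨fun a => ⟨π a, (h3.diag a).le.trans b⟩, fun c => ?_⟩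
    obtain ⟨a, rfl⟩ := h2 c
    exact ⟨a, (h3.diag a).le.trans b⟩
  by_cases H : ∀ U, IsOpen U → (U ∩ M).Nonempty → ∃ x ∈ U ∩ M, ∃ y ∈ U ∩ M, ¬ ParR R x y
  · right
    obtain ⟨φ, h1, h2⟩ := cantor_scheme hcl (U0 := {f : E → X | f 0 ∈ ball (f1 0) 1})
      (isOpen_ball.preimage (continuous_apply 0)) ⟨f1, mem_ball_self one_pos, hf1⟩
      (compact_isom (isCompact_closedBall (f1 0) 1))
      (fun f hf => ⟨hiso f hf.2, ball_subset_closedBall hf.1⟩) (ParR R) (fun _ _ h => h.symm)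
      (parR_closed R hcl hiso) H
    exact ⟨φ, fun s => hM0 (h1 s),
      fun s t hst hp => h2 s t hst (parR _ _ (hiso _ (h1 s)) (hiso _ (h1 t)) hp)⟩
  left
  push Not at H
  obtain ⟨U, hU, ⟨f0, hf0U, hf0⟩, hUP⟩ := H
  have cover : ∀ g ∈ M, ∃ p : Γ × E, act p.1 p.2 g ∈ U := by
    by_contra hcon
    push Not at hcon
    obtain ⟨g, hg, hgU⟩ := hcon
    have : M ⊆ {g ∈ M | ∀ p : Γ × E, act p.1 p.2 g ∉ U} := by
      refine hmin _ (sep_subset _ _) ⟨⟨g, hg, hgU⟩, fun f hf => hiso f hf.1, hcl.inter ?_, ?_⟩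
      · change IsClosed {g : E → X | ∀ p : Γ × E, act p.1 p.2 g ∉ U}
        rw [ofPred_forall]
        exact isClosed_iInter fun p => (hU.preimage (continuous_act p.1 p.2)).isClosed_compl
      · intro γ v f hf
        refine ⟨hinv γ v f hf.1, fun p => ?_⟩
        rw [act_act]
        exact hf.2 (p.1 * γ, p.2 + v)
    exact (this hf0).2 (1, 0) (by rwa [act_one])
  obtain ⟨T, hT⟩ := ((compact_isom hK).inter_left hcl).elim_finite_subcover
    (fun p : Γ × E => act p.1 p.2 ⁻¹' U) (fun p => hU.preimage (continuous_act p.1 p.2))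
    (fun g hg => mem_iUnion.2 (cover g hg.1))
  have i0 := hiso f0 hf0
  let Λ : Subgroup Γ :=
    { carrier := {l | Par f0 (act l 0 f0)}
      one_mem' := by change Par f0 (act 1 0 f0); rw [act_one]; exact Par.refl f0
      mul_mem' := fun {a b} ha hb => by
        have := Par.act hb a 0 0
        rw [act_act, add_zero] at this
        exact Par.trans ha this
      inv_mem' := fun {a} ha => by
        have := Par.act ha a⁻¹ 0 0
        rw [act_act, add_zero, inv_mul_cancel, act_one] at this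
        exact this.symm }
  obtain ⟨g, hg, hal, hinvg⟩ := centre hX i0 Λ (fun l hl => hl) (fun g => hR f0 g i0)
  have hK1 : IsCompact (⋃ p ∈ T, p.1 • K) := T.isCompact_biUnion fun p _ => hK.smul p.1
  refine ⟨g, hg, ⟨f0, hM0 hf0, hal.par⟩, Λ, hinvg, cthickening R (⋃ p ∈ T, p.1 • K),
    hK1.cthickening, ?_⟩
  rintro _ ⟨a, rfl⟩
  obtain ⟨γ, hγ⟩ := hcov (f0 a)
  have m1 : act γ a f0 ∈ M := hinv γ a f0 hf0
  have := hT ⟨m1, hiso _ m1, by simpa [act] using hγ⟩
  simp only [mem_iUnion, mem_preimage] at this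
  obtain ⟨p, hp, hpU⟩ := this
  rw [act_act] at hpU
  have m2 : act (p.1 * γ) (p.2 + a) f0 ∈ M := hinv _ _ f0 hf0
  have par1 : Par f0 (act (p.1 * γ) (p.2 + a) f0) := ⟨R, hUP _ ⟨hf0U, hf0⟩ _ ⟨hpU, m2⟩⟩
  have mem : p.1 * γ ∈ Λ := par1.trans ((Par.refl f0).act _ _ _)
  simp only [mem_iUnion]
  refine ⟨(p.1 * γ)⁻¹, Λ.inv_mem mem, ?_⟩
  rw [mem_smul_set_iff_inv_smul_mem, inv_inv]
  refine mem_cthickening_of_dist_le _ ((p.1 * γ) • f0 a) _ _ ?_ ?_
  · simp only [mem_iUnion]
    exact ⟨p, hp, by rw [mul_smul]; exact smul_mem_smul_set hγ⟩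
  · rw [dist_smul, dist_comm, hal.diag a]
    exact hR _ _ i0 hg hal

end Pool.Agent.FlatDich
end

-- part Pool.Agent.P.MP_5e292f_al.Main
section

set_option autoImplicit false
set_option linter.unusedSectionVars false

namespace Pool.Agent.FlatDich

open Metric Set Filter Topology Pointwise

variable {X : Type*} [MetricSpace X] [ProperSpace X]
variable {Γ : Type*} [Group Γ] [MulAction Γ X] [IsIsometricSMul Γ X]

lemma subflat {V : Type*} [NormedAddCommGroup V] [InnerProductSpace ℝ V] [FiniteDimensional ℝ V]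
    (hprop : ∀ K : Set X, IsCompact K → {g : Γ | ((g • K) ∩ K).Nonempty}.Finite)
    {g : V → X} (hg : Isometry g) (H : Subgroup Γ) (hH : ∀ h ∈ H, h • range g = range g)
    {K : Set X} (hK : IsCompact K) (hcov : range g ⊆ ⋃ h ∈ H, h • K) {n : ℕ}
    (hn : n ≤ Module.finrank ℝ V) :
    ∃ f : EuclideanSpace ℝ (Fin n) → X, Isometry f ∧ ∃ H : Subgroup Γ,
      (∀ h : Γ, h ∈ H → h • range f = range f) ∧
      ∃ K : Set X, IsCompact K ∧ range f ⊆ ⋃ h ∈ H, (h : Γ) • K := by
  have ex : ∀ (h : H) (a : V), ∃ b, g b = (h : Γ) • g a := fun h a => by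
    have : (h : Γ) • g a ∈ range g := hH h h.2 ▸ smul_mem_smul_set (mem_range_self a)
    exact this
  choose σ hσ using ex
  have σmul : ∀ h k a, σ (h * k) a = σ h (σ k a) := fun h k a =>
    hg.injective (by rw [hσ, hσ, hσ, Subgroup.coe_mul, mul_smul])
  have σone : ∀ a, σ 1 a = a := fun a => hg.injective (by rw [hσ]; simp)
  let I : H → V ≃ᵢ V := fun h =>
    { toFun := σ h
      invFun := σ h⁻¹
      left_inv := fun a => by rw [← σmul, inv_mul_cancel, σone]
      right_inv := fun a => by rw [← σmul, mul_inv_cancel, σone]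
      isometry_toFun := Isometry.of_dist_eq fun a b => by
        rw [← hg.dist_eq, hσ, hσ, dist_smul, hg.dist_eq] }
  let A : H → V ≃ₗᵢ[ℝ] V := fun h => (I h).toRealLinearIsometryEquiv
  let t : H → V := fun h => σ h 0
  have hA : ∀ h x, A h x = σ h x - t h := fun h x => (I h).toRealLinearIsometryEquiv_apply x
  have ht : ∀ h k, t (h * k) = A h (t k) + t h := fun h k => by
    rw [hA, sub_add_cancel]; exact σmul h k 0
  have C : Cryst A t := by
    refine ⟨fun h k x => ?_, ht, fun R => ?_, ?_⟩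
    · rw [hA (h * k), ht, σmul, hA k, map_sub, hA h (σ k x)]; abel
    · refine ((hprop _ (isCompact_closedBall (g 0) R)).preimage
        (Subtype.val_injective (p := fun x => x ∈ H)).injOn).subset fun h hh => ?_
      have hR : ‖t h‖ ≤ R := hh
      refine ⟨(h : Γ) • g 0, smul_mem_smul_set (mem_closedBall_self ((norm_nonneg _).trans hR)), ?_⟩
      rw [mem_closedBall, ← hσ, hg.dist_eq, dist_zero_right]
      exact hR
    · obtain ⟨d, hd⟩ := hK.isBounded.subset_closedBall (g 0)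
      refine ⟨d, fun x => ?_⟩
      have := hcov (mem_range_self x)
      simp only [mem_iUnion] at this
      obtain ⟨h, hh, k, hk, e⟩ := this
      refine ⟨⟨h, hh⟩, ?_⟩
      rw [← dist_eq_norm, ← hg.dist_eq, hσ, ← e, dist_smul]
      exact hd hk
  obtain ⟨W, d, hW, hd⟩ := C.subspace hn
  let ι : EuclideanSpace ℝ (Fin n) ≃ₗᵢ[ℝ] W :=
    ((stdOrthonormalBasis ℝ W).reindex (finCongr hW)).repr.symm
  have hr : range (fun x => g (ι x)) = g '' W := by
    ext y
    constructor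
    · rintro ⟨x, rfl⟩; exact ⟨_, (ι x).2, rfl⟩
    · rintro ⟨w, hw, rfl⟩; exact ⟨ι.symm ⟨w, hw⟩, by simp⟩
  have tr : ∀ h : H, (∀ y, A h y = y) → ∀ x, (h : Γ) • g x = g (x + t h) := fun h h1 x => by
    rw [← hσ]; congr 1; rw [← h1 x, hA, sub_add_cancel, ← hA, h1]
  refine ⟨fun x => g (ι x), hg.comp (isometry_subtype_coe.comp ι.isometry),
    MulAction.stabilizer Γ (g '' W), fun h hh => by rw [hr]; exact hh, closedBall (g 0) d,
    isCompact_closedBall _ _, ?_⟩
  rw [hr]
  rintro _ ⟨x, hx, rfl⟩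
  obtain ⟨h, h1, h2, h3⟩ := hd x hx
  simp only [mem_iUnion]
  refine ⟨h, ?_, g (x - t h), ?_, ?_⟩
  · rw [MulAction.mem_stabilizer_iff]
    ext y
    constructor
    · rintro ⟨_, ⟨w, hw, rfl⟩, rfl⟩
      exact ⟨w + t h, W.add_mem hw h2, (tr h h1 w).symm⟩
    · rintro ⟨w, hw, rfl⟩
      exact ⟨_, ⟨w - t h, W.sub_mem hw h2, rfl⟩, by
        change (h : Γ) • g _ = _
        rw [tr h h1, sub_add_cancel]⟩
  · rw [mem_closedBall, hg.dist_eq, dist_zero_right]; exact h3
  · change (h : Γ) • g _ = _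
    rw [tr h h1, sub_add_cancel]

lemma haus_top {E : Type*} {f g : E → X} (h : ¬ Par f g) :
    hausdorffEDist (range f) (range g) = ⊤ := by
  by_contra hne
  refine h ⟨hausdorffDist (range f) (range g) + 1, fun a => ?_, fun b => ?_⟩
  · obtain ⟨_, ⟨b, rfl⟩, hb⟩ :=
      exists_dist_lt_of_hausdorffDist_lt (mem_range_self a) (lt_add_one _) hne
    exact ⟨b, hb.le⟩
  · obtain ⟨_, ⟨a, rfl⟩, ha⟩ :=
      exists_dist_lt_of_hausdorffDist_lt' (mem_range_self b) (lt_add_one _) hne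
    exact ⟨a, ha.le⟩

lemma flat_succ {N : ℕ} {L : EuclideanSpace ℝ (Fin N) × ℝ → X}
    (hL : ∀ p q, dist (L p) (L q) ^ 2 = (p.2 - q.2) ^ 2 + dist p.1 q.1 ^ 2) :
    ∃ f : EuclideanSpace ℝ (Fin (N + 1)) → X, Isometry f := by
  refine ⟨fun x => L (WithLp.toLp 2 fun i => x i.castSucc, x (Fin.last N)),
    Isometry.of_dist_eq fun x y => ?_⟩
  refine (pow_left_inj₀ dist_nonneg dist_nonneg two_ne_zero).1 ?_
  rw [hL, EuclideanSpace.dist_sq_eq, EuclideanSpace.dist_sq_eq, Fin.sum_univ_castSucc, add_comm]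
  simp [Real.dist_eq]

theorem main (hX : CN X)
    (hprop : ∀ K : Set X, IsCompact K → {g : Γ | ((g • K) ∩ K).Nonempty}.Finite)
    (hcoc : ∃ K : Set X, IsCompact K ∧ ∀ x : X, ∃ g : Γ, x ∈ g • K) (N : ℕ)
    (f : EuclideanSpace ℝ (Fin N) → X) (hf : Isometry f) :
    (∀ n ≤ N, ∃ f' : EuclideanSpace ℝ (Fin n) → X, Isometry f' ∧ ∃ H : Subgroup Γ,
      (∀ h : Γ, h ∈ H → h • range f' = range f') ∧
      ∃ K : Set X, IsCompact K ∧ range f' ⊆ ⋃ h ∈ H, (h : Γ) • K) ∨
    ∃ F : ℝ → EuclideanSpace ℝ (Fin N) → X, (∀ s, Isometry (F s)) ∧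
      (∀ s t, s ≠ t → hausdorffEDist (range (F s)) (range (F t)) = ⊤) ∧
      ((¬ ∃ g : EuclideanSpace ℝ (Fin (N + 1)) → X, Isometry g) →
        ∀ s, F s ∈ closure {g | ∃ (γ : Γ) (v : EuclideanSpace ℝ (Fin N)),
          g = fun a => γ • f (a + v)}) := by
  obtain ⟨K, hK, hcov⟩ := hcoc
  have hcov' : ∀ x : X, ∃ γ : Γ, γ • x ∈ K := fun x =>
    (hcov x).elim fun γ h => ⟨γ⁻¹, mem_smul_set_iff_inv_smul_mem.1 h⟩
  rcases Nat.eq_zero_or_pos N with rfl | hN
  · left
    intro n hn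
    obtain rfl : n = 0 := by omega
    refine ⟨f, hf, ⊥, fun h hh => by rw [Subgroup.mem_bot.1 hh, one_smul], range f,
      (finite_range f).isCompact, fun x hx => ?_⟩
    simp only [mem_iUnion]
    exact ⟨1, Subgroup.one_mem _, by rwa [one_smul]⟩
  by_cases hun : ∀ R : ℝ, ∃ f g : EuclideanSpace ℝ (Fin N) → X,
      Isometry f ∧ Isometry g ∧ Al f g ∧ R ≤ dist (f 0) (g 0)
  · right
    obtain ⟨L, hL⟩ := exists_thick hX hK hcov' hun
    obtain ⟨F, h1, h2⟩ := tilt (e := EuclideanSpace.single (⟨0, hN⟩ : Fin N) (1 : ℝ))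
      (by simp) hL
    exact ⟨F, h1, fun s t hst => haus_top (h2 s t hst), fun h => absurd (flat_succ hL) h⟩
  push Not at hun
  obtain ⟨R, hR⟩ := hun
  set M0 := closure {g | ∃ (γ : Γ) (v : EuclideanSpace ℝ (Fin N)), g = fun a => γ • f (a + v)}
    with hM0
  have hiso : ∀ g ∈ M0, Isometry g := closure_minimal
    (by rintro _ ⟨γ, v, rfl⟩; exact isometry_act γ v hf) isClosed_isom
  have hinv : Inv Γ M0 := by
    refine ⟨⟨_, subset_closure ⟨1, 0, rfl⟩⟩, hiso, isClosed_closure, fun γ v g hg => ?_⟩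
    refine map_mem_closure (continuous_act γ v) hg ?_
    rintro _ ⟨δ, w, rfl⟩
    exact ⟨γ * δ, v + w, act_act γ δ v w f⟩
  rcases core hX hK hcov' hinv (fun f g a b c => (hR f g a b c).le) with
    ⟨g, hg, -, H, hH, K', hK', hc⟩ | ⟨φ, h1, h2⟩
  · left
    intro n hn
    exact subflat hprop hg H hH hK' hc (by simpa using hn)
  · right
    obtain ⟨e⟩ : Nonempty (ℝ ≃ (ℕ → Bool)) := by
      rw [← Cardinal.eq]; simp [Cardinal.mk_real]
    exact ⟨fun s => φ (e s), fun s => hiso _ (h1 _),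
      fun s t hst => haus_top (h2 _ _ (e.injective.ne hst)), fun _ s => h1 _⟩

end Pool.Agent.FlatDich
end
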