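import Pool.Agent.K.MP_5e292f_al.C6

-- part Pool.Agent.P.MP_5e292f_al.GRect
section

set_option autoImplicit false

namespace Pool.Agent.FC

variable {A : Type} {G : Type} [Group G] {D : VH A} {ι : A → G}

/-- Words of least length. -/
def GRMin (ι : A → G) (w : List A) : Prop := ∀ u, ev ι u = ev ι w → w.length ≤ u.length

/-- Products of a vertical and a horizontal word. -/
def GRVH (D : VH A) (ι : A → G) (g : G) : Prop :=
  ∃ V H : List A, (∀ a ∈ V, D.c a = false) ∧ (∀ a ∈ H, D.c a = true) ∧ ev ι V * ev ι H = g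

theorem gr_length (w : List A) : w.length = w.countP D.c + w.countP D.tr.c := by
  induction w with
  | nil => rfl
  | cons a w ih =>
    have : D.tr.c a = !D.c a := rfl
    simp only [List.length_cons, List.countP_cons, this, ih]
    cases D.c a <;> simp <;> omega

theorem gr_min_red (h : Pres D ι) {w : List A} (m : GRMin ι w) : Red D w := by
  rw [Red, List.isChain_iff_forall_rel_of_append_cons_cons]
  intro a b x y e hb
  have := m (x ++ y) (by rw [e, hb]; simp [ev_append, ev_cons, h.inv])
  rw [e] at this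
  simp only [List.length_append, List.length_cons] at this
  omega

theorem gr_min_congr {u w : List A} (m : GRMin ι w) (e : ev ι u = ev ι w)
    (l : u.length ≤ w.length) : GRMin ι u := fun x hx => l.trans (m x (hx.trans e))

theorem gr_irr_min (h : Pres D ι) {w : List A} (hw : Irr D w) : GRMin ι w := by
  intro u e
  obtain ⟨h1, h2⟩ := len_irr h hw
  have a1 := len_le (D := D) (ι := ι) u
  have a2 := len_le (D := D.tr) (ι := ι) u
  rw [e] at a1 a2
  rw [gr_length (D := D) w, gr_length (D := D) u]
  omega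

theorem gr_irr_red {w : List A} (hw : Irr D w) : Red D w := List.IsChain.imp (fun _ _ q => q.1) hw

theorem gr_mono (h : Pres D ι) {w : List A} {b : Bool} (hc : ∀ a ∈ w, D.c a = b) :
    ∃ u, Red D u ∧ (∀ a ∈ u, D.c a = b) ∧ ev ι u = ev ι w := by
  obtain ⟨u, i, e, c1, c2⟩ := nf_exists h w
  refine ⟨u, gr_irr_red i, fun a ha => ?_, e⟩
  cases b with
  | false =>
    have z : w.countP D.c = 0 := List.countP_eq_zero.2 fun x hx => by simp [hc x hx]
    have := List.countP_eq_zero.1 (Nat.le_zero.1 (z ▸ c1)) a ha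
    simpa using this
  | true =>
    have z : w.countP D.tr.c = 0 := List.countP_eq_zero.2 fun x hx => by
      show ¬((!D.c x) = true)
      simp [hc x hx]
    have : ¬((!D.c a) = true) := List.countP_eq_zero.1 (Nat.le_zero.1 (z ▸ c2)) a ha
    simpa using this

theorem gr_vh_irr (h : Pres D ι) {g : G} (hg : GRVH D ι g) : ∃ N, Irr D N ∧ ev ι N = g ∧
    N.Pairwise fun a b => D.c a = true → D.c b = true := by
  obtain ⟨V, H, cV, cH, e⟩ := hg
  obtain ⟨V', r1, c1, e1⟩ := gr_mono h cV
  obtain ⟨H', r2, c2, e2⟩ := gr_mono h cH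
  refine ⟨V' ++ H', irr_vh r1 r2 c1 c2, by rw [ev_append, e1, e2, e], ?_⟩
  rw [List.pairwise_append]
  refine ⟨List.pairwise_of_forall_mem_list fun a ha b _ q => ?_,
    List.pairwise_of_forall_mem_list fun a _ b hb _ => c2 b hb, fun a _ b hb _ => c2 b hb⟩
  rw [c1 a ha] at q
  exact absurd q (by simp)

theorem gr_corner (h : Pres D ι) {X U : List A} {k u : A} (ck : D.c k = true)
    (cU : ∀ a ∈ u :: U, D.c a = false) (m : GRMin ι (X ++ k :: u :: U))
    (hg : GRVH D ι (ev ι (X ++ k :: u :: U))) : ∃ v' k', D.Sq k u v' k' := by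
  by_contra ns
  obtain ⟨N, iN, eN, c1, c2⟩ := nf_exists h X
  have e : ev ι (N ++ k :: u :: U) = ev ι (X ++ k :: u :: U) := by rw [ev_append, ev_append, eN]
  have l : N.length ≤ X.length := by
    rw [gr_length (D := D) N, gr_length (D := D) X]; omega
  have r : Red D (N ++ k :: u :: U) := gr_min_red h (gr_min_congr m e (by simpa using l))
  rw [Red, List.isChain_append, List.isChain_cons_cons] at r
  obtain ⟨-, ⟨r1, r2⟩, r3⟩ := r
  have i : Irr D (N ++ k :: u :: U) := by
    rw [Irr, List.isChain_append, List.isChain_cons_cons]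
    refine ⟨iN, ⟨⟨r1, ns⟩, irr_of_red r2 cU⟩, fun x hx y hy => ⟨r3 x hx y hy, ?_⟩⟩
    rintro ⟨v', k', q⟩
    have : k = y := by simpa using hy
    have z := (D.sq_c _ _ _ _ q).2.1
    rw [← this, ck] at z
    exact absurd z (by simp)
  obtain ⟨M, iM, eM, p⟩ := gr_vh_irr h hg
  rw [← nf_unique h i iM (e.trans eM.symm), List.pairwise_append, List.pairwise_cons] at p
  have z := p.2.1.1 u (by simp) ck
  rw [cU u (by simp)] at z
  exact absurd z (by simp)

theorem gr_pass (h : Pres D ι) : ∀ (U X : List A) (k : A), D.c k = true →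
    (∀ a ∈ U, D.c a = false) → GRMin ι (X ++ k :: U) → GRVH D ι (ev ι (X ++ k :: U)) →
    ∃ (U₁ : List A) (hs us vs : ℕ → A), U₁.length = U.length ∧ (∀ a ∈ U₁, D.c a = false) ∧
      hs 0 = k ∧ D.c (hs U.length) = true ∧ ι k * ev ι U = ev ι U₁ * ι (hs U.length) ∧
      ∀ j < U.length, U[j]? = some (us j) ∧ U₁[j]? = some (vs j) ∧
        D.Sq (hs j) (us j) (vs j) (hs (j + 1))
  | [], _, k, ck, _, _, _ =>
    ⟨[], fun _ => k, fun _ => k, fun _ => k, rfl, by simp, rfl, ck, by simp [ev], by simp⟩
  | u :: U, X, k, ck, cU, m, hg => by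
    obtain ⟨v', k', q⟩ := gr_corner h ck cU m hg
    have cq := D.sq_c _ _ _ _ q
    have e : ev ι ((X ++ [v']) ++ k' :: U) = ev ι (X ++ k :: u :: U) := by
      simp only [ev_append, ev_cons, mul_assoc]
      rw [← mul_assoc (ι k), h.sq _ _ _ _ q]
      simp [ev, mul_assoc]
    obtain ⟨U₁, hs, us, vs, l, c1, h0, c2, e2, g⟩ := gr_pass h U (X ++ [v']) k' cq.2.2.2
      (fun a ha => cU a (List.mem_cons_of_mem _ ha)) (gr_min_congr m e (by simp)) (e ▸ hg)
    refine ⟨v' :: U₁, fun j => Nat.casesOn j k hs, fun j => Nat.casesOn j u us,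
      fun j => Nat.casesOn j v' vs, by simp [l], ?_, rfl, c2, ?_, ?_⟩
    · intro a ha
      rcases List.mem_cons.1 ha with rfl | ha
      exacts [cq.2.2.1, c1 a ha]
    · show ι k * ev ι (u :: U) = ev ι (v' :: U₁) * ι (hs U.length)
      rw [ev_cons, ev_cons, ← mul_assoc, h.sq _ _ _ _ q, mul_assoc, e2, mul_assoc]
    · intro j hj
      cases j with
      | zero => exact ⟨rfl, rfl, by show D.Sq k u v' (hs 0); rw [h0]; exact q⟩
      | succ j => exact g j (by simpa using hj)

theorem gr_grid [Nonempty A] (h : Pres D ι) (W : List A) : ∀ U : List A, (∀ a ∈ W, D.c a = true) →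
    (∀ a ∈ U, D.c a = false) → GRMin ι (W ++ U) → GRVH D ι (ev ι (W ++ U)) →
    ∃ (U' W' : List A) (hl vl : ℕ → ℕ → A), U'.length = U.length ∧ W'.length = W.length ∧
      (∀ a ∈ U', D.c a = false) ∧ (∀ a ∈ W', D.c a = true) ∧ ev ι (U' ++ W') = ev ι (W ++ U) ∧
      (∀ i < W.length, ∀ j < U.length, D.Sq (hl i j) (vl (i + 1) j) (vl i j) (hl i (j + 1))) ∧
      (∀ i < W.length, W[i]? = some (hl i 0) ∧ W'[i]? = some (hl i U.length)) ∧
      ∀ j < U.length, U[j]? = some (vl W.length j) ∧ U'[j]? = some (vl 0 j) := by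
  induction W using List.reverseRecOn with
  | nil =>
    intro U _ cU _ _
    obtain ⟨z⟩ := ‹Nonempty A›
    refine ⟨U, [], fun _ _ => z, fun _ j => U[j]?.getD z, rfl, rfl, cU, by simp, by simp, by simp,
      by simp, fun j hj => ?_⟩
    simp [List.getElem?_eq_getElem hj]
  | append_singleton W k ih =>
    intro U cW cU m hg
    have ea : W ++ [k] ++ U = W ++ k :: U := by simp
    rw [ea] at m hg ⊢
    obtain ⟨U₁, hs, us, vs, l, c1, h0, c2, e2, g⟩ := gr_pass h U W k (cW k (by simp)) cU m hg
    have e3 : ev ι (W ++ k :: U) = ev ι (W ++ U₁) * ι (hs U.length) := by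
      rw [ev_append, ev_cons, e2, ev_append, mul_assoc]
    have m1 : GRMin ι (W ++ U₁) := by
      intro x hx
      have := m (x ++ [hs U.length]) (by rw [e3, ev_append, hx]; simp [ev])
      simp only [List.length_append, List.length_cons, List.length_nil] at this ⊢
      omega
    have g1 : GRVH D ι (ev ι (W ++ U₁)) := by
      obtain ⟨V, H, cV, cH, e⟩ := hg
      refine ⟨V, H ++ [D.inv (hs U.length)], cV, fun a ha => ?_, ?_⟩
      · rcases List.mem_append.1 ha with ha | ha
        · exact cH a ha
        · rw [List.mem_singleton.1 ha, D.c_inv, c2]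
      · rw [ev_append, ← mul_assoc, e, e3]
        simp [ev, h.inv]
    obtain ⟨U', W', hl, vl, l1, l2, c3, c4, e4, q1, q2, q3⟩ :=
      ih U₁ (fun a ha => cW a (by simp [ha])) c1 m1 g1
    rw [l] at l1 q1 q2 q3
    refine ⟨U', W' ++ [hs U.length], fun i j => if i = W.length then hs j else hl i j,
      fun i j => if i = W.length + 1 then us j else vl i j, l1, by simp [l2], c3, ?_, ?_, ?_, ?_, ?_⟩
    · intro a ha
      rcases List.mem_append.1 ha with ha | ha
      · exact c4 a ha
      · rw [List.mem_singleton.1 ha, c2]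
    · rw [← List.append_assoc, ev_append, e4, e3]
      simp [ev]
    · intro i hi j hj
      simp only [List.length_append, List.length_singleton] at hi
      by_cases hc : i = W.length
      · subst hc
        have : vl W.length j = vs j := by
          have a := (q3 j hj).1
          rw [(g j hj).2.1] at a
          exact (Option.some.inj a).symm
        simp only [if_true, if_neg (Nat.succ_ne_self _).symm, this]
        exact (g j hj).2.2
      · simp only [if_neg hc, if_neg (show i + 1 ≠ W.length + 1 by omega),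
          if_neg (show i ≠ W.length + 1 by omega)]
        exact q1 i (by omega) j hj
    · intro i hi
      simp only [List.length_append, List.length_singleton] at hi
      by_cases hc : i = W.length
      · subst hc
        refine ⟨by simp [h0], ?_⟩
        rw [List.getElem?_append_right (by omega)]
        simp [l2]
      · simp only [if_neg hc]
        rw [List.getElem?_append_left (by omega), List.getElem?_append_left (by omega)]
        exact q2 i (by omega)
    · intro j hj
      simp only [List.length_append, List.length_singleton, if_true,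
        if_neg (show 0 ≠ W.length + 1 by omega)]
      exact ⟨(g j hj).1, (q3 j hj).2⟩

/-- If `W U = U' W'` with reduced horizontal `W, W'` and reduced vertical `U, U'`, the rectangle is
filled with squares. -/
theorem rect [Nonempty A] (h : Pres D ι) {W W' U U' : List A} (rW : Red D W) (rW' : Red D W')
    (rU : Red D U)
    (rU' : Red D U') (cW : ∀ a ∈ W, D.c a = true) (cW' : ∀ a ∈ W', D.c a = true)
    (cU : ∀ a ∈ U, D.c a = false) (cU' : ∀ a ∈ U', D.c a = false)
    (e : ev ι (W ++ U) = ev ι (U' ++ W')) :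
    W'.length = W.length ∧ U'.length = U.length ∧ ∃ hl vl : ℕ → ℕ → A,
      (∀ i < W.length, ∀ j < U.length, D.Sq (hl i j) (vl (i + 1) j) (vl i j) (hl i (j + 1))) ∧
      (∀ i < W.length, W[i]? = some (hl i 0) ∧ W'[i]? = some (hl i U.length)) ∧
      ∀ j < U.length, U[j]? = some (vl W.length j) ∧ U'[j]? = some (vl 0 j) := by
  have m : GRMin ι (W ++ U) := gr_irr_min h.tr (irr_vh (D := D.tr) rW rU
    (fun a ha => by show (!D.c a) = false; simp [cW a ha])
    (fun a ha => by show (!D.c a) = true; simp [cU a ha]))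
  obtain ⟨U₁, W₁, hl, vl, l1, l2, c1, c2, e1, q⟩ :=
    gr_grid h W U cW cU m ⟨U', W', cU', cW', by rw [e, ev_append]⟩
  have r : Red D (U₁ ++ W₁) := gr_min_red h (gr_min_congr m e1 (by simp [l1, l2, Nat.add_comm]))
  have z : U₁ ++ W₁ = U' ++ W' := nf_unique h
    (irr_vh (List.IsChain.left_of_append r) (List.IsChain.right_of_append r) c1 c2)
    (irr_vh rU' rW' cU' cW') (e1.trans e)
  have f : ∀ V H : List A, (∀ a ∈ V, D.c a = false) → (∀ a ∈ H, D.c a = true) →
      (V ++ H).filter D.c = H := fun V H cV cH => by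
    rw [List.filter_append, List.filter_eq_nil_iff.2 (fun a ha => by simp [cV a ha]),
      List.filter_eq_self.2 cH, List.nil_append]
  have z2 : W₁ = W' := by rw [← f U₁ W₁ c1 c2, z, f U' W' cU' cW']
  subst z2
  have z1 : U₁ = U' := List.append_cancel_right z
  subst z1
  exact ⟨l2, l1, hl, vl, q⟩

theorem gr_mod {m : ℕ} (hm : 0 < m) (i : ℤ) : (i % m).toNat < m ∧
    (((i + 1) % m).toNat = (i % m).toNat + 1 ∧ (i % m).toNat + 1 < m ∨
      (i % m).toNat + 1 = m ∧ ((i + 1) % m).toNat = 0) := by
  have h0 := Int.emod_nonneg i (show (m : ℤ) ≠ 0 by omega)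
  have h1 := Int.emod_lt_of_pos i (show (0 : ℤ) < m by omega)
  refine ⟨by omega, ?_⟩
  rw [← Int.emod_add_emod]
  by_cases c : i % m + 1 < m
  · rw [Int.emod_eq_of_lt (by omega) c]
    omega
  · rw [show i % m + 1 = m by omega, Int.emod_self]
    omega

theorem gr_cyc {W : List A} (hm : 0 < W.length) (r : Red D (W ++ W)) {f : ℕ → A}
    (hf : ∀ i < W.length, W[i]? = some (f i)) (i : ℤ) :
    f ((i + 1) % W.length).toNat ≠ D.inv (f (i % W.length).toNat) := by
  obtain ⟨h1, h2⟩ := gr_mod hm i
  generalize (i % W.length).toNat = a at h1 h2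
  generalize ((i + 1) % W.length).toNat = b at h2
  have p : a + 1 < (W ++ W).length := by simp; omega
  have z := List.isChain_iff_getElem.1 r a p
  have e1 : (W ++ W)[a] = f a := by
    apply Option.some.inj
    rw [← List.getElem?_eq_getElem, List.getElem?_append_left h1, hf a h1]
  have e2 : (W ++ W)[a + 1] = f b := by
    apply Option.some.inj
    rw [← List.getElem?_eq_getElem]
    rcases h2 with ⟨rfl, h3⟩ | ⟨h3, rfl⟩
    · rw [List.getElem?_append_left h3, hf _ h3]
    · rw [List.getElem?_append_right (by omega), h3, Nat.sub_self, hf 0 hm]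
  rwa [e1, e2] at z

theorem gr_prop {P : ℤ → Prop} {n : ℕ} (hn : 0 < n) (s : ∀ j, P j → P (j + 1)) {j : ℤ} (p : P j) :
    ∃ k, P k ∧ k % n = 0 := by
  have a : ∀ t : ℕ, P (j + t) := fun t => by
    induction t with
    | zero => simpa using p
    | succ t ih => rw [Nat.cast_succ, ← add_assoc]; exact s _ ih
  refine ⟨_, a (-j % n).toNat, ?_⟩
  rw [Int.toNat_of_nonneg (Int.emod_nonneg _ (by omega)), Int.add_emod_emod]
  simp

/-- Commuting cyclically reduced horizontal and vertical words give a torus. -/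
theorem torus_of_comm (h : Pres D ι) {W U : List A} (nW : W ≠ []) (nU : U ≠ [])
    (rW : Red D (W ++ W)) (rU : Red D (U ++ U)) (cW : ∀ a ∈ W, D.c a = true)
    (cU : ∀ a ∈ U, D.c a = false) (e : ev ι W * ev ι U = ev ι U * ev ι W) : Torus D := by
  have : Nonempty A := ⟨W.head nW⟩
  have hm : 0 < W.length := List.length_pos_iff.2 nW
  have hn : 0 < U.length := List.length_pos_iff.2 nU
  obtain ⟨-, -, hl, vl, q1, q2, q3⟩ := rect h (List.IsChain.left_of_append rW)
    (List.IsChain.left_of_append rW) (List.IsChain.left_of_append rU)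
    (List.IsChain.left_of_append rU) cW cW cU cU (by rw [ev_append, ev_append, e])
  have S : ∀ i j : ℤ, D.Sq (hl (i % W.length).toNat (j % U.length).toNat)
      (vl ((i + 1) % W.length).toNat (j % U.length).toNat)
      (vl (i % W.length).toNat (j % U.length).toNat)
      (hl (i % W.length).toNat ((j + 1) % U.length).toNat) := by
    intro i j
    obtain ⟨a1, a2⟩ := gr_mod hm i
    obtain ⟨b1, b2⟩ := gr_mod hn j
    have e1 : vl ((i + 1) % W.length).toNat (j % U.length).toNat =
        vl ((i % W.length).toNat + 1) (j % U.length).toNat := by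
      rcases a2 with ⟨a, -⟩ | ⟨a, a'⟩
      · rw [a]
      · rw [a, a']
        exact Option.some.inj ((q3 _ b1).2.symm.trans (q3 _ b1).1)
    have e2 : hl (i % W.length).toNat ((j + 1) % U.length).toNat =
        hl (i % W.length).toNat ((j % U.length).toNat + 1) := by
      rcases b2 with ⟨a, -⟩ | ⟨a, a'⟩
      · rw [a]
      · rw [a, a']
        exact Option.some.inj ((q2 _ a1).1.symm.trans (q2 _ a1).2)
    rw [e1, e2]
    exact q1 _ a1 _ b1
  refine ⟨W.length, U.length, fun i j => hl (i % W.length).toNat (j % U.length).toNat,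
    fun i j => vl (i % W.length).toNat (j % U.length).toNat, hm, hn, S, fun i j b => ?_,
    fun i j b => ?_, fun i j => by simp, fun i j => by simp, fun i j => by simp,
    fun i j => by simp⟩
  · obtain ⟨k, p, hk⟩ := gr_prop (P := fun j => hl ((i + 1) % W.length).toNat (j % U.length).toNat =
      D.inv (hl (i % W.length).toNat (j % U.length).toNat)) hn (fun j p => by
        have s := S (i + 1) j
        rw [p] at s
        exact (D.sq_left s (D.sq_l _ _ _ _ (S i j))).2) b
    simp only [hk] at p
    exact gr_cyc hm rW (f := fun i => hl i 0) (fun i hi => (q2 i hi).1) i p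
  · obtain ⟨k, p, hk⟩ := gr_prop (P := fun i => vl (i % W.length).toNat ((j + 1) % U.length).toNat =
      D.inv (vl (i % W.length).toNat (j % U.length).toNat)) hm (fun i p => by
        have s := S i (j + 1)
        rw [p] at s
        exact (D.sq_left s (D.sq_r _ _ _ _ (S i j))).1) b
    simp only [hk] at p
    exact gr_cyc hn rU (f := fun j => vl 0 j) (fun j hj => (q3 j hj).2) j p

end Pool.Agent.FC
end

-- part Pool.Agent.P.MP_5e292f_al.GTree
section

set_option autoImplicit false

namespace Pool.Agent.FC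

/-- A bipartite geodesic pseudometric with unique parents satisfies the four point condition. -/
theorem GTree_four {α : Type} {ρ : α → α → ℕ} (symm : ∀ a b, ρ a b = ρ b a)
    (tri : ∀ a b c, ρ a c ≤ ρ a b + ρ b c) (par : ∀ a b x, ρ a b = 1 → ρ a x ≠ ρ b x)
    (step : ∀ a b n, ρ a b = n + 1 → ∃ c, ρ a c = 1 ∧ ρ c b = n)
    (uniq : ∀ p x y y', ρ y x = 1 → ρ y' x = 1 → ρ p y + 1 = ρ p x → ρ p y' + 1 = ρ p x →
      ρ y y' = 0) (p q r s : α) : ρ p q + ρ r s ≤ max (ρ p r + ρ q s) (ρ p s + ρ q r) := by
  have side : ∀ x y u, ρ x y = 1 → ρ y u = ρ x u + 1 ∨ ρ x u = ρ y u + 1 := by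
    intro x y u e
    have := par x y u e
    have := tri x y u
    have := tri y x u
    have := symm x y
    omega
  have hE : ∀ x y u v, ρ x y = 1 → ρ u v = 1 → ρ y u = ρ x u + 1 → ρ x v = ρ y v + 1 →
      ρ x u = 0 ∧ ρ y v = 0 := by
    intro x y u v e1 e2 e3 e4
    have a1 := side u v x e2
    have a2 := side u v y e2
    rw [symm v x, symm u x] at a1
    rw [symm v y, symm u y] at a2
    have a3 : ρ y v = ρ x u := by omega
    rcases Nat.eq_zero_or_eq_succ_pred (ρ y v) with a4 | a4
    · omega
    obtain ⟨y', b1, b2⟩ := step y v _ a4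
    have b3 := tri u v y'
    have b4 := tri u y' y
    have b5 := symm y y'
    have b6 := symm v y'
    have b7 := symm u y
    have b8 := symm u x
    have b9 := uniq u y x y' e1 (by omega) (by omega) (by omega)
    have := tri x y' v
    omega
  have hK : ∀ x y, ρ x y = 1 → ∀ n u v, ρ u v = n → ρ y u = ρ x u + 1 → ρ x v = ρ y v + 1 →
      ρ u v = ρ x u + 1 + ρ y v := by
    intro x y e n
    induction n with
    | zero =>
      intro u v e1 e2 e3
      have := tri y v u
      have := tri x u v
      have := symm u v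
      omega
    | succ n ih =>
      intro u v e1 e2 e3
      obtain ⟨c, b1, b2⟩ := step u v n e1
      have t1 := tri u x v
      have t2 := symm u x
      rcases side x y c e with a | a
      · have := ih c v b2 a e3
        have := tri x c u
        have := symm u c
        omega
      · obtain ⟨a1, a2⟩ := hE x y u c e b1 e2 a
        have := tri y c v
        omega
  generalize hn : ρ p q = n
  induction n generalizing p with
  | zero =>
    have := tri r p s
    have := tri p q s
    have := symm r p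
    omega
  | succ n ih =>
    obtain ⟨c, b1, b2⟩ := step p q n hn
    have a0 := ih c b2
    have s1 := symm q r
    have s2 := symm q s
    have s3 := symm r s
    rcases side p c r b1 with a1 | a1 <;> rcases side p c s b1 with a2 | a2
    · have := hK p c b1 _ r q rfl a1 (by omega)
      have := tri r p s
      have := symm r p
      have := hK p c b1 _ s q rfl a2 (by omega)
      omega
    · have := hK p c b1 _ r q rfl a1 (by omega)
      have := hK p c b1 _ r s rfl a1 a2
      omega
    · have := hK p c b1 _ s q rfl a2 (by omega)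
      have := hK p c b1 _ s r rfl a2 a1
      omega
    · omega

variable {A : Type} {G : Type} [Group G] {D : VH A} {ι : A → G}

theorem rho_mul (g a b : G) : rho D ι (g * a) (g * b) = rho D ι a b := by
  simp [rho, mul_assoc]

theorem GTree_nf (h : Pres D ι) (g : G) :
    ∃ w, Irr D w ∧ ev ι w = g ∧ w.countP D.c = len D ι g := by
  obtain ⟨u, rfl⟩ := h.surj g
  obtain ⟨w, h1, h2, -⟩ := nf_exists h u
  exact ⟨w, h1, h2, by rw [← h2, (len_irr h h1).1]⟩

theorem GTree_single (a : A) : ev ι [a] = ι a := by simp [ev]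

theorem GTree_mul (h : Pres D ι) (g k : G) : len D ι (g * k) ≤ len D ι g + len D ι k := by
  obtain ⟨u, -, rfl, e1⟩ := GTree_nf h g
  obtain ⟨w, -, rfl, e2⟩ := GTree_nf h k
  rw [← ev_append, ← e1, ← e2, ← List.countP_append]
  exact len_le _

theorem GTree_one : len D ι 1 = 0 := Nat.le_zero.1 (len_le (D := D) (ι := ι) [])

theorem GTree_letter (h : Pres D ι) (l : A) : len D ι (ι l) = if D.c l then 1 else 0 := by
  rw [← GTree_single (ι := ι) l, (len_irr h (List.isChain_singleton l)).1]
  simp [List.countP_cons]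

theorem GTree_inv_le (h : Pres D ι) (w : List A) : len D ι (ev ι w)⁻¹ ≤ w.countP D.c := by
  induction w with
  | nil => simp [ev, GTree_one]
  | cons a w ih =>
    rw [ev_cons, mul_inv_rev, ← h.inv, List.countP_cons]
    refine (GTree_mul h _ _).trans (add_le_add ih ?_)
    rw [GTree_letter h, D.c_inv]

theorem GTree_inv (h : Pres D ι) (g : G) : len D ι g⁻¹ = len D ι g := by
  have key : ∀ g : G, len D ι g⁻¹ ≤ len D ι g := fun g => by
    obtain ⟨w, -, rfl, e⟩ := GTree_nf h g
    exact e ▸ GTree_inv_le h w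
  exact le_antisymm (key g) (by simpa using key g⁻¹)

theorem GTree_symm (h : Pres D ι) (a b : G) : rho D ι a b = rho D ι b a := by
  rw [rho, rho, ← GTree_inv h, mul_inv_rev, inv_inv]

theorem GTree_tri (h : Pres D ι) (a b c : G) : rho D ι a c ≤ rho D ι a b + rho D ι b c := by
  have := GTree_mul h (a⁻¹ * b) (b⁻¹ * c)
  rwa [mul_assoc, mul_inv_cancel_left] at this

theorem GTree_right (a k : G) : rho D ι a (a * k) = len D ι k := by
  rw [rho, inv_mul_cancel_left]

theorem GTree_left (k : G) : rho D ι 1 k = len D ι k := by rw [rho, inv_one, one_mul]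

theorem rho_letter (h : Pres D ι) (g : G) (l : A) :
    rho D ι g (g * ι l) = if D.c l then 1 else 0 := by
  rw [GTree_right, GTree_letter h]

theorem GTree_split {p : A → Bool} {w : List A} {n : ℕ} (e : w.countP p = n + 1) :
    ∃ u l v, w = u ++ l :: v ∧ u.countP p = 0 ∧ p l = true ∧ v.countP p = n := by
  induction w with
  | nil => simp at e
  | cons a w ih =>
    rw [List.countP_cons] at e
    by_cases ha : p a = true
    · rw [if_pos ha] at e
      exact ⟨[], a, w, rfl, rfl, ha, by omega⟩
    · rw [if_neg ha] at e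
      obtain ⟨u, l, v, rfl, h1, h2, h3⟩ := ih e
      exact ⟨a :: u, l, v, rfl, by rw [List.countP_cons, if_neg ha, h1], h2, h3⟩

theorem GTree_first (h : Pres D ι) {a b : G} {n : ℕ} (e : rho D ι a b = n + 1) :
    ∃ (k : G) (l : A), D.c l = true ∧ rho D ι a k = 0 ∧ rho D ι (k * ι l) b ≤ n := by
  obtain ⟨w, -, e1, e2⟩ := GTree_nf h (a⁻¹ * b)
  obtain ⟨u, l, v, rfl, h1, h2, h3⟩ := GTree_split (e2.trans e)
  refine ⟨a * ev ι u, l, h2, ?_, ?_⟩
  · rw [GTree_right]
    exact Nat.le_zero.1 (h1 ▸ len_le u)
  · have e3 : b = a * ev ι u * ι l * ev ι v := by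
      rw [mul_assoc, mul_assoc, ← ev_cons, ← ev_append, e1, mul_inv_cancel_left]
    rw [e3, GTree_right]
    exact h3 ▸ len_le v

/-- Elements at distance one: a vertical word, then one horizontal letter, then a vertical word. -/
theorem rho_one (h : Pres D ι) {a b : G} (e : rho D ι a b = 1) :
    ∃ (k : G) (l : A), D.c l = true ∧ rho D ι a k = 0 ∧ rho D ι (k * ι l) b = 0 := by
  obtain ⟨k, l, h1, h2, h3⟩ := GTree_first (n := 0) h e
  exact ⟨k, l, h1, h2, Nat.le_zero.1 h3⟩

/-- `y` is next to the part of the normal form of `x` before the last horizontal letter -/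
def GTreeP (D : VH A) (ι : A → G) (x y : G) : Prop :=
  ∃ z l u, Irr D (z ++ l :: u) ∧ D.c l = true ∧ (∀ a ∈ u, D.c a = false) ∧
    ev ι (z ++ l :: u) = x ∧ rho D ι y (ev ι z) = 0

theorem GTreeP.uniq (h : Pres D ι) {x y y' : G} (a : GTreeP D ι x y) (b : GTreeP D ι x y') :
    rho D ι y y' = 0 := by
  obtain ⟨z, l, u, a1, a2, a3, a4, a5⟩ := a
  obtain ⟨z', l', u', b1, b2, b3, b4, b5⟩ := b
  have key : ∀ {z z' u u' : List A} {l l' : A} {t : List A}, z' = z ++ t → l :: u = t ++ l' :: u' →
      D.c l' = true → (∀ a ∈ u, D.c a = false) → z' = z := by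
    intro z z' u u' l l' t e1 e2 c1 c2
    rcases t with _ | ⟨b, t⟩
    · rw [e1, List.append_nil]
    · rw [List.cons_append, List.cons.injEq] at e2
      have := c2 l' (by rw [e2.2]; simp)
      rw [c1] at this
      exact absurd this (by decide)
  have e : z' = z := by
    rcases List.append_eq_append_iff.1 (nf_unique h a1 b1 (a4.trans b4.symm)) with
      ⟨t, e1, e2⟩ | ⟨t, e1, e2⟩
    · exact key e1 e2 b2 a3
    · exact (key e1 e2 a2 b3).symm
  subst e
  have := GTree_tri h y (ev ι z') y'
  rw [GTree_symm h (ev ι z')] at this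
  omega

theorem GTree_up (h : Pres D ι) {g y : G} {l : A} (hl : D.c l = true)
    (e : len D ι g < len D ι (g * ι l)) (hy : rho D ι y g = 0) : GTreeP D ι (g * ι l) y := by
  obtain ⟨z, h1, rfl, h2⟩ := GTree_nf h g
  refine ⟨z, l, [], ?_, hl, by simp, by rw [ev_append, GTree_single], hy⟩
  refine List.IsChain.append h1 (List.isChain_singleton l) fun a ha b hb => ?_
  obtain rfl : l = b := by simpa using hb
  obtain ⟨z', rfl⟩ := List.getLast?_eq_some_iff.1 (Option.mem_def.1 ha)
  refine ⟨fun e1 => ?_, fun ⟨v', h', q⟩ => ?_⟩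
  · have e2 : ev ι (z' ++ [a]) * ι l = ev ι z' := by
      rw [ev_append, GTree_single, e1, h.inv, mul_inv_cancel_right]
    have := len_le (D := D) (ι := ι) z'
    rw [e2, ← h2, List.countP_append] at e
    omega
  · have := (D.sq_c _ _ _ _ q).2.1
    rw [hl] at this
    exact absurd this (by decide)

theorem GTreeP.vert (h : Pres D ι) {x y : G} (a : GTreeP D ι x y) {v : A} (hv : D.c v = false) :
    GTreeP D ι (x * ι v) y := by
  obtain ⟨z, l, u, a1, a2, a3, rfl, a5⟩ := a
  have app : (∀ a ∈ (z ++ l :: u).getLast?, v ≠ D.inv a ∧ ¬∃ v' h', D.Sq a v v' h') →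
      GTreeP D ι (ev ι (z ++ l :: u) * ι v) y := by
    intro H
    refine ⟨z, l, u ++ [v], ?_, a2, ?_, ?_, a5⟩
    · rw [← List.cons_append, ← List.append_assoc]
      refine List.IsChain.append a1 (List.isChain_singleton v) fun a ha b hb => ?_
      obtain rfl : v = b := by simpa using hb
      exact H a ha
    · intro a ha
      rcases List.mem_append.1 ha with ha | ha
      · exact a3 a ha
      · rwa [List.mem_singleton.1 ha]
    · rw [← List.cons_append, ← List.append_assoc, ev_append _ [v], GTree_single]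
  rcases List.eq_nil_or_concat u with rfl | ⟨u, a, rfl⟩
  · by_cases hq : ∃ v' h', D.Sq l v v' h'
    · obtain ⟨v', l', q⟩ := hq
      obtain ⟨-, -, c1, c2⟩ := D.sq_c _ _ _ _ q
      have e1 : ev ι (z ++ [l]) * ι v = ev ι z * ι v' * ι l' := by
        rw [ev_append, GTree_single, mul_assoc, h.sq _ _ _ _ q, mul_assoc]
      have b1 := GTree_mul h (ev ι z) (ι v')
      have b2 := GTree_mul h (ev ι (z ++ [l]) * ι v) (ι v)⁻¹
      have b3 := len_le (D := D) (ι := ι) z
      have b4 := GTree_tri h y (ev ι z) (ev ι z * ι v')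
      rw [mul_inv_cancel_right, GTree_inv h, GTree_letter h, hv, (len_irr h a1).1,
        List.countP_append, e1] at b2
      rw [GTree_letter h, c1] at b1
      rw [rho_letter h, c1] at b4
      simp only [List.countP_singleton, a2, Bool.false_eq_true, if_true, if_false] at b1 b2 b4
      rw [e1]
      exact GTree_up h c2 (by omega) (by omega)
    · refine app fun a ha => ?_
      obtain rfl : l = a := by simpa using ha
      refine ⟨fun e => ?_, hq⟩
      rw [e, D.c_inv, a2] at hv
      exact absurd hv (by decide)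
  · rw [List.concat_eq_append] at *
    by_cases e : v = D.inv a
    · rw [← List.cons_append, ← List.append_assoc] at a1 ⊢
      refine ⟨z, l, u, a1.left_of_append, a2, fun b hb => a3 b (List.mem_append_left _ hb), ?_, a5⟩
      rw [ev_append _ [a], GTree_single, e, h.inv, mul_inv_cancel_right]
    · refine app fun b hb => ?_
      rw [← List.cons_append, ← List.append_assoc, List.getLast?_concat] at hb
      obtain rfl : a = b := by simpa using hb
      refine ⟨e, fun ⟨v', h', q⟩ => ?_⟩
      have := (D.sq_c _ _ _ _ q).1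
      rw [a3 a (by simp)] at this
      exact absurd this (by decide)

theorem GTreeP.word (h : Pres D ι) {y : G} (w : List A) (hw : ∀ a ∈ w, D.c a = false) {x : G}
    (a : GTreeP D ι x y) : GTreeP D ι (x * ev ι w) y := by
  induction w generalizing x with
  | nil => simpa [ev] using a
  | cons v w ih =>
    rw [ev_cons, ← mul_assoc]
    exact ih (fun b hb => hw b (List.mem_cons_of_mem _ hb)) (a.vert h (hw v List.mem_cons_self))

theorem GTree_par (h : Pres D ι) {x y : G} (e : rho D ι y x = 1)
    (e' : rho D ι 1 y + 1 = rho D ι 1 x) : GTreeP D ι x y := by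
  obtain ⟨k, l, h1, h2, h3⟩ := rho_one h e
  have a1 := GTree_tri h 1 y k
  have a2 := GTree_tri h 1 (k * ι l) x
  obtain ⟨w, -, c, e1, -⟩ := len_zero h h3
  have a3 := (GTree_up h h1 (by rw [← GTree_left, ← GTree_left]; omega) h2).word h w c
  rwa [e1, mul_inv_cancel_left] at a3

theorem tm_rho (h : Pres D ι) : TM (rho D ι) := by
  have par : ∀ a b x, rho D ι a b = 1 → rho D ι a x ≠ rho D ι b x := by
    intro a b x e
    obtain ⟨ε, h1, h2⟩ := exists_eps h
    have a1 := h1 (a⁻¹ * b) (b⁻¹ * x)
    rw [mul_assoc, mul_inv_cancel_left] at a1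
    have a2 := (h2 (a⁻¹ * b)).1
    have a3 := (h2 (b⁻¹ * x)).1
    have a4 := (h2 (a⁻¹ * x)).1
    unfold rho at *
    omega
  have step : ∀ a b n, rho D ι a b = n + 1 → ∃ c, rho D ι a c = 1 ∧ rho D ι c b = n := by
    intro a b n e
    obtain ⟨k, l, h1, h2, h3⟩ := GTree_first h e
    have a1 := GTree_tri h a k (k * ι l)
    have a2 := GTree_tri h a (k * ι l) b
    rw [rho_letter h, if_pos h1] at a1
    exact ⟨k * ι l, by omega, by omega⟩
  refine ⟨fun a => by rw [rho, inv_mul_cancel, GTree_one], GTree_symm h, GTree_tri h,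
    GTree_four (GTree_symm h) (GTree_tri h) par step fun p x y y' e1 e2 e3 e4 => ?_, par, step⟩
  have t : ∀ a, rho D ι p a = rho D ι 1 (p⁻¹ * a) := fun a => by rw [GTree_left, rho]
  rw [t, t] at e3 e4
  rw [← rho_mul p⁻¹] at e1 e2 ⊢
  exact (GTree_par h e1 e3).uniq h (GTree_par h e2 e4)

end Pool.Agent.FC
end
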