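import Pool.Agent.K.MP_5e292f_al.C4
import Pool.Agent.K.MP_5e292f_al.C10

set_option autoImplicit false

namespace Pool.Agent.FC

structure Sys where
  A : Type
  fin : Finite A
  ne : Nonempty A
  D : VH A
  G : Type
  grp : Group G
  ι : A → G
  pres : Pres D ι
  full : ∀ a, ∃ h v v' h', D.Sq h v v' h' ∧ (a = h ∨ a = v')

attribute [instance] Sys.grp Sys.fin

namespace Sys

variable (S : Sys)

noncomputable def h (a b : S.G) : ℕ := rho S.D S.ι a b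
noncomputable def v (a b : S.G) : ℕ := rho S.D.tr S.ι a b

theorem th : TM S.h := tm_rho S.pres
theorem tv : TM S.v := tm_rho S.pres.tr

noncomputable def sqp (g : S.G) (a b : S.A) (s t : ℝ) : (S.G → ℝ) × (S.G → ℝ) :=
  (pt S.h g (g * S.ι a) s, pt S.v g (g * S.ι b) t)

def InX (p : (S.G → ℝ) × (S.G → ℝ)) : Prop := ∃ g a b b' a' s t, S.D.Sq a b b' a' ∧
  s ∈ Set.Icc (0 : ℝ) 1 ∧ t ∈ Set.Icc (0 : ℝ) 1 ∧ p = S.sqp g a b' s t

/-- The universal cover of the square complex, inside the product of two real trees. -/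
def X : Type := {p // S.InX p}

noncomputable def DX (p q : S.X) : ℝ := Real.sqrt (DD p.1.1 q.1.1 ^ 2 + DD p.1.2 q.1.2 ^ 2)

def WE (g k : S.G) : Set S.G := {a | S.h g a = 0 ∧ ∃ b, S.h k b = 0 ∧ S.v a b = 0}

/-- Pieces: a vertical tree if `h g k = 0`, a strip if `h g k = 1`. -/
def Pc (g k : S.G) : Set S.X :=
  {p | (∃ s ∈ Set.Icc (0 : ℝ) 1, p.1.1 = pt S.h g k s) ∧ p.1.2 ∈ RT S.v (S.WE g k)}

/-- The side of the strip `Pc g k` on the vertical tree of `g`. -/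
def Bd (g k : S.G) : Set S.X := {p | p.1.1 = pt S.h g g 0 ∧ p.1.2 ∈ RT S.v (S.WE g k)}

/-- The half space of the edge `g, k` that contains `g`. -/
def Hs (g k : S.G) : Set S.X := {p | p.1.1 k - p.1.1 g = 1}

def Adj (p q : S.X) : Prop := ∃ g k, S.h g k ≤ 1 ∧ p ∈ S.Pc g k ∧ q ∈ S.Pc g k

inductive Chain (p : S.X) : S.X → ℝ → Prop
  | refl : Chain p p 0
  | step {q r : S.X} {c : ℝ} : Chain p q c → S.Adj q r → Chain p r (c + S.DX q r)

theorem DSpace_hl (g : S.G) {l : S.A} {b : Bool} (hl : S.D.c l = b) :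
    S.h g (g * S.ι l) = if b then 1 else 0 := by
  rw [← hl]
  exact rho_letter S.pres g l

theorem DSpace_vl (g : S.G) {l : S.A} {b : Bool} (hl : S.D.c l = b) :
    S.v g (g * S.ι l) = if b then 0 else 1 := by
  have := rho_letter S.pres.tr g l
  rw [show S.D.tr.c l = !b from congrArg (fun x => !x) hl] at this
  cases b <;> exact this

theorem DSpace_congr {α : Type} {ρ : α → α → ℕ} (T : TM ρ) {a b a' b' : α} (ha : ρ a a' = 0)
    (hb : ρ b b' = 0) : ρ a' b' = ρ a b := by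
  have h1 := T.tri a a' b
  have h2 := T.tri a' b' b
  have h3 := T.tri a' a b'
  have h4 := T.tri a b b'
  have h5 := T.symm a a'
  have h6 := T.symm b b'
  omega

theorem DSpace_pt0 {α : Type} (ρ : α → α → ℕ) (a b : α) (s : ℝ) : pt ρ a a s = pt ρ a b 0 := by
  funext x
  simp only [pt]
  ring

theorem DSpace_word {a b : S.G} (h1 : S.h a b = 0) : ∃ w, Red S.D w ∧ (∀ x ∈ w, S.D.c x = false) ∧
    b = a * ev S.ι w ∧ S.v a b = w.length := by
  obtain ⟨w, r, c, e, l⟩ := len_zero S.pres h1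
  exact ⟨w, r, c, by rw [e, mul_inv_cancel_left], l⟩

theorem DSpace_sq {l1 l2 l : S.A} {U U' : List S.A} (c1 : S.D.c l1 = true) (c2 : S.D.c l2 = true)
    (rU : Red S.D U) (rU' : Red S.D (l :: U')) (cU : ∀ a ∈ U, S.D.c a = false)
    (cU' : ∀ a ∈ l :: U', S.D.c a = false)
    (e : S.ι l1 * ev S.ι U = ev S.ι (l :: U') * S.ι l2) : ∃ b a', S.D.Sq l1 b l a' := by
  have : Nonempty S.A := ⟨l1⟩
  obtain ⟨-, h2, hl, vl, q, h3, h4⟩ := rect S.pres (W := [l1]) (W' := [l2])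
    (List.isChain_singleton _) (List.isChain_singleton _) rU rU' (by simpa using c1)
    (by simpa using c2) cU cU' (by rw [ev_append, ev_append]; simpa [ev] using e)
  have p : 0 < U.length := by rw [← h2]; simp
  have e1 : l1 = hl 0 0 := by simpa using (h3 0 (by simp)).1
  have e2 : l = vl 0 0 := by simpa using (h4 0 p).2
  rw [e1, e2]
  exact ⟨_, _, q 0 (by simp) 0 p⟩

theorem mem_h (p : S.X) : p.1.1 ∈ RT S.h Set.univ := by
  obtain ⟨g, a, b, b', a', s, t, q, hs, ht, e⟩ := p.2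
  rw [e]
  exact pt_mem (S.DSpace_hl g (S.D.sq_c _ _ _ _ q).1).le hs

theorem mem_v (p : S.X) : p.1.2 ∈ RT S.v Set.univ := by
  obtain ⟨g, a, b, b', a', s, t, q, hs, ht, e⟩ := p.2
  rw [e]
  exact pt_mem (S.DSpace_vl g (S.D.sq_c _ _ _ _ q).2.2.1).le ht

theorem eq_of_hv {a b : S.G} (h1 : S.h a b = 0) (h2 : S.v a b = 0) : a = b := by
  obtain ⟨w, -, -, e, l⟩ := S.DSpace_word h1
  have : w = [] := List.length_eq_zero_iff.mp (by omega)
  rw [e, this]
  simp [ev]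

theorem letter_h {a b : S.G} (h1 : S.h a b = 1) (h2 : S.v a b = 0) :
    ∃ l, S.D.c l = true ∧ b = a * S.ι l := by
  obtain ⟨w, -, c, e, l⟩ := len_zero S.pres.tr h2
  have e2 : len S.D.tr.tr S.ι (a⁻¹ * b) = S.h a b := by
    have : S.D.tr.tr.c = S.D.c := funext fun x => Bool.not_not _
    simp only [h, rho, len, this]
  obtain ⟨x, rfl⟩ := List.length_eq_one_iff.mp (show w.length = 1 by omega)
  refine ⟨x, ?_, ?_⟩
  · have : (!S.D.c x) = false := c x (by simp)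
    simpa using this
  · rw [show S.ι x = a⁻¹ * b by simpa [ev] using e, mul_inv_cancel_left]

theorem letter_v {a b : S.G} (h1 : S.h a b = 0) (h2 : S.v a b = 1) :
    ∃ l, S.D.c l = false ∧ b = a * S.ι l := by
  obtain ⟨w, -, c, e, l⟩ := S.DSpace_word h1
  obtain ⟨x, rfl⟩ := List.length_eq_one_iff.mp (show w.length = 1 by omega)
  exact ⟨x, c x (by simp), by simpa [ev] using e⟩

theorem WE_ne {g k : S.G} (hk : S.h g k ≤ 1) : (S.WE g k).Nonempty := by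
  by_cases h0 : S.h g k = 0
  · exact ⟨g, S.th.refl g, g, (S.th.symm k g).trans h0, S.tv.refl g⟩
  · obtain ⟨a, l, c, h1, h2⟩ := rho_one S.pres (show S.h g k = 1 by omega)
    exact ⟨a, h1, a * S.ι l, (S.th.symm _ _).trans h2, S.DSpace_vl a c⟩

theorem RT_WE_symm (g k : S.G) : RT S.v (S.WE g k) = RT S.v (S.WE k g) := by
  have key : ∀ g k, RT S.v (S.WE g k) ⊆ RT S.v (S.WE k g) := by
    rintro g k f ⟨a, ⟨a1, a', a2, a3⟩, b, ⟨b1, b', b2, b3⟩, s, hs, h1, rfl⟩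
    exact ⟨a', ⟨a2, a, a1, (S.tv.symm _ _).trans a3⟩, b', ⟨b2, b, b1, (S.tv.symm _ _).trans b3⟩,
      s, hs, (DSpace_congr S.tv a3 b3).trans_le h1, pt_congr S.tv a3 b3 s⟩
  exact (key g k).antisymm (key k g)

theorem inX_pc {g k : S.G} (hk : S.h g k ≤ 1) {s : ℝ} (hs : s ∈ Set.Icc (0 : ℝ) 1) {f : S.G → ℝ}
    (hf : f ∈ RT S.v (S.WE g k)) : S.InX (pt S.h g k s, f) := by
  obtain ⟨a, ⟨a1, a', a2, a3⟩, b, ⟨b1, b', b2, b3⟩, t, ht, h1, rfl⟩ := hf
  have z : (0 : ℝ) ∈ Set.Icc (0 : ℝ) 1 := ⟨le_rfl, zero_le_one⟩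
  have ab : S.h a b = 0 := (DSpace_congr S.th a1 b1).trans (S.th.refl g)
  have aa : S.h a a' = S.h g k := DSpace_congr S.th a1 a2
  have bb : S.h b b' = S.h g k := DSpace_congr S.th b1 b2
  rw [pt_congr S.th a1 a2 s]
  by_cases h0 : S.h g k = 0
  · obtain rfl := S.eq_of_hv (aa.trans h0) a3
    by_cases v0 : S.v a b = 0
    · obtain rfl := S.eq_of_hv ab v0
      obtain ⟨x⟩ := S.ne
      obtain ⟨p, q, q', p', sq, -⟩ := S.full x
      exact ⟨a, p, q, q', p', 0, 0, sq, z, z, Prod.ext (DSpace_pt0 _ _ _ _) (DSpace_pt0 _ _ _ _)⟩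
    · obtain ⟨l, c, rfl⟩ := S.letter_v ab (by omega)
      obtain ⟨p, q, q', p', sq, rfl | rfl⟩ := S.full l
      · rw [(S.D.sq_c _ _ _ _ sq).1] at c
        cases c
      · exact ⟨a, p, q, l, p', 0, t, sq, z, ht, Prod.ext (DSpace_pt0 _ _ _ _) rfl⟩
  · obtain ⟨l1, c1, rfl⟩ := S.letter_h (show S.h a a' = 1 by omega) a3
    by_cases v0 : S.v a b = 0
    · obtain rfl := S.eq_of_hv ab v0
      obtain ⟨p, q, q', p', sq, rfl | rfl⟩ := S.full l1
      · exact ⟨a, l1, q, q', p', s, 0, sq, hs, z, Prod.ext rfl (DSpace_pt0 _ _ _ _)⟩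
      · rw [(S.D.sq_c _ _ _ _ sq).2.2.1] at c1
        cases c1
    · obtain ⟨l2, c2, rfl⟩ := S.letter_h (show S.h b b' = 1 by omega) b3
      obtain ⟨l, c, rfl⟩ := S.letter_v ab (by omega)
      obtain ⟨w, r, cw, e, -⟩ := S.DSpace_word ((DSpace_congr S.th a2 b2).trans (S.th.refl k))
      obtain ⟨q, p', sq⟩ := S.DSpace_sq (U' := []) (l := l) c1 c2 r (List.isChain_singleton _) cw
        (by simpa using c) (by
          refine mul_left_cancel (a := a) ?_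
          rw [← mul_assoc, ← e]
          simp [ev, mul_assoc])
      exact ⟨a, l1, q, l, p', s, t, sq, hs, ht, rfl⟩

theorem sq_mem_pc {g : S.G} {a b b' a' : S.A} (q : S.D.Sq a b b' a') {s t : ℝ}
    (hs : s ∈ Set.Icc (0 : ℝ) 1) (ht : t ∈ Set.Icc (0 : ℝ) 1) (p : S.X) (hp : p.1 = S.sqp g a b' s t) :
    S.h g (g * S.ι a) = 1 ∧ p ∈ S.Pc g (g * S.ι a) := by
  obtain ⟨c1, c2, c3, c4⟩ := S.D.sq_c _ _ _ _ q
  refine ⟨S.DSpace_hl g c1, ⟨s, hs, by rw [hp]; rfl⟩, g,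
    ⟨S.th.refl g, _, S.th.refl _, S.DSpace_vl g c1⟩, g * S.ι b',
    ⟨S.DSpace_hl g c3, _, S.DSpace_hl _ c2, ?_⟩, t, ht, (S.DSpace_vl g c3).le, by rw [hp]; rfl⟩
  rw [mul_assoc, S.pres.sq _ _ _ _ q, ← mul_assoc]
  exact S.DSpace_vl _ c4

theorem WE_conv {g k : S.G} (hk : S.h g k ≤ 1) : ∀ a ∈ S.WE g k, ∀ b ∈ S.WE g k, ∀ n,
    S.v a b = n + 1 → ∃ c ∈ S.WE g k, S.v a c = 1 ∧ S.v c b = n := by
  rintro a ⟨a1, a', a2, a3⟩ b ⟨b1, b', b2, b3⟩ n hn
  obtain ⟨w, r, cw, e, hl⟩ := S.DSpace_word ((DSpace_congr S.th a1 b1).trans (S.th.refl g))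
  obtain ⟨l, w, rfl⟩ := List.exists_cons_of_length_eq_add_one (hl.symm.trans hn)
  have c := cw l (by simp)
  have h1 : S.h a (a * S.ι l) = 0 := S.DSpace_hl a c
  have v1 : S.v a (a * S.ι l) = 1 := S.DSpace_vl a c
  have g1 : S.h g (a * S.ι l) = 0 := by
    have := S.th.tri g a (a * S.ι l)
    omega
  refine ⟨a * S.ι l, ⟨g1, ?_⟩, v1, ?_⟩
  · by_cases h0 : S.h g k = 0
    · exact ⟨_, (DSpace_congr S.th h0 (S.th.refl _)).trans g1, S.tv.refl _⟩
    · have aa : S.h a a' = S.h g k := DSpace_congr S.th a1 a2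
      have bb : S.h b b' = S.h g k := DSpace_congr S.th b1 b2
      obtain ⟨l1, c1, rfl⟩ := S.letter_h (show S.h a a' = 1 by omega) a3
      obtain ⟨l2, c2, rfl⟩ := S.letter_h (show S.h b b' = 1 by omega) b3
      obtain ⟨u, ru, cu, eu, -⟩ := S.DSpace_word ((DSpace_congr S.th a2 b2).trans (S.th.refl k))
      obtain ⟨q, p', sq⟩ := S.DSpace_sq c1 c2 ru r cu cw (by
        refine mul_left_cancel (a := a) ?_
        rw [← mul_assoc, ← eu, e, mul_assoc])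
      obtain ⟨-, d2, -, d4⟩ := S.D.sq_c _ _ _ _ sq
      refine ⟨a * S.ι l * S.ι p', ?_, S.DSpace_vl _ d4⟩
      rw [mul_assoc, ← S.pres.sq _ _ _ _ sq, ← mul_assoc]
      have t1 := S.th.tri k (a * S.ι l1) (a * S.ι l1 * S.ι q)
      have t2 : S.h (a * S.ι l1) (a * S.ι l1 * S.ι q) = 0 := S.DSpace_hl _ d2
      omega
  · have t1 := S.tv.tri a (a * S.ι l) b
    have t2 : S.v (a * S.ι l) b ≤ w.length := by
      have := (len_le (D := S.D.tr) (ι := S.ι) w).trans List.countP_le_length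
      rw [e, ev_cons, ← mul_assoc]
      simpa only [v, rho, inv_mul_cancel_left] using this
    rw [List.length_cons] at hl
    omega

/-- The vertex `g`. -/
noncomputable def vtx (g : S.G) : S.X :=
  ⟨(pt S.h g g 0, pt S.v g g 0), S.inX_pc (by rw [S.th.refl]; omega) ⟨le_rfl, zero_le_one⟩
    ⟨g, ⟨S.th.refl g, g, S.th.refl g, S.tv.refl g⟩, g, ⟨S.th.refl g, g, S.th.refl g, S.tv.refl g⟩,
      0, ⟨le_rfl, zero_le_one⟩, by rw [S.tv.refl]; omega, rfl⟩⟩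

end Sys

end Pool.Agent.FC
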