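import Mathlib

-- part Pool.Agent.P.MP_5e292f_al.GVH
section

set_option autoImplicit false

namespace Pool.Agent.FC

/-- Signed letters with a four-way deterministic family of squares `h v = v' h'`. -/
structure VH (A : Type) where
  c : A → Bool
  sg : A → Bool
  inv : A → A
  Sq : A → A → A → A → Prop
  inv_inv : ∀ a, inv (inv a) = a
  c_inv : ∀ a, c (inv a) = c a
  sg_inv : ∀ a, sg (inv a) = !sg a
  sq_c : ∀ h v v' h', Sq h v v' h' → c h = true ∧ c v = false ∧ c v' = false ∧ c h' = true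
  sq_sg : ∀ h v v' h', Sq h v v' h' → sg h' = sg h ∧ sg v' = sg v
  sq_fun : ∀ h v v' h' v'' h'', Sq h v v' h' → Sq h v v'' h'' → v' = v'' ∧ h' = h''
  sq_r : ∀ h v v' h', Sq h v v' h' → Sq h' (inv v) (inv v') h
  sq_l : ∀ h v v' h', Sq h v v' h' → Sq (inv h) v' v (inv h')

variable {A : Type} {G : Type} [Group G]

theorem VH.sq_inj (D : VH A) {h v v' h' k w : A} (h1 : D.Sq h v v' h') (h2 : D.Sq k w v' h') :
    h = k ∧ v = w := by
  have a := D.sq_l _ _ _ _ (D.sq_r _ _ _ _ h1)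
  have b := D.sq_l _ _ _ _ (D.sq_r _ _ _ _ h2)
  obtain ⟨e1, e2⟩ := D.sq_fun _ _ _ _ _ _ a b
  exact ⟨by rw [← D.inv_inv h, e2, D.inv_inv], by rw [← D.inv_inv v, e1, D.inv_inv]⟩

theorem VH.sq_left (D : VH A) {h v v' h' w k : A} (h1 : D.Sq h v v' h') (h2 : D.Sq h w v' k) :
    v = w ∧ h' = k := by
  obtain ⟨e1, e2⟩ := D.sq_fun _ _ _ _ _ _ (D.sq_l _ _ _ _ h1) (D.sq_l _ _ _ _ h2)
  exact ⟨e1, by rw [← D.inv_inv h', e2, D.inv_inv]⟩

theorem VH.sq_right (D : VH A) {h v v' h' k w : A} (h1 : D.Sq h v v' h') (h2 : D.Sq k v w h') :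
    h = k ∧ v' = w := by
  obtain ⟨e1, e2⟩ := D.sq_fun _ _ _ _ _ _ (D.sq_r _ _ _ _ h1) (D.sq_r _ _ _ _ h2)
  exact ⟨e2, by rw [← D.inv_inv v', e1, D.inv_inv]⟩

/-- The transposed data. -/
def VH.tr (D : VH A) : VH A where
  c a := !D.c a
  sg := D.sg
  inv := D.inv
  Sq v h h' v' := D.Sq h' v' v h
  inv_inv := D.inv_inv
  c_inv a := by rw [D.c_inv]
  sg_inv := D.sg_inv
  sq_c v h h' v' q := by obtain ⟨a, b, c, d⟩ := D.sq_c _ _ _ _ q; simp [a, b, c, d]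
  sq_sg v h h' v' q := by obtain ⟨a, b⟩ := D.sq_sg _ _ _ _ q; exact ⟨b.symm, a.symm⟩
  sq_fun v h h' v' h'' v'' q q' := D.sq_inj q q'
  sq_r v h h' v' q := D.sq_l _ _ _ _ q
  sq_l v h h' v' q := D.sq_r _ _ _ _ q

inductive Eqv (D : VH A) : List A → List A → Prop
  | refl (w : List A) : Eqv D w w
  | symm {u w : List A} : Eqv D u w → Eqv D w u
  | trans {u v w : List A} : Eqv D u v → Eqv D v w → Eqv D u w
  | can (x y : List A) (a : A) : Eqv D (x ++ a :: D.inv a :: y) (x ++ y)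
  | sq (x y : List A) (h v v' h' : A) : D.Sq h v v' h' → Eqv D (x ++ h :: v :: y) (x ++ v' :: h' :: y)

def ev (ι : A → G) (w : List A) : G := (w.map ι).prod

/-- `G` is the group presented by the letters and the squares. -/
structure Pres (D : VH A) (ι : A → G) : Prop where
  inv : ∀ a, ι (D.inv a) = (ι a)⁻¹
  sq : ∀ h v v' h', D.Sq h v v' h' → ι h * ι v = ι v' * ι h'
  surj : ∀ g, ∃ w, ev ι w = g
  eqv : ∀ u w, ev ι u = ev ι w → Eqv D u w

theorem Pres.tr {D : VH A} {ι : A → G} (h : Pres D ι) : Pres D.tr ι := by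
  refine ⟨h.inv, fun v k k' v' q => (h.sq _ _ _ _ q).symm, h.surj, fun u w e => ?_⟩
  have := h.eqv u w e
  clear e
  induction this with
  | refl w => exact .refl w
  | symm _ ih => exact ih.symm
  | trans _ _ i1 i2 => exact i1.trans i2
  | can x y a => exact .can x y a
  | sq x y k v v' k' q => exact (Eqv.sq (D := D.tr) x y v' k' k v q).symm

/-- Irreducible words: no cancelling pair and no corner `h v` of a square. -/
def Irr (D : VH A) (w : List A) : Prop :=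
  w.IsChain fun a b => b ≠ D.inv a ∧ ¬∃ v' h', D.Sq a b v' h'

/-- Freely reduced words. -/
def Red (D : VH A) (w : List A) : Prop := w.IsChain fun a b => b ≠ D.inv a

/-- Least number of horizontal letters in a word for `g`. -/
noncomputable def len (D : VH A) (ι : A → G) (g : G) : ℕ :=
  sInf {n | ∃ w, ev ι w = g ∧ w.countP D.c = n}

noncomputable def rho (D : VH A) (ι : A → G) (g k : G) : ℕ := len D ι (g⁻¹ * k)

/-- A pseudometric with values in `ℕ` that comes from a simplicial tree. -/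
structure TM {α : Type} (ρ : α → α → ℕ) : Prop where
  refl : ∀ a, ρ a a = 0
  symm : ∀ a b, ρ a b = ρ b a
  tri : ∀ a b c, ρ a c ≤ ρ a b + ρ b c
  four : ∀ p q r s, ρ p q + ρ r s ≤ max (ρ p r + ρ q s) (ρ p s + ρ q r)
  par : ∀ a b x, ρ a b = 1 → ρ a x ≠ ρ b x
  step : ∀ a b n, ρ a b = n + 1 → ∃ c, ρ a c = 1 ∧ ρ c b = n

/-- A doubly periodic grid of squares without backtracking. -/
def Torus (D : VH A) : Prop := ∃ (m n : ℕ) (hl vl : ℤ → ℤ → A), 0 < m ∧ 0 < n ∧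
  (∀ i j, D.Sq (hl i j) (vl (i + 1) j) (vl i j) (hl i (j + 1))) ∧
  (∀ i j, hl (i + 1) j ≠ D.inv (hl i j)) ∧ (∀ i j, vl i (j + 1) ≠ D.inv (vl i j)) ∧
  (∀ i j, hl (i + m) j = hl i j) ∧ (∀ i j, hl i (j + n) = hl i j) ∧
  (∀ i j, vl (i + m) j = vl i j) ∧ ∀ i j, vl i (j + n) = vl i j

/-- A grid of squares over the plane without backtracking. -/
def Plane (D : VH A) : Prop := ∃ hl vl : ℤ → ℤ → A,
  (∀ i j, D.Sq (hl i j) (vl (i + 1) j) (vl i j) (hl i (j + 1))) ∧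
  (∀ i j, hl (i + 1) j ≠ D.inv (hl i j)) ∧ ∀ i j, vl i (j + 1) ≠ D.inv (vl i j)

end Pool.Agent.FC
end

-- part Pool.Agent.P.MP_5e292f_al.DRT
section

set_option autoImplicit false

namespace Pool.Agent.FC

variable {α : Type} {ρ : α → α → ℕ}

/-- A point of the real tree, as its distance function on vertices. -/
noncomputable def pt (ρ : α → α → ℕ) (a b : α) (s : ℝ) : α → ℝ :=
  fun x => (1 - s) * ρ a x + s * ρ b x

def RT (ρ : α → α → ℕ) (W : Set α) : Set (α → ℝ) :=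
  {f | ∃ a ∈ W, ∃ b ∈ W, ∃ s ∈ Set.Icc (0 : ℝ) 1, ρ a b ≤ 1 ∧ f = pt ρ a b s}

noncomputable def DD (f g : α → ℝ) : ℝ := ⨆ x, |f x - g x|

theorem RT_mono {W W' : Set α} (h : W ⊆ W') : RT ρ W ⊆ RT ρ W' :=
  fun _ ⟨a, ha, b, hb, s, hs, e⟩ => ⟨a, h ha, b, h hb, s, hs, e⟩

theorem pt_mem {a b : α} {s : ℝ} (h : ρ a b ≤ 1) (hs : s ∈ Set.Icc (0 : ℝ) 1) :
    pt ρ a b s ∈ RT ρ Set.univ := ⟨a, trivial, b, trivial, s, hs, h, rfl⟩

theorem DD_nonneg (f g : α → ℝ) : 0 ≤ DD f g := Real.iSup_nonneg fun _ => abs_nonneg _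

theorem DD_comm (f g : α → ℝ) : DD f g = DD g f := by simp only [DD, abs_sub_comm]

theorem DD_self (f : α → ℝ) : DD f f = 0 := by simp [DD]

theorem DRT_lip (T : TM ρ) (a b x : α) : |(ρ a x : ℝ) - ρ b x| ≤ ρ a b := by
  have h1 : (ρ a x : ℝ) ≤ ρ a b + ρ b x := by exact_mod_cast T.tri a b x
  have h2 : (ρ b x : ℝ) ≤ ρ a b + ρ a x := by
    rw [T.symm a b]; exact_mod_cast T.tri b a x
  exact abs_le.2 ⟨by linarith, by linarith⟩

theorem DRT_le {f g : α → ℝ} {c : ℝ} (h : ∀ x, |f x - g x| ≤ c) (hc : 0 ≤ c) : DD f g ≤ c :=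
  Real.iSup_le h hc

theorem DRT_eq {f g : α → ℝ} {c : ℝ} (h : ∀ x, |f x - g x| ≤ c) (a : α) (ha : |f a - g a| = c) :
    DD f g = c :=
  le_antisymm (DRT_le h (ha ▸ abs_nonneg _))
    (ha ▸ le_ciSup (f := fun x => |f x - g x|) ⟨c, fun _ ⟨x, e⟩ => e ▸ h x⟩ a)

theorem DRT_near (T : TM ρ) {f : α → ℝ} (hf : f ∈ RT ρ Set.univ) :
    ∃ a, ∀ x, |f x - ρ a x| ≤ 1 := by
  obtain ⟨a, -, b, -, s, hs, h, rfl⟩ := hf
  refine ⟨a, fun x => ?_⟩
  have e : pt ρ a b s x - ρ a x = s * ((ρ b x : ℝ) - ρ a x) := by unfold pt; ring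
  have h1 : (ρ a b : ℝ) ≤ 1 := by exact_mod_cast h
  have h2 := DRT_lip T a b x
  rw [e, abs_mul, abs_of_nonneg hs.1, abs_sub_comm]
  exact mul_le_one₀ hs.2 (abs_nonneg _) (h2.trans h1)

theorem pt_congr (T : TM ρ) {a b a' b' : α} (ha : ρ a a' = 0) (hb : ρ b b' = 0) (s : ℝ) :
    pt ρ a b s = pt ρ a' b' s := by
  funext x
  have h1 := DRT_lip T a a' x
  have h2 := DRT_lip T b b' x
  rw [ha, Nat.cast_zero, abs_nonpos_iff, sub_eq_zero] at h1
  rw [hb, Nat.cast_zero, abs_nonpos_iff, sub_eq_zero] at h2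
  unfold pt
  rw [h1, h2]

theorem le_DD (T : TM ρ) {f g : α → ℝ} (hf : f ∈ RT ρ Set.univ) (hg : g ∈ RT ρ Set.univ) (x : α) :
    |f x - g x| ≤ DD f g := by
  obtain ⟨a, ha⟩ := DRT_near T hf
  obtain ⟨b, hb⟩ := DRT_near T hg
  refine le_ciSup (f := fun x => |f x - g x|) ⟨2 + ρ a b, ?_⟩ x
  rintro _ ⟨y, rfl⟩
  obtain ⟨h1, h2⟩ := abs_le.1 (ha y)
  obtain ⟨h3, h4⟩ := abs_le.1 (hb y)
  obtain ⟨h5, h6⟩ := abs_le.1 (DRT_lip T a b y)
  exact abs_le.2 ⟨by linarith, by linarith⟩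

theorem DD_tri (T : TM ρ) {f g k : α → ℝ} (hf : f ∈ RT ρ Set.univ) (hg : g ∈ RT ρ Set.univ)
    (hk : k ∈ RT ρ Set.univ) : DD f k ≤ DD f g + DD g k :=
  DRT_le (fun x => (abs_sub_le (f x) (g x) (k x)).trans
    (add_le_add (le_DD T hf hg x) (le_DD T hg hk x))) (add_nonneg (DD_nonneg _ _) (DD_nonneg _ _))

theorem DD_eq_zero (T : TM ρ) {f g : α → ℝ} (hf : f ∈ RT ρ Set.univ) (hg : g ∈ RT ρ Set.univ)
    (h : DD f g = 0) : f = g := by
  funext x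
  have h1 := le_DD T hf hg x
  rwa [h, abs_nonpos_iff, sub_eq_zero] at h1

theorem DD_edge (T : TM ρ) {a b : α} (h : ρ a b ≤ 1) (s t : ℝ) :
    DD (pt ρ a b s) (pt ρ a b t) = |s - t| * ρ a b := by
  have _ := h
  have e : ∀ x, |pt ρ a b s x - pt ρ a b t x| = |s - t| * |(ρ a x : ℝ) - ρ b x| := fun x => by
    rw [abs_sub_comm (ρ a x : ℝ), ← abs_mul]
    congr 1
    unfold pt; ring
  refine DRT_eq (fun x => ?_) a ?_
  · rw [e]; exact mul_le_mul_of_nonneg_left (DRT_lip T a b x) (abs_nonneg _)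
  · rw [e, T.refl, T.symm b a]; simp

theorem DD_vertex (T : TM ρ) (a : α) {f : α → ℝ} (hf : f ∈ RT ρ Set.univ) :
    DD (pt ρ a a 0) f = f a := by
  obtain ⟨c, -, d, -, s, hs, -, rfl⟩ := hf
  have s1 : 0 ≤ 1 - s := sub_nonneg.2 hs.2
  refine DRT_eq (fun x => ?_) a ?_
  · obtain ⟨h1, h2⟩ := abs_le.1 (DRT_lip T c a x)
    obtain ⟨h3, h4⟩ := abs_le.1 (DRT_lip T d a x)
    have k1 := mul_le_mul_of_nonneg_left h1 s1
    have k2 := mul_le_mul_of_nonneg_left h2 s1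
    have k3 := mul_le_mul_of_nonneg_left h3 hs.1
    have k4 := mul_le_mul_of_nonneg_left h4 hs.1
    unfold pt
    exact abs_le.2 ⟨by linarith, by linarith⟩
  · have h0 : 0 ≤ pt ρ c d s a :=
      add_nonneg (mul_nonneg s1 (Nat.cast_nonneg _)) (mul_nonneg hs.1 (Nat.cast_nonneg _))
    have e : pt ρ a a 0 a = 0 := by unfold pt; rw [T.refl]; simp
    rw [e, zero_sub, abs_neg, abs_of_nonneg h0]

/-- the linear interpolation of a `1`-Lipschitz sequence is `1`-Lipschitz -/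
theorem DRT_interp {u : ℤ → ℝ} (hu : ∀ i j, |u i - u j| ≤ |(i : ℝ) - j|) {x y : ℝ} (h : x ≤ y) :
    |((1 - Int.fract x) * u ⌊x⌋ + Int.fract x * u (⌊x⌋ + 1)) -
      ((1 - Int.fract y) * u ⌊y⌋ + Int.fract y * u (⌊y⌋ + 1))| ≤ y - x := by
  have one : ∀ i, |u (i + 1) - u i| ≤ 1 := fun i => by simpa using hu (i + 1) i
  have ex := Int.floor_add_fract x
  have ey := Int.floor_add_fract y
  rcases (Int.floor_mono h).eq_or_lt with e | l
  · rw [← e] at ey ⊢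
    have e1 : (1 - Int.fract x) * u ⌊x⌋ + Int.fract x * u (⌊x⌋ + 1) -
        ((1 - Int.fract y) * u ⌊x⌋ + Int.fract y * u (⌊x⌋ + 1)) =
        -((y - x) * (u (⌊x⌋ + 1) - u ⌊x⌋)) := by
      have : y - x = Int.fract y - Int.fract x := by linarith
      rw [this]; ring
    rw [e1, abs_neg, abs_mul, abs_of_nonneg (sub_nonneg.2 h)]
    exact mul_le_of_le_one_right (sub_nonneg.2 h) (one _)
  · have l1 : ((⌊x⌋ + 1 : ℤ) : ℝ) ≤ ⌊y⌋ := by exact_mod_cast l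
    have m := hu (⌊x⌋ + 1) ⌊y⌋
    rw [abs_of_nonpos (sub_nonpos.2 l1)] at m
    push_cast at m
    obtain ⟨m1, m2⟩ := abs_le.1 m
    obtain ⟨h1, h2⟩ := abs_le.1 (one ⌊x⌋)
    obtain ⟨h3, h4⟩ := abs_le.1 (one ⌊y⌋)
    have s1 : 0 ≤ 1 - Int.fract x := sub_nonneg.2 (Int.fract_lt_one x).le
    have k1 := mul_le_mul_of_nonneg_left h1 s1
    have k2 := mul_le_mul_of_nonneg_left h2 s1
    have k3 := mul_le_mul_of_nonneg_left h3 (Int.fract_nonneg y)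
    have k4 := mul_le_mul_of_nonneg_left h4 (Int.fract_nonneg y)
    exact abs_le.2 ⟨by linarith, by linarith⟩

theorem DD_line (T : TM ρ) {a : ℤ → α} (ha : ∀ i j, ρ (a i) (a j) = (i - j).natAbs) (x y : ℝ) :
    DD (pt ρ (a ⌊x⌋) (a (⌊x⌋ + 1)) (Int.fract x)) (pt ρ (a ⌊y⌋) (a (⌊y⌋ + 1)) (Int.fract y)) =
      |x - y| := by
  have hr : ∀ i j, (ρ (a i) (a j) : ℝ) = |(i : ℝ) - j| := fun i j => by
    rw [ha, Nat.cast_natAbs]; push_cast; rfl
  have hu : ∀ v i j, |(ρ (a i) v : ℝ) - ρ (a j) v| ≤ |(i : ℝ) - j| := fun v i j =>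
    hr i j ▸ DRT_lip T (a i) (a j) v
  have val : ∀ (n : ℤ) (z : ℝ), n ≤ ⌊z⌋ →
      pt ρ (a ⌊z⌋) (a (⌊z⌋ + 1)) (Int.fract z) (a n) = z - n := fun n z hn => by
    have h1 : (n : ℝ) ≤ ⌊z⌋ := by exact_mod_cast hn
    have ez := Int.floor_add_fract z
    unfold pt
    rw [hr, hr, abs_of_nonneg (sub_nonneg.2 h1), abs_of_nonneg (by push_cast; linarith)]
    push_cast
    linarith
  refine DRT_eq (fun v => ?_) (a (min ⌊x⌋ ⌊y⌋)) ?_
  · rcases le_total x y with h | h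
    · rw [abs_sub_comm x y, abs_of_nonneg (sub_nonneg.2 h)]
      exact DRT_interp (u := fun i => (ρ (a i) v : ℝ)) (hu v) h
    · rw [abs_of_nonneg (sub_nonneg.2 h), abs_sub_comm]
      exact DRT_interp (u := fun i => (ρ (a i) v : ℝ)) (hu v) h
  · rw [val _ x (min_le_left _ _), val _ y (min_le_right _ _)]
    congr 1; ring

end Pool.Agent.FC
end
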