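import Pool.Agent.K.MP_5e292f_al.C4

-- part Pool.Agent.P.MP_5e292f_al.GAxis
section

set_option autoImplicit false

namespace Pool.Agent.FC

variable {G : Type} [Group G] {ρ : G → G → ℕ}

/-- Points between `p` and `q` at the same distance from `p` coincide. -/
theorem btw_unique {α : Type} {ρ : α → α → ℕ} (T : TM ρ) {p q x y : α}
    (hx : ρ p x + ρ x q = ρ p q) (hy : ρ p y + ρ y q = ρ p q) (e : ρ p x = ρ p y) : ρ x y = 0 := by
  have h := T.four x y p q
  rw [T.symm x p, T.symm y p] at h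
  omega

theorem gaxis_pow (T : TM ρ) (hinv : ∀ g a b, ρ (g * a) (g * b) = ρ a b) {g x : G}
    (h0 : ρ x (g * x) ≠ 0) (h2 : ρ x (g * (g * x)) = 2 * ρ x (g * x)) (n : ℕ) :
    ρ x (g ^ n * x) = n * ρ x (g * x) := by
  have key : ∀ n : ℕ, ρ x (g ^ n * x) = n * ρ x (g * x) ∧
      ρ x (g ^ (n + 1) * x) = (n + 1) * ρ x (g * x) := by
    intro n
    induction n with
    | zero => simp [T.refl]
    | succ n ih =>
      refine ⟨ih.2, ?_⟩
      obtain ⟨a, b⟩ := ih
      have e1 : g ^ (n + 1) * x = g ^ n * (g * x) := by rw [pow_succ, mul_assoc]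
      have e2 : g ^ (n + 1 + 1) * x = g ^ n * (g * (g * x)) := by
        rw [pow_succ, pow_succ, mul_assoc, mul_assoc]
      rw [e1] at b
      rw [e2]
      have f := T.four x (g ^ n * (g * x)) (g ^ n * x) (g ^ n * (g * (g * x)))
      have t := T.tri x (g ^ n * (g * x)) (g ^ n * (g * (g * x)))
      rw [hinv, hinv, hinv, hinv, T.symm (g * x) x, a, b, h2] at f
      rw [hinv, hinv, b] at t
      simp only [add_mul, one_mul] at f t ⊢
      omega
  exact (key n).1

/-- An element without fixed point in an invariant convex set has an axis point there. -/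
theorem exists_axis (T : TM ρ) (hinv : ∀ g a b, ρ (g * a) (g * b) = ρ a b) (ε : G → ℤ)
    (hε : ∀ g k, ε (g * k) = ε g + ε k)
    (hε' : ∀ a b, (ε (a⁻¹ * b) - ρ a b) % 2 = 0 ∧ (ρ a b = 0 → ε (a⁻¹ * b) = 0))
    (g : G) (S : Set G) (hne : S.Nonempty) (hS : ∀ x ∈ S, g * x ∈ S)
    (hconv : ∀ x ∈ S, ∀ y ∈ S, ∀ z, ρ x z + ρ z y = ρ x y → z ∈ S)
    (hfix : ∀ x ∈ S, ρ x (g * x) ≠ 0) :
    ∃ x ∈ S, ∀ n : ℕ, ρ x (g ^ n * x) = n * ρ x (g * x) := by
  obtain ⟨x, hx, hmin⟩ : ∃ x ∈ S, ∀ y ∈ S, ρ x (g * x) ≤ ρ y (g * y) :=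
    ⟨Function.argminOn (fun x => ρ x (g * x)) S hne, Function.argminOn_mem _ S hne,
      fun y hy => Function.argminOn_le (fun x => ρ x (g * x)) S hy⟩
  refine ⟨x, hx, gaxis_pow T hinv (hfix x hx) ?_⟩
  obtain ⟨m, hm⟩ := Nat.exists_eq_succ_of_ne_zero (hfix x hx)
  obtain ⟨y, h1, h2⟩ := T.step x (g * x) m hm
  have hy : y ∈ S := hconv x hx (g * x) (hS x hx) y (by omega)
  have h3 : ρ (g * x) (g * y) = 1 := by rw [hinv, h1]
  have h4 := T.par _ _ x h3
  rw [T.symm _ x, T.symm _ x] at h4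
  have t1 := T.tri x (g * x) (g * y)
  have t2 := T.tri x (g * y) (g * x)
  have t3 := T.tri x (g * x) (g * (g * x))
  have t4 := T.tri x (g * y) (g * (g * x))
  have f1 := T.four x (g * y) (g * x) (g * (g * x))
  have f2 := T.four y (g * y) x (g * x)
  have h5 := hmin y hy
  simp only [hinv] at t1 t2 t3 t4 f1 f2
  rw [T.symm y x] at t2 f1 f2
  rw [T.symm (g * y) x] at f2
  have e0 : ε 1 = 0 := by
    have := hε 1 1
    rw [one_mul] at this
    omega
  have e1 : ε x⁻¹ + ε x = 0 := by rw [← hε, inv_mul_cancel, e0]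
  have e2 := (hε' x (g * x)).1
  have e3 := (hε' x (g * (g * x))).2
  simp only [hε] at e2 e3
  omega

/-- Two axis points lie on one line. -/
theorem axis_btw (T : TM ρ) (hinv : ∀ g a b, ρ (g * a) (g * b) = ρ a b) {g o x : G} {τ σ : ℕ}
    (hτ : 0 < τ) (ho : ∀ n : ℕ, ρ o (g ^ n * o) = n * τ) (hx : ∀ n : ℕ, ρ x (g ^ n * x) = n * σ)
    (n : ℕ) (hn : ρ o x < n) :
    ρ ((g ^ n)⁻¹ * o) x + ρ x (g ^ n * o) = ρ ((g ^ n)⁻¹ * o) (g ^ n * o) := by
  have key : ∀ {o x : G} {τ σ : ℕ}, (∀ n : ℕ, ρ o (g ^ n * o) = n * τ) →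
      (∀ n : ℕ, ρ x (g ^ n * x) = n * σ) → τ ≤ σ := by
    intro o x τ σ ho hx
    by_contra hc
    have h1 := Nat.mul_le_mul_left (2 * ρ o x + 1) (show σ + 1 ≤ τ by omega)
    have t1 := T.tri o x (g ^ (2 * ρ o x + 1) * o)
    have t2 := T.tri x (g ^ (2 * ρ o x + 1) * x) (g ^ (2 * ρ o x + 1) * o)
    rw [hinv, hx, T.symm x o] at t2
    rw [ho] at t1
    rw [mul_add_one] at h1
    omega
  have e : σ = τ := le_antisymm (key hx ho) (key ho hx)
  subst e
  have e1 : ρ ((g ^ n)⁻¹ * o) x = ρ o (g ^ n * x) := by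
    rw [← hinv (g ^ n), mul_inv_cancel_left]
  have e2 : ρ ((g ^ n)⁻¹ * o) (g ^ n * o) = n * σ + n * σ := by
    rw [← hinv (g ^ n), mul_inv_cancel_left, ← mul_assoc, ← pow_add, ho, add_mul]
  have t := T.tri ((g ^ n)⁻¹ * o) x (g ^ n * o)
  have f := T.four o (g ^ n * x) x (g ^ n * o)
  rw [hinv, T.symm x o, T.symm (g ^ n * x) x, ho, hx] at f
  have h1 : n ≤ n * σ := Nat.le_mul_of_pos_right n hτ
  omega

theorem gaxis_le (T : TM ρ) (hinv : ∀ g a b, ρ (g * a) (g * b) = ρ a b) (g o : G) (n : ℕ) :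
    ρ o (g ^ n * o) ≤ n * ρ o (g * o) := by
  induction n with
  | zero => simp [T.refl]
  | succ n ih =>
    have t := T.tri o (g ^ n * o) (g ^ n * (g * o))
    rw [hinv] at t
    rw [pow_succ, mul_assoc, add_mul, one_mul]
    omega

/-- A copy of `ℤ × ℤ` contains a nontrivial element with a fixed point. -/
theorem exists_elliptic (T : TM ρ) (hinv : ∀ g a b, ρ (g * a) (g * b) = ρ a b) (ε : G → ℤ)
    (hε : ∀ g k, ε (g * k) = ε g + ε k)
    (hε' : ∀ a b, (ε (a⁻¹ * b) - ρ a b) % 2 = 0 ∧ (ρ a b = 0 → ε (a⁻¹ * b) = 0))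
    (f : Multiplicative (ℤ × ℤ) →* G) : ∃ c, c ≠ 1 ∧ ∃ x, ρ x (f c * x) = 0 := by
  obtain ⟨u, hu⟩ : ∃ u : Multiplicative (ℤ × ℤ), u = Multiplicative.ofAdd (1, 0) := ⟨_, rfl⟩
  obtain ⟨v, hv⟩ : ∃ v : Multiplicative (ℤ × ℤ), v = Multiplicative.ofAdd (0, 1) := ⟨_, rfl⟩
  have inj : ∀ p q : ℕ × ℕ, u ^ p.1 * v ^ p.2 = u ^ q.1 * v ^ q.2 → p = q := by
    intro p q h
    have h1 := congrArg Multiplicative.toAdd h
    simp only [hu, hv, toAdd_mul, toAdd_pow, toAdd_ofAdd, Prod.smul_mk, Prod.mk_add_mk,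
      Prod.mk.injEq, nsmul_eq_mul, mul_one, mul_zero, add_zero, zero_add, Nat.cast_inj] at h1
    exact Prod.ext h1.1 h1.2
  by_cases hfix : ∃ x, ρ x (f u * x) = 0
  · refine ⟨u, fun h => ?_, hfix⟩
    have := inj (1, 0) (0, 0) (by simp [h])
    simp at this
  obtain ⟨o, -, ho⟩ := exists_axis T hinv ε hε hε' (f u) Set.univ ⟨1, trivial⟩
    (fun _ _ => trivial) (fun _ _ _ _ _ _ => trivial) (fun x _ h => hfix ⟨x, h⟩)
  have hτ : 0 < ρ o (f u * o) := Nat.pos_of_ne_zero (fun h => hfix ⟨o, h⟩)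
  obtain ⟨C, hC⟩ : ∃ C, C = ρ o (f u * o) + ρ o (f v * o) := ⟨_, rfl⟩
  have hax : ∀ (c : Multiplicative (ℤ × ℤ)) (n : ℕ),
      ρ (f c * o) (f u ^ n * (f c * o)) = n * ρ o (f u * o) := by
    intro c n
    rw [← mul_assoc, ← map_pow, ← map_mul, mul_comm (u ^ n) c, map_mul, map_pow, mul_assoc, hinv,
      ho]
  have hb : ∀ p ∈ Finset.range (2 * C + 1) ×ˢ Finset.range (2 * C + 1),
      ρ o (f (u ^ p.1 * v ^ p.2) * o) ≤ 2 * C * C := by
    intro p hp
    obtain ⟨h1, h2⟩ := Finset.mem_product.1 hp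
    rw [Finset.mem_range] at h1 h2
    have t := T.tri o (f u ^ p.1 * o) (f u ^ p.1 * (f v ^ p.2 * o))
    rw [hinv] at t
    have a1 := gaxis_le T hinv (f u) o p.1
    have a2 := gaxis_le T hinv (f v) o p.2
    have a3 := Nat.mul_le_mul_right (ρ o (f u * o)) (show p.1 ≤ 2 * C by omega)
    have a4 := Nat.mul_le_mul_right (ρ o (f v * o)) (show p.2 ≤ 2 * C by omega)
    have a5 : 2 * C * C = 2 * C * ρ o (f u * o) + 2 * C * ρ o (f v * o) := by
      rw [← mul_add, ← hC]
    rw [map_mul, map_pow, map_pow, mul_assoc]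
    omega
  obtain ⟨K, hK⟩ : ∃ K, K = 2 * C * C := ⟨_, rfl⟩
  rw [← hK] at hb
  obtain ⟨P, hP⟩ : ∃ P, P = (f u ^ (K + 1))⁻¹ * o := ⟨_, rfl⟩
  have hC0 : 0 < C := by omega
  obtain ⟨p, hp, q, hq, hne, he⟩ := Finset.exists_ne_map_eq_of_card_lt_of_maps_to
    (s := Finset.range (2 * C + 1) ×ˢ Finset.range (2 * C + 1))
    (t := Finset.Icc (ρ P o - K) (ρ P o + K))
    (f := fun p => ρ P (f (u ^ p.1 * v ^ p.2) * o))
    (by
      rw [Finset.card_product, Finset.card_range, Nat.card_Icc]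
      have : (2 * C + 1) * (2 * C + 1) = 2 * K + 4 * C + 1 := by rw [hK]; ring
      omega)
    (fun p hp => by
      have h1 := hb p hp
      have t1 := T.tri P o (f (u ^ p.1 * v ^ p.2) * o)
      have t2 := T.tri P (f (u ^ p.1 * v ^ p.2) * o) o
      rw [T.symm (f (u ^ p.1 * v ^ p.2) * o) o] at t2
      simp only [Finset.coe_Icc, Set.mem_Icc]
      omega)
  have b1 := axis_btw T hinv hτ ho (hax (u ^ p.1 * v ^ p.2)) (K + 1) (Nat.lt_succ_of_le (hb p hp))
  have b2 := axis_btw T hinv hτ ho (hax (u ^ q.1 * v ^ q.2)) (K + 1) (Nat.lt_succ_of_le (hb q hq))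
  rw [← hP] at b1 b2
  have z := btw_unique T b1 b2 he
  refine ⟨(u ^ p.1 * v ^ p.2)⁻¹ * (u ^ q.1 * v ^ q.2), fun h => hne (inj p q ?_), o, ?_⟩
  · exact inv_mul_eq_one.1 h
  · rw [← z, ← hinv (f (u ^ p.1 * v ^ p.2)), ← mul_assoc, ← map_mul, mul_inv_cancel_left]

end Pool.Agent.FC
end

-- part Pool.Agent.P.MP_5e292f_al.GNf
section

set_option autoImplicit false

namespace Pool.Agent.FC

variable {A : Type} {G : Type} [Group G] {D : VH A} {ι : A → G}

theorem ev_append (u w : List A) : ev ι (u ++ w) = ev ι u * ev ι w := by simp [ev]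

theorem ev_cons (a : A) (w : List A) : ev ι (a :: w) = ι a * ev ι w := by simp [ev]

/-- One rewriting step. -/
inductive GNfSt (D : VH A) : List A → List A → Prop
  | can (a b : A) (y : List A) : b = D.inv a → GNfSt D (a :: b :: y) y
  | sq (h v v' h' : A) (y : List A) : D.Sq h v v' h' → GNfSt D (h :: v :: y) (v' :: h' :: y)
  | cons (a : A) {u w : List A} : GNfSt D u w → GNfSt D (a :: u) (a :: w)

/-- The number of pairs with a horizontal letter before a vertical one. -/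
def gnfN (D : VH A) : List A → ℕ
  | [] => 0
  | a :: w => gnfN D w + if D.c a then w.countP D.tr.c else 0

theorem gnf_trc (a : A) : D.tr.c a = !D.c a := rfl

theorem gnf_count {u w : List A} (h : GNfSt D u w) :
    w.countP D.c ≤ u.countP D.c ∧ w.countP D.tr.c ≤ u.countP D.tr.c ∧
      w.length + gnfN D w < u.length + gnfN D u := by
  induction h with
  | can a b y e =>
    simp only [List.countP_cons, List.length_cons, gnfN]
    omega
  | sq h v v' h' y q =>
    obtain ⟨c1, c2, c3, c4⟩ := D.sq_c _ _ _ _ q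
    simp [gnfN, gnf_trc, c1, c2, c3, c4]
  | cons a _ ih =>
    simp only [List.countP_cons, List.length_cons, gnfN]
    split_ifs <;> omega

theorem gnf_ev (h : Pres D ι) {u w : List A} (s : GNfSt D u w) : ev ι w = ev ι u := by
  induction s with
  | can a b y e => rw [ev_cons, ev_cons, e, h.inv, mul_inv_cancel_left]
  | sq k v v' k' y q =>
    rw [ev_cons, ev_cons, ev_cons, ev_cons, ← mul_assoc, ← mul_assoc, h.sq _ _ _ _ q]
  | cons a _ ih => rw [ev_cons, ev_cons, ih]

theorem gnf_irr_step {u w : List A} (s : GNfSt D u w) : ¬Irr D u := by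
  induction s with
  | can a b y e => exact fun hu => (List.isChain_cons_cons.1 hu).1.1 e
  | sq k v v' k' y q => exact fun hu => (List.isChain_cons_cons.1 hu).1.2 ⟨_, _, q⟩
  | cons a _ ih => exact fun hu => ih (List.IsChain.tail hu)

theorem gnf_step_of_not_irr : ∀ u : List A, ¬Irr D u → ∃ w, GNfSt D u w
  | [], h => (h List.IsChain.nil).elim
  | [a], h => (h (List.IsChain.singleton a)).elim
  | a :: b :: y, h => by
    by_cases e : b = D.inv a
    · exact ⟨_, .can a b y e⟩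
    by_cases q : ∃ v' h', D.Sq a b v' h'
    · obtain ⟨v', h', q⟩ := q
      exact ⟨_, .sq _ _ _ _ y q⟩
    obtain ⟨w, s⟩ := gnf_step_of_not_irr (b :: y)
      fun hi => h (List.isChain_cons_cons.2 ⟨⟨e, q⟩, hi⟩)
    exact ⟨_, .cons a s⟩

open Relation

theorem gnf_cons_star (a : A) {u w : List A} (s : ReflTransGen (GNfSt D) u w) :
    ReflTransGen (GNfSt D) (a :: u) (a :: w) := by
  induction s with
  | refl => exact .refl
  | tail _ t ih => exact ih.tail (.cons a t)

theorem gnf_can_cons {a b : A} {y w : List A} (e : b = D.inv a) (s : GNfSt D (b :: y) w) :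
    ∃ z, ReflTransGen (GNfSt D) y z ∧ ReflTransGen (GNfSt D) (a :: w) z := by
  cases s with
  | can _ c y' e' =>
    have : c = a := by rw [e', e, D.inv_inv]
    subst this
    exact ⟨_, .refl, .refl⟩
  | sq _ v v' h' y' q =>
    have q' := D.sq_l _ _ _ _ q
    rw [e, D.inv_inv] at q'
    exact ⟨_, .refl, (ReflTransGen.single (.sq _ _ _ _ _ q')).tail
      (.cons v (.can _ _ _ (D.inv_inv h').symm))⟩
  | cons _ t => exact ⟨_, .single t, .single (.can _ _ _ e)⟩

theorem gnf_sq_cons {h v v' h' : A} {y w : List A} (q : D.Sq h v v' h')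
    (s : GNfSt D (v :: y) w) :
    ∃ z, ReflTransGen (GNfSt D) (v' :: h' :: y) z ∧ ReflTransGen (GNfSt D) (h :: w) z := by
  cases s with
  | can _ c y' e' =>
    have q' := D.sq_r _ _ _ _ q
    rw [← e'] at q'
    exact ⟨_, (ReflTransGen.single (.cons v' (.sq _ _ _ _ _ q'))).tail (.can _ _ _ rfl), .refl⟩
  | sq _ u u' k' y' q' =>
    have c1 := (D.sq_c _ _ _ _ q).2.1
    rw [(D.sq_c _ _ _ _ q').1] at c1
    exact absurd c1 (by decide)
  | cons _ t => exact ⟨_, .single (.cons _ (.cons _ t)), .single (.sq _ _ _ _ _ q)⟩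

theorem gnf_no_can_sq {a b v' h' : A} (e : b = D.inv a) (q : D.Sq a b v' h') : False := by
  obtain ⟨c1, c2, -, -⟩ := D.sq_c _ _ _ _ q
  rw [e, D.c_inv, c1] at c2
  exact absurd c2 (by decide)

theorem gnf_local {u w w' : List A} (s : GNfSt D u w) (s' : GNfSt D u w') :
    ∃ z, ReflTransGen (GNfSt D) w z ∧ ReflTransGen (GNfSt D) w' z := by
  induction s generalizing w' with
  | can a b y e =>
    cases s' with
    | can _ _ _ _ => exact ⟨_, .refl, .refl⟩
    | sq _ _ v' h' _ q => exact (gnf_no_can_sq e q).elim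
    | cons _ t => exact gnf_can_cons e t
  | sq k v v' k' y q =>
    cases s' with
    | can _ _ _ e => exact (gnf_no_can_sq e q).elim
    | sq _ _ v'' k'' _ q' =>
      obtain ⟨rfl, rfl⟩ := D.sq_fun _ _ _ _ _ _ q q'
      exact ⟨_, .refl, .refl⟩
    | cons _ t => exact gnf_sq_cons q t
  | cons a t ih =>
    cases s' with
    | can _ b _ e =>
      obtain ⟨z, h1, h2⟩ := gnf_can_cons e t
      exact ⟨z, h2, h1⟩
    | sq _ v v' k' y q =>
      obtain ⟨z, h1, h2⟩ := gnf_sq_cons q t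
      exact ⟨z, h2, h1⟩
    | cons _ t' =>
      obtain ⟨z, h1, h2⟩ := ih t'
      exact ⟨_, gnf_cons_star a h1, gnf_cons_star a h2⟩

theorem gnf_norm (u : List A) : ∃ w, Irr D w ∧ ReflTransGen (GNfSt D) u w := by
  induction hn : u.length + gnfN D u using Nat.strong_induction_on generalizing u with
  | _ n ih =>
    by_cases hi : Irr D u
    · exact ⟨u, hi, .refl⟩
    obtain ⟨v, s⟩ := gnf_step_of_not_irr u hi
    obtain ⟨w, hw, t⟩ := ih _ (hn ▸ (gnf_count s).2.2) v rfl
    exact ⟨w, hw, t.head s⟩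

theorem gnf_irr_star {u w : List A} (hu : Irr D u) (s : ReflTransGen (GNfSt D) u w) : u = w := by
  rcases s.cases_head with e | ⟨c, t, -⟩
  · exact e
  · exact (gnf_irr_step t hu).elim

theorem gnf_newman (u : List A) : ∀ w w', Irr D w → Irr D w' → ReflTransGen (GNfSt D) u w →
    ReflTransGen (GNfSt D) u w' → w = w' := by
  induction hn : u.length + gnfN D u using Nat.strong_induction_on generalizing u with
  | _ n ih =>
    intro w w' hw hw' s s'
    rcases s.cases_head with e | ⟨c, t, r⟩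
    · subst e; exact gnf_irr_star hw s'
    rcases s'.cases_head with e | ⟨c', t', r'⟩
    · subst e; exact (gnf_irr_step t hw').elim
    obtain ⟨z, h1, h2⟩ := gnf_local t t'
    obtain ⟨m, hm, h3⟩ := gnf_norm (D := D) z
    exact (ih _ (hn ▸ (gnf_count t).2.2) c rfl w m hw hm r (h1.trans h3)).trans
      (ih _ (hn ▸ (gnf_count t').2.2) c' rfl m w' hm hw' (h2.trans h3) r')

theorem gnf_ctx (x : List A) {u w : List A} (s : GNfSt D u w) : GNfSt D (x ++ u) (x ++ w) := by
  induction x with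
  | nil => exact s
  | cons a x ih => exact .cons a ih

theorem gnf_step_iff {u w n : List A} (s : GNfSt D u w) (hn : Irr D n) :
    ReflTransGen (GNfSt D) u n ↔ ReflTransGen (GNfSt D) w n := by
  refine ⟨fun t => ?_, fun t => t.head s⟩
  obtain ⟨m, hm, r⟩ := gnf_norm (D := D) w
  rw [gnf_newman u n m hn hm t (r.head s)]
  exact r

theorem gnf_eqv {u w n : List A} (e : Eqv D u w) (hn : Irr D n) :
    ReflTransGen (GNfSt D) u n ↔ ReflTransGen (GNfSt D) w n := by
  induction e with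
  | refl w => exact Iff.rfl
  | symm _ ih => exact ih.symm
  | trans _ _ i1 i2 => exact i1.trans i2
  | can x y a => exact gnf_step_iff (gnf_ctx x (.can a _ y rfl)) hn
  | sq x y h v v' h' q => exact gnf_step_iff (gnf_ctx x (.sq h v v' h' y q)) hn

/-- Every word has an irreducible equivalent with no more letters of either kind. -/
theorem nf_exists (h : Pres D ι) (u : List A) : ∃ w, Irr D w ∧ ev ι w = ev ι u ∧
    w.countP D.c ≤ u.countP D.c ∧ w.countP D.tr.c ≤ u.countP D.tr.c := by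
  obtain ⟨w, hw, s⟩ := gnf_norm (D := D) u
  refine ⟨w, hw, ?_⟩
  clear hw
  induction s with
  | refl => exact ⟨rfl, le_rfl, le_rfl⟩
  | tail _ t ih =>
    exact ⟨(gnf_ev h t).trans ih.1, (gnf_count t).1.trans ih.2.1, (gnf_count t).2.1.trans ih.2.2⟩

theorem nf_unique (h : Pres D ι) {u w : List A} (hu : Irr D u) (hw : Irr D w)
    (e : ev ι u = ev ι w) : u = w :=
  gnf_irr_star hu ((gnf_eqv (h.eqv u w e) hw).2 .refl)

theorem len_irr (h : Pres D ι) {w : List A} (hw : Irr D w) :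
    len D ι (ev ι w) = w.countP D.c ∧ len D.tr ι (ev ι w) = w.countP D.tr.c := by
  constructor
  · refine le_antisymm (Nat.sInf_le ⟨w, rfl, rfl⟩) (le_csInf ⟨_, w, rfl, rfl⟩ ?_)
    rintro n ⟨u, e, rfl⟩
    obtain ⟨w', hw', e', c1, -⟩ := nf_exists h u
    rw [← nf_unique h hw' hw (e'.trans e)]
    exact c1
  · refine le_antisymm (Nat.sInf_le ⟨w, rfl, rfl⟩) (le_csInf ⟨_, w, rfl, rfl⟩ ?_)
    rintro n ⟨u, e, rfl⟩
    obtain ⟨w', hw', e', -, c2⟩ := nf_exists h u
    rw [← nf_unique h hw' hw (e'.trans e)]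
    exact c2

theorem len_le (w : List A) : len D ι (ev ι w) ≤ w.countP D.c :=
  Nat.sInf_le ⟨w, rfl, rfl⟩

/-- A reduced word in letters of one kind is irreducible. -/
theorem irr_of_red {w : List A} {b : Bool} (hw : Red D w) (hc : ∀ a ∈ w, D.c a = b) : Irr D w := by
  refine List.IsChain.imp_of_mem_imp (fun x y hx hy e => ⟨e, ?_⟩) hw
  rintro ⟨v', h', q⟩
  obtain ⟨c1, c2, -, -⟩ := D.sq_c _ _ _ _ q
  rw [hc x hx] at c1
  rw [hc y hy, c1] at c2
  exact absurd c2 (by decide)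

/-- A reduced vertical word followed by a reduced horizontal word is irreducible. -/
theorem irr_vh {u w : List A} (hu : Red D u) (hw : Red D w) (cu : ∀ a ∈ u, D.c a = false)
    (cw : ∀ a ∈ w, D.c a = true) : Irr D (u ++ w) := by
  refine List.IsChain.append (irr_of_red hu cu) (irr_of_red hw cw) fun x hx y hy => ?_
  have c1 := cu x (List.mem_of_mem_getLast? hx)
  have c2 := cw y (List.mem_of_mem_head? hy)
  refine ⟨fun e => ?_, ?_⟩
  · rw [e, D.c_inv, c1] at c2
    exact absurd c2 (by decide)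
  · rintro ⟨v', h', q⟩
    rw [(D.sq_c _ _ _ _ q).1] at c1
    exact absurd c1 (by decide)

theorem gnf_word (h : Pres D ι) (g : G) : ∃ w, Irr D w ∧ ev ι w = g ∧
    len D ι g = w.countP D.c ∧ len D.tr ι g = w.countP D.tr.c := by
  obtain ⟨u, rfl⟩ := h.surj g
  obtain ⟨w, hw, e, -, -⟩ := nf_exists h u
  exact ⟨w, hw, e, e ▸ len_irr h hw⟩

theorem len_zero (h : Pres D ι) {g : G} (hg : len D ι g = 0) :
    ∃ w, Red D w ∧ (∀ a ∈ w, D.c a = false) ∧ ev ι w = g ∧ len D.tr ι g = w.length := by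
  obtain ⟨w, hw, e, l1, l2⟩ := gnf_word h g
  rw [hg, eq_comm, List.countP_eq_zero] at l1
  have hc : ∀ a ∈ w, D.c a = false := fun a ha => by simpa using l1 a ha
  refine ⟨w, List.IsChain.imp (fun _ _ t => t.1) hw, hc, e, ?_⟩
  rw [l2, List.countP_eq_length]
  intro a ha
  rw [gnf_trc, hc a ha]; rfl

theorem gnf_length (w : List A) : w.length = w.countP D.c + w.countP D.tr.c := by
  induction w with
  | nil => rfl
  | cons a w ih =>
    cases e : D.c a <;> simp [gnf_trc, e] <;> omega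

theorem finite_ball [Finite A] (h : Pres D ι) (n : ℕ) :
    {g : G | len D ι g ≤ n ∧ len D.tr ι g ≤ n}.Finite := by
  refine ((List.finite_length_le A (2 * n)).image (ev ι)).subset ?_
  rintro g ⟨h1, h2⟩
  obtain ⟨w, -, e, l1, l2⟩ := gnf_word h g
  refine ⟨w, ?_, e⟩
  show w.length ≤ 2 * n
  rw [gnf_length (D := D)]
  omega

/-- The sign of a letter. -/
def gnfS (D : VH A) (a : A) : ℤ := if D.c a then (if D.sg a then 1 else -1) else 0

theorem gnf_S_eqv {u w : List A} (e : Eqv D u w) :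
    (u.map (gnfS D)).sum = (w.map (gnfS D)).sum := by
  induction e with
  | refl w => rfl
  | symm _ ih => exact ih.symm
  | trans _ _ i1 i2 => exact i1.trans i2
  | can x y a =>
    have : gnfS D a + gnfS D (D.inv a) = 0 := by
      unfold gnfS
      rw [D.c_inv, D.sg_inv]
      cases D.c a <;> cases D.sg a <;> simp
    simp only [List.map_append, List.map_cons, List.sum_append, List.sum_cons]
    linarith
  | sq x y h v v' h' q =>
    obtain ⟨c1, c2, c3, c4⟩ := D.sq_c _ _ _ _ q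
    have : gnfS D h + gnfS D v = gnfS D v' + gnfS D h' := by
      unfold gnfS
      rw [c1, c2, c3, c4, (D.sq_sg _ _ _ _ q).1]
      simp
    simp only [List.map_append, List.map_cons, List.sum_append, List.sum_cons]
    linarith

theorem gnf_S_par (w : List A) : ((w.map (gnfS D)).sum - (w.countP D.c : ℕ)) % 2 = 0 ∧
    (w.countP D.c = 0 → (w.map (gnfS D)).sum = 0) := by
  induction w with
  | nil => simp
  | cons a w ih =>
    simp only [List.map_cons, List.sum_cons, List.countP_cons]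
    generalize (w.map (gnfS D)).sum = S at *
    unfold gnfS
    obtain ⟨i1, i2⟩ := ih
    constructor
    · split_ifs <;> omega
    · by_cases c1 : D.c a = true
      · rw [if_pos c1, if_pos c1]
        exact fun e => absurd e (Nat.succ_ne_zero _)
      · rw [if_neg c1, if_neg c1]
        omega

/-- The signed count of horizontal letters. -/
theorem exists_eps (h : Pres D ι) : ∃ ε : G → ℤ, (∀ g k, ε (g * k) = ε g + ε k) ∧
    ∀ g, (ε g - len D ι g) % 2 = 0 ∧ (len D ι g = 0 → ε g = 0) := by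
  choose f hf using h.surj
  have key : ∀ w, ((f (ev ι w)).map (gnfS D)).sum = (w.map (gnfS D)).sum :=
    fun w => gnf_S_eqv (h.eqv _ _ (hf _))
  refine ⟨fun g => ((f g).map (gnfS D)).sum, fun g k => ?_, fun g => ?_⟩
  · have := key (f g ++ f k)
    rw [ev_append, hf, hf] at this
    simpa using this
  · obtain ⟨w, -, rfl, l1, -⟩ := gnf_word h g
    simp only [key, l1]
    exact gnf_S_par w

end Pool.Agent.FC
end

-- part Pool.Agent.P.MP_5e292f_al.GPres
section

set_option autoImplicit false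

namespace Pool.Agent.FC

theorem gpres_left {A : Type} {D : VH A} (p : List A) {u w : List A} (h : Eqv D u w) :
    Eqv D (p ++ u) (p ++ w) := by
  induction h with
  | refl w => exact .refl _
  | symm _ ih => exact ih.symm
  | trans _ _ i1 i2 => exact i1.trans i2
  | can x y a => simpa only [List.append_assoc] using Eqv.can (D := D) (p ++ x) y a
  | sq x y h v v' h' q => simpa only [List.append_assoc] using Eqv.sq (p ++ x) y h v v' h' q

theorem gpres_right {A : Type} {D : VH A} (p : List A) {u w : List A} (h : Eqv D u w) :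
    Eqv D (u ++ p) (w ++ p) := by
  induction h with
  | refl w => exact .refl _
  | symm _ ih => exact ih.symm
  | trans _ _ i1 i2 => exact i1.trans i2
  | can x y a =>
    simpa only [List.append_assoc, List.cons_append] using Eqv.can (D := D) x (y ++ p) a
  | sq x y h v v' h' q =>
    simpa only [List.append_assoc, List.cons_append] using Eqv.sq x (y ++ p) h v v' h' q

/-- The congruence on the free monoid. -/
def gpresCon {A : Type} (D : VH A) : Con (FreeMonoid A) where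
  r u w := Eqv D u.toList w.toList
  iseqv := ⟨fun _ => .refl _, fun h => h.symm, fun h h' => h.trans h'⟩
  mul' {a b c d} h h' := by
    show Eqv D (a.toList ++ c.toList) (b.toList ++ d.toList)
    exact (gpres_right _ h).trans (gpres_left _ h')

theorem gpres_mul {A : Type} (D : VH A) (a : A) :
    (gpresCon D).mk' (FreeMonoid.of a) * (gpresCon D).mk' (FreeMonoid.of (D.inv a)) = 1 := by
  rw [← map_mul, ← map_one (gpresCon D).mk']
  exact (Con.eq _).2 (Eqv.can (D := D) [] [] a)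

theorem gpres_ev {A : Type} (D : VH A) (w : List A) :
    (w.map fun a => (gpresCon D).mk' (FreeMonoid.of a)).prod =
      (gpresCon D).mk' (FreeMonoid.ofList w) := by
  induction w with
  | nil => simp
  | cons a w ih => rw [List.map_cons, List.prod_cons, ih, ← map_mul, FreeMonoid.ofList_cons]

theorem gpres_unit {A : Type} (D : VH A) (g : (gpresCon D).Quotient) : IsUnit g := by
  obtain ⟨w, rfl⟩ := (gpresCon D).mk'_surjective g
  induction w using FreeMonoid.inductionOn' with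
  | one => simp
  | of_mul a w ih =>
    rw [map_mul]
    refine IsUnit.mul ⟨⟨_, (gpresCon D).mk' (FreeMonoid.of (D.inv a)), gpres_mul D a, ?_⟩, rfl⟩ ih
    have := gpres_mul D (D.inv a)
    rwa [D.inv_inv] at this

theorem exists_pres {A : Type} (D : VH A) : ∃ (G : Type) (_ : Group G) (ι : A → G), Pres D ι := by
  refine ⟨(gpresCon D).Quotient, groupOfIsUnit (gpres_unit D),
    fun a => (gpresCon D).mk' (FreeMonoid.of a), ?_⟩
  let _ : Group (gpresCon D).Quotient := groupOfIsUnit (gpres_unit D)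
  refine ⟨fun a => eq_inv_of_mul_eq_one_right (gpres_mul D a), fun h v v' h' q => ?_,
    fun g => ?_, fun u w e => ?_⟩
  · show (gpresCon D).mk' (FreeMonoid.of h * FreeMonoid.of v) =
      (gpresCon D).mk' (FreeMonoid.of v' * FreeMonoid.of h')
    exact (Con.eq _).2 (Eqv.sq [] [] h v v' h' q)
  · obtain ⟨w, rfl⟩ := (gpresCon D).mk'_surjective g
    exact ⟨w.toList, gpres_ev D _⟩
  · have e' : (gpresCon D).mk' (FreeMonoid.ofList u) = (gpresCon D).mk' (FreeMonoid.ofList w) :=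
      (gpres_ev D u).symm.trans (e.trans (gpres_ev D w))
    exact (Con.eq _).1 e'

end Pool.Agent.FC
end

-- part Pool.Agent.P.MP_5e292f_al.DRT2
section

set_option autoImplicit false

namespace Pool.Agent.FC

variable {α : Type} {ρ : α → α → ℕ}

/-- Gromov product at `o` -/
noncomputable def drt2M (ρ : α → α → ℕ) (o a x : α) : ℝ := ((ρ o a : ℝ) + ρ o x - ρ a x) / 2

/-- the point at height `h` between `o` and `a` -/
noncomputable def drt2P (ρ : α → α → ℕ) (o a : α) (h : ℝ) : α → ℝ :=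
  fun x => h + ρ o x - 2 * min h (drt2M ρ o a x)

theorem drt2_comm (T : TM ρ) (o a c : α) : drt2M ρ o a c = drt2M ρ o c a := by
  unfold drt2M
  rw [T.symm a c]
  ring

theorem drt2_self (T : TM ρ) (o a : α) : drt2M ρ o a a = ρ o a := by
  unfold drt2M
  rw [T.refl a]
  push_cast
  ring

theorem drt2_nonneg (T : TM ρ) (o a c : α) : 0 ≤ drt2M ρ o a c := by
  have h := T.tri a o c
  rw [T.symm a o] at h
  have h' : (ρ a c : ℝ) ≤ ρ o a + ρ o c := by exact_mod_cast h
  unfold drt2M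
  linarith

theorem drt2_ultra (T : TM ρ) (o a c x : α) :
    drt2M ρ o a x ≤ drt2M ρ o a c ∨ drt2M ρ o c x ≤ drt2M ρ o a c := by
  have h := T.four a c o x
  rw [T.symm a o, T.symm c o] at h
  unfold drt2M
  rcases le_max_iff.1 h with h | h
  · have h' : (ρ a c : ℝ) + ρ o x ≤ ρ o a + ρ c x := by exact_mod_cast h
    right
    linarith
  · have h' : (ρ a c : ℝ) + ρ o x ≤ ρ a x + ρ o c := by exact_mod_cast h
    left
    linarith

theorem drt2_edge (T : TM ρ) {o a b : α} (hab : ρ a b ≤ 1) (ho : ρ o b ≤ ρ o a) {s : ℝ}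
    (hs : s ∈ Set.Icc (0 : ℝ) 1) : pt ρ a b s = drt2P ρ o a (ρ o a - s * ρ a b) := by
  funext x
  obtain ⟨s0, s1⟩ := hs
  have t1 := T.tri a b x
  have t2 := T.tri b a x
  have t3 := T.tri o a x
  have t4 := T.tri o b x
  have t5 := T.tri o b a
  have t6 := T.four o a b x
  rw [T.symm b a] at t2 t5
  unfold pt drt2P drt2M
  rcases Nat.le_one_iff_eq_zero_or_eq_one.1 hab with h | h
  · have e : ρ b x = ρ a x := by omega
    have h3 : (ρ o x : ℝ) ≤ ρ o a + ρ a x := by exact_mod_cast t3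
    rw [h, e, min_eq_right (by push_cast; linarith)]
    push_cast
    ring
  · have p1 := T.par a b x h
    have p2 := T.par a b o h
    rw [T.symm a o, T.symm b o] at p2
    rw [h]
    rcases lt_or_gt_of_ne p1 with h1 | h1
    · have e1 : ρ b x = ρ a x + 1 := by omega
      have e2 : ρ o x = ρ o a + ρ a x := by omega
      rw [e1, e2, min_eq_left (by push_cast; linarith)]
      push_cast
      ring
    · have e1 : ρ a x = ρ b x + 1 := by omega
      have e2 : ρ o x + 2 ≤ ρ o a + ρ a x := by omega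
      have h3 : (ρ o x : ℝ) + 2 ≤ ρ o a + ρ a x := by exact_mod_cast e2
      rw [min_eq_right (by push_cast; linarith), e1]
      push_cast
      ring

theorem drt2_rep0 (T : TM ρ) {o a b : α} (hab : ρ a b ≤ 1) (ho : ρ o b ≤ ρ o a) {s : ℝ}
    (hs : s ∈ Set.Icc (0 : ℝ) 1) : ∃ h : ℝ, 0 ≤ h ∧ h ≤ ρ o a ∧ pt ρ a b s = drt2P ρ o a h := by
  refine ⟨_, ?_, ?_, drt2_edge T hab ho hs⟩
  · have e : ρ a b ≤ ρ o a := by
      rcases Nat.le_one_iff_eq_zero_or_eq_one.1 hab with h | h
      · omega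
      · have p2 := T.par a b o h
        rw [T.symm a o, T.symm b o] at p2
        omega
    have e' : (ρ a b : ℝ) ≤ ρ o a := by exact_mod_cast e
    have := mul_le_mul_of_nonneg_right hs.2 (Nat.cast_nonneg (ρ a b) : (0 : ℝ) ≤ _)
    linarith
  · have := mul_nonneg hs.1 (Nat.cast_nonneg (ρ a b) : (0 : ℝ) ≤ _)
    linarith

theorem drt2_rep (T : TM ρ) (o : α) {W : Set α} {p : α → ℝ} (hp : p ∈ RT ρ W) :
    ∃ a ∈ W, ∃ h : ℝ, 0 ≤ h ∧ h ≤ ρ o a ∧ p = drt2P ρ o a h := by
  obtain ⟨a, ha, b, hb, s, hs, hab, rfl⟩ := hp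
  rcases le_total (ρ o b) (ρ o a) with h | h
  · exact ⟨a, ha, drt2_rep0 T hab h hs⟩
  · have e : pt ρ a b s = pt ρ b a (1 - s) := by
      funext x
      unfold pt
      ring
    rw [e]
    exact ⟨b, hb, drt2_rep0 T (by rwa [T.symm b a]) h ⟨by linarith [hs.2], by linarith [hs.1]⟩⟩

theorem drt2_side (T : TM ρ) (o a c x : α) (h k : ℝ) :
    drt2P ρ o a h x - drt2P ρ o c k x ≤ h + k - 2 * min (min h k) (drt2M ρ o a c) := by
  have m1 : min (min h k) (drt2M ρ o a c) ≤ h := (min_le_left _ _).trans (min_le_left _ _)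
  have m2 : min (min h k) (drt2M ρ o a c) ≤ k := (min_le_left _ _).trans (min_le_right _ _)
  have m3 : min (min h k) (drt2M ρ o a c) ≤ drt2M ρ o a c := min_le_right _ _
  have m4 := min_le_left k (drt2M ρ o c x)
  have m5 := min_le_right k (drt2M ρ o c x)
  have u := drt2_ultra T o a x c
  rw [drt2_comm T o x c] at u
  unfold drt2P
  rcases min_choice h (drt2M ρ o a x) with e | e <;> rw [e]
  · linarith
  · rcases u with u | u <;> linarith

theorem drt2_DD (T : TM ρ) (o a c : α) {h k : ℝ} (hh : h ≤ ρ o a) (hk : k ≤ ρ o c) :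
    DD (drt2P ρ o a h) (drt2P ρ o c k) = h + k - 2 * min (min h k) (drt2M ρ o a c) := by
  have up : ∀ x, |drt2P ρ o a h x - drt2P ρ o c k x| ≤
      h + k - 2 * min (min h k) (drt2M ρ o a c) := fun x => by
    have h1 := drt2_side T o a c x h k
    have h2 := drt2_side T o c a x k h
    rw [drt2_comm T o c a, min_comm k h] at h2
    rw [abs_le]
    constructor <;> linarith
  have : Nonempty α := ⟨o⟩
  have bd : BddAbove (Set.range fun x => |drt2P ρ o a h x - drt2P ρ o c k x|) :=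
    ⟨_, by rintro _ ⟨x, rfl⟩; exact up x⟩
  refine le_antisymm (ciSup_le up) ?_
  have l1 : h + k - 2 * min k (drt2M ρ o a c) ≤ DD (drt2P ρ o a h) (drt2P ρ o c k) := by
    refine le_trans ?_ ((neg_le_abs _).trans (le_ciSup bd a))
    unfold drt2P
    rw [drt2_self T, min_eq_left hh, drt2_comm T o c a]
    linarith
  have l2 : h + k - 2 * min h (drt2M ρ o a c) ≤ DD (drt2P ρ o a h) (drt2P ρ o c k) := by
    refine le_trans ?_ ((le_abs_self _).trans (le_ciSup bd c))
    unfold drt2P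
    rw [drt2_self T, min_eq_left hk]
    linarith
  rcases min_choice h k with e | e <;> rw [e] <;> assumption

theorem drt2_ultra' (T : TM ρ) (o a c x : α) (h k l : ℝ) :
    min (min h l) (drt2M ρ o a x) ≤ min (min h k) (drt2M ρ o a c) ∨
      min (min k l) (drt2M ρ o c x) ≤ min (min h k) (drt2M ρ o a c) := by
  rw [← min_le_iff]
  refine le_min (le_min ?_ ?_) ?_
  · exact (min_le_left _ _).trans ((min_le_left _ _).trans (min_le_left _ _))
  · exact (min_le_right _ _).trans ((min_le_left _ _).trans (min_le_left _ _))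
  · rcases drt2_ultra T o a c x with u | u
    · exact (min_le_left _ _).trans ((min_le_right _ _).trans u)
    · exact (min_le_right _ _).trans ((min_le_right _ _).trans u)

theorem DD_four (T : TM ρ) {p q r s : α → ℝ} (hp : p ∈ RT ρ Set.univ) (hq : q ∈ RT ρ Set.univ)
    (hr : r ∈ RT ρ Set.univ) (hs : s ∈ RT ρ Set.univ) :
    DD p q + DD r s ≤ max (DD p r + DD q s) (DD p s + DD q r) := by
  have ⟨o, _⟩ := hp
  obtain ⟨a, -, h1, -, k1, rfl⟩ := drt2_rep T o hp
  obtain ⟨b, -, h2, -, k2, rfl⟩ := drt2_rep T o hq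
  obtain ⟨c, -, h3, -, k3, rfl⟩ := drt2_rep T o hr
  obtain ⟨d, -, h4, -, k4, rfl⟩ := drt2_rep T o hs
  rw [drt2_DD T o a b k1 k2, drt2_DD T o c d k3 k4, drt2_DD T o a c k1 k3, drt2_DD T o b d k2 k4,
    drt2_DD T o a d k1 k4, drt2_DD T o b c k2 k3]
  have u1 := drt2_ultra' T o a b c h1 h2 h3
  have u2 := drt2_ultra' T o a b d h1 h2 h4
  have u3 := drt2_ultra' T o c d a h3 h4 h1
  have u4 := drt2_ultra' T o c d b h3 h4 h2
  rw [drt2_comm T o c a, drt2_comm T o d a, min_comm h3 h1, min_comm h4 h1] at u3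
  rw [drt2_comm T o c b, drt2_comm T o d b, min_comm h3 h2, min_comm h4 h2] at u4
  by_contra hn
  rw [not_le, max_lt_iff] at hn
  obtain ⟨n1, n2⟩ := hn
  rcases u1 with u1 | u1 <;> rcases u2 with u2 | u2 <;> rcases u3 with u3 | u3 <;>
    rcases u4 with u4 | u4 <;> linarith

theorem drt2_real {a b d L t : ℝ} (d0 : 0 ≤ d) (t0 : 0 ≤ t) (h : d ≤ a - t * L) (h1 : a ≤ b + L)
    (h2 : L ≤ a + b) : d ^ 2 ≤ (1 - t) * a ^ 2 + t * b ^ 2 - t * (1 - t) * L ^ 2 := by
  have e1 : d ^ 2 ≤ (a - t * L) ^ 2 := pow_le_pow_left₀ d0 h 2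
  have e2 : 0 ≤ t * ((b - (a - L)) * (b + (a - L))) :=
    mul_nonneg t0 (mul_nonneg (by linarith) (by linarith))
  linarith

theorem DD_cn (T : TM ρ) {p q z m : α → ℝ} (hp : p ∈ RT ρ Set.univ) (hq : q ∈ RT ρ Set.univ)
    (hz : z ∈ RT ρ Set.univ) (hm : m ∈ RT ρ Set.univ) {t : ℝ} (ht : t ∈ Set.Icc (0 : ℝ) 1)
    (h1 : DD p m = t * DD p q) (h2 : DD m q = (1 - t) * DD p q) :
    DD z m ^ 2 ≤ (1 - t) * DD z p ^ 2 + t * DD z q ^ 2 - t * (1 - t) * DD p q ^ 2 := by
  have f := DD_four T hz hm hp hq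
  have t1 := DD_tri T hz hq hp
  have t2 := DD_tri T hz hp hq
  have t3 := DD_tri T hp hz hq
  rw [DD_comm q p] at t1
  rw [DD_comm p z] at t3
  rw [DD_comm m p, h1, h2] at f
  rcases le_max_iff.1 f with f | f
  · exact drt2_real (DD_nonneg z m) ht.1 (by linarith) t1 t3
  · have := drt2_real (a := DD z q) (b := DD z p) (L := DD p q) (t := 1 - t) (DD_nonneg z m)
      (by linarith [ht.2]) (by linarith) t2 (by linarith)
    linarith

theorem drt2_mem (T : TM ρ) {W : Set α}
    (hW : ∀ a ∈ W, ∀ b ∈ W, ∀ n, ρ a b = n + 1 → ∃ c ∈ W, ρ a c = 1 ∧ ρ c b = n) {o : α}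
    (ho : o ∈ W) (n : ℕ) : ∀ a ∈ W, ρ a o = n → ∀ h : ℝ, 0 ≤ h → h ≤ ρ o a →
      drt2P ρ o a h ∈ RT ρ W := by
  induction n with
  | zero =>
    intro a ha e h h0 h1
    refine ⟨a, ha, a, ha, 0, ⟨le_rfl, zero_le_one⟩, by rw [T.refl]; omega, ?_⟩
    rw [drt2_edge T (o := o) (by rw [T.refl]; omega) le_rfl ⟨le_rfl, zero_le_one⟩]
    rw [T.symm o a, e] at h1 ⊢
    congr 1
    push_cast at h1 ⊢
    linarith
  | succ n ih =>
    intro a ha e h h0 h1
    obtain ⟨c, hc, e1, e2⟩ := hW a ha o ho n e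
    have e3 : ρ o a = n + 1 := by rw [T.symm, e]
    have e4 : ρ o c = n := by rw [T.symm, e2]
    rcases le_total h n with hn | hn
    · have m : drt2M ρ o a c = n := by
        unfold drt2M
        rw [e1, e3, e4]
        push_cast
        ring
      have e5 : drt2P ρ o a h = drt2P ρ o c h := by
        funext x
        have u1 := drt2_ultra T o a x c
        have u2 := drt2_ultra T o c x a
        rw [drt2_comm T o x c, m] at u1
        rw [drt2_comm T o x a, drt2_comm T o c a, m] at u2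
        unfold drt2P
        congr 2
        refine le_antisymm (le_min (min_le_left _ _) ?_) (le_min (min_le_left _ _) ?_)
        · rcases u2 with u | u
          exacts [(min_le_left _ _).trans (hn.trans u), (min_le_right _ _).trans u]
        · rcases u1 with u | u
          exacts [(min_le_left _ _).trans (hn.trans u), (min_le_right _ _).trans u]
      rw [e5]
      exact ih c hc e2 h h0 (by rwa [e4])
    · have hs : (ρ o a : ℝ) - h ∈ Set.Icc (0 : ℝ) 1 := by
        refine ⟨by linarith, ?_⟩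
        rw [e3]
        push_cast
        linarith
      refine ⟨a, ha, c, hc, ρ o a - h, hs, e1.le, ?_⟩
      rw [drt2_edge T (o := o) e1.le (by omega) hs, e1]
      congr 1
      push_cast
      ring

theorem drt2_geo (T : TM ρ) {W : Set α}
    (hW : ∀ a ∈ W, ∀ b ∈ W, ∀ n, ρ a b = n + 1 → ∃ c ∈ W, ρ a c = 1 ∧ ρ c b = n) {o a c : α}
    (ho : o ∈ W) (ha : a ∈ W) {h k τ : ℝ} (h0 : 0 ≤ h) (h1 : h ≤ ρ o a) (k0 : 0 ≤ k)
    (k1 : k ≤ ρ o c) (t0 : 0 ≤ τ) (t1 : τ ≤ h - min (min h k) (drt2M ρ o a c)) :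
    ∃ m ∈ RT ρ W, DD (drt2P ρ o a h) m = τ ∧
      DD m (drt2P ρ o c k) = h + k - 2 * min (min h k) (drt2M ρ o a c) - τ := by
  have m0 : 0 ≤ min (min h k) (drt2M ρ o a c) := le_min (le_min h0 k0) (drt2_nonneg T o a c)
  have h2 : h - τ ≤ ρ o a := by linarith
  refine ⟨drt2P ρ o a (h - τ), drt2_mem T hW ho _ a ha rfl _ (by linarith) h2, ?_, ?_⟩
  · rw [drt2_DD T o a a h1 h2, drt2_self T, min_eq_right (by linarith : h - τ ≤ h), min_eq_left h2]
    ring
  · have e : min (min (h - τ) k) (drt2M ρ o a c) = min (min h k) (drt2M ρ o a c) :=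
      le_antisymm (min_le_min_right _ (min_le_min_right _ (by linarith)))
        (le_min (le_min (by linarith) ((min_le_left _ _).trans (min_le_right _ _)))
          (min_le_right _ _))
    rw [drt2_DD T o a c h2 k1, e]
    ring

theorem RT_geo (T : TM ρ) {W : Set α}
    (hW : ∀ a ∈ W, ∀ b ∈ W, ∀ n, ρ a b = n + 1 → ∃ c ∈ W, ρ a c = 1 ∧ ρ c b = n)
    {p q : α → ℝ} (hp : p ∈ RT ρ W) (hq : q ∈ RT ρ W) {t : ℝ} (ht : t ∈ Set.Icc (0 : ℝ) 1) :
    ∃ m ∈ RT ρ W, DD p m = t * DD p q ∧ DD m q = (1 - t) * DD p q := by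
  have ⟨o, ho, _⟩ := hp
  obtain ⟨a, ha, h, h0, h1, rfl⟩ := drt2_rep T o hp
  obtain ⟨c, hc, k, k0, k1, rfl⟩ := drt2_rep T o hq
  have L0 := DD_nonneg (drt2P ρ o a h) (drt2P ρ o c k)
  have e := drt2_DD T o a c h1 k1
  generalize DD (drt2P ρ o a h) (drt2P ρ o c k) = L at L0 e ⊢
  rcases le_total (t * L) (h - min (min h k) (drt2M ρ o a c)) with u | u
  · obtain ⟨m, hm, m1, m2⟩ := drt2_geo T hW ho ha h0 h1 k0 k1 (mul_nonneg ht.1 L0) u
    exact ⟨m, hm, m1, by linarith⟩
  · obtain ⟨m, hm, m1, m2⟩ := drt2_geo T hW (c := a) (τ := (1 - t) * L) ho hc k0 k1 h0 h1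
      (mul_nonneg (by linarith [ht.2]) L0)
      (by rw [drt2_comm T o c a, min_comm k h]; linarith)
    rw [drt2_comm T o c a, min_comm k h] at m2
    exact ⟨m, hm, by rw [DD_comm]; linarith, by rw [DD_comm]; exact m1⟩

end Pool.Agent.FC
end
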