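import Pool.Agent.K.MP_5e292f_al.C5

set_option autoImplicit false

namespace Pool.Agent.FC

/-- Corner check at a tile: `t` tile, `e` its facet in x, `h` its facet in y. -/
def cCorT (t e h : ℕ) (p q fx fy z : Bool) (l : Fin 4) (kx ky : Bool) : Bool :=
  (!sPT t || !sdT t kx ky (piT t kx ky)) &&
  (if fx && fy then all4 (sdT t kx ky)
  else if fx then all4 fun i => mode (popT t h q kx ky) i == 0 || i == (if kx then 3 else 2)
  else if fy then all4 fun i => mode (popT t e p kx ky) i == 0 || i == (if ky then 3 else 2)
  else all4 fun i => mode (popT t e p kx ky) i == 0 || mode (popT t h q kx ky) i == 0 ||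
    (mode (popT t e p kx ky) i == 2 && mode (popT t h q kx ky) i == 2 && z && sPT t &&
      piT t kx ky == i && sdT t kx ky l && l != i))

def c2 (sx sy : Bool) (x y : U) : Bool :=
  !(od x && od y) ||
    frc (tab x y) fun t => frc (tab (mv x (sgn sx)) y) fun e => frc (tab x (mv y (sgn sy))) fun h =>
    frb (pIn x sx) fun p => frb (pIn y sy) fun q => frb (fIn x sx) fun fx => frb (fIn y sy) fun fy =>
    frb (cPo x && cPo y) fun z => frb (sIn x sx && sIn y sy) fun s =>
    allB fun kx => allB fun ky => cCorT t e h p q fx fy z (xc sx sy) kx ky &&
      (!s || (sPT t && piT t kx ky == xc sx sy))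

def c0 (x y : U) : Bool :=
  frc (tab x y) fun t => allB fun kx => allB fun ky => !sPT t || !sdT t kx ky (piT t kx ky)

theorem chk0 : allU (fun x => allU (c0 x)) = true := by decide +kernel
theorem chk2a : allU (fun x => allU (c2 true true x)) = true := by decide +kernel
theorem chk2b : allU (fun x => allU (c2 true false x)) = true := by decide +kernel
theorem chk2c : allU (fun x => allU (c2 false true x)) = true := by decide +kernel
theorem chk2d : allU (fun x => allU (c2 false false x)) = true := by decide +kernel

end Pool.Agent.FC
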