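import Pool.Agent.K.MP_5e292f_al.C7
import Pool.Agent.K.MP_5e292f_al.C8
import Pool.Agent.K.MP_5e292f_al.C10
import Pool.Agent.K.MP_5e292f_al.C6
import Pool.Agent.K.MP_5e292f_al.C11
import Pool.Agent.K.MP_5e292f_al.C12
import Pool.Agent.K.MP_5e292f_al.C2
import Pool.Agent.K.MP_5e292f_al.C4

-- part Pool.Agent.P.MP_5e292f_al.FLoc
section

set_option autoImplicit false

namespace Pool.Agent.FC

theorem mv_zero : ∀ u : U, mv u 0 = u := by decide +kernel

theorem dS_zero (u : U) : dS u 0 = 0 := by simp [dS]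

theorem bdv_zero (P : Blk) : bdv 0 0 P = P := by
  simp [bdv, mv_zero, dS_zero]

theorem ex_vo {a : ℤ} (h : |a| ≤ 2) : ∃ i : Fin 5, a = vo i := by
  have := abs_le.1 h
  refine ⟨⟨(a + 2).toNat, by omega⟩, ?_⟩
  simp only [vo]
  omega

theorem vo_ix {a : ℤ} (h : |a| ≤ 2) : vo (ix a) = a := by
  obtain ⟨i, rfl⟩ := ex_vo h
  revert i; decide

theorem ix_vo : ∀ i : Fin 5, ix (vo i) = i := by decide

theorem win_le {p : Bool} {a : ℤ} (h : win p a = true) : |a| ≤ 2 := by
  cases p <;> simp [win] at h <;> rw [abs_le] <;> omega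

theorem win_of {p : Bool} {a : ℤ} (h : |a| ≤ 1) : win p a = true := by
  have := abs_le.1 h
  cases p <;> simp [win] <;> omega

theorem look_sh (a b : ℤ) (px py : Bool) (σ : Win) {c e : ℤ} (hc : win px c = true)
    (he : win py e = true) : look (sh a b px py σ) c e = look σ (c + a) (e + b) := by
  simp only [look, sh, vo_ix (win_le hc), vo_ix (win_le he), hc, he, Bool.and_self, if_true]

theorem look_G (P : Blk) {c e : ℤ} (hc : win (od P.x) c = true) (he : win (od P.y) e = true) :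
    look (G P) c e = infAt P c e := by
  simp only [look, G, vo_ix (win_le hc), vo_ix (win_le he), hc, he, Bool.and_self, if_true]

theorem sh_sh (a b a' b' : ℤ) (px py qx qy : Bool) (σ : Win)
    (hx : ∀ c, win qx c = true → win px (c + a') = true)
    (hy : ∀ c, win qy c = true → win py (c + b') = true) :
    sh a' b' qx qy (sh a b px py σ) = sh (a' + a) (b' + b) qx qy σ := by
  funext i j
  simp only [sh]
  split_ifs with h
  · rw [Bool.and_eq_true] at h
    rw [look_sh a b px py σ (hx _ h.1) (hy _ h.2), add_assoc, add_assoc]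
  · rfl

theorem oneD_aux : ∀ (u : U) (i j : Fin 5), |vo i| ≤ 1 → |vo j + vo i| ≤ 2 →
    rEx (mv u (vo i)) (vo j) + dS u (vo i) = rEx u (vo j + vo i) ∧
    rReg (mv u (vo i)) (vo j) + dS u (vo i) = rReg u (vo j + vo i) ∧
    mv (mv u (vo i)) (vo j) = mv u (vo j + vo i) ∧
    |rEx u (vo j)| ≤ 1 ∧ |rReg u (vo j)| ≤ 1 := by decide +kernel

theorem oneD (u : U) {e a : ℤ} (he : |e| ≤ 1) (ha : |a| ≤ 2) (ha' : |a + e| ≤ 2) :
    rEx (mv u e) a + dS u e = rEx u (a + e) ∧ rReg (mv u e) a + dS u e = rReg u (a + e) ∧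
    mv (mv u e) a = mv u (a + e) := by
  obtain ⟨i, rfl⟩ := ex_vo (he.trans one_le_two)
  obtain ⟨j, rfl⟩ := ex_vo ha
  have := oneD_aux u i j he ha'
  exact ⟨this.1, this.2.1, this.2.2.1⟩

theorem r_le (u : U) {a : ℤ} (ha : |a| ≤ 2) : |rEx u a| ≤ 1 ∧ |rReg u a| ≤ 1 := by
  obtain ⟨j, rfl⟩ := ex_vo ha
  have := oneD_aux u 2 j (by decide) (by simpa [vo] using ha)
  exact this.2.2.2

theorem look_bdv (P : Blk) (e f : ℤ) {c g : ℤ} (hc : |c| ≤ 1) (hg : |g| ≤ 1) :
    look (bdv e f P).σ c g = look P.σ (c + dS P.x e) (g + dS P.y f) := by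
  simp only [bdv]
  split_ifs with h
  · rw [h.1, h.2, add_zero, add_zero]
  · exact look_sh _ _ _ _ _ (win_of hc) (win_of hg)

theorem infAt_bdv (P : Blk) (e f a b : ℤ) (he : |e| ≤ 1) (hf : |f| ≤ 1) (ha : |a| ≤ 2) (hb : |b| ≤ 2)
    (ha' : |a + e| ≤ 2) (hb' : |b + f| ≤ 2) :
    oX (bdv e f P) a b = oX P (a + e) (b + f) ∧ oY (bdv e f P) a b = oY P (a + e) (b + f) ∧
      oR (bdv e f P) a b = oR P (a + e) (b + f) ∧ infAt (bdv e f P) a b = infAt P (a + e) (b + f) := by
  obtain ⟨x1, x2, x3⟩ := oneD P.x he ha ha'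
  obtain ⟨y1, y2, y3⟩ := oneD P.y hf hb hb'
  have ex : (bdv e f P).x = mv P.x e := rfl
  have ey : (bdv e f P).y = mv P.y f := rfl
  have h1 : oX (bdv e f P) a b = oX P (a + e) (b + f) := by
    simp only [oX]
    rw [look_bdv P e f (r_le _ ha).1 (r_le _ hb).2, ex, ey, x1, y2]
  have h2 : oY (bdv e f P) a b = oY P (a + e) (b + f) := by
    simp only [oY]
    rw [look_bdv P e f (r_le _ ha).2 (r_le _ hb).1, ex, ey, x2, y1]
  have h3 : oR (bdv e f P) a b = oR P (a + e) (b + f) := by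
    simp only [oR]
    rw [look_bdv P e f (r_le _ ha).2 (r_le _ hb).2, ex, ey, x2, y2]
  refine ⟨h1, h2, h3, ?_⟩
  simp only [infAt]
  rw [h1, h2, h3, ex, ey, x3, y3]

theorem od_mv_aux : ∀ (u : U) (i : Fin 5), |vo i| ≤ 1 →
    (vo i ≠ 0 → od (mv u (vo i)) = !od u) ∧ (dS u (vo i) = 0 → cSo (mv u (vo i)) = cSo u) ∧
    (od u = true → dS u (vo i) ≠ 0 → cSo u = true ∧ cSo (mv u (vo i)) = false ∧ dS u (vo i) = vo i) := by
  decide +kernel

theorem od_mv (u : U) {e : ℤ} (he : |e| ≤ 1) :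
    (e ≠ 0 → od (mv u e) = !od u) ∧ (dS u e = 0 → cSo (mv u e) = cSo u) ∧
    (od u = true → dS u e ≠ 0 → cSo u = true ∧ cSo (mv u e) = false ∧ dS u e = e) := by
  obtain ⟨i, rfl⟩ := ex_vo (he.trans one_le_two)
  exact od_mv_aux u i he

theorem win_step {c e : ℤ} (he : |e| ≤ 1) (h : win false c = true) : win true (c + e) = true := by
  have := abs_le.1 he
  simp [win] at h ⊢
  omega

theorem win_od (u : U) {e : ℤ} (he : |e| ≤ 1) (he' : e ≠ 0 → od u = true) (c : ℤ)
    (h : win (od (mv u e)) c = true) : win (od u) (c + e) = true := by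
  by_cases h0 : e = 0
  · subst h0; rwa [mv_zero, ← add_zero c] at h
  · rw [(od_mv u he).1 h0, he' h0] at h
    rw [he' h0]
    exact win_step he h

theorem G_bdv (P : Blk) (e f : ℤ) (he : |e| ≤ 1) (hf : |f| ≤ 1) (he' : e ≠ 0 → od P.x = true)
    (hf' : f ≠ 0 → od P.y = true) :
    G (bdv e f P) = sh e f (od (mv P.x e)) (od (mv P.y f)) (G P) := by
  funext i j
  have ex : (bdv e f P).x = mv P.x e := rfl
  have ey : (bdv e f P).y = mv P.y f := rfl
  simp only [sh]
  rw [G, ex, ey]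
  split_ifs with h
  · rw [Bool.and_eq_true] at h
    have a := win_od P.x he he' _ h.1
    have b := win_od P.y hf hf' _ h.2
    rw [look_G P a b]
    exact (infAt_bdv P e f _ _ he hf (win_le h.1) (win_le h.2) (win_le a) (win_le b)).2.2.2
  · rfl

theorem win_cS (u : U) {e : ℤ} (he : |e| ≤ 1) (he' : e ≠ 0 → od u = true) (c : ℤ)
    (h : win (cSo (mv u e)) c = true) : win (cSo u) (c + dS u e) = true := by
  by_cases h0 : dS u e = 0
  · rwa [h0, add_zero, ← (od_mv u he).2.1 h0]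
  · have e0 : e ≠ 0 := by rintro rfl; exact h0 (dS_zero u)
    obtain ⟨a, b, c'⟩ := (od_mv u he).2.2 (he' e0) h0
    rw [b] at h
    rw [a, c']
    exact win_step he h

theorem bdv_xy (P : Blk) (e f : ℤ) (he : |e| ≤ 1) (hf : |f| ≤ 1) (ho : e ≠ 0 → od P.x = true)
    (ho' : f ≠ 0 → od P.y = true) :
    bdv 0 f (bdv e 0 P) = bdv e f P ∧ bdv e 0 (bdv 0 f P) = bdv e f P := by
  constructor
  · simp only [bdv, mv_zero, dS_zero, and_true, true_and]
    congr 1
    by_cases hx : dS P.x e = 0 <;> by_cases hy : dS P.y f = 0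
    · simp [hx, hy]
    · simp [hx, hy]
    · simp [hx, hy, (od_mv P.y hf).2.1 hy]
    · simp only [hx, hy, if_false, false_and]
      rw [sh_sh _ _ _ _ _ _ _ _ _ (fun c h => by rwa [add_zero]) (win_cS P.y hf ho'), zero_add, add_zero]
  · simp only [bdv, mv_zero, dS_zero, and_true, true_and]
    congr 1
    by_cases hx : dS P.x e = 0 <;> by_cases hy : dS P.y f = 0
    · simp [hx, hy]
    · simp [hx, hy, (od_mv P.x he).2.1 hx]
    · simp [hx, hy]
    · simp only [hx, hy, if_false, false_and]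
      rw [sh_sh _ _ _ _ _ _ _ _ _ (win_cS P.x he ho) (fun c h => by rwa [add_zero]), zero_add, add_zero]

theorem bdv_bdv (P : Blk) (e f e' f' : ℤ) (he : |e| ≤ 1) (hf : |f| ≤ 1) (he' : |e'| ≤ 1) (hf' : |f'| ≤ 1)
    (h1 : e = 0 ∨ e' = 0) (h2 : f = 0 ∨ f' = 0) (ho : e + e' ≠ 0 → od P.x = true)
    (ho' : f + f' ≠ 0 → od P.y = true) :
    bdv e' f' (bdv e f P) = bdv (e + e') (f + f') P := by
  rcases h1 with rfl | rfl <;> rcases h2 with rfl | rfl
  · simp [bdv_zero]
  · simp only [zero_add, add_zero] at *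
    exact (bdv_xy P e' f he' hf ho ho').2
  · simp only [zero_add, add_zero] at *
    exact (bdv_xy P e f' he hf' ho ho').1
  · simp [bdv_zero]

theorem dxy_le (d : Dir) : |dx d| ≤ 1 ∧ |dy d| ≤ 1 := by revert d; decide

theorem o_bd (P : Blk) (d : Dir) : oX (bd d P) 0 0 = oX P (dx d) (dy d) ∧
    oY (bd d P) 0 0 = oY P (dx d) (dy d) ∧ inf (bd d P) = infAt P (dx d) (dy d) := by
  have := infAt_bdv P (dx d) (dy d) 0 0 (dxy_le d).1 (dxy_le d).2 (by simp) (by simp)
    (by simpa using (dxy_le d).1.trans one_le_two) (by simpa using (dxy_le d).2.trans one_le_two)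
  simp only [zero_add] at this
  exact ⟨this.1, this.2.1, this.2.2.2⟩

theorem c1_spec (d : Dir) (x y : U) : c1 d x y = true := by
  obtain ⟨a, s⟩ := d
  cases a <;> cases s
  · exact allU_spec (allU_spec chk1b x) y
  · exact allU_spec (allU_spec chk1a x) y
  · exact allU_spec (allU_spec chk1d x) y
  · exact allU_spec (allU_spec chk1c x) y

theorem step_spec (d : Dir) (x y : U) (ho : od (co d.1 x y) = true) :
    cKT (tab x y) (tab (mv x (dx d)) (mv y (dy d)))
      (rEx x (dx d) == rEx x 0 && rReg y (dy d) == rReg y 0)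
      (rReg x (dx d) == rReg x 0 && rEx y (dy d) == rEx y 0) = true ∧
    ∀ kx ky, cStepT d.1 (tab x y) (tab (mv x (dx d)) (mv y (dy d)))
      (tab (mv x (2 * dx d)) (mv y (2 * dy d))) (pIn (co d.1 x y) d.2)
      (pIn (mv (co d.1 x y) (2 * sgn d.2)) (!d.2)) (isF (mv (co d.1 x y) (sgn d.2)))
      (sIn (co d.1 x y) d.2 && od (co (!d.1) x y)) kx ky = true := by
  have := c1_spec d x y
  simp only [c1, ho, Bool.not_true, Bool.false_or, frc_eq, frb_eq, Bool.and_eq_true] at this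
  exact ⟨this.1, fun kx ky => allB_spec (allB_spec this.2 kx) ky⟩

theorem kkT_congr (t : ℕ) {kx ky kx' ky' : Bool} (h1 : kx' = kx ∨ kfT t ≠ 1)
    (h2 : ky' = ky ∨ kfT t ≠ 2) : kkT t kx' ky' = kkT t kx ky := by
  simp only [kkT]
  rcases h1 with rfl | h1 <;> rcases h2 with rfl | h2
  · rfl
  · rw [beq_false_of_ne h2]; simp
  · rw [beq_false_of_ne h1]; simp
  · rw [beq_false_of_ne h1, beq_false_of_ne h2]; simp

theorem kk_bd (P : Blk) (d : Dir) (ho : od (co d.1 P.x P.y) = true) :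
    kk P.x P.y (kX (bd d P)) (kY (bd d P)) = kk P.x P.y (kX P) (kY P) ∧
    kk (bd d P).x (bd d P).y (kX (bd d P)) (kY (bd d P)) = kk (bd d P).x (bd d P).y (kX P) (kY P) := by
  have h := (step_spec d P.x P.y ho).1
  simp only [cKT, Bool.and_eq_true, Bool.or_eq_true, beq_iff_eq, bne_iff_ne] at h
  have hx : rEx P.x (dx d) = rEx P.x 0 ∧ rReg P.y (dy d) = rReg P.y 0 → kX (bd d P) = kX P := by
    intro h
    simp only [kX]
    rw [(o_bd P d).1, oX, oX, h.1, h.2]
  have hy : rReg P.x (dx d) = rReg P.x 0 ∧ rEx P.y (dy d) = rEx P.y 0 → kY (bd d P) = kY P := by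
    intro h
    simp only [kY]
    rw [(o_bd P d).2.1, oY, oY, h.1, h.2]
  exact ⟨kkT_congr _ (h.1.imp hx fun a => a.1) (h.2.imp hy fun a => a.1),
    kkT_congr _ (h.1.imp hx fun a => a.2) (h.2.imp hy fun a => a.2)⟩

theorem sdT_congr {t : ℕ} {kx ky kx' ky' : Bool} (h : kkT t kx' ky' = kkT t kx ky) :
    sdT t kx' ky' = sdT t kx ky ∧ piT t kx' ky' = piT t kx ky ∧ symT t kx' ky' = symT t kx ky := by
  have h1 : sdT t kx' ky' = sdT t kx ky := by funext i; simp only [sdT, h]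
  have h2 : piT t kx' ky' = piT t kx ky := by simp only [piT, h]
  exact ⟨h1, h2, by funext i; simp only [symT, h1, h2]⟩

theorem popT_congr {t e : ℕ} (p : Bool) {kx ky kx' ky' : Bool} (h : kkT t kx' ky' = kkT t kx ky)
    (h' : kkT e kx' ky' = kkT e kx ky) : popT t e p kx' ky' = popT t e p kx ky := by
  simp only [popT, (sdT_congr h).1, (sdT_congr h).2.1, (sdT_congr h').1, (sdT_congr h').2.1]

theorem line_aux : ∀ (u : U) (s : Bool), od u = true →
    mv (mv u (sgn s)) (sgn (!s)) = u ∧ mv (mv u (sgn s)) (sgn s) = mv u (2 * sgn s) ∧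
    (fIn u s = true → (mv u (sgn s)).val = (if s then 58 else 66) ∧ rEx u (sgn s) = rEx u 0) ∧
    (fIn u s = false → isF (mv u (sgn s)) = true → (mv u (sgn s)).val = if s then 66 else 58) ∧
    (sIn u s = false → dS u (sgn s) = 0) ∧ (fIn u s = true → isF (mv u (sgn s)) = true) := by
  decide +kernel

theorem line_aux2 : ∀ (u : U) (s : Bool),
    mv (mv u (2 * sgn s)) (sgn (!s)) = mv u (sgn s) := by decide +kernel

theorem thp_eq (d : Dir) (x y : U) (ho : od (co d.1 x y) = true) (kx ky : Bool) :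
    thp d.1 (mv x (dx d)) (mv y (dy d)) kx ky =
      if d.2 then pick (pop x y d kx ky) (popT (tab (mv x (2 * dx d)) (mv y (2 * dy d)))
        (tab (mv x (dx d)) (mv y (dy d))) (pIn (mv (co d.1 x y) (2 * sgn d.2)) (!d.2)) kx ky)
      else pick (popT (tab (mv x (2 * dx d)) (mv y (2 * dy d)))
        (tab (mv x (dx d)) (mv y (dy d))) (pIn (mv (co d.1 x y) (2 * sgn d.2)) (!d.2)) kx ky)
        (pop x y d kx ky) := by
  obtain ⟨l1, l2, -⟩ := line_aux _ d.2 ho
  have l3 := line_aux2 (co d.1 x y) d.2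
  obtain ⟨a, s⟩ := d
  cases a <;> cases s <;>
    simp only [co, Bool.false_eq_true, if_false, if_true, Bool.not_true, Bool.not_false] at l1 l2 l3 <;>
    simp [thp, pop, dx, dy, co, mv_zero, l1, l2, l3]

theorem side_pick (a s : Bool) (o o' : Op) (h : o = 0 ∨ o' = 0) :
    side (a, s) (if s then pick o o' else pick o' o) = o := by
  cases s <;> rcases h with rfl | rfl <;> simp [side, pick] <;> split_ifs <;> simp_all

theorem opOf_eq (P : Blk) (d : Dir) (ho : od (co d.1 P.x P.y) = true) :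
    opOf d P = if fIn (co d.1 P.x P.y) d.2 then side d (if d.1 then oY P 0 0 else oX P 0 0)
      else pop P.x P.y d (kX P) (kY P) := by
  have e0 : opOf d P = side d (th d.1 (bd d P).x (bd d P).y (oX (bd d P) 0 0) (oY (bd d P) 0 0)) := by
    obtain ⟨a, s⟩ := d
    cases a <;> simp [opOf, opAt, inf, infAt, inf0, mv_zero]
  obtain ⟨-, -, l3, l4, -⟩ := line_aux _ d.2 ho
  have hco : co d.1 (bd d P).x (bd d P).y = mv (co d.1 P.x P.y) (sgn d.2) := by
    obtain ⟨a, s⟩ := d
    cases a <;> simp [co, bd, bdv, dx, dy]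
  have hs := (step_spec d P.x P.y ho).2 (kX (bd d P)) (kY (bd d P))
  have hp : pop P.x P.y d (kX (bd d P)) (kY (bd d P)) = pop P.x P.y d (kX P) (kY P) :=
    popT_congr _ (kk_bd P d ho).1 (kk_bd P d ho).2
  rw [e0, ← hp]
  simp only [cStepT, Bool.and_eq_true] at hs
  have hs2 := hs.1.1.2
  by_cases hf : fIn (co d.1 P.x P.y) d.2 = true
  · rw [if_pos hf]
    obtain ⟨h1, h2⟩ := l3 hf
    have hO : (if d.1 then oY (bd d P) 0 0 else oX (bd d P) 0 0) =
        if d.1 then oY P 0 0 else oX P 0 0 := by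
      obtain ⟨a, s⟩ := d
      cases a
      · simp only [Bool.false_eq_true, if_false]
        rw [(o_bd P _).1, oX, oX]
        simp only [co, Bool.false_eq_true, if_false] at h2
        simp [dx, dy, h2]
      · simp only [if_true]
        rw [(o_bd P _).2.1, oY, oY]
        simp only [co, if_true] at h2
        simp [dx, dy, h2]
    rw [← hO]
    simp only [th, hco, h1]
    obtain ⟨a, s⟩ := d
    generalize (if (a, s).1 = true then oY (bd (a, s) P) 0 0 else oX (bd (a, s) P) 0 0) = O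
    obtain ⟨b, o⟩ := O
    cases s <;> cases b <;> simp [side]
  · rw [if_neg hf]
    rw [Bool.not_eq_true] at hf
    by_cases hF : isF (mv (co d.1 P.x P.y) (sgn d.2)) = true
    · have h1 := l4 hf hF
      rw [if_pos hF, Bool.and_eq_true, beq_iff_eq] at hs2
      rw [pop, hs2.1]
      simp only [th, hco, h1]
      obtain ⟨a, s⟩ := d
      cases s <;> simp [side]
    · rw [if_neg hF, Bool.or_eq_true, beq_iff_eq, beq_iff_eq] at hs2
      have hF' := hF
      simp only [isF, Bool.or_eq_true, beq_iff_eq, not_or] at hF'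
      simp only [th, hco, hF'.1, hF'.2, if_false]
      rw [← side_pick d.1 d.2 (pop P.x P.y d (kX (bd d P)) (kY (bd d P))) _ hs2,
        ← thp_eq d _ _ ho]
      rfl

theorem bd_sigma (P : Blk) (d : Dir) (ho : od (co d.1 P.x P.y) = true)
    (hs : sIn (co d.1 P.x P.y) d.2 = false) : (bd d P).σ = P.σ := by
  have := (line_aux _ d.2 ho).2.2.2.2.1 hs
  obtain ⟨a, s⟩ := d
  cases a <;> simp only [co, Bool.false_eq_true, if_false, if_true] at this <;>
    simp [bd, bdv, dx, dy, dS_zero, this]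

theorem sym_spec (d : Dir) (x y : U) (ho : od (co d.1 x y) = true) (kx ky : Bool) (i : Fin 4) :
    cSymT (tab x y) (tab (mv x (dx d)) (mv y (dy d))) (pIn (co d.1 x y) d.2) kx ky
      (pop x y d kx ky) i = true := by
  have hs := (step_spec d x y ho).2 kx ky
  simp only [cStepT, Bool.and_eq_true] at hs
  exact all4_spec hs.1.1.1 i

theorem symT_one {t : ℕ} {kx ky : Bool} {i : Fin 4} : symT t kx ky i = 1 ↔ sdT t kx ky i = true := by
  simp only [symT]
  split_ifs <;> simp_all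

theorem symT_two {t : ℕ} {kx ky : Bool} {i : Fin 4} (h : symT t kx ky i = 2) :
    sPT t = true ∧ piT t kx ky = i := by
  by_contra h2
  simp only [symT, h2, if_false] at h
  split_ifs at h <;> omega

theorem sym_pi (x y : U) (kx ky : Bool) (h : sP x y = true) : sym x y kx ky (piS x y kx ky) = 2 := by
  have := allU_spec (allU_spec chk0 x) y
  simp only [c0, frc_eq] at this
  have := allB_spec (allB_spec this kx) ky
  simp only [sP] at h
  simp only [h, Bool.not_true, Bool.false_or, Bool.not_eq_true'] at this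
  simp [sym, piS, symT, this, h]

/-- The value of the colour P displayed by a cell. -/
def valP (t : Cell) : Option Blk := t.s (piS t.P.x t.P.y (kX t.P) (kY t.P))

theorem ft_slot (t : Cell) (d : Dir) (i : Fin 4) (ho : od (co d.1 t.P.x t.P.y) = true)
    (hf : fIn (co d.1 t.P.x t.P.y) d.2 = false)
    (hs : sd (mv t.P.x (dx d)) (mv t.P.y (dy d)) (kX t.P) (kY t.P) i = true) :
    (bdC d t).s i = t.s i := by
  have h := sym_spec d _ _ ho (kX t.P) (kY t.P) i
  have h1 := symT_one.2 hs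
  simp only [bdC, act, opOf_eq _ _ ho, hf, Bool.false_eq_true, if_false]
  simp only [cSymT, h1] at h
  split_ifs at h ⊢ with a b
  · simp only [Bool.and_eq_true, bne_self_eq_false, Bool.false_or, beq_iff_eq] at h
    rw [h.2]
  · simp at h
  · simp at h

theorem ft_P (t : Cell) (d : Dir) (ho : od (co d.1 t.P.x t.P.y) = true)
    (hf : fIn (co d.1 t.P.x t.P.y) d.2 = false)
    (hs : sP (mv t.P.x (dx d)) (mv t.P.y (dy d)) = true) :
    valP (bdC d t) = if pIn (co d.1 t.P.x t.P.y) d.2 then (valP t).map (bd d) else valP t := by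
  have e1 : valP (bdC d t) =
      (bdC d t).s (piS (mv t.P.x (dx d)) (mv t.P.y (dy d)) (kX t.P) (kY t.P)) := by
    simp only [valP]
    congr 1
    exact (sdT_congr (kk_bd t.P d ho).2).2.1
  have h1 := sym_pi _ _ (kX t.P) (kY t.P) hs
  rw [e1]
  generalize piS (mv t.P.x (dx d)) (mv t.P.y (dy d)) (kX t.P) (kY t.P) = i at h1 ⊢
  have h := sym_spec d _ _ ho (kX t.P) (kY t.P) i
  simp only [bdC, act, opOf_eq _ _ ho, hf, Bool.false_eq_true, if_false, valP]
  simp only [sym] at h1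
  simp only [cSymT, h1] at h
  by_cases a : mode (pop t.P.x t.P.y d (kX t.P) (kY t.P)) i = 0
  · simp only [a, if_true, Bool.and_eq_true, beq_iff_eq, bne_self_eq_false, Bool.false_or,
      Bool.not_eq_true'] at h ⊢
    rw [h.1.2, piS, (symT_two h.1.1.symm).2]
    simp
  · by_cases b : mode (pop t.P.x t.P.y d (kX t.P) (kY t.P)) i = 1
    · simp [b] at h
    · simp only [a, b, if_false, Bool.and_eq_true, beq_iff_eq] at h ⊢
      rw [h.2, piS, (symT_two h.1.2).2]
      simp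

end Pool.Agent.FC
end

-- part Pool.Agent.P.MP_5e292f_al.GNoZ
section

set_option autoImplicit false

namespace Pool.Agent.FC

variable {A : Type} {G : Type} [Group G] {D : VH A} {ι : A → G}

theorem gnoz_trtr (g : G) : len D.tr.tr ι g = len D ι g := by
  have : D.tr.tr.c = D.c := by
    funext a
    simp [VH.tr]
  simp only [len, this]

theorem gnoz_len_le (w : List A) : len D ι (ev ι w) ≤ w.length :=
  (len_le w).trans List.countP_le_length

theorem gnoz_red_pow {U : List A} (hU : Red D (U ++ U)) (n : ℕ) :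
    Red D (List.replicate n U).flatten := by
  obtain ⟨h1, -, h2⟩ := List.isChain_append.1 hU
  induction n with
  | zero => exact List.isChain_nil
  | succ n ih =>
    rw [List.replicate_succ, List.flatten_cons]
    refine List.isChain_append.2 ⟨h1, ih, fun x hx y hy => h2 x hx y ?_⟩
    cases n with
    | zero => simp at hy
    | succ n =>
      rw [List.replicate_succ, List.flatten_cons] at hy
      cases U with
      | nil => simp at hx
      | cons a U => simpa using hy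

theorem gnoz_ev_pow (U : List A) (n : ℕ) : ev ι (List.replicate n U).flatten = ev ι U ^ n := by
  induction n with
  | zero => simp [ev]
  | succ n ih => rw [List.replicate_succ, List.flatten_cons, ev_append, ih, pow_succ']

theorem gnoz_conj (g c : G) (n : ℕ) : (g⁻¹ * c * g) ^ n = g⁻¹ * (c ^ n * g) := by
  have := conj_pow (i := n) (a := g⁻¹) (b := c)
  rw [inv_inv] at this
  rw [this, mul_assoc]

/-- A word whose length is not larger than one of its letter counts is reduced. -/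
theorem gnoz_red (h : Pres D ι) {w : List A} (hw : w.length ≤ len D ι (ev ι w)) : Red D w := by
  refine List.isChain_iff_forall_rel_of_append_cons_cons.2 fun a b x y e hb => ?_
  have e1 : ev ι w = ev ι (x ++ y) := by
    rw [e, hb, ev_append, ev_cons, ev_cons, h.inv, ev_append, mul_inv_cancel_left]
  have := gnoz_len_le (D := D) (ι := ι) (x ++ y)
  rw [← e1] at this
  have e2 : w.length = (x ++ y).length + 2 := by
    rw [e]; simp; omega
  omega

/-- A nontrivial element fixing the vertex `x` of the horizontal tree is, at some point `g` of that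
vertex, a cyclically reduced vertical word. -/
theorem exists_cyc (h : Pres D ι) {c x : G} (hc : c ≠ 1) (hx : rho D ι x (c * x) = 0) :
    ∃ (g : G) (U : List A), rho D ι x g = 0 ∧ U ≠ [] ∧ Red D (U ++ U) ∧ (∀ a ∈ U, D.c a = false) ∧
      ev ι U = g⁻¹ * c * g ∧ ∀ n : ℕ, rho D.tr ι g (c ^ n * g) = n * U.length := by
  classical
  have T := tm_rho h
  have hex : ∃ m, ∃ g, rho D ι x g = 0 ∧ rho D.tr ι g (c * g) = m := ⟨_, x, T.refl x, rfl⟩
  obtain ⟨g, hg, hm⟩ := Nat.find_spec hex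
  have hmin : ∀ k, rho D ι x k = 0 → rho D.tr ι g (c * g) ≤ rho D.tr ι k (c * k) :=
    fun k hk => hm ▸ Nat.find_min' hex ⟨k, hk, rfl⟩
  have h0 : rho D ι g (c * g) = 0 := by
    have a1 := T.tri g x (c * g)
    have a2 := T.tri x (c * x) (c * g)
    rw [rho_mul] at a2
    have a3 := T.symm g x
    omega
  obtain ⟨U, rU, cU, eU, lU⟩ := len_zero h h0
  have eU' : ev ι U = g⁻¹ * c * g := by rw [eU, mul_assoc]
  have nU : U ≠ [] := by
    rintro rfl
    apply hc
    have : (1 : G) = g⁻¹ * c * g := eU'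
    calc c = g * (g⁻¹ * c * g) * g⁻¹ := by group
      _ = 1 := by rw [← this]; group
  have rUU : Red D (U ++ U) := by
    refine List.isChain_append.2 ⟨rU, rU, fun b hb a ha hab => ?_⟩
    obtain ⟨M, rfl⟩ : ∃ M, U = a :: M := by
      cases U with
      | nil => simp at ha
      | cons a' M =>
        have : a' = a := by simpa using ha
        exact ⟨M, by rw [this]⟩
    rcases List.eq_nil_or_concat M with rfl | ⟨N, b', rfl⟩
    · have : a = b := by simpa using hb
      have s := D.sg_inv b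
      rw [← hab, this] at s
      cases hs : D.sg b <;> simp [hs] at s
    · have : b' = b := by
        rw [List.concat_eq_append, ← List.cons_append, List.getLast?_concat] at hb
        simpa using hb
      subst this
      have ca : D.c a = false := cU a List.mem_cons_self
      have r1 := rho_letter h g a
      rw [ca] at r1
      have a1 := T.tri x g (g * ι a)
      have a2 := hmin (g * ι a) (by simp at r1; omega)
      have e1 : (g * ι a)⁻¹ * (c * (g * ι a)) = ev ι N := by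
        have : (g * ι a)⁻¹ * (c * (g * ι a)) = (ι a)⁻¹ * (g⁻¹ * (c * g)) * ι a := by group
        rw [this, ← eU, List.concat_eq_append, ev_cons, ev_append, ev_cons, hab, h.inv]
        simp [ev]
      have a3 : rho D.tr ι (g * ι a) (c * (g * ι a)) ≤ N.length := by
        rw [rho, e1]; exact gnoz_len_le N
      have a4 : rho D.tr ι g (c * g) = N.length + 2 := by
        rw [rho, lU]; simp
      omega
  refine ⟨g, U, hg, nU, rUU, cU, eU', fun n => ?_⟩
  have cP : ∀ a ∈ (List.replicate n U).flatten, D.c a = false := by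
    intro a ha
    obtain ⟨l, hl, hal⟩ := List.mem_flatten.1 ha
    rw [List.eq_of_mem_replicate hl] at hal
    exact cU a hal
  have := (len_irr h (irr_of_red (gnoz_red_pow rUU n) cP)).2
  rw [gnoz_ev_pow, eU', gnoz_conj] at this
  rw [rho, this, List.countP_eq_length.2 fun a ha => by simp [VH.tr, cP a ha]]
  simp

theorem gnoz_eps (h : Pres D ι) : ∃ ε : G → ℤ, (∀ g k, ε (g * k) = ε g + ε k) ∧
    ∀ a b, (ε (a⁻¹ * b) - rho D ι a b) % 2 = 0 ∧ (rho D ι a b = 0 → ε (a⁻¹ * b) = 0) := by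
  obtain ⟨ε, h1, h2⟩ := exists_eps h
  exact ⟨ε, h1, fun a b => h2 _⟩

theorem torsion_free (h : Pres D ι) {c : G} {n : ℕ} (hn : 0 < n) (e : c ^ n = 1) : c = 1 := by
  by_contra hc
  by_cases hx : ∃ x, rho D ι x (c * x) = 0
  · obtain ⟨x, hx⟩ := hx
    obtain ⟨g, U, -, nU, -, -, -, hU⟩ := exists_cyc h hc hx
    have := hU n
    rw [e, one_mul, (tm_rho h.tr).refl] at this
    have l := List.length_pos_iff.2 nU
    exact absurd this (Nat.mul_pos hn l).ne
  · obtain ⟨ε, h1, h2⟩ := gnoz_eps h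
    obtain ⟨x, -, hx'⟩ := exists_axis (tm_rho h) rho_mul ε h1 h2 c Set.univ ⟨1, trivial⟩
      (fun _ _ => trivial) (fun _ _ _ _ _ _ => trivial) fun x _ hx' => hx ⟨x, hx'⟩
    have := hx' n
    rw [e, one_mul, (tm_rho h).refl] at this
    rcases Nat.mul_eq_zero.1 this.symm with h0 | h0
    · omega
    · exact hx ⟨x, h0⟩

section tree

variable {ρ : G → G → ℕ}

/-- An element with unbounded orbit has no fixed point. -/
theorem gnoz_nofix (T : TM ρ) (hinv : ∀ g a b, ρ (g * a) (g * b) = ρ a b) {c g : G} {τ : ℕ}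
    (hτ : 0 < τ) (hg : ∀ n : ℕ, ρ g (c ^ n * g) = n * τ) (y : G) : ρ y (c * y) ≠ 0 := by
  intro hy
  have h1 : ∀ n : ℕ, ρ y (c ^ n * y) = 0 := by
    intro n
    induction n with
    | zero => simpa using T.refl y
    | succ n ih =>
      have a1 := T.tri y (c * y) (c * (c ^ n * y))
      rw [hinv, ← mul_assoc, ← pow_succ'] at a1
      omega
  have a0 := hg (2 * ρ g y + 1)
  have a1 := T.tri g y (c ^ (2 * ρ g y + 1) * g)
  have a2 := T.tri y (c ^ (2 * ρ g y + 1) * y) (c ^ (2 * ρ g y + 1) * g)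
  rw [hinv, h1] at a2
  have a3 := T.symm g y
  have a4 : 2 * ρ g y + 1 ≤ (2 * ρ g y + 1) * τ := Nat.le_mul_of_pos_right _ hτ
  omega

/-- Fixed sets are convex. -/
theorem gnoz_conv (T : TM ρ) (hinv : ∀ g a b, ρ (g * a) (g * b) = ρ a b) {c x y z : G}
    (hx : ρ x (c * x) = 0) (hy : ρ y (c * y) = 0) (hz : ρ x z + ρ z y = ρ x y) :
    ρ z (c * z) = 0 := by
  have e1 : ρ x (c * z) = ρ x z := by
    have a1 := T.tri x (c * x) (c * z)
    have a2 := T.tri (c * x) x (c * z)
    have a3 := T.symm x (c * x)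
    rw [hinv] at a1 a2
    omega
  have e2 : ρ (c * z) y = ρ z y := by
    have a1 := T.tri (c * z) (c * y) y
    have a2 := T.tri (c * z) y (c * y)
    have a3 := T.symm y (c * y)
    rw [hinv] at a1 a2
    omega
  exact btw_unique T hz (by rw [e1, e2]; exact hz) e1.symm

theorem gnoz_inv (hinv : ∀ g a b, ρ (g * a) (g * b) = ρ a b) {c d x : G} (e : Commute d c)
    (hx : ρ x (c * x) = 0) : ρ (d * x) (c * (d * x)) = 0 := by
  rw [← mul_assoc, ← e.eq, mul_assoc, hinv, hx]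

end tree

theorem torus_of_ZZ [Finite A] (h : Pres D ι) (f : Multiplicative (ℤ × ℤ) →* G)
    (hf : Function.Injective f) : Torus D := by
  have TH := tm_rho h
  have TV := tm_rho h.tr
  obtain ⟨ε, e1, e2⟩ := gnoz_eps h
  obtain ⟨δ, d1, d2⟩ := gnoz_eps h.tr
  obtain ⟨c', hc', x0, hx0⟩ := exists_elliptic TH rho_mul ε e1 e2 f
  obtain ⟨d', hd', y0, hy0⟩ := exists_elliptic TV rho_mul δ d1 d2 f
  have hc : f c' ≠ 1 := fun e => hc' (hf (e.trans f.map_one.symm))
  have hd : f d' ≠ 1 := fun e => hd' (hf (e.trans f.map_one.symm))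
  have cd : Commute (f c') (f d') := (Commute.all c' d').map f
  generalize f c' = c at hc hx0 cd
  generalize f d' = d at hd hy0 cd
  have nd : ∀ z, rho D ι z (d * z) ≠ 0 := by
    intro z hz
    obtain ⟨g, U, -, nU, -, -, -, hU⟩ := exists_cyc h hd hz
    exact gnoz_nofix TV rho_mul (List.length_pos_iff.2 nU) hU y0 hy0
  obtain ⟨x, hx, ax⟩ := exists_axis TH rho_mul ε e1 e2 d {x | rho D ι x (c * x) = 0} ⟨x0, hx0⟩
    (fun x hx => gnoz_inv rho_mul cd.symm hx)
    (fun x hx y hy z hz => gnoz_conv TH rho_mul hx hy hz) fun x _ => nd x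
  obtain ⟨g, U, hg, nU, rU, cU, eU, hU⟩ := exists_cyc h hc hx
  have lU := List.length_pos_iff.2 nU
  have nc := gnoz_nofix TV rho_mul lU hU
  obtain ⟨y, hy, ay⟩ := exists_axis TV rho_mul δ d1 d2 c {y | rho D.tr ι y (d * y) = 0} ⟨y0, hy0⟩
    (fun x hx => gnoz_inv rho_mul cd hx)
    (fun x hx y hy z hz => gnoz_conv TV rho_mul hx hy hz) fun x _ => nc x
  have hb := axis_btw TV rho_mul (Nat.pos_of_ne_zero (nc y)) ay hU (rho D.tr ι y g + 1)
    (Nat.lt_succ_self _)
  have gd : rho D.tr ι g (d * g) = 0 :=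
    gnoz_conv TV rho_mul (gnoz_inv rho_mul (cd.pow_left _).inv_left hy)
      (gnoz_inv rho_mul (cd.pow_left _) hy) hb
  obtain ⟨W, -, cW, eW, lW⟩ := len_zero h.tr gd
  rw [gnoz_trtr] at lW
  have mv : ∀ k, rho D ι g (k * g) = rho D ι x (k * x) := by
    intro k
    have a1 := TH.tri g x (k * g)
    have a2 := TH.tri x (k * x) (k * g)
    have a3 := TH.tri x g (k * x)
    have a4 := TH.tri g (k * g) (k * x)
    have a5 := TH.symm g x
    rw [rho_mul] at a2 a4
    omega
  have l1 : rho D ι x (d * x) = W.length := by rw [← mv, rho, lW]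
  have nW : W ≠ [] := by
    rintro rfl
    exact nd x l1
  have rW : Red D (W ++ W) := by
    refine gnoz_red h ?_
    have a1 := ax 2
    rw [← mv, l1, rho] at a1
    have a2 : ev ι (W ++ W) = g⁻¹ * (d ^ 2 * g) := by
      rw [ev_append, eW, pow_two]; group
    rw [a2, a1, List.length_append]
    omega
  refine torus_of_comm h nW nU rW rU (fun a ha => by simpa [VH.tr] using cW a ha) cU ?_
  rw [eW, eU]
  calc g⁻¹ * (d * g) * (g⁻¹ * c * g) = g⁻¹ * (d * c) * g := by group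
    _ = g⁻¹ * (c * d) * g := by rw [cd.eq]
    _ = g⁻¹ * c * g * (g⁻¹ * (d * g)) := by group

end Pool.Agent.FC
end

-- part Pool.Agent.P.MP_5e292f_al.DMet
section

set_option autoImplicit false

namespace Pool.Agent.FC

theorem sqrt_tri_met {a b a1 a2 b1 b2 : ℝ} (ha : 0 ≤ a) (hb : 0 ≤ b) (h1 : a ≤ a1 + a2)
    (h2 : b ≤ b1 + b2) :
    Real.sqrt (a ^ 2 + b ^ 2) ≤ Real.sqrt (a1 ^ 2 + b1 ^ 2) + Real.sqrt (a2 ^ 2 + b2 ^ 2) := by
  have e1 := Real.sq_sqrt (show 0 ≤ a1 ^ 2 + b1 ^ 2 by positivity)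
  have e2 := Real.sq_sqrt (show 0 ≤ a2 ^ 2 + b2 ^ 2 by positivity)
  have e3 : a1 * a2 + b1 * b2 ≤ Real.sqrt (a1 ^ 2 + b1 ^ 2) * Real.sqrt (a2 ^ 2 + b2 ^ 2) := by
    rw [← Real.sqrt_mul (by positivity)]
    exact Real.le_sqrt_of_sq_le (by nlinarith [sq_nonneg (a1 * b2 - a2 * b1)])
  refine Real.sqrt_le_iff.2 ⟨by positivity, ?_⟩
  have e4 : a ^ 2 ≤ (a1 + a2) ^ 2 := pow_le_pow_left₀ ha h1 2
  have e5 : b ^ 2 ≤ (b1 + b2) ^ 2 := pow_le_pow_left₀ hb h2 2
  nlinarith

namespace Sys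

variable (S : Sys)

theorem DX_tri (p q r : S.X) : S.DX p r ≤ S.DX p q + S.DX q r :=
  sqrt_tri_met (DD_nonneg _ _) (DD_nonneg _ _)
    (DD_tri S.th (S.mem_h p) (S.mem_h q) (S.mem_h r))
    (DD_tri S.tv (S.mem_v p) (S.mem_v q) (S.mem_v r))

theorem DX_self_met (p : S.X) : S.DX p p = 0 := by simp [DX, DD_self]

theorem DX_comm_met (p q : S.X) : S.DX p q = S.DX q p := by
  rw [DX, DX, DD_comm p.1.1, DD_comm p.1.2]

theorem DX_nonneg_met (p q : S.X) : 0 ≤ S.DX p q := Real.sqrt_nonneg _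

theorem Chain.le {S : Sys} {p q : S.X} {c : ℝ} (h : S.Chain p q c) : S.DX p q ≤ c := by
  induction h with
  | refl => exact (S.DX_self_met p).le
  | @step q r c _ _ ih => exact (S.DX_tri p q r).trans (by linarith)

theorem Adj.symm_met {S : Sys} {p q : S.X} (h : S.Adj p q) : S.Adj q p :=
  let ⟨g, k, a, b, c⟩ := h
  ⟨g, k, a, c, b⟩

theorem Chain.trans_met {S : Sys} {p q r : S.X} {c e : ℝ} (h : S.Chain p q c)
    (h' : S.Chain q r e) : S.Chain p r (c + e) := by
  induction h' with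
  | refl => rwa [add_zero]
  | step _ a ih => rw [← add_assoc]; exact ih.step a

theorem Adj.chain_met {S : Sys} {p q : S.X} (h : S.Adj p q) : S.Chain p q (S.DX p q) := by
  have := Chain.step (Chain.refl (p := p)) h
  rwa [zero_add] at this

theorem Chain.symm {S : Sys} {p q : S.X} {c : ℝ} (h : S.Chain p q c) : S.Chain q p c := by
  induction h with
  | refl => exact Chain.refl
  | @step q r c _ a ih =>
    rw [add_comm, S.DX_comm_met q r]
    exact a.symm_met.chain_met.trans_met ih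

theorem Chain.trans {S : Sys} {p q r : S.X} {c e : ℝ} (h : S.Chain p q c) (h' : S.Chain q r e) :
    S.Chain p r (c + e) := h.trans_met h'

theorem h_letter_met (g : S.G) (l : S.A) : S.h g (g * S.ι l) = if S.D.c l then 1 else 0 :=
  rho_letter S.pres g l

theorem v_letter_met (g : S.G) (l : S.A) : S.v g (g * S.ι l) = if !S.D.c l then 1 else 0 :=
  rho_letter S.pres.tr g l

theorem rt_vtx_met {W : Set S.G} {a g : S.G} (ha : a ∈ W) (h : S.v g a = 0) :
    pt S.v g g 0 ∈ RT S.v W :=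
  ⟨a, ha, a, ha, 0, ⟨le_rfl, zero_le_one⟩, by rw [S.tv.refl]; omega, pt_congr S.tv h h 0⟩

theorem vtx_mem_left_met {g k : S.G} (h : S.v g k = 0) : S.vtx g ∈ S.Pc g k :=
  ⟨⟨0, ⟨le_rfl, zero_le_one⟩, funext fun x => by simp [vtx, pt]⟩,
    S.rt_vtx_met ⟨S.th.refl g, k, S.th.refl k, h⟩ (S.tv.refl g)⟩

theorem vtx_mem_right_met {g k : S.G} (h : S.v g k = 0) : S.vtx k ∈ S.Pc g k :=
  ⟨⟨1, ⟨zero_le_one, le_rfl⟩, funext fun x => by simp [vtx, pt]⟩,
    S.rt_vtx_met ⟨S.th.refl g, k, S.th.refl k, h⟩ (by rw [S.tv.symm]; exact h)⟩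

theorem adj_letter_met (g : S.G) (l : S.A) : S.Adj (S.vtx g) (S.vtx (g * S.ι l)) := by
  have h1 := S.h_letter_met g l
  have h2 := S.v_letter_met g l
  cases hc : S.D.c l
  · rw [hc] at h1
    have h1' : S.h g (g * S.ι l) = 0 := by simpa using h1
    have h3 : S.h (g * S.ι l) g = 0 := by rw [S.th.symm]; exact h1'
    refine ⟨g, g, by rw [S.th.refl]; omega, S.vtx_mem_left_met (S.tv.refl g),
      ⟨0, ⟨le_rfl, zero_le_one⟩, pt_congr S.th h3 h3 0⟩, ?_⟩
    exact S.rt_vtx_met ⟨h1', _, h1', S.tv.refl _⟩ (S.tv.refl _)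
  · rw [hc] at h1 h2
    have h2' : S.v g (g * S.ι l) = 0 := by simpa using h2
    exact ⟨g, g * S.ι l, by rw [h1]; simp, S.vtx_mem_left_met h2', S.vtx_mem_right_met h2'⟩

theorem chain_vtx_met (w : List S.A) : ∀ g : S.G,
    ∃ c, S.Chain (S.vtx g) (S.vtx (g * ev S.ι w)) c := by
  induction w with
  | nil => intro g; exact ⟨0, by simpa [ev] using Chain.refl⟩
  | cons l w ih =>
    intro g
    obtain ⟨c, hc⟩ := ih (g * S.ι l)
    refine ⟨_, (S.adj_letter_met g l).chain_met.trans (c := _) (e := c) ?_⟩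
    simpa [ev, mul_assoc] using hc

theorem adj_vtx_met (p : S.X) : ∃ g, S.Adj p (S.vtx g) := by
  obtain ⟨g, a, b, b', a', s, t, q, hs, ht, e⟩ := p.2
  obtain ⟨h1, h2⟩ := S.sq_mem_pc q hs ht p e
  refine ⟨g, g, g * S.ι a, h1.le, h2, S.vtx_mem_left_met ?_⟩
  rw [S.v_letter_met, (S.D.sq_c _ _ _ _ q).1]
  simp

theorem chain_ne (p q : S.X) : ∃ c, S.Chain p q c := by
  obtain ⟨g, hg⟩ := S.adj_vtx_met p
  obtain ⟨k, hk⟩ := S.adj_vtx_met q
  obtain ⟨w, hw⟩ := S.pres.surj (g⁻¹ * k)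
  obtain ⟨c, hc⟩ := S.chain_vtx_met w g
  rw [hw, mul_inv_cancel_left] at hc
  exact ⟨_, (hg.chain_met.trans hc).trans hk.symm_met.chain_met⟩

theorem bdd_met (p q : S.X) : BddBelow {c | S.Chain p q c} := ⟨_, fun _ h => Chain.le h⟩

theorem DX_le_met (p q : S.X) : S.DX p q ≤ sInf {c | S.Chain p q c} :=
  le_csInf (S.chain_ne p q) fun _ h => Chain.le h

noncomputable instance : MetricSpace S.X where
  dist p q := sInf {c | S.Chain p q c}
  dist_self := fun p => le_antisymm (csInf_le (S.bdd_met p p) Chain.refl)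
    ((S.DX_nonneg_met p p).trans (S.DX_le_met p p))
  dist_comm := fun p q => congrArg sInf (Set.ext fun _ => ⟨Chain.symm, Chain.symm⟩)
  dist_triangle := fun p q r => by
    have h : ∀ c ∈ {c | S.Chain p q c}, sInf {c | S.Chain p r c} - c ≤ sInf {c | S.Chain q r c} :=
      fun c hc => le_csInf (S.chain_ne q r) fun e he => by
        have := csInf_le (S.bdd_met p r) (Chain.trans hc he)
        linarith
    have h2 : sInf {c | S.Chain p r c} - sInf {c | S.Chain q r c} ≤ sInf {c | S.Chain p q c} :=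
      le_csInf (S.chain_ne p q) fun c hc => by
        have := h c hc
        linarith
    show sInf {c | S.Chain p r c} ≤ sInf {c | S.Chain p q c} + sInf {c | S.Chain q r c}
    linarith
  eq_of_dist_eq_zero := fun {p q} h => by
    have h1 : S.DX p q ≤ 0 := (S.DX_le_met p q).trans (le_of_eq h)
    have h2 : DD p.1.1 q.1.1 ^ 2 + DD p.1.2 q.1.2 ^ 2 ≤ 0 := Real.sqrt_eq_zero'.1
      (le_antisymm h1 (S.DX_nonneg_met p q))
    have h3 : DD p.1.1 q.1.1 = 0 := by nlinarith [sq_nonneg (DD p.1.1 q.1.1), sq_nonneg (DD p.1.2 q.1.2)]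
    have h4 : DD p.1.2 q.1.2 = 0 := by nlinarith [sq_nonneg (DD p.1.1 q.1.1), sq_nonneg (DD p.1.2 q.1.2)]
    exact Subtype.ext (Prod.ext (DD_eq_zero S.th (S.mem_h p) (S.mem_h q) h3)
      (DD_eq_zero S.tv (S.mem_v p) (S.mem_v q) h4))

theorem dist_def (p q : S.X) : dist p q = sInf {c | S.Chain p q c} := rfl

theorem DX_le (p q : S.X) : S.DX p q ≤ dist p q := S.DX_le_met p q

theorem dist_le_chain {p q : S.X} {c : ℝ} (h : S.Chain p q c) : dist p q ≤ c :=
  csInf_le (S.bdd_met p q) h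

theorem dist_adj {p q : S.X} (h : S.Adj p q) : dist p q = S.DX p q :=
  le_antisymm (S.dist_le_chain h.chain_met) (S.DX_le p q)

theorem h_mul_met (g a b : S.G) : S.h (g * a) (g * b) = S.h a b := rho_mul g a b

theorem v_mul_met (g a b : S.G) : S.v (g * a) (g * b) = S.v a b := rho_mul g a b

theorem pt_mul (g a b : S.G) (s : ℝ) :
    (fun x => pt S.h a b s (g⁻¹ * x)) = pt S.h (g * a) (g * b) s ∧
    (fun x => pt S.v a b s (g⁻¹ * x)) = pt S.v (g * a) (g * b) s := by
  constructor <;> funext x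
  · rw [pt, pt, ← S.h_mul_met g a, ← S.h_mul_met g b, mul_inv_cancel_left]
  · rw [pt, pt, ← S.v_mul_met g a, ← S.v_mul_met g b, mul_inv_cancel_left]

theorem inX_smul (g : S.G) (p : S.X) :
    S.InX (fun x => p.1.1 (g⁻¹ * x), fun x => p.1.2 (g⁻¹ * x)) := by
  obtain ⟨k, a, b, b', a', s, t, q, hs, ht, e⟩ := p.2
  refine ⟨g * k, a, b, b', a', s, t, q, hs, ht, ?_⟩
  rw [e, sqp, sqp, mul_assoc, mul_assoc]
  exact Prod.ext (S.pt_mul g _ _ s).1 (S.pt_mul g _ _ t).2

instance : MulAction S.G S.X where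
  smul g p := ⟨(fun x => p.1.1 (g⁻¹ * x), fun x => p.1.2 (g⁻¹ * x)), S.inX_smul g p⟩
  one_smul := fun p => Subtype.ext (Prod.ext
    (funext fun x => congrArg p.1.1 (by rw [inv_one, one_mul]))
    (funext fun x => congrArg p.1.2 (by rw [inv_one, one_mul])))
  mul_smul := fun g k p => Subtype.ext (Prod.ext
    (funext fun x => congrArg p.1.1 (by rw [mul_inv_rev, mul_assoc]))
    (funext fun x => congrArg p.1.2 (by rw [mul_inv_rev, mul_assoc])))

theorem smul_val (g : S.G) (p : S.X) :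
    (g • p).1 = (fun x => p.1.1 (g⁻¹ * x), fun x => p.1.2 (g⁻¹ * x)) := rfl

theorem DD_mul_met (g : S.G) (f k : S.G → ℝ) :
    DD (fun x => f (g⁻¹ * x)) (fun x => k (g⁻¹ * x)) = DD f k :=
  (Equiv.mulLeft g⁻¹).iSup_comp (g := fun x => |f x - k x|)

theorem DX_smul_met (g : S.G) (p q : S.X) : S.DX (g • p) (g • q) = S.DX p q := by
  rw [DX, DX, smul_val, smul_val, S.DD_mul_met, S.DD_mul_met]

theorem WE_mul_met (g : S.G) {a b x : S.G} (h : x ∈ S.WE a b) : g * x ∈ S.WE (g * a) (g * b) :=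
  let ⟨h1, y, h2, h3⟩ := h
  ⟨(S.h_mul_met g a x).trans h1, g * y, (S.h_mul_met g b y).trans h2, (S.v_mul_met g x y).trans h3⟩

theorem Pc_smul_met (g : S.G) {a b : S.G} {p : S.X} (h : p ∈ S.Pc a b) :
    g • p ∈ S.Pc (g * a) (g * b) := by
  obtain ⟨⟨s, hs, e⟩, x, hx, y, hy, t, ht, hxy, e'⟩ := h
  refine ⟨⟨s, hs, ?_⟩, g * x, S.WE_mul_met g hx, g * y, S.WE_mul_met g hy, t, ht,
    by rwa [S.v_mul_met], ?_⟩
  · rw [smul_val, e]
    exact (S.pt_mul g a b s).1
  · rw [smul_val, e']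
    exact (S.pt_mul g x y t).2

theorem chain_smul_met (g : S.G) {p q : S.X} {c : ℝ} (h : S.Chain p q c) :
    S.Chain (g • p) (g • q) c := by
  induction h with
  | refl => exact Chain.refl
  | @step q r c _ a ih =>
    obtain ⟨x, y, h1, h2, h3⟩ := a
    rw [← S.DX_smul_met g q r]
    exact ih.step ⟨g * x, g * y, by rwa [S.h_mul_met], S.Pc_smul_met g h2, S.Pc_smul_met g h3⟩

instance : IsIsometricSMul S.G S.X where
  isometry_smul := fun g => Isometry.of_dist_eq fun p q =>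
    congrArg sInf (Set.ext fun c => ⟨fun h => by
      have := S.chain_smul_met g⁻¹ h
      rwa [inv_smul_smul, inv_smul_smul] at this, fun h => S.chain_smul_met g h⟩)

theorem smul_vtx (g k : S.G) : g • S.vtx k = S.vtx (g * k) :=
  Subtype.ext (Prod.ext (S.pt_mul g k k 0).1 (S.pt_mul g k k 0).2)

end Sys

end Pool.Agent.FC
end

-- part Pool.Agent.P.MP_5e292f_al.FChild
section

set_option autoImplicit false

namespace Pool.Agent.FC

theorem ch_aux : ∀ u : U, |dR u| ≤ 1 ∧ |dQ u| ≤ 1 ∧ |dP u| ≤ 1 ∧ dP u + dQ u = dR u ∧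
    (dQ u ≠ 0 → rgo u = true) ∧ (dR u ≠ 0 → rgo u = true ∧ cSo u = false) ∧
    (cSo u = true → rgo u = true ∧ cPo u = true) ∧ rReg u 0 + dR u = 0 ∧
    (dP u ≠ 0 → cPo u = true ∧ cSo u = false) ∧ (dQ u = 0 → cPo u = rgo u) ∧
    (dQ u ≠ 0 → cPo u = false) ∧ (cPo u = true → dQ u = 0 ∧ rgo u = true) := by decide +kernel

theorem ch_aux2 : ∀ (u : U) (s : Bool), od u = true →
    (fIn u s = false → dS u (sgn s) + dR u = dR (mv u (sgn s)) ∧
      (pIn u s = false → dQ (mv u (sgn s)) = dQ u) ∧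
      (pIn u s = true → dQ u = 0 ∧ dQ (mv u (sgn s)) = sgn s ∧ rgo u = true)) ∧
    (fIn u s = true → dS u (sgn s) = 0 ∧ dR u = sgn s ∧ dR (mv u (sgn s)) = 0 ∧ dQ u = sgn s ∧
      dQ (mv u (sgn s)) = 0 ∧ rgo u = true ∧ cSo u = false ∧ cSo (mv u (sgn s)) = false ∧
      rEx u 0 = 0) := by decide +kernel

theorem fIn_od : ∀ (u : U) (s : Bool), fIn u s = true → od u = true := by decide +kernel

theorem win_dR (u : U) {p : Bool} (hp : p = rgo u) (c : ℤ) (h : win (cSo u) c = true) :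
    win p (c + dR u) = true := by
  obtain ⟨a1, -, -, -, -, a2, a3, -⟩ := ch_aux u
  by_cases h0 : dR u = 0
  · rw [h0, add_zero]
    cases hc : cSo u
    · rw [hc] at h
      cases p
      · exact h
      · have := win_step (e := 0) (by simp) h
        rwa [add_zero] at this
    · rw [hc] at h; rw [hp, (a3 hc).1]; exact h
  · rw [(a2 h0).2] at h
    rw [hp, (a2 h0).1]
    exact win_step a1 h

theorem look_chP (P : Blk) (x y : U) (hx : od P.x = rgo x) (hy : od P.y = rgo y) {c e : ℤ}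
    (hc : |c| ≤ 1) (he : |e| ≤ 1) : look (chP P x y).σ c e = infAt P (c + dR x) (e + dR y) := by
  simp only [chP]
  rw [look_sh _ _ _ _ _ (win_of hc) (win_of he),
    look_G P (win_dR x hx _ (win_of hc)) (win_dR y hy _ (win_of he))]

/-- On a tile of the region of a parent tile, the inherited record is the parent's own record. -/
theorem chP_oR (P : Blk) (x y : U) (hx : od P.x = rgo x) (hy : od P.y = rgo y) :
    oR (chP P x y) 0 0 = inf P := by
  have ex : (chP P x y).x = x := rfl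
  have ey : (chP P x y).y = y := rfl
  rw [oR, ex, ey, look_chP P x y hx hy (r_le x (by simp)).2 (r_le y (by simp)).2,
    (ch_aux x).2.2.2.2.2.2.2.1, (ch_aux y).2.2.2.2.2.2.2.1, inf]

theorem bd_chP (P : Blk) (x y : U) (d : Dir) (ho : od (co d.1 x y) = true)
    (hf : fIn (co d.1 x y) d.2 = false) :
    bd d (chP P x y) = chP P (mv x (dx d)) (mv y (dy d)) := by
  obtain ⟨a, s⟩ := d
  have h1 := ((ch_aux2 _ s ho).1 hf).1
  have hs : |sgn s| ≤ 1 := by cases s <;> decide
  cases a <;> simp only [co, Bool.false_eq_true, if_false, if_true] at h1 ho <;>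
    simp only [bd, bdv, chP, dx, dy, Bool.false_eq_true, if_false, if_true, mv_zero, dS_zero,
      and_true, true_and] <;> congr 1
  · split_ifs with h0
    · rw [← h1, h0, zero_add, (od_mv x hs).2.1 h0]
    · rw [sh_sh _ _ _ _ _ _ _ _ _ (win_cS x hs fun _ => ho) (fun c h => by rwa [add_zero]), h1,
        zero_add]
  · split_ifs with h0
    · rw [← h1, h0, zero_add, (od_mv y hs).2.1 h0]
    · rw [sh_sh _ _ _ _ _ _ _ _ _ (fun c h => by rwa [add_zero]) (win_cS y hs fun _ => ho), h1,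
        zero_add]

theorem chS_congr (c : Cell) (x y : U) {kx ky kx' ky' : Bool} (h : kk x y kx' ky' = kk x y kx ky) :
    chS c x y kx' ky' = chS c x y kx ky := by
  have e : ∀ i, sym x y kx' ky' i = sym x y kx ky i := fun i => by
    unfold sym; rw [(sdT_congr h).2.2]
  funext i
  unfold chS
  rw [e]

theorem child_bd (c : Cell) (x y : U) (d : Dir) (hx : od c.P.x = rgo x) (hy : od c.P.y = rgo y)
    (ho : od (co d.1 x y) = true) (hf : fIn (co d.1 x y) d.2 = false) :
    bdC d (child c x y) = child c (mv x (dx d)) (mv y (dy d)) := by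
  have hb := bd_chP c.P x y d ho hf
  refine Cell.ext hb ?_
  have hk := (kk_bd (chP c.P x y) d ho).2
  rw [hb] at hk
  simp only [bdC, child]
  rw [chS_congr c (mv x (dx d)) (mv y (dy d)) hk, opOf_eq _ _ ho]
  have ex : (chP c.P x y).x = x := rfl
  have ey : (chP c.P x y).y = y := rfl
  rw [ex, ey, hf]
  generalize kX (chP c.P x y) = kx
  generalize kY (chP c.P x y) = ky
  simp only [Bool.false_eq_true, if_false]
  funext i
  have h := sym_spec d x y ho kx ky i
  have q := ((ch_aux2 _ d.2 ho).1 hf).2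
  simp only [cSymT] at h
  unfold act chS sym
  by_cases m0 : mode (pop x y d kx ky) i = 0
  · simp only [m0, if_true, Bool.and_eq_true, beq_iff_eq, Bool.or_eq_true, bne_iff_ne,
      Bool.not_eq_true'] at h ⊢
    rw [← h.1.1]
    by_cases s1 : symT (tab (mv x (dx d)) (mv y (dy d))) kx ky i = 1
    · rw [if_pos s1, if_pos s1, h.2.resolve_left (not_not.2 s1)]
    · rw [if_neg s1, if_neg s1]
      split_ifs with s2
      · have := q.1 (h.1.2.resolve_left (not_not.2 s2))
        obtain ⟨a, s⟩ := d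
        cases a <;> simp only [co, Bool.false_eq_true, if_false, if_true] at this <;>
          simp [dx, dy, mv_zero, this]
      · rfl
  · by_cases m1 : mode (pop x y d kx ky) i = 1
    · simp only [m1, if_true, beq_iff_eq, one_ne_zero, if_false] at h ⊢
      simp [h]
    · simp only [m0, m1, if_false, Bool.and_eq_true, beq_iff_eq] at h ⊢
      rw [h.1.1, h.1.2]
      obtain ⟨q1, q2, q3⟩ := q.2 h.2
      obtain ⟨a, s⟩ := d
      have hs : |sgn s| ≤ 1 := by cases s <;> decide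
      cases a <;> simp only [co, Bool.false_eq_true, if_false, if_true] at q1 q2 q3 <;>
        simp only [dx, dy, Bool.false_eq_true, if_false, if_true, mv_zero, q1, q2, bd,
          OfNat.ofNat_ne_one, Option.map_some]
      · rw [bdv_bdv _ _ _ _ _ (by simp) (ch_aux y).2.1 hs (by simp) (Or.inl rfl) (Or.inr rfl)
          (fun _ => by rw [hx, q3]) (fun h => by rw [hy, (ch_aux y).2.2.2.2.1 (by simpa using h)])]
        simp
      · rw [bdv_bdv _ _ _ _ _ (ch_aux x).2.1 (by simp) (by simp) hs (Or.inr rfl) (Or.inl rfl)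
          (fun h => by rw [hx, (ch_aux x).2.2.2.2.1 (by simpa using h)]) (fun _ => by rw [hy, q3])]
        simp

theorem opOf_chP (P : Blk) (x y : U) (d : Dir) (hx : od P.x = rgo x) (hy : od P.y = rgo y)
    (hf : fIn (co d.1 x y) d.2 = true) :
    (if d.1 then oY (chP P x y) 0 0 else oX (chP P x y) 0 0) =
      (if d.1 then (inf (bd d P)).ty else (inf (bd d P)).tx) ∧ opOf d (chP P x y) = opOf d P := by
  have ho := fIn_od _ _ hf
  have ex : (chP P x y).x = x := rfl
  have ey : (chP P x y).y = y := rfl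
  have key : (if d.1 then oY (chP P x y) 0 0 else oX (chP P x y) 0 0) =
      (if d.1 then (inf (bd d P)).ty else (inf (bd d P)).tx) := by
    obtain ⟨-, q2, -, -, -, -, -, -, q9⟩ := (ch_aux2 _ d.2 ho).2 hf
    rw [(o_bd P d).2.2]
    obtain ⟨a, s⟩ := d
    cases a <;> simp only [co, Bool.false_eq_true, if_false, if_true] at q2 q9 ⊢
    · rw [oX, ex, ey, look_chP P x y hx hy (r_le x (by simp)).1 (r_le y (by simp)).2, q9, q2,
        (ch_aux y).2.2.2.2.2.2.2.1]
      simp [dx, dy]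
    · rw [oY, ex, ey, look_chP P x y hx hy (r_le x (by simp)).2 (r_le y (by simp)).1, q9, q2,
        (ch_aux x).2.2.2.2.2.2.2.1]
      simp [dx, dy]
  refine ⟨key, ?_⟩
  rw [opOf_eq _ _ ho, ex, ey, if_pos hf, key]
  rfl

theorem tch_aux : ∀ (d : Dir) (O : Bool × Op) (i : Fin 4),
    (tch (side d O) i = true → i ≠ (if tch O.2 2 then 3 else 2)) ∧
    (tch (side d O) i = false → mode (side d O) i = 0 ∧ src (side d O) i = i) ∧
    (tch (side d O) i = true → mode (side d O) i = 0 → tch (side d O) (src (side d O) i) = true) ∧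
    (mode (side d O) i ≠ 0 → tch (side d O) i = true) := by
  decide +kernel

theorem gate (x y : U) (d : Dir) (hf : fIn (co d.1 x y) d.2 = true) (kx ky : Bool) :
    pop x y d kx ky = 0 ∧
      ∀ i, i ≠ (if (if d.1 then ky else kx) then 3 else 2) → sd x y kx ky i = true := by
  have ho := fIn_od _ _ hf
  have hs := (step_spec d x y ho).2 kx ky
  simp only [cStepT, Bool.and_eq_true] at hs
  have hs2 := hs.1.1.2
  rw [if_pos ((line_aux _ d.2 ho).2.2.2.2.2 hf), Bool.and_eq_true, beq_iff_eq] at hs2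
  refine ⟨hs2.1, fun i hi => ?_⟩
  have := all4_spec hs2.2 i
  rw [Bool.or_eq_true, beq_iff_eq] at this
  exact this.resolve_left hi

theorem child_bdF (c : Cell) (x y : U) (d : Dir) (hx : od c.P.x = rgo x) (hy : od c.P.y = rgo y)
    (hf : fIn (co d.1 x y) d.2 = true) :
    bdC d (child c x y) = child (bdC d c) (mv x (dx d)) (mv y (dy d)) := by
  have ho := fIn_od _ _ hf
  obtain ⟨q1, q2, q3, q4, q5, q6, q7, q8, -⟩ := (ch_aux2 _ d.2 ho).2 hf
  have hs : |sgn d.2| ≤ 1 := by cases d.2 <;> decide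
  have hs0 : sgn d.2 ≠ 0 := by cases d.2 <;> decide
  have hb : bd d (chP c.P x y) = chP (bd d c.P) (mv x (dx d)) (mv y (dy d)) := by
    obtain ⟨a, s⟩ := d
    cases a <;> simp only [co, Bool.false_eq_true, if_false, if_true] at q1 q2 q3 q6 q7 q8 hs hs0 <;>
      simp only [bd, chP, dx, dy, Bool.false_eq_true, if_false, if_true, mv_zero]
    · rw [G_bdv _ _ _ hs (by simp) (fun _ => by rw [hx, q6]) (by simp), mv_zero,
        sh_sh _ _ _ _ _ _ _ _ _ _ (win_dR y hy)]
      · simp [bdv, q1, q2, q3, q7, q8, dS_zero, mv_zero]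
      · intro e he
        rw [(od_mv _ hs).1 hs0, hx, q6, q3, add_zero]
        rwa [q8] at he
    · rw [G_bdv _ _ _ (by simp) hs (by simp) (fun _ => by rw [hy, q6]), mv_zero,
        sh_sh _ _ _ _ _ _ _ _ _ (win_dR x hx)]
      · simp [bdv, q1, q2, q3, q7, q8, dS_zero, mv_zero]
      · intro e he
        rw [(od_mv _ hs).1 hs0, hy, q6, q3, add_zero]
        rwa [q8] at he
  refine Cell.ext hb ?_
  have hk := (kk_bd (chP c.P x y) d ho).2
  rw [hb] at hk
  obtain ⟨o1, o2⟩ := opOf_chP c.P x y d hx hy hf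
  have hQ : bdv (dQ (mv x (dx d))) (dQ (mv y (dy d))) (bd d c.P) = bdv (dQ x) (dQ y) c.P := by
    obtain ⟨a, s⟩ := d
    cases a <;> simp only [co, Bool.false_eq_true, if_false, if_true] at q4 q5 q6 hs <;>
      simp only [bd, dx, dy, Bool.false_eq_true, if_false, if_true, mv_zero, q4, q5]
    · rw [bdv_bdv _ _ _ _ _ hs (by simp) (by simp) (ch_aux y).2.1 (Or.inr rfl) (Or.inl rfl)
        (fun _ => by rw [hx, q6]) (fun h => by rw [hy, (ch_aux y).2.2.2.2.1 (by simpa using h)])]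
      simp
    · rw [bdv_bdv _ _ _ _ _ (by simp) hs (ch_aux x).2.1 (by simp) (Or.inl rfl) (Or.inr rfl)
        (fun h => by rw [hx, (ch_aux x).2.2.2.2.1 (by simpa using h)]) (fun _ => by rw [hy, q6])]
      simp
  have hk2 : (if d.1 then kY (chP c.P x y) else kX (chP c.P x y)) =
      tch (if d.1 then (inf (bd d c.P)).ty else (inf (bd d c.P)).tx).2 2 := by
    rw [← o1]
    cases d.1 <;> rfl
  obtain ⟨g1, g2⟩ := gate x y d hf (kX (chP c.P x y)) (kY (chP c.P x y))
  rw [hk2] at g2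
  have eo : opOf d c.P = side d (if d.1 then (inf (bd d c.P)).ty else (inf (bd d c.P)).tx) := rfl
  simp only [bdC, child]
  rw [chS_congr _ (mv x (dx d)) (mv y (dy d)) hk, o2, eo]
  generalize (if d.1 then (inf (bd d c.P)).ty else (inf (bd d c.P)).tx) = O at g2
  generalize kX (chP c.P x y) = kx at g1 g2
  generalize kY (chP c.P x y) = ky at g1 g2
  have es : ∀ i, sym (mv x (dx d)) (mv y (dy d)) kx ky i = sym x y kx ky i := fun i => by
    have h := sym_spec d x y ho kx ky i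
    rw [g1] at h
    have m : mode 0 i = 0 ∧ src 0 i = i := by clear h; revert i; decide
    simp only [cSymT, m.1, m.2, if_true, Bool.and_eq_true, beq_iff_eq] at h
    exact h.1.1
  have s1 : ∀ i, tch (side d O) i = true → chS c x y kx ky i = c.s i := fun i h => by
    have : sym x y kx ky i = 1 := symT_one.2 (g2 i ((tch_aux d O i).1 h))
    simp [chS, this]
  funext i
  cases ht : tch (side d O) i
  · obtain ⟨m1, m2⟩ := (tch_aux d O i).2.1 ht
    simp only [act, chS, es, m1, m2, if_true, hQ]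
  · have : sym x y kx ky i = 1 := symT_one.2 (g2 i ((tch_aux d O i).1 ht))
    rw [chS, es, if_pos this]
    simp only [act]
    split_ifs with a b
    · exact s1 _ ((tch_aux d O i).2.2.1 ht a)
    · rfl
    · rw [s1 _ ht]

theorem child_valP (c : Cell) (x y : U) (h : sP x y = true) :
    valP (child c x y) = some (bdv (dQ x) (dQ y) c.P) := by
  have := sym_pi x y (kX (chP c.P x y)) (kY (chP c.P x y)) h
  show chS c x y _ _ (piS x y (kX (chP c.P x y)) (kY (chP c.P x y))) = _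
  simp [chS, this]

theorem child_slot (c : Cell) (x y : U) (i : Fin 4)
    (h : sd x y (kX (chP c.P x y)) (kY (chP c.P x y)) i = true) : (child c x y).s i = c.s i := by
  have : sym x y (kX (chP c.P x y)) (kY (chP c.P x y)) i = 1 := symT_one.2 h
  simp [child, chS, this]

end Pool.Agent.FC
end

-- part Pool.Agent.P.MP_5e292f_al.FDet
section

set_option autoImplicit false

namespace Pool.Agent.FC

theorem op_aux : ∀ (op : Op) (i : Fin 4), (mode op i = 0 → mode op (src op i) = 0 ∧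
    src op (src op i) = i) ∧ (mode op i ≠ 0 → hit op = true ∧ ∀ j, j ≠ i → mode op j = 0) := by
  decide +kernel

theorem act_rec {op : Op} {d : Dir} {s s' : Fin 4 → Option Blk} (h : act op d s = act op d s')
    {i : Fin 4} (hi : mode op i = 0) : s i = s' i := by
  obtain ⟨a, b⟩ := (op_aux op i).1 hi
  have := congrFun h (src op i)
  simpa only [act, a, if_true, b] using this

theorem act_del {op : Op} {d : Dir} {s s' : Fin 4 → Option Blk} (h : act op d s = act op d s')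
    {i : Fin 4} (hi : mode op i = 2) : (s i).map (bd d) = (s' i).map (bd d) := by
  have := congrFun h i
  simpa [act, hi] using this

theorem mv_inj_aux : ∀ (u : U) (i : Fin 5), |vo i| ≤ 1 → mv (mv u (vo i)) (-vo i) = u := by
  decide +kernel

theorem mv_inj {u u' : U} {e : ℤ} (he : |e| ≤ 1) (h : mv u e = mv u' e) : u = u' := by
  obtain ⟨i, rfl⟩ := ex_vo (he.trans one_le_two)
  rw [← mv_inj_aux u i he, h, mv_inj_aux u' i he]

theorem pos_eq {P P' : Blk} {d : Dir} (h : bd d P = bd d P') : P.x = P'.x ∧ P.y = P'.y :=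
  ⟨mv_inj (dxy_le d).1 (congrArg Blk.x h), mv_inj (dxy_le d).2 (congrArg Blk.y h)⟩

theorem tile_co {P : Blk} (h : tile P) (a : Bool) : od (co a P.x P.y) = true := by
  cases a
  · exact h.1
  · exact h.2

theorem blk_eq {P P' : Blk} {d : Dir} (hP : tile P) (h : bd d P = bd d P')
    (hs : sIn (co d.1 P.x P.y) d.2 = false) : P = P' := by
  obtain ⟨ex, ey⟩ := pos_eq h
  refine Blk.ext ex ey ?_
  rw [← bd_sigma P d (tile_co hP _) hs, h, bd_sigma P' d (by rw [← ex, ← ey]; exact tile_co hP _)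
    (by rw [← ex, ← ey]; exact hs)]

theorem core_eq {u u' : Blk} {o : Option Blk} (h : core u o) (h' : core u' o) (ex : u.x = u'.x)
    (ey : u.y = u'.y) : u = u' := by
  obtain ⟨w, e, -, -, s, -⟩ := h
  obtain ⟨w', e', -, -, s', -⟩ := h'
  obtain rfl : w = w' := Option.some.inj (e.symm.trans e')
  exact Blk.ext ex ey (by rw [s, s', ex, ey])

theorem sf_aux : ∀ (u : U) (s : Bool), sIn u s = true → fIn u s = false := by decide +kernel

theorem own_eq {t t' : Cell} (h : Valid t) (h' : Valid t') (d : Dir) (hd : bdC d t = bdC d t') :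
    t.P = t'.P := by
  have hb : bd d t.P = bd d t'.P := congrArg Cell.P hd
  by_cases hs : sIn (co d.1 t.P.x t.P.y) d.2 = true
  swap
  · exact blk_eq h.tl hb (by simpa using hs)
  obtain ⟨ex, ey⟩ := pos_eq hb
  have o := tile_co h.tl d.1
  have o' := tile_co h'.tl d.1
  have k := (sdT_congr (kk_bd t.P d o).1).2.1
  have k' := (sdT_congr (kk_bd t'.P d o').1).2.1
  have epi : piS t'.P.x t'.P.y (kX t'.P) (kY t'.P) = piS t.P.x t.P.y (kX t.P) (kY t.P) := by
    simp only [piS]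
    rw [← k, ← k', hb, ex, ey]
  have hc := (step_spec d t.P.x t.P.y o).2 (kX t.P) (kY t.P)
  simp only [cStepT, Bool.and_eq_true] at hc
  have hc := hc.1.2
  simp only [hs, tile_co h.tl, Bool.and_self, Bool.not_true, Bool.false_or, Bool.and_eq_true,
    beq_iff_eq] at hc
  have eo : opOf d t'.P = opOf d t.P := by simp only [opOf, hb]
  have hm : mode (opOf d t.P) (piS t.P.x t.P.y (kX t.P) (kY t.P)) = 0 := by
    rw [opOf_eq _ _ o, sf_aux _ _ hs]
    exact hc.2
  have ha : act (opOf d t.P) d t.s = act (opOf d t.P) d t'.s := by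
    have := congrArg Cell.s hd
    simp only [bdC] at this
    rwa [eo] at this
  have c1 := h.cr _ ⟨hc.1, rfl⟩
  have c2 := h'.cr _ ⟨by rw [← ex, ← ey]; exact hc.1, epi⟩
  rw [← act_rec ha hm] at c2
  exact core_eq c1 c2 ex ey

theorem act_eq {t t' : Cell} (d : Dir) (hd : bdC d t = bdC d t') (e : t.P = t'.P) :
    act (opOf d t.P) d t.s = act (opOf d t.P) d t'.s := by
  have := congrArg Cell.s hd
  simp only [bdC] at this
  rwa [← e] at this

theorem c2_spec (sx sy : Bool) (x y : U) (ox : od x = true) (oy : od y = true) (kx ky : Bool) :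
    cCorT (tab x y) (tab (mv x (sgn sx)) y) (tab x (mv y (sgn sy))) (pIn x sx) (pIn y sy) (fIn x sx)
      (fIn y sy) (cPo x && cPo y) (xc sx sy) kx ky = true ∧
    (sIn x sx = true → sIn y sy = true → sP x y = true ∧ piS x y kx ky = xc sx sy) := by
  have : c2 sx sy x y = true := by
    cases sx <;> cases sy
    · exact allU_spec (allU_spec chk2d x) y
    · exact allU_spec (allU_spec chk2c x) y
    · exact allU_spec (allU_spec chk2b x) y
    · exact allU_spec (allU_spec chk2a x) y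
  simp only [c2, ox, oy, Bool.and_self, Bool.not_true, Bool.false_or, frc_eq, frb_eq] at this
  have := allB_spec (allB_spec this kx) ky
  rw [Bool.and_eq_true] at this
  refine ⟨this.1, fun a b => ?_⟩
  simpa [a, b, sP, piS] using this.2

/-- Four-way determinism. -/
theorem det {t t' : Cell} (h : Valid t) (h' : Valid t') (sx sy : Bool)
    (hx : bdC (false, sx) t = bdC (false, sx) t') (hy : bdC (true, sy) t = bdC (true, sy) t') :
    t = t' := by
  have e := own_eq h h' _ hx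
  have ax := act_eq _ hx e
  have ay := act_eq _ hy e
  refine Cell.ext e (funext fun i => ?_)
  by_cases mx : mode (opOf (false, sx) t.P) i = 0
  · exact act_rec ax mx
  by_cases my : mode (opOf (true, sy) t.P) i = 0
  · exact act_rec ay my
  obtain ⟨m1, m2, j, hj, hr⟩ := h.okk sx sy i mx my
  have ej : t.s j = t'.s j := act_rec ax (((op_aux _ i).2 mx).2 j hj)
  have r := h.rl i j _ hr
  have r' := h'.rl i j _ (e ▸ hr)
  have d1 := act_del ax m1
  have d2 := act_del ay m2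
  cases hw : t.s i with
  | none =>
    rw [hw] at d1
    have : t'.s i = none := by simpa using d1.symm
    exact this.symm
  | some w =>
    cases hw' : t'.s i with
    | none => rw [hw, hw'] at d1; simp at d1
    | some w' =>
      rw [hw, hw'] at d1 d2
      simp only [Option.map_some, Option.some.injEq] at d1 d2
      obtain ⟨tw, cw⟩ := r w hw
      obtain ⟨tw', cw'⟩ := r' w' hw'
      congr 1
      by_cases s1 : sIn w.x sx = true
      swap
      · exact blk_eq tw d1 (by simpa [co] using s1)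
      by_cases s2 : sIn w.y sy = true
      swap
      · exact blk_eq tw d2 (by simpa [co] using s2)
      obtain ⟨ex, ey⟩ := pos_eq d1
      have c1 := cw ((c2_spec sx sy _ _ tw.1 tw.2 _ _).2 s1 s2)
      have c2 := cw' ((c2_spec sx sy _ _ tw'.1 tw'.2 _ _).2 (ex ▸ s1) (ey ▸ s2))
      rw [← ej] at c2
      exact core_eq c1 c2 ex ey

/-- Two different valid tiles share a side only along a wall or a good line. -/
theorem ufold {t t' : Cell} (h : Valid t) (h' : Valid t') (d : Dir) (hd : bdC d t = bdC d t')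
    (hne : t ≠ t') : wg t.P.x t.P.y d = true := by
  have e := own_eq h h' _ hd
  have a := act_eq _ hd e
  have o := tile_co h.tl d.1
  obtain ⟨i, hi⟩ : ∃ i, mode (opOf d t.P) i ≠ 0 := by
    by_contra hc
    push Not at hc
    exact hne (Cell.ext e (funext fun i => act_rec a (hc i)))
  have hh := ((op_aux _ i).2 hi).1
  by_cases hf : fIn (co d.1 t.P.x t.P.y) d.2 = true
  · simp [wg, good, hf]
  rw [opOf_eq _ _ o, if_neg hf] at hh
  have hc := (step_spec d t.P.x t.P.y o).2 (kX t.P) (kY t.P)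
  simp only [cStepT, Bool.and_eq_true] at hc
  have hc := hc.2
  simp only [pop] at hh
  simp only [hh, Bool.not_true, Bool.false_or, Bool.or_eq_true] at hc
  simp only [wg, pop, Bool.or_eq_true]
  exact hc.elim (fun a => Or.inl (Or.inr a)) Or.inr

end Pool.Agent.FC
end

-- part Pool.Agent.P.MP_5e292f_al.FFold
section

set_option autoImplicit false

namespace Pool.Agent.FC

/-- A folded line of tile positions: `s i` is the orientation of column `i`. -/
structure FL (s : ℤ → Bool) (X : ℤ → U) : Prop where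
  od : ∀ i, od (X i) = true
  adj : ∀ i, mv (X i) (sgn (s i)) = mv (X (i + 1)) (sgn (!s (i + 1)))

theorem ffold_tn_val (a : ℕ) : (tn a).val = (2 * a + 1) % 84 := rfl

theorem ffold_mv_val (u : U) (e : ℤ) : (mv u e).val = ((u.val : ℤ) + e + 84).toNat % 84 := rfl

theorem ffold_idx {u : U} (h : od u = true) : ∃ a < 42, u = tn a := by
  have h1 := u.isLt
  simp only [od, beq_iff_eq] at h
  exact ⟨u.val / 2, by omega, Fin.ext (by rw [ffold_tn_val]; omega)⟩

theorem ffold_same {r : ℤ → Bool} {Y : ℤ → U} (h : FL r Y) {j : ℤ} (hj : r j ≠ r (j + 1)) :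
    Y (j + 1) = Y j := by
  have h1 := congrArg Fin.val (h.adj j)
  have h2 := (Y j).isLt
  have h3 := (Y (j + 1)).isLt
  rw [ffold_mv_val, ffold_mv_val] at h1
  refine Fin.ext ?_
  cases h4 : r j <;> cases h5 : r (j + 1) <;> simp only [h4, h5, sgn] at h1 hj <;>
    simp at h1 hj <;> omega

theorem ffold_step {r : ℤ → Bool} {Y : ℤ → U} (h : FL r Y) {j : ℤ} (hj : r (j + 1) = r j) {a : ℕ}
    (ha : Y j = tn a) : Y (j + 1) = tn (a + if r j then 1 else 41) := by
  have h1 := congrArg Fin.val (h.adj j)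
  have h3 := (Y (j + 1)).isLt
  rw [ffold_mv_val, ffold_mv_val, ha, hj, ffold_tn_val] at h1
  refine Fin.ext ?_
  rw [ffold_tn_val]
  cases h4 : r j <;> simp only [h4, sgn] at h1 <;> simp at h1 ⊢ <;> omega

/-- Some position among `3..16` does not occur. -/
def ffoldMiss (Y : ℤ → U) : Prop := ∃ k < 14, ∀ j, Y j ≠ tn (3 + k)

/-- A fold at the position `u` with direction `b`. -/
def ffoldAt (r : ℤ → Bool) (Y : ℤ → U) (u : U) (b : Bool) : Prop :=
  ∃ j, r j ≠ r (j + 1) ∧ Y j = u ∧ r j = b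

theorem ffold_fwd {r : ℤ → Bool} {Y : ℤ → U} (h : FL r Y) (hm : ffoldMiss Y) (j : ℤ) {a : ℕ}
    (ha : a < 42) (hj : Y j = tn a) :
    ∃ H : ℕ, (∀ k ≤ H, Y (j + k) = tn (a + (if r j then 1 else 41) * k)) ∧ r (j + H) = r j ∧
      r (j + H) ≠ r (j + H + 1) := by
  by_contra hc
  push Not at hc
  have h1 : ∀ H : ℕ, (∀ k ≤ H, Y (j + k) = tn (a + (if r j then 1 else 41) * k)) ∧
      r (j + H) = r j := by
    intro H
    induction H with
    | zero => exact ⟨fun k hk => by obtain rfl : k = 0 := by omega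
                                    simpa using hj, by simp⟩
    | succ H ih =>
      have h2 := hc H ih.1 ih.2
      refine ⟨fun k hk => ?_, by push_cast; rw [← add_assoc, ← h2, ih.2]⟩
      rcases Nat.lt_succ_iff_lt_or_eq.1 (Nat.lt_succ_of_le hk) with h3 | rfl
      · exact ih.1 k (by omega)
      · have h4 := ffold_step h h2.symm (ih.1 H le_rfl)
        push_cast
        rw [← add_assoc, h4, ih.2, mul_add, mul_one, add_assoc]
  obtain ⟨k, hk, h2⟩ := hm
  cases hr : r j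
  · refine h2 _ (((h1 (a + 39 - k)).1 _ le_rfl).trans (Fin.ext ?_))
    rw [ffold_tn_val, ffold_tn_val, hr, if_neg (by simp)]
    omega
  · refine h2 _ (((h1 (45 + k - a)).1 _ le_rfl).trans (Fin.ext ?_))
    rw [ffold_tn_val, ffold_tn_val, hr, if_pos rfl]
    omega

theorem ffold_run {r : ℤ → Bool} {Y : ℤ → U} (h : FL r Y) (hm : ffoldMiss Y) :
    ∃ a < 42, ∃ H < 55, short a (H + 1) = true ∧ (∀ k ≤ H, ∃ j, Y j = tn (a + k)) ∧
      ffoldAt r Y (tn a) false ∧ ffoldAt r Y (tn (a + H)) true := by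
  have h1 : ∃ j, r j = false := by
    cases h0 : r 0
    · exact ⟨0, h0⟩
    · obtain ⟨a, ha, h2⟩ := ffold_idx (h.od 0)
      obtain ⟨H, -, h3, h4⟩ := ffold_fwd h hm 0 ha h2
      rw [h3, h0] at h4
      exact ⟨_, by simpa using h4.symm⟩
  obtain ⟨j, hj⟩ := h1
  obtain ⟨a, ha, h2⟩ := ffold_idx (h.od j)
  obtain ⟨H, -, h3, h4⟩ := ffold_fwd h hm j ha h2
  rw [hj] at h3
  generalize j + H = i at h3 h4
  have h5 : r (i + 1) = true := by
    rw [h3] at h4
    simpa using h4.symm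
  obtain ⟨b, hb, h6⟩ := ffold_idx (h.od (i + 1))
  obtain ⟨K, h7, h8, h9⟩ := ffold_fwd h hm (i + 1) hb h6
  simp only [h5, if_true, one_mul] at h7 h8
  have h10 : K + 1 < (45 - b) % 42 + 14 := by
    by_contra hc
    obtain ⟨k, hk, h11⟩ := hm
    refine h11 _ ((h7 ((45 - b) % 42 + k) (by omega)).trans (Fin.ext ?_))
    rw [ffold_tn_val, ffold_tn_val]
    omega
  exact ⟨b, hb, K, by omega, decide_eq_true h10, fun k hk => ⟨_, h7 k hk⟩,
    ⟨i, h4, (ffold_same h h4).symm.trans h6, h3⟩, ⟨_, h9, h7 K le_rfl, h8⟩⟩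

theorem ffold_bad {r : ℤ → Bool} {Y : ℤ → U} (h : FL r Y) (hm : ffoldMiss Y) :
    ∃ j, r j ≠ r (j + 1) ∧ ¬ good (Y j) (r j) = true := by
  obtain ⟨a, ha, H, -, h1, -, ⟨i, h2, h3, h4⟩, ⟨j, h5, h6, h7⟩⟩ := ffold_run h hm
  by_contra hc
  push Not at hc
  have h8 := hc i h2
  have h9 := hc j h5
  rw [h3, h4] at h8
  rw [h6, h7] at h9
  simp only [good, fIn, pIn, short, ffold_tn_val, Bool.false_eq_true, if_false, if_true,
    Bool.or_eq_true, beq_iff_eq, decide_eq_true_eq] at h1 h8 h9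
  omega

theorem ffold_miss (ax b : Bool) {u : U} (hu : od u = true) (hg : ¬ good u b = true) {Y : ℤ → U}
    (h : ∀ j, (if ax then wg (Y j) u (ax, b) else wg u (Y j) (ax, b)) = true) : ffoldMiss Y := by
  obtain ⟨a, ha, rfl⟩ := ffold_idx hu
  have h1 := (allN_iff _ _).1 (allB_spec (allB_spec chkRun ax) b) a ha
  by_contra hc
  simp only [ffoldMiss, not_exists, not_and, not_forall, not_not] at hc
  have h2 : (allN 14 fun k => if ax then wg (tn (3 + k)) (tn a) (ax, b)
      else wg (tn a) (tn (3 + k)) (ax, b)) = true := by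
    refine (allN_iff _ _).2 fun k hk => ?_
    obtain ⟨j, hj⟩ := hc k hk
    rw [← hj]; exact h j
  rw [cRun, h2] at h1
  exact hg (by simpa using h1)

/-- If every fold runs along walls or good lines, then every fold is on a good line. -/
theorem folds_good {s r : ℤ → Bool} {X Y : ℤ → U} (hX : FL s X) (hY : FL r Y)
    (hV : ∀ i j, s i ≠ s (i + 1) → wg (X i) (Y j) (false, s i) = true)
    (hH : ∀ i j, r j ≠ r (j + 1) → wg (X i) (Y j) (true, r j) = true) :
    (∀ i, s i ≠ s (i + 1) → good (X i) (s i) = true) ∧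
      ∀ j, r j ≠ r (j + 1) → good (Y j) (r j) = true := by
  have hA : ∀ i, s i ≠ s (i + 1) → ¬ good (X i) (s i) = true → ffoldMiss Y :=
    fun i h1 h2 => ffold_miss false (s i) (hX.od i) h2 fun j => hV i j h1
  have hB : ∀ j, r j ≠ r (j + 1) → ¬ good (Y j) (r j) = true → ffoldMiss X :=
    fun j h1 h2 => ffold_miss true (r j) (hY.od j) h2 fun i => hH i j h1
  have hC : ffoldMiss X → ffoldMiss Y → False := by
    intro mX mY
    obtain ⟨a, ha, W, hW, a1, a2, a3, a4⟩ := ffold_run hX mX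
    obtain ⟨b, hb, H, hH', b1, b2, b3, b4⟩ := ffold_run hY mY
    have hv : ∀ u c, ffoldAt s X u c → ∀ k ≤ H, wg u (tn (b + k)) (false, c) = true := by
      rintro u c ⟨i, h1, rfl, rfl⟩ k hk
      obtain ⟨j, hj⟩ := b2 k hk
      rw [← hj]; exact hV i j h1
    have hh : ∀ u c, ffoldAt r Y u c → ∀ k ≤ W, wg (tn (a + k)) u (true, c) = true := by
      rintro u c ⟨j, h1, rfl, rfl⟩ k hk
      obtain ⟨i, hi⟩ := a2 k hk
      rw [← hi]; exact hH i j h1
    have h1 := (allN_iff _ _).1 ((allN_iff _ _).1 chkRect a ha) b hb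
    have e1 : wg (tn a) (tn b) (false, false) = true := hv _ _ a3 0 (by omega)
    have e2 : wg (tn a) (tn b) (true, false) = true := hh _ _ b3 0 (by omega)
    have e3 : wg (tn (a + W)) (tn b) (false, true) = true := hv _ _ a4 0 (by omega)
    have e4 : (allN (W + 1) fun k => wg (tn (a + k)) (tn b) (true, false)) = true :=
      (allN_iff _ _).2 fun k hk => hh _ _ b3 k (by omega)
    have e5 : (allN (H + 1) fun k => wg (tn a) (tn (b + k)) (false, false) &&
        wg (tn (a + W)) (tn (b + k)) (false, true)) = true :=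
      (allN_iff _ _).2 fun k hk => by
        rw [hv _ _ a3 k (by omega), hv _ _ a4 k (by omega)]; rfl
    have e6 : (allN (W + 1) fun k => wg (tn (a + k)) (tn (b + H)) (true, true)) = true :=
      (allN_iff _ _).2 fun k hk => hh _ _ b4 k (by omega)
    rw [cRect, e1, e2, Bool.and_self, Bool.not_true, Bool.false_or] at h1
    have h2 := (allN_iff _ _).1 h1 W hW
    rw [a1, e3, e4, Bool.and_self, Bool.and_self, Bool.not_true, Bool.false_or] at h2
    have h3 := (allN_iff _ _).1 h2 H hH'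
    rw [b1, e5, e6] at h3
    exact absurd h3 (by decide)
  constructor
  · intro i h1
    by_contra h2
    have mY := hA i h1 h2
    obtain ⟨j, h3, h4⟩ := ffold_bad hY mY
    exact hC (hB j h3 h4) mY
  · intro j h1
    by_contra h2
    have mX := hB j h1 h2
    obtain ⟨i, h3, h4⟩ := ffold_bad hX mX
    exact hC mX (hA i h3 h4)

end Pool.Agent.FC
end

-- part Pool.Agent.P.MP_5e292f_al.DCplx
section

set_option autoImplicit false

open Pointwise

namespace Pool.Agent.FC

theorem pt_swap {α : Type} (ρ : α → α → ℕ) (a b : α) (s : ℝ) : pt ρ a b s = pt ρ b a (1 - s) := by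
  funext x
  simp only [pt]
  ring

/-- Two edges of a tree meet in a face of the first. -/
theorem edge_face {α : Type} {ρ : α → α → ℕ} (T : TM ρ) {a b c d : α} (hab : ρ a b = 1)
    (hcd : ρ c d = 1) : ∃ F : Set ℝ, (F = ∅ ∨ F = {0} ∨ F = {1} ∨ F = Set.univ) ∧
      ∀ s ∈ Set.Icc (0 : ℝ) 1, (∃ t ∈ Set.Icc (0 : ℝ) 1, pt ρ a b s = pt ρ c d t) ↔ s ∈ F := by
  have t1 := T.tri c a d
  have t2 := T.tri c b d
  have t3 := T.tri a c b
  have t4 := T.tri a d b
  have s1 := T.symm c a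
  have s2 := T.symm c b
  have s3 := T.symm d a
  have s4 := T.symm d b
  have e0 : ∀ {x y : α}, ρ x y = 1 → ρ x c = 0 ∨ ρ x d = 0 →
      ∃ t ∈ Set.Icc (0 : ℝ) 1, pt ρ x y 0 = pt ρ c d t := by
    intro x y _ h
    have e : pt ρ x y 0 = pt ρ x x 0 := by funext z; simp [pt]
    rcases h with h | h
    · refine ⟨0, ⟨le_rfl, zero_le_one⟩, ?_⟩
      rw [e, pt_congr T h h]
      funext z; simp [pt]
    · refine ⟨1, ⟨zero_le_one, le_rfl⟩, ?_⟩
      rw [e, pt_congr T h h]
      funext z; simp [pt]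
  have key : ∀ s ∈ Set.Icc (0 : ℝ) 1, (∃ t ∈ Set.Icc (0 : ℝ) 1, pt ρ a b s = pt ρ c d t) →
      (s < 1 → ρ a c = 0 ∨ ρ a d = 0) ∧ (0 < s → ρ b c = 0 ∨ ρ b d = 0) := by
    rintro s ⟨h0, h1⟩ ⟨t, -, e⟩
    have ec := congrFun e c
    have ed := congrFun e d
    simp only [pt, T.refl, hcd, T.symm d c, Nat.cast_zero, Nat.cast_one] at ec ed
    have A1 : (1 : ℝ) ≤ (ρ a c : ℝ) + ρ a d := by exact_mod_cast (by omega : 1 ≤ ρ a c + ρ a d)
    have B1 : (1 : ℝ) ≤ (ρ b c : ℝ) + ρ b d := by exact_mod_cast (by omega : 1 ≤ ρ b c + ρ b d)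
    constructor
    · intro hs
      by_contra hc
      have : (2 : ℝ) ≤ (ρ a c : ℝ) + ρ a d := by exact_mod_cast (by omega : 2 ≤ ρ a c + ρ a d)
      nlinarith
    · intro hs
      by_contra hc
      have : (2 : ℝ) ≤ (ρ b c : ℝ) + ρ b d := by exact_mod_cast (by omega : 2 ≤ ρ b c + ρ b d)
      nlinarith
  by_cases P0 : ρ a c = 0 ∨ ρ a d = 0 <;> by_cases P1 : ρ b c = 0 ∨ ρ b d = 0
  · refine ⟨Set.univ, by simp, fun s hs => ⟨fun _ => trivial, fun _ => ?_⟩⟩
    by_cases h : ρ a c = 0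
    · exact ⟨s, hs, pt_congr T h (by omega) s⟩
    · refine ⟨1 - s, ⟨by linarith [hs.2], by linarith [hs.1]⟩, ?_⟩
      rw [← pt_swap]
      exact pt_congr T (by omega) (by omega) s
  · refine ⟨{0}, by simp, fun s hs => ⟨fun h => ?_, fun h => ?_⟩⟩
    · by_contra hc
      exact P1 ((key s hs h).2 (lt_of_le_of_ne hs.1 (Ne.symm hc)))
    · obtain rfl : s = 0 := h
      exact e0 hab P0
  · refine ⟨{1}, by simp, fun s hs => ⟨fun h => ?_, fun h => ?_⟩⟩
    · by_contra hc
      exact P0 ((key s hs h).1 (lt_of_le_of_ne hs.2 hc))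
    · obtain rfl : s = 1 := h
      rw [pt_swap, sub_self]
      exact e0 (by rw [T.symm]; exact hab) P1
  · refine ⟨∅, by simp, fun s hs => ⟨fun h => ?_, fun h => h.elim⟩⟩
    rcases lt_or_ge s 1 with h1 | h1
    · exact P0 ((key s hs h).1 h1)
    · exact P1 ((key s hs h).2 (by linarith))

namespace Sys

variable (S : Sys)

/-- The squares at the vertex `1`. -/
def SqI : Type := {q : S.A × S.A × S.A × S.A // S.D.Sq q.1 q.2.1 q.2.2.1 q.2.2.2}

instance : Finite S.SqI := by unfold SqI; infer_instance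

noncomputable def sqm (q : S.SqI)
    (p : {p : EuclideanSpace ℝ (Fin 2) // ∀ i, p i ∈ Set.Icc (0 : ℝ) 1}) : S.X :=
  ⟨S.sqp 1 q.1.1 q.1.2.2.1 (p.1 0) (p.1 1), 1, _, _, _, _, _, _, q.2, p.2 0, p.2 1, rfl⟩

theorem sq_len (q : S.SqI) (g : S.G) :
    S.h g (g * S.ι q.1.1) = 1 ∧ S.v g (g * S.ι q.1.2.2.1) = 1 := by
  obtain ⟨c1, -, c2, -⟩ := S.D.sq_c _ _ _ _ q.2
  constructor
  · rw [h, rho_letter S.pres, if_pos c1]
  · rw [v, rho_letter S.pres.tr, if_pos]
    show (!S.D.c _) = true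
    rw [c2]; rfl

theorem sqm_isometry (q : S.SqI) : Isometry (S.sqm q) := by
  refine Isometry.of_dist_eq fun p p' => ?_
  have m := fun p : {p : EuclideanSpace ℝ (Fin 2) // ∀ i, p i ∈ Set.Icc (0 : ℝ) 1} =>
    S.sq_mem_pc q.2 (p.2 0) (p.2 1) (S.sqm q p) rfl
  obtain ⟨l1, l2⟩ := S.sq_len q 1
  rw [S.dist_adj ⟨_, _, l1.le, (m p).2, (m p').2⟩, Subtype.dist_eq, EuclideanSpace.dist_eq,
    Fin.sum_univ_two, DX]
  simp only [sqm, sqp]
  rw [DD_edge S.th l1.le, DD_edge S.tv l2.le, l1, l2]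
  simp [Real.dist_eq]

theorem smul_sqm (g : S.G) (q : S.SqI) (p : _) :
    (g • S.sqm q p).1 = S.sqp g q.1.1 q.1.2.2.1 (p.1 0) (p.1 1) := by
  rw [smul_val]
  simp only [sqm, sqp]
  rw [(S.pt_mul g _ _ _).1, (S.pt_mul g _ _ _).2]
  simp

/-- The translates of finitely many isometric unit squares cover the space, and any two of them
meet in a face. -/
theorem complex : ∃ (I : Type) (_ : Finite I)
    (σ : I → {p : EuclideanSpace ℝ (Fin 2) // ∀ i, p i ∈ Set.Icc (0 : ℝ) 1} → S.X),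
    (∀ i, Isometry (σ i)) ∧ (∀ x : S.X, ∃ (g : S.G) (i : I) (p : _), x = g • σ i p) ∧
    ∀ (g : S.G) (i j : I), ∃ F : Fin 2 → Set ℝ,
      (∀ k, F k = ∅ ∨ F k = {0} ∨ F k = {1} ∨ F k = Set.univ) ∧
      ∀ p, σ i p ∈ g • Set.range (σ j) ↔ ∀ k, p.1 k ∈ F k := by
  refine ⟨S.SqI, inferInstance, S.sqm, S.sqm_isometry, fun x => ?_, fun g i j => ?_⟩
  · obtain ⟨g, a, b, b', a', s, t, q, hs, ht, e⟩ := x.2
    have hp : ∀ i, (!₂[s, t] : EuclideanSpace ℝ (Fin 2)) i ∈ Set.Icc (0 : ℝ) 1 := fun i => by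
      fin_cases i
      · exact hs
      · exact ht
    exact ⟨g, ⟨(a, b, b', a'), q⟩, ⟨!₂[s, t], hp⟩, Subtype.ext
      (e.trans (S.smul_sqm g ⟨(a, b, b', a'), q⟩ ⟨!₂[s, t], hp⟩).symm)⟩
  · obtain ⟨F0, f0, h0⟩ := edge_face S.th (S.sq_len i 1).1 (S.sq_len j g).1
    obtain ⟨F1, f1, h1⟩ := edge_face S.tv (S.sq_len i 1).2 (S.sq_len j g).2
    refine ⟨![F0, F1], fun k => ?_, fun p => ?_⟩
    · fin_cases k
      · exact f0
      · exact f1
    rw [Fin.forall_fin_two]
    show _ ↔ p.1 0 ∈ F0 ∧ p.1 1 ∈ F1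
    rw [← h0 _ (p.2 0), ← h1 _ (p.2 1)]
    constructor
    · rintro ⟨_, ⟨r, rfl⟩, e⟩
      have e' := congrArg Subtype.val e
      simp only at e'
      rw [smul_sqm] at e'
      exact ⟨⟨_, r.2 0, (congrArg Prod.fst e').symm⟩, _, r.2 1, (congrArg Prod.snd e').symm⟩
    · rintro ⟨⟨s, hs, e1⟩, t, ht, e2⟩
      refine ⟨_, ⟨⟨!₂[s, t], fun i => ?_⟩, rfl⟩, Subtype.ext ?_⟩
      · fin_cases i
        · exact hs
        · exact ht
      · simp only
        rw [smul_sqm]
        exact Prod.ext e1.symm e2.symm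

end Sys

end Pool.Agent.FC
end

-- part Pool.Agent.P.MP_5e292f_al.DFlat
section

set_option autoImplicit false

namespace Pool.Agent.FC

theorem DFlat_path {G : Type} [Group G] (a : ℤ → G) (g0 : G) :
    ∃ p : ℤ → G, p 0 = g0 ∧ ∀ i, p (i + 1) = p i * a i := by
  let u : ℕ → G := fun n => Nat.rec g0 (fun k x => x * a k) n
  let d : ℕ → G := fun n => Nat.rec (g0 * (a (-1))⁻¹) (fun k x => x * (a (Int.negSucc (k + 1)))⁻¹) n
  refine ⟨fun i => Int.rec u d i, rfl, fun i => ?_⟩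
  rcases i with n | n
  · rfl
  · rcases n with _ | n
    · exact (inv_mul_cancel_right g0 (a (-1))).symm
    · exact (inv_mul_cancel_right (d n) (a (Int.negSucc (n + 1)))).symm

section

variable {A : Type} {G : Type} [Group G] {D : VH A} {ι : A → G} {p : ℤ → G} {a : ℤ → A}

theorem DFlat_zero (h : Pres D ι) (hp : ∀ i, p (i + 1) = p i * ι (a i))
    (hc : ∀ i, D.c (a i) = false) (i j : ℤ) : rho D ι (p i) (p j) = 0 := by
  have T := tm_rho h
  have e : ∀ k, rho D ι (p k) (p (k + 1)) = 0 := fun k => by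
    rw [hp, rho_letter h, hc]; rfl
  have e0 : ∀ k, rho D ι (p 0) (p k) = 0 := fun k => by
    induction k using Int.induction_on with
    | zero => exact T.refl _
    | succ k ih =>
      have := T.tri (p 0) (p k) (p (k + 1))
      have := e k
      omega
    | pred k ih =>
      have h1 := T.tri (p 0) (p (-k)) (p (-k - 1))
      have h2 := e (-k - 1)
      rw [sub_add_cancel, T.symm] at h2
      omega
  have h1 := T.tri (p i) (p 0) (p j)
  rw [T.symm (p i) (p 0), e0, e0] at h1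
  omega

theorem DFlat_line (h : Pres D ι) (hp : ∀ i, p (i + 1) = p i * ι (a i))
    (hc : ∀ i, D.c (a i) = true) (hr : ∀ i, a (i + 1) ≠ D.inv (a i)) (i j : ℤ) :
    rho D ι (p i) (p j) = (i - j).natAbs := by
  have key : ∀ (n : ℕ) (i : ℤ), ∃ w : List A, Red D (a i :: w) ∧ (∀ x ∈ w, D.c x = true) ∧
      w.length = n ∧ p (i + 1 + n) = p i * ev ι (a i :: w) := fun n => by
    induction n with
    | zero => exact fun i => ⟨[], by simp [Red], by simp, rfl, by simp [ev, hp]⟩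
    | succ n ih =>
      intro i
      obtain ⟨w, w1, w2, w3, w4⟩ := ih (i + 1)
      refine ⟨a (i + 1) :: w, List.IsChain.cons_cons (hr i) w1, ?_, by simp [w3], ?_⟩
      · intro x hx
        rcases List.mem_cons.1 hx with rfl | hx
        · exact hc _
        · exact w2 x hx
      · rw [ev_cons, ← mul_assoc, ← hp, ← w4]
        congr 1
        push_cast
        ring
  have lt : ∀ i j : ℤ, i < j → rho D ι (p i) (p j) = (i - j).natAbs := fun i j hij => by
    obtain ⟨n, rfl⟩ : ∃ n : ℕ, j = i + 1 + n := ⟨(j - i - 1).toNat, by omega⟩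
    obtain ⟨w, w1, w2, w3, w4⟩ := key n i
    have hall : ∀ x ∈ a i :: w, D.c x = true := fun x hx => by
      rcases List.mem_cons.1 hx with rfl | hx
      · exact hc _
      · exact w2 x hx
    rw [rho, w4, inv_mul_cancel_left, (len_irr h (irr_of_red w1 hall)).1,
      List.countP_eq_length.2 hall, List.length_cons, w3]
    omega
  rcases lt_trichotomy i j with e | e | e
  · exact lt i j e
  · rw [e, (tm_rho h).refl]; omega
  · rw [(tm_rho h).symm, lt j i e]; omega

end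

namespace Sys

variable (S : Sys)

theorem DFlat_grid {hl vl : ℤ → ℤ → S.A}
    (q : ∀ i j, S.D.Sq (hl i j) (vl (i + 1) j) (vl i j) (hl i (j + 1))) :
    ∃ g : ℤ → ℤ → S.G, (∀ i j, g (i + 1) j = g i j * S.ι (hl i j)) ∧
      ∀ i j, g i (j + 1) = g i j * S.ι (vl i j) := by
  obtain ⟨r, -, hr⟩ := DFlat_path (fun j => S.ι (vl 0 j)) 1
  choose g g0 g1 using fun j => DFlat_path (fun i => S.ι (hl i j)) (r j)
  refine ⟨fun i j => g j i, fun i j => g1 j i, fun i j => ?_⟩
  induction i using Int.induction_on with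
  | zero => simp only [g0, hr]
  | succ i ih =>
    simp only [g1] at ih ⊢
    rw [ih, mul_assoc, mul_assoc, S.pres.sq _ _ _ _ (q i j)]
  | pred i ih =>
    have e := S.pres.sq _ _ _ _ (q (-i - 1) j)
    have e1 := g1 j (-i - 1)
    have e2 := g1 (j + 1) (-i - 1)
    rw [sub_add_cancel] at e e1 e2
    simp only [e1, e2] at ih
    rw [mul_assoc, e, ← mul_assoc] at ih
    exact mul_right_cancel ih

theorem flat (hP : Plane S.D) : ∃ f : EuclideanSpace ℝ (Fin 2) → S.X, Isometry f := by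
  obtain ⟨hl, vl, q, rh, rv⟩ := hP
  obtain ⟨g, gh, gv⟩ := S.DFlat_grid q
  have ch : ∀ i j, S.D.c (hl i j) = true := fun i j => (S.D.sq_c _ _ _ _ (q i j)).1
  have cv : ∀ i j, S.D.c (vl i j) = false := fun i j => (S.D.sq_c _ _ _ _ (q i j)).2.2.1
  have h0 : ∀ i j j', S.h (g i j) (g i j') = 0 := fun i j j' =>
    DFlat_zero (p := g i) S.pres (gv i) (cv i) j j'
  have v0 : ∀ i i' j, S.v (g i j) (g i' j) = 0 := fun i i' j =>
    DFlat_zero (p := fun i => g i j) S.pres.tr (fun i => gh i j)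
      (fun i => by simp [VH.tr, ch]) i i'
  have h1 : ∀ i i', S.h (g i 0) (g i' 0) = (i - i').natAbs := fun i i' =>
    DFlat_line (p := fun i => g i 0) S.pres (fun i => gh i 0) (fun i => ch i 0)
      (fun i => rh i 0) i i'
  have v1 : ∀ i j j', S.v (g i j) (g i j') = (j - j').natAbs := fun i j j' =>
    DFlat_line (p := g i) S.pres.tr (gv i) (fun j => by simp [VH.tr, cv]) (rv i) j j'
  have fr : ∀ x : ℝ, Int.fract x ∈ Set.Icc (0 : ℝ) 1 := fun x =>
    ⟨Int.fract_nonneg x, (Int.fract_lt_one x).le⟩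
  obtain ⟨f, f1, f2⟩ : ∃ f : EuclideanSpace ℝ (Fin 2) → S.X,
      (∀ p, (f p).1.1 = pt S.h (g ⌊p 0⌋ 0) (g (⌊p 0⌋ + 1) 0) (Int.fract (p 0))) ∧
      ∀ p i, (f p).1.2 = pt S.v (g i ⌊p 1⌋) (g i (⌊p 1⌋ + 1)) (Int.fract (p 1)) := by
    refine ⟨fun p => ⟨S.sqp (g ⌊p 0⌋ ⌊p 1⌋) (hl ⌊p 0⌋ ⌊p 1⌋) (vl ⌊p 0⌋ ⌊p 1⌋) (Int.fract (p 0))
      (Int.fract (p 1)), _, _, _, _, _, _, _, q _ _, fr _, fr _, rfl⟩, fun p => ?_, fun p i => ?_⟩
    · simp only [sqp, ← gh]
      exact pt_congr S.th (h0 _ _ _) (h0 _ _ _) _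
    · simp only [sqp, ← gv]
      exact pt_congr S.tv (v0 _ _ _) (v0 _ _ _) _
  have dx : ∀ p p', S.DX (f p) (f p') = dist p p' := fun p p' => by
    rw [DX, f1, f1, f2 p 0, f2 p' 0, DD_line S.th (a := fun i => g i 0) h1,
      DD_line S.tv (a := g 0) (v1 0), EuclideanSpace.dist_eq, Fin.sum_univ_two, Real.dist_eq,
      Real.dist_eq]
  have pc : ∀ (i : ℤ) (p : EuclideanSpace ℝ (Fin 2)), (i : ℝ) ≤ p 0 → p 0 ≤ i + 1 →
      f p ∈ S.Pc (g i 0) (g (i + 1) 0) := fun i p a b => by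
    have we : ∀ j, g i j ∈ S.WE (g i 0) (g (i + 1) 0) := fun j =>
      ⟨h0 _ _ _, g (i + 1) j, h0 _ _ _, v0 _ _ _⟩
    refine ⟨?_, _, we _, _, we _, _, fr _, ?_, f2 p i⟩
    · rcases b.eq_or_lt with e | e
      · refine ⟨1, ⟨zero_le_one, le_rfl⟩, ?_⟩
        have e' : p 0 = ((i + 1 : ℤ) : ℝ) := by rw [e]; push_cast; ring
        rw [f1, e', Int.floor_intCast, Int.fract_intCast]
        funext x
        simp [pt]
      · have e' : ⌊p 0⌋ = i := Int.floor_eq_iff.2 ⟨a, e⟩
        exact ⟨_, fr _, by rw [f1, e']⟩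
    · rw [v1]; omega
  have adj : ∀ (i : ℤ) (p p' : EuclideanSpace ℝ (Fin 2)), (i : ℝ) ≤ p 0 → p 0 ≤ i + 1 →
      (i : ℝ) ≤ p' 0 → p' 0 ≤ i + 1 → dist (f p) (f p') = dist p p' := fun i p p' a b a' b' => by
    rw [S.dist_adj ⟨_, _, by rw [h1]; omega, pc i p a b, pc i p' a' b'⟩, dx]
  have key : ∀ (n : ℕ) (i : ℤ) (p p' : EuclideanSpace ℝ (Fin 2)), (i : ℝ) ≤ p 0 → p 0 ≤ i + 1 →
      p 0 ≤ p' 0 → p' 0 ≤ i + 1 + n → dist (f p) (f p') ≤ dist p p' := fun n => by
    induction n with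
    | zero => exact fun i p p' a b c d => (adj i p p' a b (a.trans c) (by simpa using d)).le
    | succ n ih =>
      intro i p p' a b c d
      by_cases e : p' 0 ≤ i + 1
      · exact (adj i p p' a b (a.trans c) e).le
      · push Not at e
        have hd : 0 < p' 0 - p 0 := by linarith
        obtain ⟨t, ht⟩ : ∃ t : ℝ, t = (i + 1 - p 0) / (p' 0 - p 0) := ⟨_, rfl⟩
        have t0 : 0 ≤ t := ht ▸ div_nonneg (by linarith) hd.le
        have t1 : t ≤ 1 := ht ▸ (div_le_one hd).2 (by linarith)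
        obtain ⟨m, hm⟩ : ∃ m, m = AffineMap.lineMap p p' t := ⟨_, rfl⟩
        have m0 : m 0 = i + 1 := by
          rw [hm, AffineMap.lineMap_apply_module']
          simp only [PiLp.add_apply, PiLp.smul_apply, PiLp.sub_apply, smul_eq_mul]
          rw [ht, div_mul_cancel₀ _ hd.ne']
          ring
        have w : Wbtw ℝ p m p' := ⟨t, ⟨t0, t1⟩, hm.symm⟩
        have e1 := adj i p m a b (by linarith) m0.le
        have e2 := ih (i + 1) m p' (by push_cast; linarith) (by push_cast; linarith) (by linarith)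
          (by push_cast at d ⊢; linarith)
        have e3 := dist_triangle (f p) (f m) (f p')
        linarith [w.dist_add_dist]
  have le : ∀ p p' : EuclideanSpace ℝ (Fin 2), p 0 ≤ p' 0 → dist (f p) (f p') ≤ dist p p' :=
    fun p p' c => key ⌈p' 0 - p 0⌉₊ ⌊p 0⌋ p p' (Int.floor_le _) (Int.lt_floor_add_one _).le c
      (by linarith [Nat.le_ceil (p' 0 - p 0), Int.lt_floor_add_one (p 0)])
  refine ⟨f, Isometry.of_dist_eq fun p p' => le_antisymm ?_ (dx p p' ▸ S.DX_le _ _)⟩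
  rcases le_total (p 0) (p' 0) with c | c
  · exact le p p' c
  · rw [dist_comm, dist_comm p]
    exact le p' p c

end Sys

end Pool.Agent.FC
end

-- part Pool.Agent.P.MP_5e292f_al.DPiece
section

set_option autoImplicit false

namespace Pool.Agent.FC

namespace Sys

variable (S : Sys)

theorem dpiece_dist {g k : S.G} (hk : S.h g k ≤ 1) {p q : S.X} (hp : p ∈ S.Pc g k)
    (hq : q ∈ S.Pc g k) : dist p q = Real.sqrt (DD p.1.1 q.1.1 ^ 2 + DD p.1.2 q.1.2 ^ 2) :=
  S.dist_adj ⟨g, k, hk, hp, hq⟩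

theorem dpiece_sq {g k : S.G} (hk : S.h g k ≤ 1) {p q : S.X} (hp : p ∈ S.Pc g k)
    (hq : q ∈ S.Pc g k) : dist p q ^ 2 = DD p.1.1 q.1.1 ^ 2 + DD p.1.2 q.1.2 ^ 2 := by
  rw [S.dpiece_dist hk hp hq, Real.sq_sqrt (by positivity)]

theorem dpiece_sqrt {t A B : ℝ} (ht : 0 ≤ t) :
    Real.sqrt ((t * A) ^ 2 + (t * B) ^ 2) = t * Real.sqrt (A ^ 2 + B ^ 2) := by
  have e : (t * A) ^ 2 + (t * B) ^ 2 = t ^ 2 * (A ^ 2 + B ^ 2) := by ring
  rw [e, Real.sqrt_mul (sq_nonneg t), Real.sqrt_sq ht]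

theorem dpiece_geo {g k : S.G} (hk : S.h g k ≤ 1) {p q : S.X} {s1 s2 t : ℝ}
    (hs1 : s1 ∈ Set.Icc (0 : ℝ) 1) (hs2 : s2 ∈ Set.Icc (0 : ℝ) 1) (e1 : p.1.1 = pt S.h g k s1)
    (e2 : q.1.1 = pt S.h g k s2) (hp : p.1.2 ∈ RT S.v (S.WE g k))
    (hq : q.1.2 ∈ RT S.v (S.WE g k)) (ht : t ∈ Set.Icc (0 : ℝ) 1) :
    ∃ m ∈ S.Pc g k, m.1.1 = pt S.h g k ((1 - t) * s1 + t * s2) ∧ Btw p q m t ∧
      DD p.1.1 m.1.1 = t * DD p.1.1 q.1.1 ∧ DD m.1.1 q.1.1 = (1 - t) * DD p.1.1 q.1.1 ∧
      DD p.1.2 m.1.2 = t * DD p.1.2 q.1.2 ∧ DD m.1.2 q.1.2 = (1 - t) * DD p.1.2 q.1.2 := by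
  obtain ⟨f, hf, f1, f2⟩ := RT_geo S.tv (S.WE_conv hk) hp hq ht
  have ht1 : 0 ≤ 1 - t := sub_nonneg.2 ht.2
  have hs : (1 - t) * s1 + t * s2 ∈ Set.Icc (0 : ℝ) 1 := by
    constructor
    · exact add_nonneg (mul_nonneg ht1 hs1.1) (mul_nonneg ht.1 hs2.1)
    · have a1 := mul_le_mul_of_nonneg_left hs1.2 ht1
      have a2 := mul_le_mul_of_nonneg_left hs2.2 ht.1
      linarith
  let m : S.X := ⟨(pt S.h g k ((1 - t) * s1 + t * s2), f), S.inX_pc hk hs hf⟩
  have hm : m ∈ S.Pc g k := ⟨⟨_, hs, rfl⟩, hf⟩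
  have hp' : p ∈ S.Pc g k := ⟨⟨_, hs1, e1⟩, hp⟩
  have hq' : q ∈ S.Pc g k := ⟨⟨_, hs2, e2⟩, hq⟩
  have g1 : DD p.1.1 m.1.1 = t * DD p.1.1 q.1.1 := by
    change DD p.1.1 (pt S.h g k ((1 - t) * s1 + t * s2)) = _
    have e : s1 - ((1 - t) * s1 + t * s2) = t * (s1 - s2) := by ring
    rw [e1, e2, DD_edge S.th hk, DD_edge S.th hk, e, abs_mul, abs_of_nonneg ht.1, mul_assoc]
  have g2 : DD m.1.1 q.1.1 = (1 - t) * DD p.1.1 q.1.1 := by
    change DD (pt S.h g k ((1 - t) * s1 + t * s2)) q.1.1 = _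
    have e : (1 - t) * s1 + t * s2 - s2 = (1 - t) * (s1 - s2) := by ring
    rw [e1, e2, DD_edge S.th hk, DD_edge S.th hk, e, abs_mul, abs_of_nonneg ht1, mul_assoc]
  have f1' : DD p.1.2 m.1.2 = t * DD p.1.2 q.1.2 := f1
  have f2' : DD m.1.2 q.1.2 = (1 - t) * DD p.1.2 q.1.2 := f2
  refine ⟨m, hm, rfl, ⟨?_, ?_⟩, g1, g2, f1', f2'⟩
  · rw [S.dpiece_dist hk hp' hm, S.dpiece_dist hk hp' hq', g1, f1', dpiece_sqrt ht.1]
  · rw [S.dpiece_dist hk hm hq', S.dpiece_dist hk hp' hq', g2, f2', dpiece_sqrt ht1]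

theorem ct_pc {g k : S.G} (hk : S.h g k ≤ 1) : CT (S.Pc g k) := by
  intro x hx y hy t ht
  obtain ⟨⟨s1, hs1, e1⟩, hx2⟩ := id hx
  obtain ⟨⟨s2, hs2, e2⟩, hy2⟩ := id hy
  obtain ⟨m, hm, -, hb, g1, g2, f1, f2⟩ := S.dpiece_geo hk hs1 hs2 e1 e2 hx2 hy2 ht
  refine ⟨m, hm, hb, fun z hz => ?_⟩
  have a1 := DD_cn S.th (S.mem_h x) (S.mem_h y) (S.mem_h z) (S.mem_h m) ht g1 g2
  have a2 := DD_cn S.tv (S.mem_v x) (S.mem_v y) (S.mem_v z) (S.mem_v m) ht f1 f2
  rw [S.dpiece_sq hk hz hm, S.dpiece_sq hk hz hx, S.dpiece_sq hk hz hy, S.dpiece_sq hk hx hy]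
  linarith

theorem bd_sub (g k : S.G) : S.Bd g k ⊆ S.Pc g k ∧ S.Bd g k ⊆ S.Pc g g ∧ S.Bd g k ⊆ S.Pc k g := by
  refine ⟨fun p hp => ⟨⟨0, ⟨le_rfl, zero_le_one⟩, hp.1.trans ?_⟩, hp.2⟩,
    fun p hp => ⟨⟨0, ⟨le_rfl, zero_le_one⟩, hp.1⟩, RT_mono ?_ hp.2⟩,
    fun p hp => ⟨⟨1, ⟨zero_le_one, le_rfl⟩, hp.1.trans ?_⟩, ?_⟩⟩
  · funext x
    simp [pt]
  · exact fun a ha => ⟨ha.1, a, ha.1, S.tv.refl a⟩
  · funext x
    simp [pt]
  · rw [S.RT_WE_symm k g]
    exact hp.2

theorem bd_conv {g k : S.G} (hk : S.h g k ≤ 1) : ∀ a ∈ S.Bd g k, ∀ b ∈ S.Bd g k,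
    ∀ t ∈ Set.Icc (0 : ℝ) 1, ∃ m ∈ S.Bd g k, Btw a b m t := by
  intro a ha b hb t ht
  have e : pt S.h g g 0 = pt S.h g k 0 := by
    funext x
    simp [pt]
  obtain ⟨m, hm, e1, hb, -⟩ := S.dpiece_geo hk ⟨le_rfl, zero_le_one⟩ ⟨le_rfl, zero_le_one⟩
    (ha.1.trans e) (hb.1.trans e) ha.2 hb.2 ht
  refine ⟨m, ⟨e1.trans ?_, hm.2⟩, hb⟩
  funext x
  simp [pt]

theorem dpiece_symm (g k : S.G) : S.Pc g k ⊆ S.Pc k g := by
  rintro p ⟨⟨s, hs, e⟩, hp⟩
  refine ⟨⟨1 - s, ⟨sub_nonneg.2 hs.2, by linarith [hs.1]⟩, e.trans ?_⟩, ?_⟩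
  · funext x
    simp only [pt]
    ring
  · rw [S.RT_WE_symm k g]
    exact hp

theorem pc_symm (g k : S.G) : S.Pc g k = S.Pc k g :=
  Set.Subset.antisymm (S.dpiece_symm g k) (S.dpiece_symm k g)

theorem dpiece_congr {g k g' k' : S.G} (h1 : S.h g g' = 0) (h2 : S.h k k' = 0) :
    S.Pc g k ⊆ S.Pc g' k' := by
  rintro p ⟨⟨s, hs, e⟩, hp⟩
  refine ⟨⟨s, hs, e.trans (pt_congr S.th h1 h2 s)⟩, RT_mono ?_ hp⟩
  rintro a ⟨ha, b, hb, hab⟩
  refine ⟨?_, b, ?_, hab⟩
  · have a1 := S.th.tri g' g a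
    have a2 := S.th.symm g' g
    omega
  · have a1 := S.th.tri k' k b
    have a2 := S.th.symm k' k
    omega

theorem pc_congr {g k g' k' : S.G} (h1 : S.h g g' = 0) (h2 : S.h k k' = 0) :
    S.Pc g k = S.Pc g' k' :=
  Set.Subset.antisymm (S.dpiece_congr h1 h2)
    (S.dpiece_congr ((S.th.symm _ _).trans h1) ((S.th.symm _ _).trans h2))

end Sys

end Pool.Agent.FC
end

-- part Pool.Agent.P.MP_5e292f_al.DProp
section

set_option autoImplicit false

open Pointwise

namespace Pool.Agent.FC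

namespace Sys

variable (S : Sys)

/-- The finite index set of squares. -/
def DProp_I : Type := {q : S.A × S.A × S.A × S.A // S.D.Sq q.1 q.2.1 q.2.2.1 q.2.2.2}

instance DProp_fin : Finite S.DProp_I := by
  unfold DProp_I; infer_instance

/-- The square at the base vertex. -/
noncomputable def DProp_sq (i : S.DProp_I)
    (p : {p : EuclideanSpace ℝ (Fin 2) // ∀ i, p i ∈ Set.Icc (0 : ℝ) 1}) : S.X :=
  ⟨S.sqp 1 i.1.1 i.1.2.2.1 (p.1 0) (p.1 1),
    1, i.1.1, i.1.2.1, i.1.2.2.1, i.1.2.2.2, p.1 0, p.1 1, i.2, p.2 0, p.2 1, rfl⟩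

theorem DProp_iso (i : S.DProp_I) : Isometry (S.DProp_sq i) := by
  refine Isometry.of_dist_eq fun p q => ?_
  obtain ⟨h1, h2⟩ := S.sq_mem_pc i.2 (p.2 0) (p.2 1) (S.DProp_sq i p) rfl
  obtain ⟨-, h3⟩ := S.sq_mem_pc i.2 (q.2 0) (q.2 1) (S.DProp_sq i q) rfl
  have h4 : S.v 1 (1 * S.ι i.1.2.2.1) = 1 := by
    have a := rho_letter S.pres.tr 1 i.1.2.2.1
    have b : S.D.tr.c i.1.2.2.1 = true := by
      show (!S.D.c i.1.2.2.1) = true
      rw [(S.D.sq_c _ _ _ _ i.2).2.2.1]; rfl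
    rw [if_pos b] at a
    exact a
  rw [S.dist_adj ⟨1, _, h1.le, h2, h3⟩, Subtype.dist_eq, EuclideanSpace.dist_eq, Fin.sum_univ_two]
  show Real.sqrt (DD (pt S.h 1 (1 * S.ι i.1.1) (p.1 0)) (pt S.h 1 (1 * S.ι i.1.1) (q.1 0)) ^ 2 +
    DD (pt S.v 1 (1 * S.ι i.1.2.2.1) (p.1 1)) (pt S.v 1 (1 * S.ι i.1.2.2.1) (q.1 1)) ^ 2) = _
  rw [DD_edge S.th h1.le, DD_edge S.tv h4.le, h1, h4, Real.dist_eq, Real.dist_eq]
  simp

/-- Finitely many isometric unit squares whose translates cover the space. -/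
theorem squares : ∃ (I : Type) (_ : Finite I)
    (σ : I → {p : EuclideanSpace ℝ (Fin 2) // ∀ i, p i ∈ Set.Icc (0 : ℝ) 1} → S.X),
    (∀ i, Isometry (σ i)) ∧ ∀ x : S.X, ∃ (g : S.G) (i : I) (p : _), x = g • σ i p := by
  refine ⟨S.DProp_I, inferInstance, S.DProp_sq, S.DProp_iso, ?_⟩
  rintro ⟨x, g, a, b, b', a', s, t, q, hs, ht, rfl⟩
  refine ⟨g, ⟨(a, b, b', a'), q⟩, ⟨!₂[s, t], ?_⟩, Subtype.ext ?_⟩
  · intro i
    fin_cases i
    · exact hs
    · exact ht
  · rw [smul_val]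
    show (pt S.h g (g * S.ι a) s, pt S.v g (g * S.ι b') t) =
      (fun x => pt S.h 1 (1 * S.ι a) s (g⁻¹ * x), fun x => pt S.v 1 (1 * S.ι b') t (g⁻¹ * x))
    rw [(S.pt_mul g 1 (1 * S.ι a) s).1, (S.pt_mul g 1 (1 * S.ι b') t).2, mul_one, one_mul, one_mul]

theorem DProp_len (g : S.G) : (len S.D S.ι g : ℝ) ≤ dist (S.vtx g) (S.vtx 1) ∧
    (len S.D.tr S.ι g : ℝ) ≤ dist (S.vtx g) (S.vtx 1) := by
  have e1 : DD (S.vtx g).1.1 (S.vtx 1).1.1 = len S.D S.ι g := by
    have := DD_vertex S.th g (S.mem_h (S.vtx 1))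
    refine this.trans ?_
    show pt S.h 1 1 0 g = _
    simp [pt, Sys.h, rho]
  have e2 : DD (S.vtx g).1.2 (S.vtx 1).1.2 = len S.D.tr S.ι g := by
    have := DD_vertex S.tv g (S.mem_v (S.vtx 1))
    refine this.trans ?_
    show pt S.v 1 1 0 g = _
    simp [pt, Sys.v, rho]
  have e3 := S.DX_le (S.vtx g) (S.vtx 1)
  unfold DX at e3
  rw [e1, e2] at e3
  refine ⟨le_trans ?_ e3, le_trans ?_ e3⟩
  · exact Real.le_sqrt_of_sq_le (le_add_of_nonneg_right (sq_nonneg _))
  · exact Real.le_sqrt_of_sq_le (le_add_of_nonneg_left (sq_nonneg _))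

theorem finite_vtx (p : S.X) (R : ℝ) : {g : S.G | dist p (S.vtx g) ≤ R}.Finite := by
  refine (finite_ball S.pres ⌈R + dist p (S.vtx 1)⌉₊).subset fun g hg => ?_
  have h1 : dist (S.vtx g) (S.vtx 1) ≤ (⌈R + dist p (S.vtx 1)⌉₊ : ℝ) := by
    have a := dist_triangle_left (S.vtx g) (S.vtx 1) p
    have b : dist p (S.vtx g) ≤ R := hg
    exact le_trans (by linarith) (Nat.le_ceil _)
  obtain ⟨h2, h3⟩ := S.DProp_len g
  exact ⟨by exact_mod_cast h2.trans h1, by exact_mod_cast h3.trans h1⟩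

theorem DProp_cpt : IsCompact {p : EuclideanSpace ℝ (Fin 2) | ∀ i, p i ∈ Set.Icc (0 : ℝ) 1} := by
  refine Metric.isCompact_of_isClosed_isBounded ?_ ?_
  · rw [Set.ofPred_forall]
    exact isClosed_iInter fun i => isClosed_Icc.preimage (by fun_prop)
  · refine (Metric.isBounded_closedBall (x := 0) (r := 2)).subset fun p hp => ?_
    rw [mem_closedBall_zero_iff, EuclideanSpace.norm_eq, Fin.sum_univ_two, Real.norm_eq_abs,
      Real.norm_eq_abs, sq_abs, sq_abs]
    refine Real.sqrt_le_iff.2 ⟨by norm_num, ?_⟩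
    obtain ⟨a, b⟩ := hp 0
    obtain ⟨c, d⟩ := hp 1
    nlinarith

theorem cocompact : ∃ K : Set S.X, IsCompact K ∧ ∀ x : S.X, ∃ g : S.G, x ∈ g • K := by
  obtain ⟨I, _, σ, h1, h2⟩ := S.squares
  have : CompactSpace {p : EuclideanSpace ℝ (Fin 2) // ∀ i, p i ∈ Set.Icc (0 : ℝ) 1} :=
    isCompact_iff_compactSpace.1 DProp_cpt
  refine ⟨⋃ i, Set.range (σ i), isCompact_iUnion fun i => isCompact_range (h1 i).continuous,
    fun x => ?_⟩
  obtain ⟨g, i, p, rfl⟩ := h2 x
  exact ⟨g, Set.smul_mem_smul_set (Set.mem_iUnion.2 ⟨i, p, rfl⟩)⟩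

theorem DProp_dist (g : S.G) (k : S.X) : dist (g • k) (S.vtx g) = dist k (S.vtx 1) := by
  rw [← dist_smul g k (S.vtx 1), smul_vtx, mul_one]

theorem proper_action (K : Set S.X) (hK : IsCompact K) :
    {g : S.G | ((g • K) ∩ K).Nonempty}.Finite := by
  obtain ⟨R, hR⟩ := hK.isBounded.subset_closedBall (S.vtx 1)
  refine (S.finite_vtx (S.vtx 1) (R + R)).subset ?_
  rintro g ⟨_, ⟨k, hk, rfl⟩, hk'⟩
  have a : dist k (S.vtx 1) ≤ R := hR hk
  have b : dist (g • k) (S.vtx 1) ≤ R := hR hk'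
  have c := S.DProp_dist g k
  have d := dist_triangle_left (S.vtx 1) (S.vtx g) (g • k)
  show dist (S.vtx 1) (S.vtx g) ≤ R + R
  linarith

instance : ProperSpace S.X := by
  obtain ⟨K, hK, h⟩ := S.cocompact
  obtain ⟨R, hR⟩ := hK.isBounded.subset_closedBall (S.vtx 1)
  refine ⟨fun x r => ?_⟩
  refine ((S.finite_vtx x (r + R)).isCompact_biUnion fun g _ => hK.smul g).of_isClosed_subset
    Metric.isClosed_closedBall fun y hy => ?_
  obtain ⟨g, k, hk, rfl⟩ := h y
  refine Set.mem_biUnion (x := g) ?_ (Set.smul_mem_smul_set hk)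
  have a : dist k (S.vtx 1) ≤ R := hR hk
  have b : dist (g • k) x ≤ r := hy
  have c := S.DProp_dist g k
  have d := dist_triangle_left x (S.vtx g) (g • k)
  show dist x (S.vtx g) ≤ r + R
  linarith

end Sys

end Pool.Agent.FC
end

-- part Pool.Agent.P.MP_5e292f_al.FMark
section

set_option autoImplicit false

namespace Pool.Agent.FC

/-- Column of chart coordinate `a` in the chart centred at the marker `i`. -/
def col (s : ℤ → Bool) (i a : ℤ) : ℤ := i + sgn (s i) * (a - 9)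

/-- The chart centred at `i` is unfolded and in standard position on `[lo, hi)`. -/
def Str (s : ℤ → Bool) (X : ℤ → U) (i lo hi : ℤ) : Prop :=
  ∀ a, lo ≤ a → a < hi → s (col s i a) = s i ∧ X (col s i a) = tp a

/-- How two consecutive markers `i < k` are related. -/
def Link (s : ℤ → Bool) (X : ℤ → U) (i k : ℤ) : Prop :=
  (s k = s i ∧ k = i + 42 ∧ (s i = true → Str s X i 0 62) ∧ (s i = false → Str s X k 0 62)) ∨
  (s k = !s i ∧ col s i (if s i then 19 else 0) + 1 = col s k (if s i then 19 else 0)) ∨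
  (s k = !s i ∧ col s i (if s i then 28 else -9) + 1 = col s k (if s i then 28 else -9) ∧
    Str s X i (if s i then 0 else -9) (if s i then 29 else 20) ∧
    Str s X k (if s i then 0 else -9) (if s i then 29 else 20))

theorem FMark_tp (i : ℤ) : ((tp i).val : ℤ) = (2 * i + 1) % 84 := by
  simp only [tp, Fin.val_ofNat]
  omega

theorem FMark_tp_congr {a b : ℤ} (h : a % 42 = b % 42) : tp a = tp b := by
  have h1 := FMark_tp a
  have h2 := FMark_tp b
  apply Fin.ext
  omega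

theorem FMark_tp_inj {a b : ℤ} (h : tp a = tp b) : a % 42 = b % 42 := by
  have h1 := FMark_tp a
  have h2 := FMark_tp b
  rw [h] at h1
  omega

theorem FMark_same : ∀ (u v : U) (σ : Bool), mv u (sgn σ) = mv v (sgn (!σ)) →
    (v.val : ℤ) = (u.val + 2 * sgn σ) % 84 := by decide +kernel

theorem FMark_fold : ∀ (u v : U) (σ : Bool), mv u (sgn σ) = mv v (sgn σ) → v = u := by
  decide +kernel

theorem FMark_good : ∀ (u : U) (σ : Bool), good u σ = true →
    (σ = true ∧ (u.val = 39 ∨ u.val = 57)) ∨ (σ = false ∧ (u.val = 1 ∨ u.val = 67)) := by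
  decide +kernel

/-- The chart with centre `c` and orientation `σ` is correct at the coordinate `a`. -/
def FMarkQ (s : ℤ → Bool) (X : ℤ → U) (c : ℤ) (σ : Bool) (a : ℤ) : Prop :=
  s (c + sgn σ * (a - 9)) = σ ∧ X (c + sgn σ * (a - 9)) = tp a

section

variable {s : ℤ → Bool} {X : ℤ → U}

theorem FMark_step (hX : FL s X) (hg : ∀ i, s i ≠ s (i + 1) → good (X i) (s i) = true)
    {i j : ℤ} (hj : j = i + 1) :
    (s j = s i ∧ ((X j).val : ℤ) = ((X i).val + 2 * sgn (s i)) % 84) ∨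
      (s j = !s i ∧ X j = X i ∧ ((s i = true ∧ ((X i).val = 39 ∨ (X i).val = 57)) ∨
        (s i = false ∧ ((X i).val = 1 ∨ (X i).val = 67)))) := by
  subst hj
  have h := hX.adj i
  by_cases e : s i = s (i + 1)
  · rw [← e] at h
    exact Or.inl ⟨e.symm, FMark_same _ _ _ h⟩
  · have e' : s (i + 1) = !s i := by
      revert e
      cases s i <;> cases s (i + 1) <;> simp
    rw [e', Bool.not_not] at h
    exact Or.inr ⟨e', FMark_fold _ _ _ h, FMark_good _ _ (hg i e)⟩

theorem FMark_up (hX : FL s X) (hg : ∀ i, s i ≠ s (i + 1) → good (X i) (s i) = true)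
    {c a : ℤ} {σ : Bool} (h : FMarkQ s X c σ a) :
    FMarkQ s X c σ (a + 1) ∨
      (FMarkQ s X (c + sgn σ * (2 * a - 17)) (!σ) a ∧ (a % 42 = 19 ∨ a % 42 = 28)) := by
  obtain ⟨h1, h2⟩ := h
  have t1 := FMark_tp a
  have t2 := FMark_tp (a + 1)
  cases σ
  · have e : c + sgn false * (2 * a - 17) + sgn (!false) * (a - 9) =
        c + sgn false * (a + 1 - 9) := by simp only [sgn]; simp; ring
    unfold FMarkQ
    rw [e]
    rcases FMark_step hX hg (i := c + sgn false * (a + 1 - 9)) (j := c + sgn false * (a - 9))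
      (by simp only [sgn]; simp; ring) with ⟨k1, k2⟩ | ⟨k1, k2, k3⟩
    · rw [h1] at k1
      rw [← k1, h2] at k2
      refine Or.inl ⟨k1.symm, Fin.ext ?_⟩
      have := (X (c + sgn false * (a + 1 - 9))).isLt
      simp only [sgn, Bool.false_eq_true, if_false] at k2 this ⊢
      omega
    · rw [h1] at k1
      rw [h2] at k2
      have k4 : s (c + sgn false * (a + 1 - 9)) = true := by simpa using k1
      rw [k4, ← k2] at k3
      refine Or.inr ⟨⟨k4, k2.symm⟩, ?_⟩
      simp only [true_and, Bool.true_eq_false, false_and, or_false] at k3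
      omega
  · have e : c + sgn true * (2 * a - 17) + sgn (!true) * (a - 9) =
        c + sgn true * (a + 1 - 9) := by simp only [sgn]; simp; ring
    unfold FMarkQ
    rw [e]
    rcases FMark_step hX hg (i := c + sgn true * (a - 9)) (j := c + sgn true * (a + 1 - 9))
      (by simp only [sgn]; simp; ring) with ⟨k1, k2⟩ | ⟨k1, k2, k3⟩
    · rw [h1] at k1
      rw [h1, h2] at k2
      refine Or.inl ⟨k1, Fin.ext ?_⟩
      simp only [sgn, if_true] at k2 ⊢
      omega
    · rw [h1] at k1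
      rw [h2] at k2
      rw [h1, h2] at k3
      refine Or.inr ⟨⟨k1, k2⟩, ?_⟩
      simp only [true_and, Bool.true_eq_false, false_and, or_false] at k3
      omega

theorem FMark_down (hX : FL s X) (hg : ∀ i, s i ≠ s (i + 1) → good (X i) (s i) = true)
    {c a : ℤ} {σ : Bool} (h : FMarkQ s X c σ a) :
    FMarkQ s X c σ (a - 1) ∨
      (FMarkQ s X (c + sgn σ * (2 * a - 19)) (!σ) a ∧ (a % 42 = 0 ∨ a % 42 = 33)) := by
  obtain ⟨h1, h2⟩ := h
  have t1 := FMark_tp a
  have t2 := FMark_tp (a - 1)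
  cases σ
  · have e : c + sgn false * (2 * a - 19) + sgn (!false) * (a - 9) =
        c + sgn false * (a - 1 - 9) := by simp only [sgn]; simp; ring
    unfold FMarkQ
    rw [e]
    rcases FMark_step hX hg (i := c + sgn false * (a - 9)) (j := c + sgn false * (a - 1 - 9))
      (by simp only [sgn]; simp; ring) with ⟨k1, k2⟩ | ⟨k1, k2, k3⟩
    · rw [h1] at k1
      rw [h1, h2] at k2
      refine Or.inl ⟨k1, Fin.ext ?_⟩
      simp only [sgn, Bool.false_eq_true, if_false] at k2 ⊢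
      omega
    · rw [h1] at k1
      rw [h2] at k2
      rw [h1, h2] at k3
      refine Or.inr ⟨⟨k1, k2⟩, ?_⟩
      simp only [true_and, Bool.false_eq_true, false_and, false_or] at k3
      omega
  · have e : c + sgn true * (2 * a - 19) + sgn (!true) * (a - 9) =
        c + sgn true * (a - 1 - 9) := by simp only [sgn]; simp; ring
    unfold FMarkQ
    rw [e]
    rcases FMark_step hX hg (i := c + sgn true * (a - 1 - 9)) (j := c + sgn true * (a - 9))
      (by simp only [sgn]; simp; ring) with ⟨k1, k2⟩ | ⟨k1, k2, k3⟩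
    · rw [h1] at k1
      rw [← k1, h2] at k2
      refine Or.inl ⟨k1.symm, Fin.ext ?_⟩
      have := (X (c + sgn true * (a - 1 - 9))).isLt
      simp only [sgn, if_true] at k2 this ⊢
      omega
    · rw [h1] at k1
      rw [h2] at k2
      have k4 : s (c + sgn true * (a - 1 - 9)) = false := by simpa using k1
      rw [k4, ← k2] at k3
      refine Or.inr ⟨⟨k4, k2.symm⟩, ?_⟩
      simp only [true_and, Bool.false_eq_true, false_and, false_or] at k3
      omega

theorem FMark_ups (hX : FL s X) (hg : ∀ i, s i ≠ s (i + 1) → good (X i) (s i) = true)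
    {c a : ℤ} {σ : Bool} (h : FMarkQ s X c σ a) (b : ℤ) (hab : a ≤ b) :
    (∀ t, a ≤ t → t < b → t % 42 ≠ 19 ∧ t % 42 ≠ 28) → FMarkQ s X c σ b := by
  induction b, hab using Int.le_induction with
  | base => exact fun _ => h
  | succ n hn ih =>
    intro ht
    rcases FMark_up hX hg (ih fun t h1 h2 => ht t h1 (by omega)) with k | ⟨_, k⟩
    · exact k
    · have := ht n hn (by omega)
      omega

theorem FMark_downs (hX : FL s X) (hg : ∀ i, s i ≠ s (i + 1) → good (X i) (s i) = true)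
    {c a : ℤ} {σ : Bool} (h : FMarkQ s X c σ a) (b : ℤ) (hab : b ≤ a) :
    (∀ t, b < t → t ≤ a → t % 42 ≠ 0 ∧ t % 42 ≠ 33) → FMarkQ s X c σ b := by
  induction b, hab using Int.le_induction_down with
  | base => exact fun _ => h
  | pred n hn ih =>
    intro ht
    rcases FMark_down hX hg (ih fun t h1 h2 => ht t (by omega) h2) with k | ⟨_, k⟩
    · exact k
    · have := ht n (by omega) hn
      omega

theorem FMark_nine {c : ℤ} {σ : Bool} : FMarkQ s X c σ 9 ↔ s c = σ ∧ X c = tp 9 := by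
  simp [FMarkQ]

theorem FMark_str {c lo hi : ℤ} {σ : Bool} (hc : s c = σ)
    (h : ∀ a, lo ≤ a → a < hi → FMarkQ s X c σ a) : Str s X c lo hi := by
  subst hc
  exact h

theorem FMark_base (hX : FL s X) (hg : ∀ i, s i ≠ s (i + 1) → good (X i) (s i) = true)
    {c : ℤ} {σ : Bool} (h : FMarkQ s X c σ 9) (a : ℤ) (h0 : 0 ≤ a) (h1 : a < 20) :
    FMarkQ s X c σ a := by
  rcases le_total a 9 with e | e
  · exact FMark_downs hX hg h a e fun t _ _ => by omega
  · exact FMark_ups hX hg h a e fun t _ _ => by omega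

theorem FMark_exists (hX : FL s X) (hg : ∀ i, s i ≠ s (i + 1) → good (X i) (s i) = true) :
    ∃ i, X i = tp 9 := by
  obtain ⟨a, a0, a1, ha⟩ : ∃ a : ℤ, 0 ≤ a ∧ a < 42 ∧ X 0 = tp a := by
    have h1 := hX.od 0
    have h2 := (X 0).isLt
    simp only [od, beq_iff_eq] at h1
    refine ⟨((X 0).val : ℤ) / 2, by omega, by omega, Fin.ext ?_⟩
    have := FMark_tp (((X 0).val : ℤ) / 2)
    omega
  have h : FMarkQ s X (-(sgn (s 0) * (a - 9))) (s 0) a := by
    unfold FMarkQ
    rw [neg_add_cancel]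
    exact ⟨rfl, ha⟩
  by_cases e : a ≤ 9
  · exact ⟨_, (FMark_ups hX hg h 9 e fun t _ _ => by omega).2⟩
  by_cases e' : a ≤ 32
  · exact ⟨_, (FMark_downs hX hg h 9 (by omega) fun t _ _ => by omega).2⟩
  · exact ⟨_, (FMark_ups hX hg h 51 (by omega) fun t _ _ => by omega).2.trans
      (FMark_tp_congr (by norm_num))⟩

theorem FMark_ne {c a j : ℤ} {σ : Bool} (h : FMarkQ s X c σ a) (hj : j = c + sgn σ * (a - 9))
    (ha : a % 42 ≠ 9) : X j ≠ tp 9 := fun e => by
  rw [hj, h.2] at e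
  have := FMark_tp_inj e
  omega

theorem FMark_sT : sgn true = 1 := rfl

theorem FMark_sF : sgn false = -1 := rfl

theorem FMark_next (hX : FL s X) (hg : ∀ i, s i ≠ s (i + 1) → good (X i) (s i) = true)
    (i : ℤ) (hi : X i = tp 9) : ∃ k, X k = tp 9 ∧ i + 19 ≤ k ∧ Link s X i k ∧
      ∀ j, i < j → j < k → X j ≠ tp 9 := by
  have b0 := FMark_base hX hg (FMark_nine.2 ⟨rfl, hi⟩)
  cases hσ : s i
  · rw [hσ] at b0
    rcases FMark_down hX hg (b0 0 le_rfl (by norm_num)) with q1 | ⟨q1, -⟩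
    · have b1 : ∀ a, -9 ≤ a → a < 20 → FMarkQ s X i false a := fun a h1 h2 => by
        by_cases e : 0 ≤ a
        · exact b0 a e h2
        · exact FMark_downs hX hg q1 a (by omega) fun t _ _ => by omega
      rcases FMark_down hX hg (b1 (-9) le_rfl (by norm_num)) with q2 | ⟨q2, -⟩
      · have b2 : ∀ a, -42 ≤ a → a < 20 → FMarkQ s X i false a := fun a h1 h2 => by
          by_cases e : -9 ≤ a
          · exact b1 a e h2
          · exact FMark_downs hX hg q2 a (by omega) fun t _ _ => by omega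
        have b3 : ∀ a, 0 ≤ a → a < 62 → FMarkQ s X (i + 42) false a := fun a h1 h2 => by
          have := b2 (a - 42) (by omega) (by omega)
          unfold FMarkQ at this ⊢
          rw [show i + 42 + sgn false * (a - 9) = i + sgn false * (a - 42 - 9) by
            rw [FMark_sF]; ring, FMark_tp_congr (show a % 42 = (a - 42) % 42 by omega)]
          exact this
        obtain ⟨m1, m2⟩ := FMark_nine.1 (b3 9 (by norm_num) (by norm_num))
        refine ⟨i + 42, m2, by omega, Or.inl ⟨m1.trans hσ.symm, rfl, fun e => ?_,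
          fun _ => FMark_str m1 b3⟩, fun j h1 h2 => ?_⟩
        · rw [hσ] at e
          exact absurd e (by simp)
        · exact FMark_ne (b2 (9 - (j - i)) (by omega) (by omega)) (by rw [FMark_sF]; ring)
            (by omega)
      · rw [show i + sgn false * (2 * -9 - 19) = i + 37 by rw [FMark_sF]; ring,
          Bool.not_false] at q2
        have b3 : ∀ a, -9 ≤ a → a < 20 → FMarkQ s X (i + 37) true a := fun a h1 h2 =>
          FMark_ups hX hg q2 a h1 fun t _ _ => by omega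
        obtain ⟨m1, m2⟩ := FMark_nine.1 (b3 9 (by norm_num) (by norm_num))
        refine ⟨i + 37, m2, by omega, Or.inr (Or.inr ?_), fun j h1 h2 => ?_⟩
        · simp only [hσ, Bool.false_eq_true, if_false, col, m1, FMark_sF, FMark_sT]
          exact ⟨rfl, by ring, FMark_str hσ b1, FMark_str m1 b3⟩
        · by_cases e : j ≤ i + 18
          · exact FMark_ne (b1 (9 - (j - i)) (by omega) (by omega)) (by rw [FMark_sF]; ring)
              (by omega)
          · exact FMark_ne (b3 (9 + (j - i - 37)) (by omega) (by omega))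
              (by rw [FMark_sT]; ring) (by omega)
    · rw [show i + sgn false * (2 * 0 - 19) = i + 19 by rw [FMark_sF]; ring,
        Bool.not_false] at q1
      have b3 : ∀ a, 0 ≤ a → a < 20 → FMarkQ s X (i + 19) true a := fun a h1 h2 =>
        FMark_ups hX hg q1 a h1 fun t _ _ => by omega
      obtain ⟨m1, m2⟩ := FMark_nine.1 (b3 9 (by norm_num) (by norm_num))
      refine ⟨i + 19, m2, by omega, Or.inr (Or.inl ?_), fun j h1 h2 => ?_⟩
      · simp only [hσ, Bool.false_eq_true, if_false, col, m1, FMark_sF, FMark_sT]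
        exact ⟨rfl, by ring⟩
      · by_cases e : j ≤ i + 9
        · exact FMark_ne (b0 (9 - (j - i)) (by omega) (by omega)) (by rw [FMark_sF]; ring)
            (by omega)
        · exact FMark_ne (b3 (9 + (j - i - 19)) (by omega) (by omega))
            (by rw [FMark_sT]; ring) (by omega)
  · rw [hσ] at b0
    rcases FMark_up hX hg (b0 19 (by norm_num) (by norm_num)) with q1 | ⟨q1, -⟩
    · have b1 : ∀ a, 0 ≤ a → a < 29 → FMarkQ s X i true a := fun a h1 h2 => by
        by_cases e : a < 20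
        · exact b0 a h1 e
        · exact FMark_ups hX hg q1 a (by omega) fun t _ _ => by omega
      rcases FMark_up hX hg (b1 28 (by norm_num) (by norm_num)) with q2 | ⟨q2, -⟩
      · have b2 : ∀ a, 0 ≤ a → a < 62 → FMarkQ s X i true a := fun a h1 h2 => by
          by_cases e : a < 29
          · exact b1 a h1 e
          · exact FMark_ups hX hg q2 a (by omega) fun t _ _ => by omega
        obtain ⟨m1, m2⟩ := b2 51 (by norm_num) (by norm_num)
        rw [show i + sgn true * (51 - 9) = i + 42 by rw [FMark_sT]; ring] at m1 m2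
        refine ⟨i + 42, m2.trans (FMark_tp_congr (by norm_num)), by omega,
          Or.inl ⟨m1.trans hσ.symm, rfl, fun _ => FMark_str hσ b2, fun e => ?_⟩,
          fun j h1 h2 => ?_⟩
        · rw [hσ] at e
          exact absurd e (by simp)
        · exact FMark_ne (b2 (9 + (j - i)) (by omega) (by omega)) (by rw [FMark_sT]; ring)
            (by omega)
      · rw [show i + sgn true * (2 * 28 - 17) = i + 39 by rw [FMark_sT]; ring,
          Bool.not_true] at q2
        have b3 : ∀ a, 0 ≤ a → a < 29 → FMarkQ s X (i + 39) false a := fun a h1 h2 =>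
          FMark_downs hX hg q2 a (by omega) fun t _ _ => by omega
        obtain ⟨m1, m2⟩ := FMark_nine.1 (b3 9 (by norm_num) (by norm_num))
        refine ⟨i + 39, m2, by omega, Or.inr (Or.inr ?_), fun j h1 h2 => ?_⟩
        · simp only [hσ, if_true, col, m1, FMark_sF, FMark_sT]
          exact ⟨rfl, by ring, FMark_str hσ b1, FMark_str m1 b3⟩
        · by_cases e : j ≤ i + 19
          · exact FMark_ne (b1 (9 + (j - i)) (by omega) (by omega)) (by rw [FMark_sT]; ring)
              (by omega)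
          · exact FMark_ne (b3 (9 - (j - i - 39)) (by omega) (by omega))
              (by rw [FMark_sF]; ring) (by omega)
    · rw [show i + sgn true * (2 * 19 - 17) = i + 21 by rw [FMark_sT]; ring,
        Bool.not_true] at q1
      have b3 : ∀ a, 0 ≤ a → a < 20 → FMarkQ s X (i + 21) false a := fun a h1 h2 =>
        FMark_downs hX hg q1 a (by omega) fun t _ _ => by omega
      obtain ⟨m1, m2⟩ := FMark_nine.1 (b3 9 (by norm_num) (by norm_num))
      refine ⟨i + 21, m2, by omega, Or.inr (Or.inl ?_), fun j h1 h2 => ?_⟩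
      · simp only [hσ, if_true, col, m1, FMark_sF, FMark_sT]
        exact ⟨rfl, by ring⟩
      · by_cases e : j ≤ i + 10
        · exact FMark_ne (b0 (9 + (j - i)) (by omega) (by omega)) (by rw [FMark_sT]; ring)
            (by omega)
        · exact FMark_ne (b3 (9 - (j - i - 21)) (by omega) (by omega))
            (by rw [FMark_sF]; ring) (by omega)

theorem FMark_col {c : ℤ} (hs : ∀ i, s (i + c) = s i) (i a : ℤ) :
    col s (i + c) a = col s i a + c := by
  unfold col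
  rw [hs]
  ring

theorem FMark_str_shift {c : ℤ} (hs : ∀ i, s (i + c) = s i) (hp : ∀ i, X (i + c) = X i)
    {i lo hi : ℤ} (h : Str s X i lo hi) : Str s X (i + c) lo hi := fun a h1 h2 => by
  rw [FMark_col hs, hs, hs, hp]
  exact h a h1 h2

theorem FMark_link_shift {c : ℤ} (hs : ∀ i, s (i + c) = s i) (hp : ∀ i, X (i + c) = X i)
    {i k : ℤ} (h : Link s X i k) : Link s X (i + c) (k + c) := by
  unfold Link
  simp only [FMark_col hs, hs]
  rcases h with ⟨h1, h2, h3, h4⟩ | ⟨h1, h2⟩ | ⟨h1, h2, h3, h4⟩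
  · exact Or.inl ⟨h1, by omega, fun e => FMark_str_shift hs hp (h3 e),
      fun e => FMark_str_shift hs hp (h4 e)⟩
  · exact Or.inr (Or.inl ⟨h1, by omega⟩)
  · exact Or.inr (Or.inr ⟨h1, by omega, FMark_str_shift hs hp h3, FMark_str_shift hs hp h4⟩)

end

/-- Markers of a periodic folded line whose folds are good: a periodic enumeration with a
smaller period. -/
theorem markers {s : ℤ → Bool} {X : ℤ → U} (hX : FL s X)
    (hg : ∀ i, s i ≠ s (i + 1) → good (X i) (s i) = true) {m : ℕ} (hm : 0 < m)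
    (hs : ∀ i, s (i + m) = s i) (hp : ∀ i, X (i + m) = X i) :
    ∃ (e : ℤ → ℤ) (m' : ℕ), 0 < m' ∧ m' < m ∧ (∀ k, e (k + m') = e k + m) ∧
      (∀ k, Str s X (e k) 0 20) ∧ ∀ k, Link s X (e k) (e (k + 1)) := by
  obtain ⟨e₀, he₀⟩ := FMark_exists hX hg
  choose! nx n1 n2 n3 n4 using FMark_next hX hg
  obtain ⟨f, f0, fs⟩ : ∃ f : ℕ → ℤ, f 0 = e₀ ∧ ∀ n, f (n + 1) = nx (f n) :=
    ⟨fun n => nx^[n] e₀, rfl, fun n => Function.iterate_succ_apply' nx n e₀⟩
  have fm : ∀ n, X (f n) = tp 9 := fun n => by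
    induction n with
    | zero => rw [f0]; exact he₀
    | succ n ih => rw [fs]; exact n1 _ ih
  have fl : ∀ n : ℕ, e₀ + 19 * n ≤ f n := fun n => by
    induction n with
    | zero => rw [f0]; simp
    | succ n ih =>
      have := n2 _ (fm n)
      rw [← fs] at this
      push_cast
      omega
  have hex : ∃ n, e₀ + m < f (n + 1) := ⟨m, by
    have := fl (m + 1)
    push_cast at this
    omega⟩
  obtain ⟨m', q1, q2⟩ : ∃ n, e₀ + m < f (n + 1) ∧ f n ≤ e₀ + m := by
    refine ⟨Nat.find hex, Nat.find_spec hex, ?_⟩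
    rcases e : Nat.find hex with _ | n
    · rw [f0]; omega
    · exact not_lt.1 (Nat.find_min hex (m := n) (by omega))
  have q3 : f m' = e₀ + m := by
    by_contra hne
    refine n4 _ (fm m') (e₀ + m) (by omega) (by rw [← fs]; exact q1) ?_
    rw [hp, he₀]
  have q4 := fl m'
  have m0 : 0 < m' := by
    rcases m' with _ | n
    · rw [f0] at q3; omega
    · omega
  have m0' : (0 : ℤ) < m' := by exact_mod_cast m0
  have hs' : ∀ q i : ℤ, s (i + q * m) = s i := fun q =>
    Function.Periodic.int_mul (f := s) (c := (m : ℤ)) hs q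
  have hp' : ∀ q i : ℤ, X (i + q * m) = X i := fun q =>
    Function.Periodic.int_mul (f := X) (c := (m : ℤ)) hp q
  refine ⟨fun k => f (k % m').toNat + k / m' * m, m', m0, by omega, fun k => ?_, fun k => ?_,
    fun k => ?_⟩
  · have e1 : (k + m') / m' = k / m' + 1 := by
      have := Int.add_mul_ediv_right k 1 m0'.ne'
      rwa [one_mul] at this
    simp only [Int.add_emod_right, e1]
    ring
  · exact FMark_str_shift (hs' _) (hp' _)
      (FMark_str rfl (FMark_base hX hg (FMark_nine.2 ⟨rfl, fm _⟩)))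
  · have r0 := Int.emod_nonneg k m0'.ne'
    have r1 := Int.emod_lt_of_pos k m0'
    have r2 := Int.emod_add_mul_ediv k m'
    have e1 : f ((k + 1) % m').toNat + (k + 1) / m' * m =
        f ((k % m').toNat + 1) + k / m' * m := by
      by_cases e : k % m' + 1 < m'
      · obtain ⟨a, b⟩ := (Int.ediv_emod_unique (a := k + 1) (r := k % m' + 1) (q := k / m') m0').2
          ⟨by omega, by omega, e⟩
        rw [a, b, show (k % m' + 1).toNat = (k % m').toNat + 1 by omega]
      · obtain ⟨a, b⟩ := (Int.ediv_emod_unique (a := k + 1) (r := 0) (q := k / m' + 1) m0').2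
          ⟨by rw [mul_add]; omega, le_rfl, m0'⟩
        rw [a, b, show (k % m').toNat + 1 = m' by omega, q3, Int.toNat_zero, f0]
        ring
    show Link s X (f (k % m').toNat + k / m' * m) (f ((k + 1) % m').toNat + (k + 1) / m' * m)
    rw [e1, fs]
    exact FMark_link_shift (hs' _) (hp' _) (n3 _ (fm _))

end Pool.Agent.FC
end

-- part Pool.Agent.P.MP_5e292f_al.FValid
section

set_option autoImplicit false

namespace Pool.Agent.FC

theorem inf_eq (P : Blk) : inf P = inf0 P.x P.y (oX P 0 0) (oY P 0 0) (oR P 0 0) := by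
  rw [inf, infAt, mv_zero, mv_zero]

theorem rel_eq (P : Blk) (i j l : Fin 4) : (inf P).rel i j l =
    ((cPo P.x && cPo P.y && sP P.x P.y && piS P.x P.y (kX P) (kY P) == i && j == l &&
      sd P.x P.y (kX P) (kY P) l) ||
    (rgo P.x && rgo P.y && (oR P 0 0).rel i j l && sd P.x P.y (kX P) (kY P) i &&
      sd P.x P.y (kX P) (kY P) j)) := by
  rw [inf_eq]; rfl

theorem nul_eq (P : Blk) (i : Fin 4) : (inf P).nul i =
    (sym P.x P.y (kX P) (kY P) i == 0 ||
    (rgo P.x && rgo P.y && (oR P 0 0).nul i && sd P.x P.y (kX P) (kY P) i)) := by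
  rw [inf_eq]; rfl

theorem od_dQ (u x : U) (hx : od u = rgo x) : od (mv u (dQ x)) = cPo x := by
  obtain ⟨-, a1, -, -, a2, -, -, -, -, a3, a4, -⟩ := ch_aux x
  by_cases h0 : dQ x = 0
  · rw [h0, mv_zero, hx, a3 h0]
  · rw [(od_mv u a1).1 h0, hx, a2 h0, a4 h0]; rfl

theorem win_dP (x : U) (c : ℤ) (h : win (cSo x) c = true) : win (cPo x) (c + dP x) = true := by
  obtain ⟨-, -, a1, -, -, -, a2, -, a3, -⟩ := ch_aux x
  by_cases h0 : dP x = 0
  · rw [h0, add_zero]
    cases hc : cSo x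
    · rw [hc] at h
      cases cPo x
      · exact h
      · have := win_step (e := 0) (by simp) h
        rwa [add_zero] at this
    · rw [hc] at h; rw [(a2 hc).2]; exact h
  · rw [(a3 h0).2] at h
    rw [(a3 h0).1]
    exact win_step a1 h

theorem sh_G_dQ (P : Blk) (x y : U) (hx : od P.x = rgo x) (hy : od P.y = rgo y) :
    sh (dP x) (dP y) (cSo x) (cSo y) (G (bdv (dQ x) (dQ y) P)) =
      sh (dR x) (dR y) (cSo x) (cSo y) (G P) := by
  rw [G_bdv _ _ _ (ch_aux x).2.1 (ch_aux y).2.1 (fun h => by rw [hx, (ch_aux x).2.2.2.2.1 h])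
    (fun h => by rw [hy, (ch_aux y).2.2.2.2.1 h]), od_dQ _ _ hx, od_dQ _ _ hy,
    sh_sh _ _ _ _ _ _ _ _ _ (win_dP x) (win_dP y), (ch_aux x).2.2.2.1, (ch_aux y).2.2.2.1]

theorem child_ok (c : Cell) (x y : U) (hx : od c.P.x = rgo x) (hy : od c.P.y = rgo y)
    (hv : tile c.P → Valid c) (ox : od x = true) (oy : od y = true) : ok (chP c.P x y) := by
  intro sx sy i mx my
  have ex : (chP c.P x y).x = x := rfl
  have ey : (chP c.P x y).y = y := rfl
  have hc := (c2_spec sx sy x y ox oy (kX (chP c.P x y)) (kY (chP c.P x y))).1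
  simp only [cCorT, Bool.and_eq_true] at hc
  replace hc := hc.2
  have e1 := opOf_eq (chP c.P x y) (false, sx) ox
  have e2 := opOf_eq (chP c.P x y) (true, sy) oy
  simp only [co, Bool.false_eq_true, if_false, if_true, ex, ey, pop, dx, dy, mv_zero] at e1 e2
  by_cases fx : fIn x sx = true <;> by_cases fy : fIn y sy = true
  · rw [if_pos ⟨fx, fy⟩] at hc
    have rx := ((ch_aux2 x sx ox).2 fx).2.2.2.2.2.1
    have ry := ((ch_aux2 y sy oy).2 fy).2.2.2.2.2.1
    rw [(opOf_chP c.P x y (false, sx) hx hy fx).2] at mx ⊢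
    rw [(opOf_chP c.P x y (true, sy) hx hy fy).2] at my ⊢
    obtain ⟨m1, m2, j, hj, hr⟩ := (hv ⟨hx.trans rx, hy.trans ry⟩).okk sx sy i mx my
    refine ⟨m1, m2, j, hj, ?_⟩
    rw [rel_eq, chP_oR _ _ _ hx hy, ex, ey, rx, ry, hr]
    have a := all4_spec hc i
    have b := all4_spec hc j
    simp only [sd, a, b, Bool.and_self, Bool.or_true]
  · rw [if_neg (fun h => fy h.2), if_pos fx] at hc
    rw [e1, if_pos fx] at mx
    rw [e2, if_neg fy] at my
    have a := all4_spec hc i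
    rw [Bool.or_eq_true, beq_iff_eq, beq_iff_eq] at a
    exact absurd (a.resolve_left my) ((tch_aux _ _ i).1 ((tch_aux _ _ i).2.2.2 mx))
  · rw [if_neg (fun h => fx h.1), if_neg fx, if_pos fy] at hc
    rw [e1, if_neg fx] at mx
    rw [e2, if_pos fy] at my
    have a := all4_spec hc i
    rw [Bool.or_eq_true, beq_iff_eq, beq_iff_eq] at a
    exact absurd (a.resolve_left mx) ((tch_aux _ _ i).1 ((tch_aux _ _ i).2.2.2 my))
  · rw [if_neg (fun h => fx h.1), if_neg fx, if_neg fy] at hc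
    rw [e1, if_neg fx] at mx ⊢
    rw [e2, if_neg fy] at my ⊢
    have a := all4_spec hc i
    simp only [Bool.or_eq_true, beq_iff_eq, Bool.and_eq_true, bne_iff_ne] at a
    obtain ⟨⟨⟨⟨⟨⟨a1, a2⟩, a3, a3'⟩, a4⟩, a5⟩, a6⟩, a7⟩ :=
      a.resolve_left (fun h => h.elim mx my)
    refine ⟨a1, a2, xc sx sy, a7, ?_⟩
    rw [rel_eq, ex, ey]
    simp only [sP, piS, sd, a3, a3', a4, a5, a6, beq_self_eq_true, Bool.and_self, Bool.true_or]

theorem child_valid (c : Cell) (x y : U) (hx : od c.P.x = rgo x) (hy : od c.P.y = rgo y)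
    (hv : tile c.P → Valid c) (ox : od x = true) (oy : od y = true) : Valid (child c x y) := by
  have ex : (child c x y).P.x = x := rfl
  have ey : (child c x y).P.y = y := rfl
  have eP : (child c x y).P = chP c.P x y := rfl
  have hz : cPo x = true → cPo y = true → bdv (dQ x) (dQ y) c.P = c.P ∧ tile c.P := fun a b => by
    obtain ⟨a1, a2⟩ := (ch_aux x).2.2.2.2.2.2.2.2.2.2.2 a
    obtain ⟨b1, b2⟩ := (ch_aux y).2.2.2.2.2.2.2.2.2.2.2 b
    exact ⟨by rw [a1, b1, bdv_zero], hx.trans a2, hy.trans b2⟩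
  refine ⟨⟨ox, oy⟩, child_ok c x y hx hy hv ox oy, ?_, ?_, ?_⟩
  · rintro l ⟨hs, rfl⟩
    refine ⟨_, child_valP c x y hs, od_dQ _ _ hx, od_dQ _ _ hy, (sh_G_dQ _ _ _ hx hy).symm, ?_⟩
    intro ht
    obtain ⟨e, h⟩ := hz ((od_dQ _ _ hx).symm.trans ht.1) ((od_dQ _ _ hy).symm.trans ht.2)
    rw [e]
    exact (hv h).okk
  · intro i j l h
    rw [rel_eq, ex, ey, eP, chP_oR _ _ _ hx hy] at h
    simp only [Bool.or_eq_true, Bool.and_eq_true, beq_iff_eq] at h
    rcases h with ⟨⟨⟨⟨⟨a1, a2⟩, a3⟩, rfl⟩, rfl⟩, a6⟩ | ⟨⟨⟨⟨a1, a2⟩, a3⟩, a4⟩, a5⟩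
    · obtain ⟨e, h⟩ := hz a1 a2
      have := child_valP c x y a3
      rw [e] at this
      intro u hu
      obtain rfl : c.P = u := Option.some.inj (this.symm.trans hu)
      rw [child_slot c x y j a6]
      exact ⟨h, (hv h).cr j⟩
    · rw [child_slot c x y i a4, child_slot c x y j a5]
      exact (hv ⟨hx.trans a1, hy.trans a2⟩).rl i j l a3
  · intro i h
    rw [nul_eq, ex, ey, eP, chP_oR _ _ _ hx hy] at h
    simp only [Bool.or_eq_true, Bool.and_eq_true, beq_iff_eq] at h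
    rcases h with h | ⟨⟨⟨a1, a2⟩, a3⟩, a4⟩
    · simp [child, chS, h]
    · rw [child_slot c x y i a4]
      exact (hv ⟨hx.trans a1, hy.trans a2⟩).nl i a3

theorem seed : ∃ c, Valid c :=
  ⟨child ⟨⟨0, 0, fun _ _ => dflt⟩, fun _ => none⟩ 59 59,
    child_valid _ _ _ (by decide) (by decide) (fun h => absurd h.1 (by decide)) (by decide) (by decide)⟩

end Pool.Agent.FC
end

-- part Pool.Agent.P.MP_5e292f_al.DSep
section

set_option autoImplicit false

namespace Pool.Agent.FC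

theorem dsep_pt0 {α : Type} (ρ : α → α → ℕ) (a b : α) : pt ρ a b 0 = pt ρ a a 0 := by
  funext x; simp [pt]

theorem dsep_pt1 {α : Type} (ρ : α → α → ℕ) (a b : α) : pt ρ a b 1 = pt ρ b b 0 := by
  funext x; simp [pt]

namespace Sys

variable (S : Sys)

theorem dsep_zero {g g' : S.G} (h : S.h g g' = 0) (a : S.G) : S.h g a = S.h g' a := by
  have h1 := S.th.tri g g' a
  have h2 := S.th.tri g' g a
  have h3 := S.th.symm g g'
  omega

theorem dsep_WE {g k g' k' : S.G} (h1 : S.h g g' = 0) (h2 : S.h k k' = 0) :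
    S.WE g k = S.WE g' k' := by
  ext a
  simp only [WE, Set.mem_ofPred_eq, S.dsep_zero h1, S.dsep_zero h2]

theorem dsep_dist {g k : S.G} (hk : S.h g k ≤ 1) {a b : S.X} (ha : a ∈ S.Bd g k)
    (hb : b ∈ S.Bd g k) : dist a b = DD a.1.2 b.1.2 := by
  have h : ∀ c ∈ S.Bd g k, c ∈ S.Pc g k := fun c hc =>
    ⟨⟨0, ⟨le_rfl, zero_le_one⟩, hc.1.trans (dsep_pt0 _ _ _).symm⟩, hc.2⟩
  rw [S.dist_adj ⟨g, k, hk, h a ha, h b hb⟩, DX, ha.1, hb.1, DD_self, zero_pow two_ne_zero,
    zero_add, Real.sqrt_sq (DD_nonneg _ _)]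

theorem dsep_vtx {g k x : S.G} (hx : x ∈ S.WE g k) : S.vtx x ∈ S.Bd g k :=
  ⟨(pt_congr S.th hx.1 hx.1 0).symm, x, hx, x, hx, 0, ⟨le_rfl, zero_le_one⟩,
    by rw [S.tv.refl]; omega, rfl⟩

theorem dsep_seg {g k : S.G} (hk : S.h g k ≤ 1) (x y : S.G) : IsCompact {a | a ∈ S.Bd g k ∧
    x ∈ S.WE g k ∧ y ∈ S.WE g k ∧ S.v x y ≤ 1 ∧ ∃ t ∈ Set.Icc (0 : ℝ) 1, a.1.2 = pt S.v x y t} := by
  by_cases h : x ∈ S.WE g k ∧ y ∈ S.WE g k ∧ S.v x y ≤ 1
  · obtain ⟨hx, hy, hv⟩ := h
    have hm : ∀ t : Set.Icc (0 : ℝ) 1, pt S.v x y t ∈ RT S.v (S.WE g k) := fun t =>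
      ⟨x, hx, y, hy, t, t.2, hv, rfl⟩
    let γ : Set.Icc (0 : ℝ) 1 → S.X := fun t =>
      ⟨(pt S.h g k 0, pt S.v x y t), S.inX_pc hk ⟨le_rfl, zero_le_one⟩ (hm t)⟩
    have hγ : ∀ t, γ t ∈ S.Bd g k := fun t => ⟨dsep_pt0 _ _ _, hm t⟩
    have hl : LipschitzWith 1 γ := by
      refine LipschitzWith.of_dist_le_mul fun s t => ?_
      rw [S.dsep_dist hk (hγ s) (hγ t), NNReal.coe_one, one_mul, Subtype.dist_eq, Real.dist_eq]
      refine (DD_edge S.tv hv s t).trans_le (mul_le_of_le_one_right (abs_nonneg _) ?_)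
      exact_mod_cast hv
    have e : {a | a ∈ S.Bd g k ∧ x ∈ S.WE g k ∧ y ∈ S.WE g k ∧ S.v x y ≤ 1 ∧
        ∃ t ∈ Set.Icc (0 : ℝ) 1, a.1.2 = pt S.v x y t} = Set.range γ := by
      ext a
      constructor
      · rintro ⟨ha, -, -, -, t, ht, e⟩
        exact ⟨⟨t, ht⟩, Subtype.ext (Prod.ext ((dsep_pt0 _ _ _).trans ha.1.symm) e.symm)⟩
      · rintro ⟨t, rfl⟩
        exact ⟨hγ t, hx, hy, hv, t, t.2, rfl⟩
    rw [e]
    exact isCompact_range hl.continuous
  · exact (Set.Finite.subset Set.finite_empty fun a ha =>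
      absurd ⟨ha.2.1, ha.2.2.1, ha.2.2.2.1⟩ h).isCompact

theorem bd_min {g k : S.G} (hk : S.h g k ≤ 1) (p q : S.X) :
    ∃ a ∈ S.Bd g k, ∀ b ∈ S.Bd g k, dist p a + dist a q ≤ dist p b + dist b q := by
  obtain ⟨x0, hx0⟩ := S.WE_ne hk
  have h0 := S.dsep_vtx hx0
  set R := dist p (S.vtx x0) + dist (S.vtx x0) q with hR
  have hf := S.finite_vtx p (R + 1)
  have hK := hf.isCompact_biUnion fun x _ => hf.isCompact_biUnion fun y _ => S.dsep_seg hk x y
  have hmem : ∀ b ∈ S.Bd g k, dist p b ≤ R → b ∈ ⋃ x ∈ {g : S.G | dist p (S.vtx g) ≤ R + 1},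
      ⋃ y ∈ {g : S.G | dist p (S.vtx g) ≤ R + 1}, {a | a ∈ S.Bd g k ∧ x ∈ S.WE g k ∧
        y ∈ S.WE g k ∧ S.v x y ≤ 1 ∧ ∃ t ∈ Set.Icc (0 : ℝ) 1, a.1.2 = pt S.v x y t} := by
    intro b hb hd
    obtain ⟨x, hx, y, hy, t, ht, hv, e⟩ := hb.2
    have hv' : (S.v x y : ℝ) ≤ 1 := by exact_mod_cast hv
    have hv0 : (0 : ℝ) ≤ S.v x y := Nat.cast_nonneg _
    have key : ∀ z ∈ S.WE g k, b.1.2 z ≤ 1 → dist p (S.vtx z) ≤ R + 1 := by
      intro z hz h1
      have h2 := S.dsep_dist hk (S.dsep_vtx hz) hb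
      have h3 : DD (S.vtx z).1.2 b.1.2 = b.1.2 z := DD_vertex S.tv z (S.mem_v b)
      have h4 := dist_triangle_right p (S.vtx z) b
      linarith
    simp only [Set.mem_iUnion]
    refine ⟨x, key x hx ?_, y, key y hy ?_, hb, hx, hy, hv, t, ht, e⟩
    · rw [e, pt, S.tv.refl, S.tv.symm y x]
      push_cast
      nlinarith [ht.1, ht.2]
    · rw [e, pt, S.tv.refl]
      push_cast
      nlinarith [ht.1, ht.2]
  have h1 := hmem _ h0 (le_add_of_nonneg_right dist_nonneg)
  obtain ⟨a, ha, hmin⟩ := hK.exists_isMinOn ⟨_, h1⟩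
    (f := fun a => dist p a + dist a q) (by fun_prop)
  refine ⟨a, ?_, fun b hb => ?_⟩
  · simp only [Set.mem_iUnion] at ha
    obtain ⟨x, -, y, -, h, -⟩ := ha
    exact h
  · rcases le_total (dist p b) R with h | h
    · exact hmin (hmem b hb h)
    · have : dist p a + dist a q ≤ R := hmin h1
      linarith [dist_nonneg (x := b) (y := q)]

/-- Two edges crossed in opposite senses coincide. -/
theorem edge_eq {g k g' k' : S.G} (hk : S.h g k = 1) (hk' : S.h g' k' ≤ 1)
    (h1 : S.h g' g < S.h g' k) (h2 : S.h k' k < S.h k' g) : S.h g' g = 0 ∧ S.h k' k = 0 := by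
  have h3 := S.th.four g' k k' g
  rw [S.th.symm k g, S.th.symm k k'] at h3
  omega

theorem dsep_pm {g k : S.G} (hk : S.h g k = 1) (x : S.G) :
    S.h x k = S.h x g + 1 ∨ S.h x g = S.h x k + 1 := by
  have h1 := S.th.par g k x hk
  have h2 := S.th.tri x g k
  have h3 := S.th.tri x k g
  rw [S.th.symm g x, S.th.symm k x] at h1
  rw [S.th.symm k g] at h3
  omega

theorem pc_side {g k g' k' : S.G} (hk : S.h g k = 1) (hk' : S.h g' k' ≤ 1) :
    S.Pc g' k' ⊆ S.Hs g k ∨ S.Pc g' k' ∩ S.Hs g k ⊆ S.Bd g k := by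
  rcases S.dsep_pm hk g' with h1 | h1 <;> rcases S.dsep_pm hk k' with h2 | h2
  · left
    rintro p ⟨⟨s, -, e⟩, -⟩
    change p.1.1 k - p.1.1 g = 1
    rw [e, pt, pt, h1, h2]
    push_cast
    ring
  · right
    rintro p ⟨⟨⟨s, -, e⟩, hp⟩, h3⟩
    change p.1.1 k - p.1.1 g = 1 at h3
    rw [e, pt, pt, h1, h2] at h3
    push_cast at h3
    obtain rfl : s = 0 := by linarith
    obtain ⟨a1, a2⟩ := S.edge_eq hk hk' (by omega) (by omega)
    exact ⟨e.trans ((dsep_pt0 _ _ _).trans (pt_congr S.th a1 a1 0)), S.dsep_WE a1 a2 ▸ hp⟩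
  · right
    rintro p ⟨⟨⟨s, -, e⟩, hp⟩, h3⟩
    change p.1.1 k - p.1.1 g = 1 at h3
    rw [e, pt, pt, h1, h2] at h3
    push_cast at h3
    obtain rfl : s = 1 := by linarith
    obtain ⟨a1, a2⟩ := S.edge_eq ((S.th.symm k g).trans hk) hk' (by omega) (by omega)
    rw [S.RT_WE_symm] at hp
    exact ⟨e.trans ((dsep_pt1 _ _ _).trans (pt_congr S.th a2 a2 0)), S.dsep_WE a2 a1 ▸ hp⟩
  · right
    rintro p ⟨⟨⟨s, -, e⟩, -⟩, h3⟩
    change p.1.1 k - p.1.1 g = 1 at h3
    rw [e, pt, pt, h1, h2] at h3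
    push_cast at h3
    exact absurd h3 (by linarith)

theorem dsep_chain {g k : S.G} (hk : S.h g k = 1) {p q : S.X} (hp : p ∈ S.Hs g k) {c : ℝ}
    (hc : S.Chain p q c) : q ∉ S.Hs g k ∨ q ∈ S.Bd g k →
      ∃ a ∈ S.Bd g k, dist p a + dist a q ≤ c := by
  induction hc with
  | refl => exact fun h => ⟨p, h.resolve_left (not_not.2 hp), by simp⟩
  | @step q r c hc hadj ih =>
    rintro (hr | hr)
    · obtain ⟨g', k', hk', hq', hr'⟩ := id hadj
      rcases S.pc_side hk hk' with h | h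
      · exact absurd (h hr') hr
      · obtain ⟨a, ha, h1⟩ := ih ((em _).symm.imp_right fun h2 => h ⟨hq', h2⟩)
        refine ⟨a, ha, ?_⟩
        rw [← S.dist_adj hadj]
        linarith [dist_triangle a q r]
    · exact ⟨r, hr, by simpa using S.dist_le_chain (hc.step hadj)⟩

theorem sep {g k : S.G} (hk : S.h g k = 1) {p q : S.X} (hp : p ∈ S.Hs g k)
    (hq : q ∉ S.Hs g k ∨ q ∈ S.Bd g k) : ∃ a ∈ S.Bd g k, dist p q = dist p a + dist a q := by
  obtain ⟨a, ha, hmin⟩ := S.bd_min hk.le p q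
  refine ⟨a, ha, le_antisymm (dist_triangle _ _ _) ?_⟩
  refine (le_csInf (S.chain_ne p q) fun c hc => ?_).trans_eq (S.dist_def p q).symm
  obtain ⟨b, hb, h⟩ := S.dsep_chain hk hp hc hq
  exact (hmin b hb).trans h

end Sys

end Pool.Agent.FC
end

-- part Pool.Agent.P.MP_5e292f_al.FExist
section

set_option autoImplicit false

namespace Pool.Agent.FC

open Filter

/-- A square patch of cells on half units `1 .. N`. -/
def Patch (N : ℤ) (z : ℤ → ℤ → Cell) : Prop := ∀ a b, 1 ≤ a → a ≤ N → 1 ≤ b → b ≤ N →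
  od (z a b).P.x = decide (a % 2 = 1) ∧ od (z a b).P.y = decide (b % 2 = 1) ∧
  (a % 2 = 1 → b % 2 = 1 → Valid (z a b)) ∧
  (∀ s, a % 2 = 1 → 1 ≤ a + sgn s → a + sgn s ≤ N → bdC (false, s) (z a b) = z (a + sgn s) b) ∧
  (∀ s, b % 2 = 1 → 1 ≤ b + sgn s → b + sgn s ≤ N → bdC (true, s) (z a b) = z a (b + sgn s))

def uu (a : ℤ) : U := Fin.ofNat 84 (a % 84).toNat
def Rg (a : ℤ) : ℤ := 2 * (a / 84) + reg (a % 84)

theorem uu_val (a : ℤ) : ((uu a).val : ℤ) = a % 84 := by
  simp only [uu, Fin.val_ofNat]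
  omega

theorem od_uu (a : ℤ) : od (uu a) = decide (a % 2 = 1) := by
  have := uu_val a
  unfold od
  by_cases h : a % 2 = 1
  · rw [decide_eq_true h, beq_iff_eq]
    omega
  · rw [decide_eq_false h, beq_eq_false_iff_ne]
    omega

theorem rgo_uu (a : ℤ) : rgo (uu a) = decide (Rg a % 2 = 1) := by
  have := uu_val a
  unfold rgo Rg reg
  rw [decide_eq_decide]
  split_ifs <;> omega

theorem mv_uu (a : ℤ) (s : Bool) : mv (uu a) (sgn s) = uu (a + sgn s) := by
  have h1 := uu_val a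
  have h2 := uu_val (a + sgn s)
  apply Fin.ext
  simp only [mv, Fin.val_ofNat]
  cases s <;> simp only [sgn, Bool.false_eq_true, if_false, if_true] at h2 ⊢ <;> omega

theorem Rg_nf (a : ℤ) (s : Bool) (ha : a % 2 = 1) (h : fIn (uu a) s = false) :
    Rg (a + sgn s) = Rg a := by
  have h1 := uu_val a
  unfold Rg reg
  cases s <;> simp only [sgn, fIn, Bool.false_eq_true, if_false, if_true,
    beq_eq_false_iff_ne] at h ⊢ <;> split_ifs <;> omega

theorem Rg_f (a : ℤ) (s : Bool) (h : fIn (uu a) s = true) :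
    Rg (a + sgn s) = Rg a + sgn s ∧ Rg a % 2 = 1 := by
  have h1 := uu_val a
  unfold Rg reg
  cases s <;> simp only [sgn, fIn, Bool.false_eq_true, if_false, if_true,
    beq_iff_eq] at h ⊢ <;> split_ifs <;> omega

theorem Rg_mem (N a : ℤ) (hN : N % 2 = 1) (h1 : 1 ≤ a) (h2 : a ≤ 42 * (N - 1) + 39) :
    1 ≤ Rg a ∧ Rg a ≤ N := by
  unfold Rg reg
  split_ifs <;> omega

theorem Patch.step {N : ℤ} {z : ℤ → ℤ → Cell} (hN : N % 2 = 1) (h : Patch N z) :
    Patch (42 * (N - 1) + 39) fun a b => child (z (Rg a) (Rg b)) (uu a) (uu b) := by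
  intro a b a1 a2 b1 b2
  obtain ⟨ra1, ra2⟩ := Rg_mem N a hN a1 a2
  obtain ⟨rb1, rb2⟩ := Rg_mem N b hN b1 b2
  obtain ⟨px, py, pv, ph, pw⟩ := h _ _ ra1 ra2 rb1 rb2
  have hx : od (z (Rg a) (Rg b)).P.x = rgo (uu a) := px.trans (rgo_uu a).symm
  have hy : od (z (Rg a) (Rg b)).P.y = rgo (uu b) := py.trans (rgo_uu b).symm
  refine ⟨od_uu a, od_uu b, fun oa ob => ?_, fun s oa c1 c2 => ?_, fun s ob c1 c2 => ?_⟩
  · refine child_valid _ _ _ hx hy (fun ht => pv ?_ ?_) ?_ ?_
    · exact of_decide_eq_true (px.symm.trans ht.1)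
    · exact of_decide_eq_true (py.symm.trans ht.2)
    · rw [od_uu, decide_eq_true oa]
    · rw [od_uu, decide_eq_true ob]
  · have ho : od (uu a) = true := by rw [od_uu, decide_eq_true oa]
    have e1 : mv (uu a) (dx (false, s)) = uu (a + sgn s) := mv_uu a s
    have e2 : mv (uu b) (dy (false, s)) = uu b := mv_zero _
    obtain ⟨q1, q2⟩ := Rg_mem N _ hN c1 c2
    cases hf : fIn (uu a) s
    · rw [child_bd _ _ _ (false, s) hx hy ho hf, e1, e2]
      simp only [Rg_nf a s oa hf]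
    · obtain ⟨r1, r2⟩ := Rg_f a s hf
      rw [r1] at q1 q2
      rw [child_bdF _ _ _ (false, s) hx hy hf, e1, e2, ph s r2 q1 q2]
      simp only [r1]
  · have ho : od (uu b) = true := by rw [od_uu, decide_eq_true ob]
    have e1 : mv (uu a) (dx (true, s)) = uu a := mv_zero _
    have e2 : mv (uu b) (dy (true, s)) = uu (b + sgn s) := mv_uu b s
    obtain ⟨q1, q2⟩ := Rg_mem N _ hN c1 c2
    cases hf : fIn (uu b) s
    · rw [child_bd _ _ _ (true, s) hx hy ho hf, e1, e2]
      simp only [Rg_nf b s ob hf]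
    · obtain ⟨r1, r2⟩ := Rg_f b s hf
      rw [r1] at q1 q2
      rw [child_bdF _ _ _ (true, s) hx hy hf, e1, e2, pw s r2 q1 q2]
      simp only [r1]

theorem exists_patch (n : ℕ) : ∃ (N : ℤ) (z : ℤ → ℤ → Cell), N % 2 = 1 ∧ 4 * (n : ℤ) + 1 ≤ N ∧
    Patch N z := by
  induction n with
  | zero =>
    obtain ⟨c, hc⟩ := seed
    refine ⟨1, fun _ _ => c, by decide, by simp, fun a b a1 a2 b1 b2 => ?_⟩
    obtain rfl : a = 1 := le_antisymm a2 a1
    obtain rfl : b = 1 := le_antisymm b2 b1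
    refine ⟨hc.tl.1, hc.tl.2, fun _ _ => hc, fun s _ c1 c2 => ?_, fun s _ c1 c2 => ?_⟩ <;>
      (exfalso; cases s <;> simp [sgn] at c1 c2)
  | succ n ih =>
    obtain ⟨N, z, h1, h2, h3⟩ := ih
    refine ⟨_, _, by omega, ?_, h3.step h1⟩
    push_cast
    omega

theorem exists_centred (n : ℕ) : ∃ w : ℤ → ℤ → Cell, ∀ i j : ℤ, -(n : ℤ) ≤ i → i < n →
    -(n : ℤ) ≤ j → j < n → Valid (w i j) ∧
      bdC (false, true) (w i j) = bdC (false, false) (w (i + 1) j) ∧
      bdC (true, true) (w i j) = bdC (true, false) (w i (j + 1)) := by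
  obtain ⟨N, z, -, h2, h3⟩ := exists_patch n
  refine ⟨fun i j => z (2 * (i + n) + 1) (2 * (j + n) + 1), fun i j i1 i2 j1 j2 => ?_⟩
  have sp : sgn true = 1 := rfl
  have sm : sgn false = -1 := rfl
  obtain ⟨-, -, pv, ph, pw⟩ := h3 (2 * (i + n) + 1) (2 * (j + n) + 1) (by omega) (by omega)
    (by omega) (by omega)
  obtain ⟨-, -, -, ph', -⟩ := h3 (2 * (i + 1 + n) + 1) (2 * (j + n) + 1) (by omega) (by omega)
    (by omega) (by omega)
  obtain ⟨-, -, -, -, pw'⟩ := h3 (2 * (i + n) + 1) (2 * (j + 1 + n) + 1) (by omega) (by omega)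
    (by omega) (by omega)
  refine ⟨pv (by omega) (by omega), ?_, ?_⟩
  · have e : 2 * (i + n) + 1 + sgn true = 2 * (i + 1 + n) + 1 + sgn false := by omega
    rw [ph true (by omega) (by omega) (by omega), ph' false (by omega) (by omega) (by omega), e]
  · have e : 2 * (j + n) + 1 + sgn true = 2 * (j + 1 + n) + 1 + sgn false := by omega
    rw [pw true (by omega) (by omega) (by omega), pw' false (by omega) (by omega) (by omega), e]

/-- The valid tiles tile the plane. -/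
theorem tiling : ∃ z : ℤ → ℤ → Cell, (∀ i j, Valid (z i j)) ∧
    (∀ i j, bdC (false, true) (z i j) = bdC (false, false) (z (i + 1) j)) ∧
    (∀ i j, bdC (true, true) (z i j) = bdC (true, false) (z i (j + 1))) := by
  choose w hw using exists_centred
  have hlim : ∀ i j : ℤ, ∃ c : Cell, ∀ᶠ n in (hyperfilter ℕ : Filter ℕ), w n i j = c := by
    intro i j
    obtain ⟨c, hc⟩ := Ultrafilter.eq_pure_of_finite ((hyperfilter ℕ).map fun n => w n i j)
    refine ⟨c, ?_⟩
    have : ({c} : Set Cell) ∈ (hyperfilter ℕ).map fun n => w n i j := by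
      rw [hc]
      exact Ultrafilter.mem_pure.2 rfl
    exact this
  choose z hz using hlim
  have key : ∀ i j : ℤ, Valid (z i j) ∧
      bdC (false, true) (z i j) = bdC (false, false) (z (i + 1) j) ∧
      bdC (true, true) (z i j) = bdC (true, false) (z i (j + 1)) := by
    intro i j
    have hn : ∀ᶠ n in (hyperfilter ℕ : Filter ℕ), i.natAbs + j.natAbs + 1 ≤ n :=
      Nat.hyperfilter_le_atTop (eventually_ge_atTop _)
    obtain ⟨n, ⟨⟨e1, e2⟩, e3⟩, e4⟩ :=
      ((((hz i j).and (hz (i + 1) j)).and (hz i (j + 1))).and hn).exists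
    rw [← e1, ← e2, ← e3]
    exact hw n i j (by omega) (by omega) (by omega) (by omega)
  exact ⟨z, fun i j => (key i j).1, fun i j => (key i j).2.1, fun i j => (key i j).2.2⟩

end Pool.Agent.FC
end

-- part Pool.Agent.P.MP_5e292f_al.FRec
section

set_option autoImplicit false

namespace Pool.Agent.FC

/-- An unfolded patch of valid tiles at their standard positions over the region `R`. -/
structure Chart (R : ℤ → ℤ → Prop) (Z : ℤ → ℤ → Cell) : Prop where
  val : ∀ i j, R i j → Valid (Z i j)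
  px : ∀ i j, R i j → (Z i j).P.x = tp i
  py : ∀ i j, R i j → (Z i j).P.y = tp j
  ax : ∀ i j, R i j → R (i + 1) j → bdC (false, true) (Z i j) = bdC (false, false) (Z (i + 1) j)
  ay : ∀ i j, R i j → R i (j + 1) → bdC (true, true) (Z i j) = bdC (true, false) (Z i (j + 1))

theorem Chart.mono {R R' : ℤ → ℤ → Prop} {Z : ℤ → ℤ → Cell} (h : Chart R Z)
    (hR : ∀ i j, R' i j → R i j) : Chart R' Z :=
  ⟨fun i j a => h.val i j (hR i j a), fun i j a => h.px i j (hR i j a),
    fun i j a => h.py i j (hR i j a), fun i j a b => h.ax i j (hR _ _ a) (hR _ _ b),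
    fun i j a b => h.ay i j (hR _ _ a) (hR _ _ b)⟩

/-- The parent read from a zone. -/
def par (Z : ℤ → ℤ → Cell) : Cell := ⟨(valP (Z 10 12)).getD (Z 10 12).P, (Z 9 10).s⟩

theorem tp_val (i : ℤ) : ((tp i).val : ℤ) = (2 * i + 1) % 84 := by
  simp only [tp, Fin.val_ofNat]
  omega

theorem mv_val (u : U) {e : ℤ} (he : |e| ≤ 2) : ((mv u e).val : ℤ) = ((u.val : ℤ) + e) % 84 := by
  have := abs_le.1 he
  simp only [mv, Fin.val_ofNat]
  omega

theorem od_tp (i : ℤ) : od (tp i) = true := by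
  have := tp_val i
  simp only [od, beq_iff_eq]
  omega

theorem tp_edge (i e : ℤ) (he : |e| ≤ 1) : mv (tp (i + e)) (-e) = mv (tp i) e := by
  have h1 := mv_val (tp (i + e)) (e := -e) (by rw [abs_neg]; exact he.trans one_le_two)
  have h2 := mv_val (tp i) (he.trans one_le_two)
  rw [tp_val] at h1 h2
  apply Fin.ext
  omega

theorem opp_d : ∀ d : Dir, dx (d.1, !d.2) = -dx d ∧ dy (d.1, !d.2) = -dy d := by decide

theorem od_co (a : Bool) (i j : ℤ) : od (co a (tp i) (tp j)) = true := by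
  cases a <;> exact od_tp _

theorem Chart.nb {R : ℤ → ℤ → Prop} {Z : ℤ → ℤ → Cell} (h : Chart R Z) (d : Dir) {i j : ℤ}
    (a : R i j) (b : R (i + dx d) (j + dy d)) :
    bdC d (Z i j) = bdC (d.1, !d.2) (Z (i + dx d) (j + dy d)) := by
  obtain ⟨p, s⟩ := d
  cases p <;> cases s <;>
    simp only [dx, dy, sgn, Bool.false_eq_true, if_false, if_true, add_zero, Bool.not_true,
      Bool.not_false] at b ⊢
  · have := h.ax (i + -1) j b (by simpa using a)
    simpa using this.symm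
  · exact h.ax i j a b
  · have := h.ay i (j + -1) b (by simpa using a)
    simpa using this.symm
  · exact h.ay i j a b

theorem rgo_inC {i j : ℤ} (h : inC i j = true) : rgo (tp i) = true ∧ rgo (tp j) = true := by
  have hr : -9 ≤ i ∧ i < 29 ∧ -9 ≤ j ∧ j < 29 := by
    simp only [inC, inZ, inA, arm1, Bool.or_eq_true, Bool.and_eq_true, decide_eq_true_eq,
      Bool.false_eq_true, if_false, if_true] at h
    omega
  have h1 := tp_val i
  have h2 := tp_val j
  simp only [rgo, decide_eq_true_eq]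
  omega

/-- A region closed under the pointers. -/
structure Rgn (R : ℤ → ℤ → Prop) : Prop where
  inC : ∀ i j, R i j → inC i j = true
  zone : ∀ i j, inZ i j = true → R i j
  mov : ∀ v i j, R i j → cMove v i j = true → R (i + dx (pdir v i j)) (j + dy (pdir v i j))

theorem cMove_spec {v : ℕ} {i j : ℤ} (h : cMove v i j = true) :
    dep v (i + dx (pdir v i j)) (j + dy (pdir v i j)) < dep v i j ∧
    fIn (co (pdir v i j).1 (tp i) (tp j)) (pdir v i j).2 = false ∧
    fIn (co (pdir v i j).1 (tp (i + dx (pdir v i j))) (tp (j + dy (pdir v i j)))) (!(pdir v i j).2)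
      = false := by
  simp only [cMove, Bool.and_eq_true, decide_eq_true_eq, Bool.not_eq_true'] at h
  exact ⟨h.1.1.2, h.1.2, h.2⟩

theorem dep_ind {R : ℤ → ℤ → Prop} (v : ℕ) (Q : ℤ → ℤ → Prop)
    (step : ∀ i j, R i j → (∀ i' j', R i' j' → dep v i' j' < dep v i j → Q i' j') → Q i j) :
    ∀ i j, R i j → Q i j := by
  have : ∀ n i j, dep v i j = n → R i j → Q i j := by
    intro n
    induction n using Nat.strong_induction_on with
    | _ n ih => exact fun i j e r => step i j r fun i' j' r' l => ih _ (e ▸ l) i' j' rfl r'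
  exact fun i j => this _ i j rfl

theorem par_spec {Z : ℤ → ℤ → Cell} (hv : Valid (Z 10 12)) (hx : (Z 10 12).P.x = tp 10)
    (hy : (Z 10 12).P.y = tp 12) : valP (Z 10 12) = some (par Z).P ∧ tile (par Z).P ∧ ok (par Z).P := by
  obtain ⟨w, e, a, b, -, c⟩ := hv.cr _ ⟨by rw [hx, hy]; decide +kernel, rfl⟩
  have e' : valP (Z 10 12) = some w := e
  have ep : (par Z).P = w := by simp [par, e']
  have ht : tile w := ⟨by rw [a, hx]; decide, by rw [b, hy]; decide⟩
  rw [ep]
  exact ⟨e', ht, c ht⟩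

theorem child_nb (C : Cell) (hC : tile C.P) {R : ℤ → ℤ → Prop} (hR : Rgn R) {v : ℕ} {i j : ℤ}
    (r : R i j) (hm : cMove v i j = true) :
    bdC (pdir v i j) (child C (tp i) (tp j)) = bdC ((pdir v i j).1, !(pdir v i j).2)
      (child C (tp (i + dx (pdir v i j))) (tp (j + dy (pdir v i j)))) := by
  obtain ⟨-, f1, f2⟩ := cMove_spec hm
  have g1 := rgo_inC (hR.inC _ _ r)
  have g2 := rgo_inC (hR.inC _ _ (hR.mov v i j r hm))
  rw [child_bd C _ _ _ (hC.1.trans g1.1.symm) (hC.2.trans g1.2.symm) (od_co _ _ _) f1,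
    child_bd C _ _ (_, !(pdir v i j).2) (hC.1.trans g2.1.symm) (hC.2.trans g2.2.symm) (od_co _ _ _) f2,
    (opp_d _).1, (opp_d _).2, tp_edge _ _ (dxy_le _).1, tp_edge _ _ (dxy_le _).2]

section
variable {R : ℤ → ℤ → Prop} {Z : ℤ → ℤ → Cell} (h : Chart R Z) (hR : Rgn R)
include h hR

theorem rec_par : valP (Z 10 12) = some (par Z).P ∧ tile (par Z).P ∧ ok (par Z).P :=
  have r := hR.zone 10 12 (by decide)
  par_spec (h.val _ _ r) (h.px _ _ r) (h.py _ _ r)

theorem rec_P : ∀ i j, R i j → sP (tp i) (tp j) = true →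
    valP (Z i j) = valP (child (par Z) (tp i) (tp j)) := by
  obtain ⟨p1, p2, -⟩ := rec_par h hR
  refine dep_ind 0 _ fun i j r ih hs => ?_
  have hc := allC_spec chkP (hR.inC i j r)
  simp only [cP, hs, Bool.not_true, Bool.false_or, Bool.or_eq_true, Bool.and_eq_true, beq_iff_eq,
    Bool.not_eq_true'] at hc
  rcases hc with ⟨rfl, rfl⟩ | ⟨⟨⟨hm, s1⟩, s2⟩, s3⟩
  · rw [p1, child_valP _ _ _ hs, show dQ (tp 10) = 0 by decide, show dQ (tp 12) = 0 by decide,
      bdv_zero]
  have r' := hR.mov 0 i j r hm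
  obtain ⟨l, f1, f2⟩ := cMove_spec hm
  have IH := ih _ _ r' l s2
  have n1 := h.nb _ r r'
  have n2 := child_nb _ p2 hR r hm
  generalize pdir 0 i j = d at *
  have s1' : sP (mv (tp (i + dx d)) (dx (d.1, !d.2))) (mv (tp (j + dy d)) (dy (d.1, !d.2))) = true := by
    rwa [(opp_d _).1, (opp_d _).2, tp_edge _ _ (dxy_le _).1, tp_edge _ _ (dxy_le _).2]
  have a1 := ft_P (Z i j) d
  have a2 := ft_P (Z (i + dx d) (j + dy d)) (d.1, !d.2)
  rw [h.px _ _ r, h.py _ _ r] at a1
  rw [h.px _ _ r', h.py _ _ r'] at a2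
  have b1 := ft_P (child (par Z) (tp i) (tp j)) d (od_co _ _ _) f1 s1
  have b2 := ft_P (child (par Z) (tp (i + dx d)) (tp (j + dy d))) (d.1, !d.2) (od_co _ _ _) f2 s1'
  replace a1 := a1 (od_co _ _ _) f1 s1
  replace a2 := a2 (od_co _ _ _) f2 s1'
  have e1 : pIn (co d.1 (child (par Z) (tp i) (tp j)).P.x (child (par Z) (tp i) (tp j)).P.y) d.2
    = false := s3
  rw [e1] at b1
  rw [s3] at a1
  simp only [Bool.false_eq_true, if_false] at a1 b1
  rw [← a1, ← b1, n1, n2, a2, b2, IH]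
  rfl

theorem rec_W : ∀ i j, R i j → (Z i j).P = chP (par Z).P (tp i) (tp j) := by
  obtain ⟨p1, p2, -⟩ := rec_par h hR
  refine dep_ind 1 _ fun i j r ih => ?_
  have hc := allC_spec chkW (hR.inC i j r)
  simp only [cW, Bool.or_eq_true, Bool.and_eq_true, Bool.not_eq_true'] at hc
  rcases hc with hs | ⟨⟨hm, s1⟩, -⟩
  · obtain ⟨w, e, -, -, a, -⟩ := (h.val _ _ r).cr _ ⟨by rw [h.px _ _ r, h.py _ _ r]; exact hs, rfl⟩
    have e' : valP (Z i j) = some w := e
    rw [rec_P h hR i j r hs, child_valP _ _ _ hs] at e'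
    obtain rfl := Option.some.inj e'
    have g1 := rgo_inC (hR.inC _ _ r)
    rw [h.px _ _ r, h.py _ _ r, sh_G_dQ _ _ _ (p2.1.trans g1.1.symm) (p2.2.trans g1.2.symm)] at a
    exact Blk.ext (h.px _ _ r) (h.py _ _ r) a
  have r' := hR.mov 1 i j r hm
  have IH := ih _ _ r' (cMove_spec hm).1
  have n1 := congrArg Cell.P (h.nb _ r r')
  have n2 := congrArg Cell.P (child_nb _ p2 hR r hm)
  simp only [bdC, child] at n1 n2
  rw [IH, ← n2] at n1
  exact blk_eq (h.val _ _ r).tl n1 (by rw [h.px _ _ r, h.py _ _ r]; exact s1)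

theorem rec_L (κ : Bool) (hk : ∀ i j d, R i j →
      kk (mv (tp i) (dx d)) (mv (tp j) (dy d)) (kX (Z i j).P) (kY (Z i j).P) =
        kk (mv (tp i) (dx d)) (mv (tp j) (dy d)) κ κ) (l : Fin 4) :
    ∀ i j, R i j → sd (tp i) (tp j) κ κ l = true → (Z i j).s l = (par Z).s l := by
  refine dep_ind (vix l κ) _ fun i j r ih hs => ?_
  have hc : allC (cL l κ) = true := by
    fin_cases l
    · exact allB_spec chkL0 κ
    · exact allB_spec chkL1 κ
    · exact allB_spec chkL2 κ
    · exact allB_spec chkL3 κ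
  replace hc := allC_spec hc (hR.inC i j r)
  simp only [cL, hs, Bool.not_true, Bool.false_or, Bool.or_eq_true, Bool.and_eq_true,
    beq_iff_eq] at hc
  rcases hc with ⟨rfl, rfl⟩ | ⟨⟨hm, s1⟩, s2⟩
  · rfl
  have r' := hR.mov _ i j r hm
  obtain ⟨lt, f1, f2⟩ := cMove_spec hm
  have IH := ih _ _ r' lt s2
  have n1 := h.nb _ r r'
  generalize pdir (vix l κ) i j = d at *
  have a1 := ft_slot (Z i j) d l
  have a2 := ft_slot (Z (i + dx d) (j + dy d)) (d.1, !d.2) l
  rw [h.px _ _ r, h.py _ _ r] at a1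
  rw [h.px _ _ r', h.py _ _ r'] at a2
  rw [← IH, ← a1 (od_co _ _ _) f1, ← a2 (od_co _ _ _) f2, n1]
  · rw [sd, (sdT_congr (hk _ _ _ r')).1, (opp_d _).1, (opp_d _).2, tp_edge _ _ (dxy_le _).1,
      tp_edge _ _ (dxy_le _).2]
    exact s1
  · rw [sd, (sdT_congr (hk _ _ _ r)).1]
    exact s1

theorem rec_all (κ : Bool) (hk : ∀ i j d, R i j →
      kk (mv (tp i) (dx d)) (mv (tp j) (dy d)) (kX (Z i j).P) (kY (Z i j).P) =
        kk (mv (tp i) (dx d)) (mv (tp j) (dy d)) κ κ)
    (hk' : ∀ i j, R i j → kk (tp i) (tp j) (kX (Z i j).P) (kY (Z i j).P) = kk (tp i) (tp j) κ κ)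
    (i j : ℤ) (r : R i j) : Z i j = child (par Z) (tp i) (tp j) := by
  have e := rec_W h hR i j r
  refine Cell.ext e (funext fun l => ?_)
  by_cases s1 : sym (tp i) (tp j) (kX (Z i j).P) (kY (Z i j).P) l = 1
  · have s1' : sd (tp i) (tp j) (kX (Z i j).P) (kY (Z i j).P) l = true := symT_one.1 s1
    rw [child_slot _ _ _ _ (e ▸ s1')]
    refine rec_L h hR κ hk l i j r ?_
    rwa [sd, (sdT_congr (hk' _ _ r)).1] at s1'
  by_cases s2 : sym (tp i) (tp j) (kX (Z i j).P) (kY (Z i j).P) l = 2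
  · obtain ⟨a, b⟩ := symT_two s2
    have := rec_P h hR i j r a
    simp only [valP] at this
    rw [h.px _ _ r, h.py _ _ r, piS, b] at this
    rw [this]
    congr 1
    rw [e] at b
    exact b
  · have s0 : sym (tp i) (tp j) (kX (Z i j).P) (kY (Z i j).P) l = 0 := by
      simp only [sym, symT] at s1 s2 ⊢
      split_ifs at s1 s2 ⊢ <;> simp_all
    rw [(h.val _ _ r).nl l (by rw [nul_eq, h.px _ _ r, h.py _ _ r, s0]; rfl)]
    rw [e] at s0
    simp [child, chS, s0]

end

theorem rgn_zone : Rgn (fun i j => inZ i j = true) := by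
  refine ⟨fun i j r => by simp [inC, r], fun _ _ r => r, fun v i j r hm => ?_⟩
  simp only [cMove, Bool.and_eq_true, r, Bool.not_true, Bool.false_or] at hm
  exact hm.1.1.1.1

theorem rgn_arm (d : Dir) : Rgn (fun i j => inZ i j = true ∨ inA d i j = true) := by
  refine ⟨fun i j r => ?_, fun _ _ r => Or.inl r, fun v i j r hm => ?_⟩
  · obtain ⟨a, s⟩ := d
    rcases r with r | r <;> cases a <;> cases s <;> simp [inC, r]
  · simp only [cMove, Bool.and_eq_true] at hm
    rcases r with r | r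
    · have := hm.1.1.1.1
      simp only [r, Bool.not_true, Bool.false_or] at this
      exact Or.inl this
    · have := allB_spec (allB_spec hm.1.1.1.2 d.1) d.2
      simpa only [r, Bool.not_true, Bool.false_or, Bool.or_eq_true] using this

theorem kf_zone {i j : ℤ} (r : inZ i j = true) (d : Dir) :
    kf (tp i) (tp j) = 0 ∧ kf (mv (tp i) (dx d)) (mv (tp j) (dy d)) = 0 := by
  have := allB_spec (allB_spec (allC_spec chkF (rgn_zone.inC i j r)) d.1) d.2
  simp only [r, Bool.not_true, Bool.false_or, Bool.and_eq_true, beq_iff_eq] at this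
  exact this.1

theorem kf_arm {i j : ℤ} {a : Dir} (r : inA a i j = true) (d : Dir) :
    kf (tp i) (tp j) ≠ (if a.1 then 1 else 2) ∧
      kf (mv (tp i) (dx d)) (mv (tp j) (dy d)) ≠ (if a.1 then 1 else 2) := by
  have := allB_spec (allB_spec (allC_spec chkF ((rgn_arm a).inC i j (Or.inr r))) d.1) d.2
  rw [Bool.and_eq_true] at this
  have := allB_spec (allB_spec this.2 a.1) a.2
  simpa only [r, Bool.not_true, Bool.false_or, Bool.and_eq_true, bne_iff_ne] using this

theorem kk_zero {x y : U} (h : kf x y = 0) (a b a' b' : Bool) : kk x y a b = kk x y a' b' :=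
  kkT_congr _ (Or.inr (by rw [kf] at h; omega)) (Or.inr (by rw [kf] at h; omega))

theorem rec_zone {Z : ℤ → ℤ → Cell} (h : Chart (fun i j => inZ i j = true) Z) :
    Valid (par Z) ∧ ∀ i j, inZ i j = true → Z i j = child (par Z) (tp i) (tp j) := by
  have key := rec_all h rgn_zone false (fun i j d r => kk_zero (kf_zone r d).2 _ _ _ _)
    (fun i j r => kk_zero (kf_zone r (false, false)).1 _ _ _ _)
  obtain ⟨-, p2, p3⟩ := rec_par h rgn_zone
  refine ⟨⟨p2, p3, fun l => ?_, fun i j l hr => ?_, fun i hn => ?_⟩, key⟩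
  · have hl : ∀ (l : Fin 4) (kx ky : Bool), sP (tp 0) (tp (if l = 1 then 9 else 0)) = true ∧
        sd (tp 0) (tp (if l = 1 then 9 else 0)) kx ky l = true ∧
        cPo (tp (if l = 1 then 9 else 0)) = true ∧ dQ (tp (if l = 1 then 9 else 0)) = 0 ∧
        inZ 0 (if l = 1 then 9 else 0) = true := by decide +kernel
    replace hl := hl l
    generalize (if l = 1 then (9 : ℤ) else 0) = b at hl
    obtain ⟨a1, -, a3, a4, r⟩ := hl false false
    have hv := h.val _ _ r
    rw [key _ _ r] at hv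
    have a2 := (hl (kX (chP (par Z).P (tp 0) (tp b))) (kY (chP (par Z).P (tp 0) (tp b)))).2.1
    have := hv.rl (piS (tp 0) (tp b) (kX (chP (par Z).P (tp 0) (tp b)))
      (kY (chP (par Z).P (tp 0) (tp b)))) l l (by
        rw [rel_eq]
        show (cPo (tp 0) && cPo (tp b) && sP (tp 0) (tp b) && _ == _ && l == l &&
          sd (tp 0) (tp b) (kX (chP (par Z).P (tp 0) (tp b))) (kY (chP (par Z).P (tp 0) (tp b))) l
          || _) = true
        rw [a1, a2, a3, show cPo (tp 0) = true by decide]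
        simp [child, chP])
    have e := child_valP (par Z) _ _ a1
    rw [a4, show dQ (tp 0) = 0 by decide, bdv_zero] at e
    rw [child_slot _ _ _ _ a2] at this
    exact (this _ e).2
  · have r : inZ 9 10 = true := by decide
    have hs : ∀ (kx ky : Bool) (i : Fin 4), sd (tp 9) (tp 10) kx ky i = true := by decide +kernel
    refine (h.val _ _ r).rl i j l ?_
    rw [rel_eq, rec_W h rgn_zone _ _ r, chP_oR _ _ _ (p2.1.trans (by decide)) (p2.2.trans (by decide)),
      hr]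
    have e1 : (chP (par Z).P (tp 9) (tp 10)).x = tp 9 := rfl
    have e2 : (chP (par Z).P (tp 9) (tp 10)).y = tp 10 := rfl
    simp only [e1, e2, hs, show rgo (tp 9) = true by decide, show rgo (tp 10) = true by decide]
    simp
  · have r : inZ 9 10 = true := by decide
    have hs : ∀ (kx ky : Bool) (i : Fin 4), sd (tp 9) (tp 10) kx ky i = true := by decide +kernel
    refine (h.val _ _ r).nl i ?_
    rw [nul_eq, rec_W h rgn_zone _ _ r, chP_oR _ _ _ (p2.1.trans (by decide)) (p2.2.trans (by decide)),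
      hn]
    have e1 : (chP (par Z).P (tp 9) (tp 10)).x = tp 9 := rfl
    have e2 : (chP (par Z).P (tp 9) (tp 10)).y = tp 10 := rfl
    rw [e1, e2, hs, show rgo (tp 9) = true by decide, show rgo (tp 10) = true by decide]
    simp

theorem k_arm (P : Blk) (hP : tile P) {i j : ℤ} {d : Dir} (r : inA d i j = true) :
    (if d.1 then kY (chP P (tp i) (tp j)) else kX (chP P (tp i) (tp j))) =
      tch (if d.1 then (infAt P (dx d) (dy d)).ty else (infAt P (dx d) (dy d)).tx).2 2 := by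
  have g := rgo_inC ((rgn_arm d).inC i j (Or.inr r))
  have ex : (chP P (tp i) (tp j)).x = tp i := rfl
  have ey : (chP P (tp i) (tp j)).y = tp j := rfl
  have aux : ∀ (s : Bool) (a b : ℤ), arm1 s a b = true → rEx (tp a) 0 + dR (tp a) = sgn s := by
    intro s a b hh
    have := tp_val a
    cases s <;> simp only [arm1, Bool.and_eq_true, decide_eq_true_eq, Bool.false_eq_true, if_false,
      if_true] at hh <;> simp only [rEx, dR, exi, reg, sgn, Bool.false_eq_true, if_false, if_true] <;>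
      split_ifs <;> omega
  obtain ⟨a, s⟩ := d
  cases a <;> simp only [inA, Bool.false_eq_true, if_false, if_true] at r ⊢
  · rw [kX, oX, ex, ey, look_chP P _ _ (hP.1.trans g.1.symm) (hP.2.trans g.2.symm)
      (r_le _ (by simp)).1 (r_le _ (by simp)).2, aux _ _ _ r, (ch_aux _).2.2.2.2.2.2.2.1]
    rfl
  · rw [kY, oY, ex, ey, look_chP P _ _ (hP.1.trans g.1.symm) (hP.2.trans g.2.symm)
      (r_le _ (by simp)).2 (r_le _ (by simp)).1, aux _ _ _ r, (ch_aux _).2.2.2.2.2.2.2.1]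
    rfl

theorem rec_arm {Z : ℤ → ℤ → Cell} (d : Dir)
    (h : Chart (fun i j => inZ i j = true ∨ inA d i j = true) Z) :
    ∀ i j, inA d i j = true → Z i j = child (par Z) (tp i) (tp j) := by
  obtain ⟨-, p2, -⟩ := rec_par h (rgn_arm d)
  have key : ∀ i j, inA d i j = true → ∀ x y : U, kf x y ≠ (if d.1 then 1 else 2) →
      kk x y (kX (Z i j).P) (kY (Z i j).P) = kk x y
        (tch (if d.1 then (infAt (par Z).P (dx d) (dy d)).ty else (infAt (par Z).P (dx d) (dy d)).tx).2 2)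
        (tch (if d.1 then (infAt (par Z).P (dx d) (dy d)).ty else (infAt (par Z).P (dx d) (dy d)).tx).2 2)
        := by
    intro i j r x y hf
    rw [← k_arm _ p2 r, ← rec_W h (rgn_arm d) i j (Or.inr r)]
    cases hd : d.1 <;> rw [hd] at hf
    · exact kkT_congr _ (Or.inl rfl) (Or.inr hf)
    · exact kkT_congr _ (Or.inr hf) (Or.inl rfl)
  intro i j r
  refine rec_all h (rgn_arm d)
    (tch (if d.1 then (infAt (par Z).P (dx d) (dy d)).ty else (infAt (par Z).P (dx d) (dy d)).tx).2 2)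
    (fun i j e r => ?_) (fun i j r => ?_) i j (Or.inr r)
  · exact r.elim (fun r => kk_zero (kf_zone r e).2 _ _ _ _) fun r => key i j r _ _ (kf_arm r e).2
  · exact r.elim (fun r => kk_zero (kf_zone r d).1 _ _ _ _) fun r => key i j r _ _ (kf_arm r d).1

end Pool.Agent.FC
end

-- part Pool.Agent.P.MP_5e292f_al.DCat
section

set_option autoImplicit false

namespace Pool.Agent.FC

namespace Sys

variable (S : Sys)

/-- The union of the pieces over a set of vertices. -/
def dcatY (W : Set S.G) : Set S.X := {p | ∃ a ∈ W, ∃ b ∈ W, S.h a b ≤ 1 ∧ p ∈ S.Pc a b}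

def dcatConv (W : Set S.G) : Prop :=
  ∀ a ∈ W, ∀ b ∈ W, ∀ c, S.h a c + S.h c b = S.h a b → c ∈ W

theorem dcat_side {g k : S.G} (hk : S.h g k = 1) {y : S.X} (hy : y ∈ S.Pc g k) :
    y ∉ S.Hs g k ∨ y ∈ S.Bd g k := by
  obtain ⟨⟨s, -, e⟩, h2⟩ := hy
  by_cases h : y ∈ S.Hs g k
  · refine Or.inr ⟨?_, h2⟩
    have h1 : y.1.1 k - y.1.1 g = 1 := h
    have hk' : S.h k g = 1 := (S.th.symm k g).trans hk
    rw [e] at h1
    simp only [pt, hk, hk', S.th.refl, Nat.cast_one, Nat.cast_zero] at h1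
    have h3 : s = 0 := by linarith
    rw [e, h3]
    funext x
    simp [pt]
  · exact Or.inl h

theorem dcat_hs {g k a b : S.G} (ha : S.h a k = S.h a g + 1) (hb : S.h b k = S.h b g + 1)
    {y : S.X} (hy : y ∈ S.Pc a b) : y ∈ S.Hs g k := by
  obtain ⟨⟨s, -, e⟩, -⟩ := hy
  change y.1.1 k - y.1.1 g = 1
  rw [e]
  simp only [pt, ha, hb]
  push_cast
  ring

theorem dcat_far {W : Set S.G} (hW : S.dcatConv W) {g k : S.G} (hg : g ∈ W) (hk : k ∉ W)
    (h1 : S.h g k = 1) {a : S.G} (ha : a ∈ W) : S.h a k = S.h a g + 1 := by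
  have a1 := S.th.par g k a h1
  have a2 := S.th.tri a g k
  have a3 := S.th.tri a k g
  have a4 := S.th.symm k g
  have a5 := S.th.symm a g
  have a6 := S.th.symm a k
  by_contra h
  exact hk (hW a ha g hg k (by omega))

theorem dcat_conv {W : Set S.G} (hW : S.dcatConv W) {g k : S.G} (hg : g ∈ W) (hk : k ∉ W)
    (h1 : S.h g k = 1) : S.dcatConv (W ∪ {x | S.h k x = 0}) := by
  have key : ∀ a ∈ W, ∀ b, S.h k b = 0 → ∀ c, S.h a c + S.h c b = S.h a b →
      c ∈ W ∪ {x | S.h k x = 0} := fun a ha b hb c e => by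
    by_cases hc : S.h k c = 0
    · exact Or.inr hc
    refine Or.inl (hW a ha g hg c ?_)
    have a0 := S.dcat_far hW hg hk h1 ha
    have a1 := S.th.par g k c h1
    have a2 := S.th.four a k c g
    have a3 := S.th.symm k b
    have a4 := S.th.symm k c
    have a5 := S.th.symm g c
    have a6 := S.th.symm g k
    have b1 := S.th.tri a k b
    have b2 := S.th.tri a b k
    have b3 := S.th.tri c k b
    have b4 := S.th.tri c b k
    have b5 := S.th.tri c g k
    have b6 := S.th.tri c k g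
    omega
  rintro a (ha | ha) b (hb | hb) c e
  · exact Or.inl (hW a ha b hb c e)
  · exact key a ha b hb c e
  · refine key b hb a ha c ?_
    rw [S.th.symm b c, S.th.symm c a, S.th.symm b a]
    omega
  · have a1 : S.h k a = 0 := ha
    have a2 : S.h k b = 0 := hb
    have a3 := S.th.symm k a
    have b1 := S.th.tri a k b
    have b2 := S.th.tri k a c
    exact Or.inr (show S.h k c = 0 by omega)

theorem dcat_union {W : Set S.G} (hW : S.dcatConv W) {g k : S.G} (hg : g ∈ W) (hk : k ∉ W)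
    (h1 : S.h g k = 1) :
    S.dcatY (W ∪ {x | S.h k x = 0}) = (S.dcatY W ∪ S.Pc g k) ∪ S.Pc k k := by
  have hkk : k ∈ W ∪ {x | S.h k x = 0} := Or.inr (S.th.refl k)
  have key : ∀ a ∈ W, ∀ b, S.h k b = 0 → S.h a b ≤ 1 → S.Pc a b = S.Pc g k := fun a ha b hb e => by
    have a0 := S.dcat_far hW hg hk h1 ha
    have a1 := S.th.symm k b
    have a2 := S.th.tri a b k
    exact S.pc_congr (by omega) (by omega)
  ext p
  constructor
  · rintro ⟨a, ha | ha, b, hb | hb, e, hp⟩
    · exact Or.inl (Or.inl ⟨a, ha, b, hb, e, hp⟩)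
    · exact Or.inl (Or.inr (key a ha b hb e ▸ hp))
    · rw [S.pc_symm] at hp
      exact Or.inl (Or.inr (key b hb a ha (S.th.symm a b ▸ e) ▸ hp))
    · exact Or.inr (S.pc_congr (g := k) (k := k) ha hb ▸ hp)
  · rintro ((⟨a, ha, b, hb, e, hp⟩ | hp) | hp)
    · exact ⟨a, Or.inl ha, b, Or.inl hb, e, hp⟩
    · exact ⟨g, Or.inl hg, k, hkk, h1.le, hp⟩
    · exact ⟨k, hkk, k, hkk, by rw [S.th.refl]; omega, hp⟩

theorem dcat_ct {W : Set S.G} (hW : S.dcatConv W) (hC : CT (S.dcatY W)) {g k : S.G} (hg : g ∈ W)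
    (hk : k ∉ W) (h1 : S.h g k = 1) : CT (S.dcatY (W ∪ {x | S.h k x = 0})) := by
  have h1' : S.h k g = 1 := (S.th.symm k g).trans h1
  have hY : ∀ x ∈ S.dcatY W, x ∈ S.Hs g k := fun x ⟨a, ha, b, hb, _, hp⟩ =>
    S.dcat_hs (S.dcat_far hW hg hk h1 ha) (S.dcat_far hW hg hk h1 hb) hp
  rw [S.dcat_union hW hg hk h1]
  refine CT.glue (B := S.Bd k g) (CT.glue (B := S.Bd g k) hC (S.ct_pc h1.le)
    (fun p hp => ⟨g, hg, g, hg, by rw [S.th.refl]; omega, (S.bd_sub g k).2.1 hp⟩)
    (S.bd_sub g k).1 (S.bd_conv h1.le) fun x hx y hy => S.sep h1 (hY x hx) (S.dcat_side h1 hy))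
    (S.ct_pc (by rw [S.th.refl]; omega)) (fun p hp => Or.inr ((S.bd_sub k g).2.2 hp))
    (S.bd_sub k g).2.1 (S.bd_conv h1'.le) fun x hx y hy => ?_
  have a1 : y ∈ S.Hs k g := S.dcat_hs (by rw [h1', S.th.refl]) (by rw [h1', S.th.refl]) hy
  have a2 : x ∉ S.Hs k g ∨ x ∈ S.Bd k g := by
    rcases hx with hx | hx
    · refine Or.inl fun h => ?_
      have b1 : x.1.1 k - x.1.1 g = 1 := hY x hx
      have b2 : x.1.1 g - x.1.1 k = 1 := h
      linarith
    · exact S.dcat_side h1' (S.pc_symm g k ▸ hx)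
  obtain ⟨a, ha, e⟩ := S.sep h1' a1 a2
  exact ⟨a, ha, by rw [dist_comm x y, e, dist_comm y a, dist_comm a x, add_comm]⟩

theorem dcat_ext (x : S.G) (n : ℕ) : ∀ (W : Set S.G) (g : S.G), S.dcatConv W → CT (S.dcatY W) →
    g ∈ W → S.h g x = n → ∃ W', W ⊆ W' ∧ S.dcatConv W' ∧ CT (S.dcatY W') ∧ x ∈ W' := by
  induction n with
  | zero =>
    intro W g hW hC hg e
    exact ⟨W, subset_rfl, hW, hC, hW g hg g hg x (by rw [S.th.symm x g, e, S.th.refl])⟩
  | succ n ih =>
    intro W g hW hC hg e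
    obtain ⟨c, c1, c2⟩ := S.th.step g x n e
    by_cases hc : c ∈ W
    · exact ih W c hW hC hc c2
    · obtain ⟨W', a1, a2⟩ := ih _ c (S.dcat_conv hW hg hc c1) (S.dcat_ct hW hC hg hc c1)
        (Or.inr (S.th.refl c)) c2
      exact ⟨W', Set.subset_union_left.trans a1, a2⟩

theorem dcat_pt (p : S.X) {W : Set S.G} (hW : S.dcatConv W) (hC : CT (S.dcatY W)) (h1 : 1 ∈ W) :
    ∃ W', S.dcatY W ⊆ S.dcatY W' ∧ S.dcatConv W' ∧ CT (S.dcatY W') ∧ 1 ∈ W' ∧ p ∈ S.dcatY W' := by
  obtain ⟨g, a, b, b', a', s, t, q, hs, ht, e⟩ := p.2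
  obtain ⟨a1, a2⟩ := S.sq_mem_pc q hs ht p e
  obtain ⟨W₁, b1, b2, b3, b4⟩ := S.dcat_ext g _ W 1 hW hC h1 rfl
  obtain ⟨W₂, c1, c2, c3, c4⟩ := S.dcat_ext (g * S.ι a) _ W₁ g b2 b3 b4 rfl
  exact ⟨W₂, fun y ⟨u, hu, w, hw, r⟩ => ⟨u, c1 (b1 hu), w, c1 (b1 hw), r⟩, c2, c3, c1 (b1 h1),
    g, c1 b4, _, c4, a1.le, a2⟩

theorem cn (x y : S.X) : ∃ m : S.X, ∀ z : S.X,
    dist z m ^ 2 ≤ (dist z x ^ 2 + dist z y ^ 2) / 2 - dist x y ^ 2 / 4 := by
  refine cn_of_ct (fun p q r s => ?_) x y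
  have h0 : S.dcatConv {x | S.h 1 x = 0} := fun a ha b hb c e => by
    have a1 : S.h 1 a = 0 := ha
    have a2 : S.h 1 b = 0 := hb
    have a3 := S.th.symm 1 a
    have b1 := S.th.tri a 1 b
    have b2 := S.th.tri 1 a c
    exact (show S.h 1 c = 0 by omega)
  have h1 : S.dcatY {x | S.h 1 x = 0} = S.Pc 1 1 := by
    ext p
    exact ⟨fun ⟨a, ha, b, hb, _, hp⟩ => S.pc_congr (g := 1) (k := 1) ha hb ▸ hp,
      fun hp => ⟨1, S.th.refl 1, 1, S.th.refl 1, by rw [S.th.refl]; omega, hp⟩⟩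
  obtain ⟨W₁, -, a2, a3, a4, a5⟩ := S.dcat_pt p h0
    (h1 ▸ S.ct_pc (by rw [S.th.refl]; omega)) (S.th.refl 1)
  obtain ⟨W₂, b1, b2, b3, b4, b5⟩ := S.dcat_pt q a2 a3 a4
  obtain ⟨W₃, c1, c2, c3, c4, c5⟩ := S.dcat_pt r b2 b3 b4
  obtain ⟨W₄, d1, -, d3, -, d5⟩ := S.dcat_pt s c2 c3 c4
  exact ⟨_, d3, d1 (c1 (b1 a5)), d1 (c1 b5), d1 c5, d5⟩

end Sys

end Pool.Agent.FC
end

-- part Pool.Agent.P.MP_5e292f_al.FPass
section

set_option autoImplicit false

namespace Pool.Agent.FC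

/-- Tile with coordinate `a` along the axis `ax` and `b` across. -/
def atx (ax : Bool) (Z : ℤ → ℤ → Cell) (a b : ℤ) : Cell := if ax then Z b a else Z a b
def shift (ax : Bool) (Z : ℤ → ℤ → Cell) : ℤ → ℤ → Cell :=
  fun i j => if ax then Z i (j + 42) else Z (i + 42) j
def band (ax : Bool) (i j : ℤ) : Prop :=
  if ax then 0 ≤ j ∧ j < 62 ∧ 0 ≤ i ∧ i < 20 else 0 ≤ i ∧ i < 62 ∧ 0 ≤ j ∧ j < 20

theorem FPass_cross {β : Type} (ax : Bool) (T : ℤ → Cell) (φ : Cell → β)
    (h1 : ∀ a, 28 ≤ a → a ≤ 32 → bdC (ax, true) (T a) = bdC (ax, false) (T (a + 1)))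
    (h2 : ∀ a s, 29 ≤ a → a ≤ 32 → φ (bdC (ax, s) (T a)) = φ (T a)) :
    φ (bdC (ax, true) (T 28)) = φ (bdC (ax, false) (T 33)) := by
  have e : ∀ a, 29 ≤ a → a ≤ 32 → φ (bdC (ax, false) (T a)) = φ (bdC (ax, false) (T (a + 1))) :=
    fun a h h' => by rw [h2 a false h h', ← h2 a true h h', h1 a (by omega) h']
  rw [h1 28 le_rfl (by norm_num)]
  exact (e 29 (by norm_num) (by norm_num)).trans ((e 30 (by norm_num) (by norm_num)).trans
    ((e 31 (by norm_num) (by norm_num)).trans (e 32 (by norm_num) (by norm_num))))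

/-- Coordinates of the point with coordinate `u` along the axis and `v` across. -/
def qx (ax : Bool) (u v : U) : U := if ax then v else u
def qy (ax : Bool) (u v : U) : U := if ax then u else v
def lF (s : Bool) : U := if s then 58 else 66
def lP (s : Bool) : U := if s then 40 else 0
def rowS (ax : Bool) : ℤ := if ax then 7 else 9

theorem FPass_arm (d : Dir) {Z : ℤ → ℤ → Cell}
    (h : Chart (fun i j => inZ i j = true ∨ inA d i j = true) Z) (b : ℤ) (h1 : 3 ≤ b) (h2 : b < 17) :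
    atx d.1 Z (if d.2 then 28 else -9) b = child (par Z)
      (qx d.1 (tp (if d.2 then 28 else -9)) (tp b)) (qy d.1 (tp (if d.2 then 28 else -9)) (tp b)) ∧
    bdC d (atx d.1 Z (if d.2 then 28 else -9) b) =
      child (bdC d (par Z)) (qx d.1 (lF d.2) (tp b)) (qy d.1 (lF d.2) (tp b)) := by
  obtain ⟨-, p2, -⟩ := rec_par h (rgn_arm d)
  have g : rgo (tp b) = true := by
    have := tp_val b
    simp only [rgo, decide_eq_true_eq]
    omega
  have key := rec_arm d h
  obtain ⟨a, s⟩ := d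
  cases a <;> cases s <;> simp only [atx, qx, qy, lF, Bool.false_eq_true, if_false, if_true]
  · have e := key (-9) b (by simp [inA, arm1, h1, h2])
    refine ⟨e, ?_⟩
    rw [e, child_bdF _ _ _ _ (p2.1.trans (by decide)) (p2.2.trans g.symm) (by simp only [co, Bool.false_eq_true, if_false, if_true]; decide)]
    simp only [dx, dy, Bool.false_eq_true, if_false, mv_zero]
    rfl
  · have e := key 28 b (by simp [inA, arm1, h1, h2])
    refine ⟨e, ?_⟩
    rw [e, child_bdF _ _ _ _ (p2.1.trans (by decide)) (p2.2.trans g.symm) (by simp only [co, Bool.false_eq_true, if_false, if_true]; decide)]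
    simp only [dx, dy, Bool.false_eq_true, if_false, mv_zero]
    rfl
  · have e := key b (-9) (by simp [inA, arm1, h1, h2])
    refine ⟨e, ?_⟩
    rw [e, child_bdF _ _ _ _ (p2.1.trans g.symm) (p2.2.trans (by decide)) (by simp only [co, Bool.false_eq_true, if_false, if_true]; decide)]
    simp only [dx, dy, if_true, mv_zero]
    rfl
  · have e := key b 28 (by simp [inA, arm1, h1, h2])
    refine ⟨e, ?_⟩
    rw [e, child_bdF _ _ _ _ (p2.1.trans g.symm) (p2.2.trans (by decide)) (by simp only [co, Bool.false_eq_true, if_false, if_true]; decide)]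
    simp only [dx, dy, if_true, mv_zero]
    rfl

theorem FPass_readF (ax s : Bool) (C : Cell) :
    (∀ l, (child C (qx ax (lF s) (tp (rowS ax))) (qy ax (lF s) (tp (rowS ax)))).s l = C.s l) ∧
      valP (child C (qx ax (lF s) (tp 3)) (qy ax (lF s) (tp 3))) = some C.P := by
  have a : ∀ (ax s kx ky : Bool) (l : Fin 4),
      sd (qx ax (lF s) (tp (rowS ax))) (qy ax (lF s) (tp (rowS ax))) kx ky l = true ∧
      sP (qx ax (lF s) (tp 3)) (qy ax (lF s) (tp 3)) = true ∧ dQ (qx ax (lF s) (tp 3)) = 0 ∧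
      dQ (qy ax (lF s) (tp 3)) = 0 := by decide +kernel
  refine ⟨fun l => child_slot _ _ _ _ (a ax s _ _ l).1, ?_⟩
  obtain ⟨-, a1, a2, a3⟩ := a ax s false false 0
  rw [child_valP _ _ _ a1, a2, a3, bdv_zero]

theorem FPass_rowS (ax : Bool) : 3 ≤ rowS ax ∧ rowS ax < 17 := by cases ax <;> decide

theorem FPass_tp (a : ℤ) : tp (a + 42) = tp a := by
  have h1 := tp_val (a + 42)
  have h2 := tp_val a
  apply Fin.ext
  omega

theorem FPass_shift (ax : Bool) {Z : ℤ → ℤ → Cell} (h : Chart (band ax) Z) :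
    Chart (fun i j => inZ i j = true ∨ inA (ax, false) i j = true) (shift ax Z) := by
  have hb : ∀ i j, (inZ i j = true ∨ inA (ax, false) i j = true) →
      band ax (if ax then i else i + 42) (if ax then j + 42 else j) := by
    intro i j r
    cases ax <;> simp only [inZ, inA, arm1, band, Bool.and_eq_true, decide_eq_true_eq,
      Bool.false_eq_true, if_false, if_true] at r ⊢ <;> omega
  cases ax <;> simp only [Bool.false_eq_true, if_false, if_true] at hb
  · refine ⟨fun i j r => h.val _ _ (hb i j r), fun i j r => (h.px _ _ (hb i j r)).trans (FPass_tp i),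
      fun i j r => h.py _ _ (hb i j r), fun i j r r' => ?_, fun i j r r' => h.ay _ _ (hb i j r) (hb _ _ r')⟩
    have := h.ax _ _ (hb i j r) (by rw [add_right_comm]; exact hb _ _ r')
    rwa [add_right_comm] at this
  · refine ⟨fun i j r => h.val _ _ (hb i j r), fun i j r => h.px _ _ (hb i j r),
      fun i j r => (h.py _ _ (hb i j r)).trans (FPass_tp j),
      fun i j r r' => h.ax _ _ (hb i j r) (hb _ _ r'), fun i j r r' => ?_⟩
    have := h.ay _ _ (hb i j r) (by rw [add_right_comm]; exact hb _ _ r')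
    rwa [add_right_comm] at this

theorem FPass_band (ax : Bool) {Z : ℤ → ℤ → Cell} (h : Chart (band ax) Z) (b : ℤ) (h1 : 0 ≤ b)
    (h2 : b < 20) (a : ℤ) (h3 : 28 ≤ a) (h4 : a ≤ 32) :
    bdC (ax, true) (atx ax Z a b) = bdC (ax, false) (atx ax Z (a + 1) b) ∧
      (atx ax Z a b).P.x = qx ax (tp a) (tp b) ∧ (atx ax Z a b).P.y = qy ax (tp a) (tp b) := by
  cases ax <;> simp only [atx, qx, qy, Bool.false_eq_true, if_false, if_true]
  · have r : band false a b := by simp only [band, Bool.false_eq_true, if_false]; omega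
    exact ⟨h.ax _ _ r (by simp only [band, Bool.false_eq_true, if_false]; omega), h.px _ _ r, h.py _ _ r⟩
  · have r : band true b a := by simp only [band, if_true]; omega
    exact ⟨h.ay _ _ r (by simp only [band, if_true]; omega), h.px _ _ r, h.py _ _ r⟩

theorem FPass_mid : ∀ (ax s kx ky : Bool) (l : Fin 4) (n : Fin 4) (b : Bool),
    od (co ax (qx ax (tp (29 + n.val)) (tp (if b then 3 else rowS ax)))
      (qy ax (tp (29 + n.val)) (tp (if b then 3 else rowS ax)))) = true ∧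
    fIn (co ax (qx ax (tp (29 + n.val)) (tp (if b then 3 else rowS ax)))
      (qy ax (tp (29 + n.val)) (tp (if b then 3 else rowS ax)))) s = false ∧
    pIn (co ax (qx ax (tp (29 + n.val)) (tp 3)) (qy ax (tp (29 + n.val)) (tp 3))) s = false ∧
    sd (mv (qx ax (tp (29 + n.val)) (tp (rowS ax))) (dx (ax, s)))
      (mv (qy ax (tp (29 + n.val)) (tp (rowS ax))) (dy (ax, s))) kx ky l = true ∧
    sP (mv (qx ax (tp (29 + n.val)) (tp 3)) (dx (ax, s)))
      (mv (qy ax (tp (29 + n.val)) (tp 3)) (dy (ax, s))) = true := by decide +kernel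

theorem FPass_ex {a : ℤ} (h : 29 ≤ a) (h' : a ≤ 32) : ∃ n : Fin 4, a = 29 + (n.val : ℤ) :=
  ⟨⟨(a - 29).toNat, by omega⟩, by simp only; omega⟩

def rowP (d : Dir) (l : Fin 4) : ℤ :=
  if d.1 then (if d.2 then ![10, 3, 3, 3] l else ![3, 4, 13, 3] l)
  else (if d.2 then ![4, 9, 13, 3] l else ![3, 9, 3, 3] l)

theorem FPass_zone (d : Dir) {Z : ℤ → ℤ → Cell} (h : Chart (fun i j => inZ i j = true) Z) (b : ℤ)
    (h1 : 0 ≤ b) (h2 : b < 20) :
    atx d.1 Z (if d.2 then 19 else 0) b = child (par Z)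
      (qx d.1 (tp (if d.2 then 19 else 0)) (tp b)) (qy d.1 (tp (if d.2 then 19 else 0)) (tp b)) ∧
    bdC d (atx d.1 Z (if d.2 then 19 else 0) b) =
      child (par Z) (qx d.1 (lP d.2) (tp b)) (qy d.1 (lP d.2) (tp b)) := by
  obtain ⟨p, key⟩ := rec_zone h
  have p2 := p.tl
  have g : rgo (tp b) = true := by
    have := tp_val b
    simp only [rgo, decide_eq_true_eq]
    omega
  obtain ⟨a, s⟩ := d
  cases a <;> cases s <;> simp only [atx, qx, qy, lP, Bool.false_eq_true, if_false, if_true]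
  · have e := key 0 b (by simp [inZ, h1, h2])
    refine ⟨e, ?_⟩
    rw [e, child_bd _ _ _ _ (p2.1.trans (by decide)) (p2.2.trans g.symm) (od_co _ _ _)
      (by simp only [co, Bool.false_eq_true, if_false, if_true]; decide)]
    simp only [dx, dy, Bool.false_eq_true, if_false, mv_zero]
    rfl
  · have e := key 19 b (by simp [inZ, h1, h2])
    refine ⟨e, ?_⟩
    rw [e, child_bd _ _ _ _ (p2.1.trans (by decide)) (p2.2.trans g.symm) (od_co _ _ _)
      (by simp only [co, Bool.false_eq_true, if_false, if_true]; decide)]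
    simp only [dx, dy, Bool.false_eq_true, if_false, mv_zero]
    rfl
  · have e := key b 0 (by simp [inZ, h1, h2])
    refine ⟨e, ?_⟩
    rw [e, child_bd _ _ _ _ (p2.1.trans g.symm) (p2.2.trans (by decide)) (od_co _ _ _)
      (by simp only [co, Bool.false_eq_true, if_false, if_true]; decide)]
    simp only [dx, dy, if_true, mv_zero]
    rfl
  · have e := key b 19 (by simp [inZ, h1, h2])
    refine ⟨e, ?_⟩
    rw [e, child_bd _ _ _ _ (p2.1.trans g.symm) (p2.2.trans (by decide)) (od_co _ _ _)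
      (by simp only [co, Bool.false_eq_true, if_false, if_true]; decide)]
    simp only [dx, dy, if_true, mv_zero]
    rfl

theorem FPass_readP : ∀ (a s kx ky : Bool) (l : Fin 4), 0 ≤ rowP (a, s) l ∧ rowP (a, s) l < 20 ∧
    sd (qx a (lP s) (tp (rowP (a, s) l))) (qy a (lP s) (tp (rowP (a, s) l))) kx ky l = true ∧
    sP (qx a (lP s) (tp 3)) (qy a (lP s) (tp 3)) = true ∧
    dQ (qx a (lP s) (tp 3)) = dx (a, s) ∧ dQ (qy a (lP s) (tp 3)) = dy (a, s) := by decide +kernel

theorem pass_straight (ax : Bool) {Z : ℤ → ℤ → Cell} (h : Chart (band ax) Z) :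
    bdC (ax, true) (par Z) = bdC (ax, false) (par (shift ax Z)) := by
  have hA : Chart (fun i j => inZ i j = true ∨ inA (ax, true) i j = true) Z := by
    refine h.mono fun i j r => ?_
    cases ax <;> simp only [inZ, inA, arm1, band, Bool.and_eq_true, decide_eq_true_eq,
      Bool.false_eq_true, if_false, if_true] at r ⊢ <;> omega
  have hB := FPass_shift ax h
  have es : ∀ b, atx ax (shift ax Z) (-9) b = atx ax Z 33 b := fun b => by cases ax <;> rfl
  have a1 := fun b h1 h2 => (FPass_arm (ax, true) hA b h1 h2).2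
  have a2 := fun b h1 h2 => (FPass_arm (ax, false) hB b h1 h2).2
  simp only [Bool.false_eq_true, if_false, if_true, es] at a1 a2
  obtain ⟨r1, r2⟩ := FPass_rowS ax
  refine Cell.ext ?_ (funext fun l => ?_)
  · have := FPass_cross ax (fun a => atx ax Z a 3) valP
      (fun a h1 h2 => (FPass_band ax h 3 (by norm_num) (by norm_num) a h1 h2).1) (fun a s h1 h2 => ?_)
    · rw [a1 3 le_rfl (by norm_num), a2 3 le_rfl (by norm_num), (FPass_readF ax true _).2,
        (FPass_readF ax false _).2] at this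
      exact Option.some.inj this
    · obtain ⟨-, ex, ey⟩ := FPass_band ax h 3 (by norm_num) (by norm_num) a (by omega) h2
      obtain ⟨n, rfl⟩ := FPass_ex h1 h2
      obtain ⟨m1, m2, m3, -, m5⟩ := FPass_mid ax s false false 0 n true
      have := ft_P (atx ax Z (29 + n.val) 3) (ax, s)
      rw [ex, ey] at this
      rw [this m1 m2 m5, m3]
      rfl
  · have := FPass_cross ax (fun a => atx ax Z a (rowS ax)) (fun c => c.s l)
      (fun a h1 h2 => (FPass_band ax h _ (by omega) (by omega) a h1 h2).1) (fun a s h1 h2 => ?_)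
    · rwa [a1 _ r1 r2, a2 _ r1 r2, (FPass_readF ax true _).1, (FPass_readF ax false _).1] at this
    · obtain ⟨-, ex, ey⟩ := FPass_band ax h (rowS ax) (by omega) (by omega) a (by omega) h2
      obtain ⟨n, rfl⟩ := FPass_ex h1 h2
      have := ft_slot (atx ax Z (29 + n.val) (rowS ax)) (ax, s) l
      rw [ex, ey] at this
      obtain ⟨m1, m2, -, m4, -⟩ := FPass_mid ax s _ _ l n false
      exact this m1 m2 m4

theorem pass_foldP (d : Dir) {Z Z' : ℤ → ℤ → Cell} (h : Chart (fun i j => inZ i j = true) Z)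
    (h' : Chart (fun i j => inZ i j = true) Z')
    (he : ∀ b, 0 ≤ b → b < 20 → bdC d (atx d.1 Z (if d.2 then 19 else 0) b) =
      bdC d (atx d.1 Z' (if d.2 then 19 else 0) b))
    (hne : atx d.1 Z (if d.2 then 19 else 0) 3 ≠ atx d.1 Z' (if d.2 then 19 else 0) 3) :
    bdC d (par Z) = bdC d (par Z') ∧ par Z ≠ par Z' := by
  refine ⟨?_, fun e => hne ?_⟩
  · have e1 : bd d (par Z).P = bd d (par Z').P := by
      have := he 3 (by norm_num) (by norm_num)
      rw [(FPass_zone d h 3 (by norm_num) (by norm_num)).2,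
        (FPass_zone d h' 3 (by norm_num) (by norm_num)).2] at this
      replace this := congrArg valP this
      obtain ⟨-, -, -, m1, m2, m3⟩ := FPass_readP d.1 d.2 false false 0
      rw [child_valP _ _ _ m1, child_valP _ _ _ m1, m2, m3] at this
      exact Option.some.inj this
    have e2 : (par Z).s = (par Z').s := by
      funext l
      obtain ⟨m1, m2, -⟩ := FPass_readP d.1 d.2 false false l
      have := he _ m1 m2
      rw [(FPass_zone d h _ m1 m2).2, (FPass_zone d h' _ m1 m2).2] at this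
      replace this := congrArg (fun c => c.s l) this
      rwa [child_slot _ _ _ _ (FPass_readP d.1 d.2 _ _ l).2.2.1,
        child_slot _ _ _ _ (FPass_readP d.1 d.2 _ _ l).2.2.1] at this
    simp only [bdC, opOf, e1, e2]
  · rw [(FPass_zone d h 3 (by norm_num) (by norm_num)).1,
      (FPass_zone d h' 3 (by norm_num) (by norm_num)).1, e]

theorem pass_foldF (d : Dir) {Z Z' : ℤ → ℤ → Cell}
    (h : Chart (fun i j => inZ i j = true ∨ inA d i j = true) Z)
    (h' : Chart (fun i j => inZ i j = true ∨ inA d i j = true) Z')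
    (he : ∀ b, 0 ≤ b → b < 20 → bdC d (atx d.1 Z (if d.2 then 28 else -9) b) =
      bdC d (atx d.1 Z' (if d.2 then 28 else -9) b))
    (hne : atx d.1 Z (if d.2 then 28 else -9) 3 ≠ atx d.1 Z' (if d.2 then 28 else -9) 3) :
    bdC d (par Z) = bdC d (par Z') ∧ par Z ≠ par Z' := by
  obtain ⟨r1, r2⟩ := FPass_rowS d.1
  refine ⟨Cell.ext ?_ (funext fun l => ?_), fun e => hne ?_⟩
  · have := he 3 (by norm_num) (by norm_num)
    rw [(FPass_arm d h 3 le_rfl (by norm_num)).2, (FPass_arm d h' 3 le_rfl (by norm_num)).2] at this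
    replace this := congrArg valP this
    rw [(FPass_readF _ _ _).2, (FPass_readF _ _ _).2] at this
    exact Option.some.inj this
  · have := he _ (by omega) (show rowS d.1 < 20 by omega)
    rw [(FPass_arm d h _ r1 r2).2, (FPass_arm d h' _ r1 r2).2] at this
    replace this := congrArg (fun c => c.s l) this
    rwa [(FPass_readF _ _ _).1, (FPass_readF _ _ _).1] at this
  · rw [(FPass_arm d h 3 le_rfl (by norm_num)).1, (FPass_arm d h' 3 le_rfl (by norm_num)).1, e]

end Pool.Agent.FC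
end

-- part Pool.Agent.P.MP_5e292f_al.FDesc
section

set_option autoImplicit false

namespace Pool.Agent.FC

/-- A folded tiling of the plane. -/
structure Flat (z : ℤ → ℤ → Cell) (s r : ℤ → Bool) : Prop where
  val : ∀ i j, Valid (z i j)
  ax : ∀ i j, bdC (false, s i) (z i j) = bdC (false, !s (i + 1)) (z (i + 1) j)
  ay : ∀ i j, bdC (true, r j) (z i j) = bdC (true, !r (j + 1)) (z i (j + 1))
  fx : ∀ i j, s i ≠ s (i + 1) → z i j ≠ z (i + 1) j
  fy : ∀ i j, r j ≠ r (j + 1) → z i j ≠ z i (j + 1)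

def Per (z : ℤ → ℤ → Cell) (s r : ℤ → Bool) (m n : ℕ) : Prop :=
  (∀ i j, z (i + m) j = z i j) ∧ (∀ i j, z i (j + n) = z i j) ∧ (∀ i, s (i + m) = s i) ∧
    ∀ j, r (j + n) = r j

theorem FDesc_const {α : Type} {f : ℤ → α} (h : ∀ i, f i = f (i + 1)) (i : ℤ) : f i = f 0 := by
  induction i using Int.induction_on with
  | zero => rfl
  | succ n ih => rw [← h, ih]
  | pred n ih => rw [h, sub_add_cancel, ih]

theorem FDesc_not {a b : Bool} (h : a ≠ b) : (!b) = a := by
  cases a <;> cases b <;> simp_all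

theorem FDesc_step {α : Type} {s : ℤ → Bool} {X : ℤ → U} {F : Bool → ℤ → α}
    (hF : ∀ p, F (s p) p = F (!s (p + 1)) (p + 1)) {i lo hi a : ℤ} (h : Str s X i lo hi)
    (h1 : lo ≤ a) (h2 : a + 1 < hi) : F true (col s i a) = F false (col s i (a + 1)) := by
  have e1 := (h a h1 (by omega)).1
  have e2 := (h (a + 1) (by omega) h2).1
  cases hs : s i
  · have e : col s i a = col s i (a + 1) + 1 := by
      simp only [col, hs, sgn, Bool.false_eq_true, if_false]
      ring
    have := hF (col s i (a + 1))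
    rw [← e, e1, e2, hs] at this
    exact this.symm
  · have e : col s i (a + 1) = col s i a + 1 := by
      simp only [col, hs, sgn, if_true]
      ring
    have := hF (col s i a)
    rw [← e, e1, e2, hs] at this
    exact this

/-- The rectangle of chart coordinates with range `[lo, hi)` along the axis. -/
def FDesc_box (ax : Bool) (lo hi u v : ℤ) : Prop :=
  if ax then lo ≤ v ∧ v < hi ∧ 0 ≤ u ∧ u < 20 else lo ≤ u ∧ u < hi ∧ 0 ≤ v ∧ v < 20

theorem FDesc_zone (ax : Bool) (u v : ℤ) (h : inZ u v = true) : FDesc_box ax 0 20 u v := by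
  simp only [inZ, decide_eq_true_eq] at h
  cases ax <;> simp only [FDesc_box, Bool.false_eq_true, if_false, if_true] <;> omega

theorem FDesc_arm (ax sg : Bool) (u v : ℤ) (h : inZ u v = true ∨ inA (ax, sg) u v = true) :
    FDesc_box ax (if sg then 0 else -9) (if sg then 29 else 20) u v := by
  cases ax <;> cases sg <;>
    simp only [FDesc_box, inZ, inA, arm1, Bool.and_eq_true, decide_eq_true_eq, Bool.false_eq_true,
      if_false, if_true] at h ⊢ <;> omega

theorem FDesc_pass (ax : Bool) {s : ℤ → Bool} {X : ℤ → U} {Z : ℤ → ℤ → ℤ → Cell}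
    {w : ℤ → ℤ → Cell} (hat : ∀ i a b, atx ax (Z i) a b = w (col s i a) b)
    (hch : ∀ i lo hi, Str s X i lo hi → Chart (FDesc_box ax lo hi) (Z i))
    (hw : ∀ p b, bdC (ax, s p) (w p b) = bdC (ax, !s (p + 1)) (w (p + 1) b))
    (hf : ∀ p b, s p ≠ s (p + 1) → w p b ≠ w (p + 1) b) {i k : ℤ} (hi : Str s X i 0 20)
    (hk : Str s X k 0 20) (hl : Link s X i k) :
    bdC (ax, s i) (par (Z i)) = bdC (ax, !s k) (par (Z k)) ∧
      (s i ≠ s k → par (Z i) ≠ par (Z k)) := by
  have sh : ∀ i k, (∀ a, col s i (a + 42) = col s k a) → shift ax (Z i) = Z k := by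
    intro i k e
    funext u v
    cases ax
    · exact (hat i (u + 42) v).trans (by rw [e]; exact (hat k u v).symm)
    · exact (hat i (v + 42) u).trans (by rw [e]; exact (hat k v u).symm)
  have fold : ∀ c, s k = (!s i) → col s i c + 1 = col s k c → s (col s i c) = s i →
      s (col s k c) = s k → (∀ b, bdC (ax, s i) (atx ax (Z i) c b) =
        bdC (ax, s i) (atx ax (Z k) c b)) ∧ atx ax (Z i) c 3 ≠ atx ax (Z k) c 3 := by
    intro c e1 e2 e3 e4
    refine ⟨fun b => ?_, ?_⟩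
    · have := hw (col s i c) b
      rw [e2, e3, e4, e1, Bool.not_not] at this
      rw [hat, hat]
      exact this
    · rw [hat, hat, ← e2]
      refine hf _ _ ?_
      rw [e2, e3, e4, e1]
      cases s i <;> simp
  rcases hl with ⟨e1, e2, h1, h2⟩ | ⟨e1, e2⟩ | ⟨e1, e2, h1, h2⟩
  · refine ⟨?_, fun a => absurd e1.symm a⟩
    rw [e1]
    cases hs : s i
    · have := pass_straight ax (hch k 0 62 (h2 hs))
      rw [sh k i fun a => by
        simp only [col, e1, hs, sgn, Bool.false_eq_true, if_false]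
        omega] at this
      exact this.symm
    · have := pass_straight ax (hch i 0 62 (h1 hs))
      rw [sh i k fun a => by
        simp only [col, e1, hs, sgn, if_true]
        omega] at this
      exact this
  · have c1 : (0 : ℤ) ≤ (if s i then 19 else 0) := by split_ifs <;> omega
    have c2 : (if s i then 19 else 0) < (20 : ℤ) := by split_ifs <;> omega
    obtain ⟨a, b⟩ := fold _ e1 e2 (hi _ c1 c2).1 (hk _ c1 c2).1
    have := pass_foldP (ax, s i) ((hch i 0 20 hi).mono (FDesc_zone ax))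
      ((hch k 0 20 hk).mono (FDesc_zone ax)) (fun b _ _ => a b) b
    rw [e1, Bool.not_not]
    exact ⟨this.1, fun _ => this.2⟩
  · have c1 : (if s i then 0 else -9 : ℤ) ≤ (if s i then 28 else -9) := by split_ifs <;> omega
    have c2 : (if s i then 28 else -9 : ℤ) < (if s i then 29 else 20) := by split_ifs <;> omega
    obtain ⟨a, b⟩ := fold _ e1 e2 (h1 _ c1 c2).1 (h2 _ c1 c2).1
    have := pass_foldF (ax, s i) ((hch i _ _ h1).mono (FDesc_arm ax (s i)))
      ((hch k _ _ h2).mono (FDesc_arm ax (s i))) (fun b _ _ => a b) b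
    rw [e1, Bool.not_not]
    exact ⟨this.1, fun _ => this.2⟩

namespace Flat

variable {z : ℤ → ℤ → Cell} {s r : ℤ → Bool} (h : Flat z s r)
include h

theorem FDesc_x (i j : ℤ) : (z i j).P.x = (z i 0).P.x :=
  FDesc_const (f := fun j => (z i j).P.x) (fun j => by
    have : mv (z i j).P.x 0 = mv (z i (j + 1)).P.x 0 := congrArg (fun c => c.P.x) (h.ay i j)
    rwa [mv_zero, mv_zero] at this) j

theorem FDesc_y (i j : ℤ) : (z i j).P.y = (z 0 j).P.y :=
  FDesc_const (f := fun i => (z i j).P.y) (fun i => by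
    have : mv (z i j).P.y 0 = mv (z (i + 1) j).P.y 0 := congrArg (fun c => c.P.y) (h.ax i j)
    rwa [mv_zero, mv_zero] at this) i

theorem FDesc_FLx : FL s fun i => (z i 0).P.x :=
  ⟨fun i => (h.val i 0).tl.1, fun i => congrArg (fun c => c.P.x) (h.ax i 0)⟩

theorem FDesc_FLy : FL r fun j => (z 0 j).P.y :=
  ⟨fun j => (h.val 0 j).tl.2, fun j => congrArg (fun c => c.P.y) (h.ay 0 j)⟩

theorem FDesc_good : (∀ i, s i ≠ s (i + 1) → good (z i 0).P.x (s i) = true) ∧
    ∀ j, r j ≠ r (j + 1) → good (z 0 j).P.y (r j) = true := by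
  refine folds_good h.FDesc_FLx h.FDesc_FLy (fun i j e => ?_) fun i j e => ?_
  · have := h.ax i j
    rw [FDesc_not e] at this
    rw [← h.FDesc_x i j, ← h.FDesc_y i j]
    exact ufold (h.val _ _) (h.val _ _) _ this (h.fx i j e)
  · have := h.ay i j
    rw [FDesc_not e] at this
    rw [← h.FDesc_x i j, ← h.FDesc_y i j]
    exact ufold (h.val _ _) (h.val _ _) _ this (h.fy i j e)

theorem FDesc_chart {i j lo hi lo' hi' : ℤ} (hx : Str s (fun i => (z i 0).P.x) i lo hi)
    (hy : Str r (fun j => (z 0 j).P.y) j lo' hi') :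
    Chart (fun u v => lo ≤ u ∧ u < hi ∧ lo' ≤ v ∧ v < hi') fun a b => z (col s i a) (col r j b) :=
  ⟨fun _ _ _ => h.val _ _, fun a _ e => (h.FDesc_x _ _).trans (hx a e.1 e.2.1).2,
    fun _ b e => (h.FDesc_y _ _).trans (hy b e.2.2.1 e.2.2.2).2,
    fun _ b e e' => FDesc_step (F := fun sg p => bdC (false, sg) (z p (col r j b)))
      (fun p => h.ax p _) hx e.1 e'.2.1,
    fun a _ e e' => FDesc_step (F := fun sg q => bdC (true, sg) (z (col s i a) q))
      (fun q => h.ay _ q) hy e.2.2.1 e'.2.2.2⟩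

theorem FDesc_desc {e f : ℤ → ℤ} (e1 : ∀ k, Str s (fun i => (z i 0).P.x) (e k) 0 20)
    (e2 : ∀ k, Link s (fun i => (z i 0).P.x) (e k) (e (k + 1)))
    (f1 : ∀ k, Str r (fun j => (z 0 j).P.y) (f k) 0 20)
    (f2 : ∀ k, Link r (fun j => (z 0 j).P.y) (f k) (f (k + 1))) :
    Flat (fun k l => par fun a b => z (col s (e k) a) (col r (f l) b)) (fun k => s (e k))
      fun l => r (f l) := by
  have hx := fun k l => FDesc_pass false (Z := fun i a b => z (col s i a) (col r (f l) b))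
    (w := fun p b => z p (col r (f l) b)) (fun _ _ _ => rfl)
    (fun i lo hi a => h.FDesc_chart a (f1 l)) (fun p _ => h.ax p _) (fun p _ => h.fx p _)
    (e1 k) (e1 (k + 1)) (e2 k)
  have hy := fun k l => FDesc_pass true (Z := fun j a b => z (col s (e k) a) (col r j b))
    (w := fun q a => z (col s (e k) a) q) (fun _ _ _ => rfl)
    (fun j lo hi a => (h.FDesc_chart (e1 k) a).mono fun _ _ c => ⟨c.2.2.1, c.2.2.2, c.1, c.2.1⟩)
    (fun q _ => h.ay _ q) (fun q _ => h.fy _ q) (f1 l) (f1 (l + 1)) (f2 l)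
  exact ⟨fun k l => (rec_zone ((h.FDesc_chart (e1 k) (f1 l)).mono (FDesc_zone false))).1,
    fun k l => (hx k l).1, fun k l => (hy k l).1, fun k l => (hx k l).2, fun k l => (hy k l).2⟩

end Flat

theorem FDesc_col {s : ℤ → Bool} {m : ℤ} (h : ∀ i, s (i + m) = s i) (i a : ℤ) :
    col s (i + m) a = col s i a + m := by
  simp only [col, h]
  ring

theorem no_periodic (m : ℕ) : ∀ (n : ℕ) (z : ℤ → ℤ → Cell) (s r : ℤ → Bool), 0 < m → 0 < n →
    Flat z s r → Per z s r m n → False := by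
  induction m using Nat.strong_induction_on with
  | _ m ih =>
  intro n z s r hm hn h ⟨p1, p2, p3, p4⟩
  obtain ⟨e, m', a1, a2, a3, a4, a5⟩ := markers h.FDesc_FLx h.FDesc_good.1 hm p3
    fun i => by rw [p1]
  obtain ⟨f, n', b1, -, b3, b4, b5⟩ := markers h.FDesc_FLy h.FDesc_good.2 hn p4
    fun j => by rw [p2]
  refine ih m' a2 n' _ _ _ a1 b1 (h.FDesc_desc a4 a5 b4 b5) ⟨fun k l => ?_, fun k l => ?_,
    fun k => ?_, fun l => ?_⟩
  · simp only [a3, FDesc_col p3, p1]
  · simp only [b3, FDesc_col p4, p2]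
  · simp only [a3, p3]
  · simp only [b3, p4]

end Pool.Agent.FC
end

-- part Pool.Agent.P.MP_5e292f_al.FBridge
section

set_option autoImplicit false

namespace Pool.Agent.FC

/-- Signed sides of valid tiles. -/
def FBridgeA : Type :=
  {a : Bool × Cell × Bool // ∃ (t : Cell) (e : Bool), Valid t ∧ a.2.1 = bdC (a.1, e) t}

instance : Finite FBridgeA := by unfold FBridgeA; infer_instance

def FBridgeMk (ax e : Bool) (t : Cell) (ht : Valid t) (σ : Bool) : FBridgeA :=
  ⟨(ax, bdC (ax, e) t, σ), t, e, ht, rfl⟩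

theorem FBridge_ext {a b : FBridgeA} (h1 : a.1.1 = b.1.1) (h2 : a.1.2.1 = b.1.2.1)
    (h3 : a.1.2.2 = b.1.2.2) : a = b :=
  Subtype.ext (Prod.ext h1 (Prod.ext h2 h3))

/-- The tile `t` fills the square with the four given sides. -/
structure FBridgeFill (t : Cell) (h v v' h' : FBridgeA) : Prop where
  val : Valid t
  e1 : h.1.2.1 = bdC (true, !v.1.2.2) t
  e2 : h'.1.2.1 = bdC (true, v.1.2.2) t
  e3 : v.1.2.1 = bdC (false, h.1.2.2) t
  e4 : v'.1.2.1 = bdC (false, !h.1.2.2) t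

theorem FBridgeFill.uniq {t t' : Cell} {h v v' h' w k : FBridgeA} (a : FBridgeFill t h v v' h')
    (b : FBridgeFill t' h v w k) : t = t' :=
  det a.val b.val h.1.2.2 (!v.1.2.2) (a.e3.symm.trans b.e3) (a.e1.symm.trans b.e1)

def FBridgeD : VH FBridgeA where
  c a := a.1.1
  sg a := a.1.2.2
  inv a := ⟨(a.1.1, a.1.2.1, !a.1.2.2), a.2⟩
  Sq h v v' h' := (h.1.1 = true ∧ v.1.1 = false ∧ v'.1.1 = false ∧ h'.1.1 = true) ∧
    (h'.1.2.2 = h.1.2.2 ∧ v'.1.2.2 = v.1.2.2) ∧ ∃ t, FBridgeFill t h v v' h'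
  inv_inv a := FBridge_ext rfl rfl (by simp)
  c_inv _ := rfl
  sg_inv _ := rfl
  sq_c _ _ _ _ q := q.1
  sq_sg _ _ _ _ q := q.2.1
  sq_fun h v v' h' v'' h'' q q' := by
    obtain ⟨⟨-, -, c1, c2⟩, ⟨s1, s2⟩, t, a⟩ := q
    obtain ⟨⟨-, -, d1, d2⟩, ⟨r1, r2⟩, t', b⟩ := q'
    have e := a.uniq b
    subst e
    exact ⟨FBridge_ext (c1.trans d1.symm) (a.e4.trans b.e4.symm) (s2.trans r2.symm),
      FBridge_ext (c2.trans d2.symm) (a.e2.trans b.e2.symm) (s1.trans r1.symm)⟩
  sq_r h v v' h' q := by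
    obtain ⟨⟨c1, c2, c3, c4⟩, ⟨s1, s2⟩, t, a⟩ := q
    refine ⟨⟨c4, c2, c3, c1⟩, ⟨s1.symm, by simp [s2]⟩, t, a.val, ?_, ?_, ?_, ?_⟩
    · simpa using a.e2
    · simpa using a.e1
    · simpa [s1] using a.e3
    · simpa [s1] using a.e4
  sq_l h v v' h' q := by
    obtain ⟨⟨c1, c2, c3, c4⟩, ⟨s1, s2⟩, t, a⟩ := q
    refine ⟨⟨c1, c3, c2, c4⟩, ⟨by simp [s1], s2.symm⟩, t, a.val, ?_, ?_, ?_, ?_⟩
    · simpa [s2] using a.e1
    · simpa [s2] using a.e2
    · simpa using a.e4
    · simpa using a.e3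

theorem FBridge_sq (t : Cell) (ht : Valid t) (a b : Bool) :
    FBridgeD.Sq (FBridgeMk true (!b) t ht a) (FBridgeMk false a t ht b)
      (FBridgeMk false (!a) t ht b) (FBridgeMk true b t ht a) :=
  ⟨⟨rfl, rfl, rfl, rfl⟩, ⟨rfl, rfl⟩, t, ht, rfl, rfl, rfl, rfl⟩

theorem FBridge_all (a : FBridgeA) :
    ∃ h v v' h', FBridgeD.Sq h v v' h' ∧ (a = h ∨ a = v') := by
  obtain ⟨⟨ax, x, σ⟩, t, e, ht, hx⟩ := a
  simp only at hx
  cases ax
  · refine ⟨_, _, _, _, FBridge_sq t ht (!e) σ, Or.inr (FBridge_ext rfl ?_ rfl)⟩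
    simpa [FBridgeMk] using hx
  · refine ⟨_, _, _, _, FBridge_sq t ht σ (!e), Or.inl (FBridge_ext rfl ?_ rfl)⟩
    simpa [FBridgeMk] using hx

theorem FBridge_plane : Plane FBridgeD := by
  obtain ⟨z, hv, hx, hy⟩ := tiling
  refine ⟨fun i j => FBridgeMk true false (z i j) (hv i j) true,
    fun i j => FBridgeMk false false (z i j) (hv i j) true, fun i j => ?_, fun i j h => ?_,
    fun i j h => ?_⟩
  · exact ⟨⟨rfl, rfl, rfl, rfl⟩, ⟨rfl, rfl⟩, z i j, hv i j, rfl, (hy i j).symm, (hx i j).symm, rfl⟩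
  · have := congrArg (fun a : FBridgeA => a.1.2.2) h
    simp [FBridgeMk, FBridgeD] at this
  · have := congrArg (fun a : FBridgeA => a.1.2.2) h
    simp [FBridgeMk, FBridgeD] at this

theorem FBridge_const {f : ℤ → Bool} (h : ∀ j, f (j + 1) = f j) (j : ℤ) : f j = f 0 := by
  induction j using Int.induction_on with
  | zero => rfl
  | succ i ih => rw [h, ih]
  | pred i ih => rw [← h, sub_add_cancel, ih]

theorem FBridge_torus : ¬Torus FBridgeD := by
  rintro ⟨m, n, hl, vl, hm, hn, hsq, b1, b2, p1, p2, p3, p4⟩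
  choose z hz using fun i j => (hsq i j).2.2
  have sh : ∀ i j, (hl i j).1.2.2 = (hl i 0).1.2.2 := fun i j =>
    FBridge_const (f := fun j => (hl i j).1.2.2) (fun j => (hsq i j).2.1.1) j
  have sv : ∀ i j, (vl i j).1.2.2 = (vl 0 j).1.2.2 := fun i j =>
    FBridge_const (f := fun i => (vl i j).1.2.2) (fun i => (hsq i j).2.1.2.symm) i
  refine no_periodic m n z (fun i => (hl i 0).1.2.2) (fun j => (vl 0 j).1.2.2) hm hn
    ⟨fun i j => (hz i j).val, fun i j => ?_, fun i j => ?_, fun i j hs e => ?_,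
      fun i j hs e => ?_⟩ ⟨fun i j => ?_, fun i j => ?_, fun i => ?_, fun j => ?_⟩
  · have a := (hz i j).e3
    have b := (hz (i + 1) j).e4
    rw [sh] at a b
    exact a.symm.trans b
  · have a := (hz i j).e2
    have b := (hz i (j + 1)).e1
    rw [sv] at a b
    exact a.symm.trans b
  · apply b1 i j
    have a := (hz i j).e1
    have b := (hz (i + 1) j).e1
    rw [sv] at a b
    refine FBridge_ext ((hsq (i + 1) j).1.1.trans (hsq i j).1.1.symm) ?_ ?_
    · exact b.trans (e ▸ a.symm)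
    · change (hl (i + 1) j).1.2.2 = !(hl i j).1.2.2
      rw [sh (i + 1), sh i]
      revert hs
      cases (hl i 0).1.2.2 <;> cases (hl (i + 1) 0).1.2.2 <;> simp
  · apply b2 i j
    have a := (hz i j).e4
    have b := (hz i (j + 1)).e4
    rw [sh] at a b
    refine FBridge_ext ((hsq i (j + 1)).1.2.2.1.trans (hsq i j).1.2.2.1.symm) ?_ ?_
    · exact b.trans (e ▸ a.symm)
    · change (vl i (j + 1)).1.2.2 = !(vl i j).1.2.2
      rw [sv i (j + 1), sv i j]
      revert hs
      cases (vl 0 j).1.2.2 <;> cases (vl 0 (j + 1)).1.2.2 <;> simp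
  · have a := hz (i + m) j
    rw [p1, show i + (m : ℤ) + 1 = i + 1 + m by ring, p3] at a
    exact a.uniq (hz i j)
  · have a := hz i (j + n)
    rw [p2, p4] at a
    exact a.uniq (hz i j)
  · simp only [p1]
  · simp only [p4]

theorem exists_vh : ∃ (A : Type) (_ : Finite A) (D : VH A),
    (∀ a, ∃ h v v' h', D.Sq h v v' h' ∧ (a = h ∨ a = v')) ∧ Plane D ∧ ¬Torus D :=
  ⟨FBridgeA, inferInstance, FBridgeD, FBridge_all, FBridge_plane, FBridge_torus⟩

end Pool.Agent.FC
end

-- part Pool.Agent.P.MP_5e292f_al.FFinal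
section

set_option autoImplicit false

open Pointwise

namespace Pool.Agent.FC

theorem main : ∃ (X : Type) (_ : MetricSpace X) (_ : ProperSpace X) (Γ : Type) (_ : Group Γ)
    (_ : MulAction Γ X) (_ : IsIsometricSMul Γ X),
    (∀ x y : X, ∃ m : X, ∀ z : X,
      dist z m ^ 2 ≤ (dist z x ^ 2 + dist z y ^ 2) / 2 - dist x y ^ 2 / 4) ∧
    (∀ K : Set X, IsCompact K → {g : Γ | ((g • K) ∩ K).Nonempty}.Finite) ∧
    (∃ K : Set X, IsCompact K ∧ ∀ x : X, ∃ g : Γ, x ∈ g • K) ∧
    (∃ (I : Type) (_ : Finite I)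
      (σ : I → {p : EuclideanSpace ℝ (Fin 2) // ∀ i, p i ∈ Set.Icc (0 : ℝ) 1} → X),
      (∀ i, Isometry (σ i)) ∧ (∀ x : X, ∃ (g : Γ) (i : I) (p : _), x = g • σ i p) ∧
      ∀ (g : Γ) (i j : I), ∃ F : Fin 2 → Set ℝ,
        (∀ k, F k = ∅ ∨ F k = {0} ∨ F k = {1} ∨ F k = Set.univ) ∧
        ∀ p, σ i p ∈ g • Set.range (σ j) ↔ ∀ k, p.1 k ∈ F k) ∧
    (∀ (g : Γ) (n : ℕ), 0 < n → g ^ n = 1 → g = 1) ∧
    (∃ f : EuclideanSpace ℝ (Fin 2) → X, Isometry f) ∧
    (¬∃ φ : Multiplicative (ℤ × ℤ) →* Γ, Function.Injective φ) ∧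
    ¬∃ f : EuclideanSpace ℝ (Fin 2) → X, Isometry f ∧ ∃ H : Subgroup Γ,
      (∀ h : Γ, h ∈ H → h • Set.range f = Set.range f) ∧
      ∃ K : Set X, IsCompact K ∧ Set.range f ⊆ ⋃ h ∈ H, (h : Γ) • K := by
  obtain ⟨A, hA, D, hfull, hP, hT⟩ := exists_vh
  obtain ⟨G, hG, ι, hι⟩ := exists_pres D
  have ne : Nonempty A := by obtain ⟨hl, -, -⟩ := hP; exact ⟨hl 0 0⟩
  obtain ⟨S, hP, hT⟩ : ∃ S : Sys, Plane S.D ∧ ¬Torus S.D :=
    ⟨⟨A, hA, ne, D, G, hG, ι, hι, hfull⟩, hP, hT⟩
  have noZ : ¬∃ φ : Multiplicative (ℤ × ℤ) →* S.G, Function.Injective φ :=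
    fun ⟨φ, hφ⟩ => hT (torus_of_ZZ S.pres φ hφ)
  refine ⟨S.X, inferInstance, inferInstance, S.G, inferInstance, inferInstance, inferInstance,
    S.cn, S.proper_action, S.cocompact, S.complex, fun c n hn e => torsion_free S.pres hn e,
    S.flat hP, noZ, ?_⟩
  rintro ⟨f, hf, H, hH, K, hK, hcov⟩
  exact noZ (ZZ_of_periodic S.proper_action (fun c n hn e => torsion_free S.pres hn e) hf H hH hK
    hcov)

end Pool.Agent.FC
end
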