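import Mathlib
import Pool.Agent.K.MP_5e292f_al.C3

set_option autoImplicit false

namespace Pool.Agent.FC

/-- Half-unit coordinate modulo 84: odd = interval (tile column), even = line. -/
abbrev U := Fin 84
/-- Direction: (axis, sign); axis `false` is x, sign `true` is +. -/
abbrev Dir := Bool × Bool
/-- Operations on the four slots: 0 identity, 1+i cut, 5+i facet, 9.. swaps. -/
abbrev Op := Fin 14

def od (u : U) : Bool := u.val % 2 == 1
def mv (u : U) (e : ℤ) : U := Fin.ofNat 84 ((u.val : ℤ) + e + 84).toNat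
def sgn (b : Bool) : ℤ := if b then 1 else -1
def dx (d : Dir) : ℤ := if d.1 then 0 else sgn d.2
def dy (d : Dir) : ℤ := if d.1 then sgn d.2 else 0
def co (ax : Bool) (x y : U) : U := if ax then y else x

def reg (u : ℤ) : ℤ := if u < 58 then 1 else if u ≤ 66 then 2 else 3
def clP (u : ℤ) : ℤ := if u ≤ 0 then 0 else if u < 40 then 1 else if u ≤ 84 then 2 else 3
def clS (u : ℤ) : ℤ := if u ≤ 6 then 0 else if u < 34 then 1 else 2
def exi (u : ℤ) : ℤ := if u ≤ 20 then 0 else 2
def rReg (u : U) (o : ℤ) : ℤ := reg (u.val + o) - clS u.val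
def rEx (u : U) (o : ℤ) : ℤ := exi (u.val + o) - clS u.val
def dS (u : U) (e : ℤ) : ℤ := clS (u.val + e) - clS u.val
def dP (u : U) : ℤ := clS u.val - clP u.val
def dR (u : U) : ℤ := clS u.val - reg u.val
def dQ (u : U) : ℤ := clP u.val - reg u.val
def cSo (u : U) : Bool := decide (6 < u.val ∧ u.val < 34)
def cPo (u : U) : Bool := decide (0 < u.val ∧ u.val < 40)
def rgo (u : U) : Bool := decide (u.val < 58 ∨ 66 < u.val)
def fIn (u : U) (sg : Bool) : Bool := if sg then u.val == 57 else u.val == 67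
def pIn (u : U) (sg : Bool) : Bool := if sg then u.val == 39 else u.val == 1
def sIn (u : U) (sg : Bool) : Bool := if sg then u.val == 33 else u.val == 7

def mode (op : Op) (i : Fin 4) : ℕ :=
  if op.val = 1 + i.val then 1 else if op.val = 5 + i.val then 2 else 0
def pa (op : Op) : Fin 4 := if op.val < 12 then 0 else 1
def pb (op : Op) : Fin 4 :=
  if op.val = 9 then 1 else if op.val = 10 ∨ op.val = 12 then 2 else 3
def src (op : Op) (i : Fin 4) : Fin 4 :=
  if op.val < 9 then i else if i = pa op then pb op else if i = pb op then pa op else i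
def tch (op : Op) (i : Fin 4) : Bool := mode op i != 0 || src op i != i
def cutOp (i : Fin 4) : Op := Fin.ofNat 14 (1 + i.val)
def delOp (i : Fin 4) : Op := Fin.ofNat 14 (5 + i.val)
def swpOp (i j : Fin 4) : Op :=
  Fin.ofNat 14 (if i.val = 0 ∨ j.val = 0 then 8 + i.val + j.val else 9 + i.val + j.val)

def sPT (t : ℕ) : Bool := t % 2 == 1
def kfT (t : ℕ) : ℕ := t / 16 % 4
def kkT (t : ℕ) (kx ky : Bool) : Bool := (kfT t == 1 && kx) || (kfT t == 2 && ky)
def sdT (t : ℕ) (kx ky : Bool) (i : Fin 4) : Bool :=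
  if i.val = 0 then t / 2 % 2 == 1
  else if i.val = 1 then t / 4 % 2 == 1
  else if i.val = 2 then t / 8 % 2 == 1 || kkT t kx ky
  else !kkT t kx ky
def piT (t : ℕ) (kx ky : Bool) : Fin 4 :=
  if t / 64 = 2 ∧ kkT t kx ky = true then 3 else Fin.ofNat 4 (t / 64)
def symT (t : ℕ) (kx ky : Bool) (i : Fin 4) : ℕ :=
  if sdT t kx ky i then 1 else if sPT t = true ∧ piT t kx ky = i then 2 else 0
def popT (t e : ℕ) (p kx ky : Bool) : Op :=
  if sPT t && sPT e && p then delOp (piT t kx ky)
  else if sPT t && !sPT e then cutOp (piT t kx ky)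
  else if sdT t kx ky 0 && !sdT e kx ky 0 then cutOp 0
  else if sdT t kx ky 1 && !sdT e kx ky 1 then cutOp 1
  else if sdT t kx ky 2 && !sdT e kx ky 2 then cutOp 2
  else if sdT t kx ky 3 && !sdT e kx ky 3 then cutOp 3
  else if sPT e && piT t kx ky != piT e kx ky then swpOp (piT t kx ky) (piT e kx ky)
  else 0

def tab (x y : U) : ℕ := (bigT >>> (8 * (84 * x.val + y.val))) % 256
def sP (x y : U) : Bool := sPT (tab x y)
def kf (x y : U) : ℕ := kfT (tab x y)
def kk (x y : U) (kx ky : Bool) : Bool := kkT (tab x y) kx ky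
def sd (x y : U) (kx ky : Bool) (i : Fin 4) : Bool := sdT (tab x y) kx ky i
def piS (x y : U) (kx ky : Bool) : Fin 4 := piT (tab x y) kx ky
/-- Symbolic content of slot `i`: 0 empty, 1 the parent's slot `i`, 2 the parent's block. -/
def sym (x y : U) (kx ky : Bool) (i : Fin 4) : ℕ := symT (tab x y) kx ky i

/-- Pattern operation for the step from `(x,y)` in direction `d`. -/
def pop (x y : U) (d : Dir) (kx ky : Bool) : Op :=
  popT (tab x y) (tab (mv x (dx d)) (mv y (dy d))) (pIn (co d.1 x y) d.2) kx ky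

def pick (o o' : Op) : Bool × Op := if o ≠ 0 then (true, o) else (false, o')

def thp (ax : Bool) (x y : U) (kx ky : Bool) : Bool × Op :=
  pick (pop (mv x (dx (ax, false))) (mv y (dy (ax, false))) (ax, true) kx ky)
    (pop (mv x (dx (ax, true))) (mv y (dy (ax, true))) (ax, false) kx ky)

def th (ax : Bool) (x y : U) (Ox Oy : Bool × Op) : Bool × Op :=
  let O := if ax then Oy else Ox
  if (co ax x y).val = 58 then (true, if O.1 then O.2 else 0)
  else if (co ax x y).val = 66 then (false, if O.1 then 0 else O.2)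
  else thp ax x y (tch Ox.2 2) (tch Oy.2 2)

def xc (sx sy : Bool) : Fin 4 := if sx = sy then 0 else 2

@[ext] structure Info where
  tx : Bool × Op
  ty : Bool × Op
  rel : Fin 4 → Fin 4 → Fin 4 → Bool
  nul : Fin 4 → Bool

def dflt : Info := ⟨(false, 0), (false, 0), fun _ _ _ => false, fun _ => false⟩

abbrev Win := Fin 5 → Fin 5 → Info

@[ext] structure Blk where
  x : U
  y : U
  σ : Win

@[ext] structure Cell where
  P : Blk
  s : Fin 4 → Option Blk

instance : Finite Info :=
  Finite.of_injective (fun a : Info => (a.tx, a.ty, a.rel, a.nul)) fun a b h => by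
    simp only [Prod.mk.injEq] at h
    exact Info.ext h.1 h.2.1 h.2.2.1 h.2.2.2

instance : Finite Blk :=
  Finite.of_injective (fun a : Blk => (a.x, a.y, a.σ)) fun a b h => by
    simp only [Prod.mk.injEq] at h
    exact Blk.ext h.1 h.2.1 h.2.2

instance : Finite Cell :=
  Finite.of_injective (fun a : Cell => (a.P, a.s)) fun a b h => by
    simp only [Prod.mk.injEq] at h
    exact Cell.ext h.1 h.2

def ix (a : ℤ) : Fin 5 := Fin.ofNat 5 (a + 2).toNat
def vo (i : Fin 5) : ℤ := (i.val : ℤ) - 2
def win (p : Bool) (a : ℤ) : Bool := if p then decide (-2 ≤ a ∧ a ≤ 2) else decide (-1 ≤ a ∧ a ≤ 1)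
def look (σ : Win) (a b : ℤ) : Info := σ (ix a) (ix b)
def sh (a b : ℤ) (px py : Bool) (σ : Win) : Win := fun i j =>
  if win px (vo i) && win py (vo j) then look σ (vo i + a) (vo j + b) else dflt

def inf0 (x y : U) (Ox Oy : Bool × Op) (R : Info) : Info where
  tx := th false x y Ox Oy
  ty := th true x y Ox Oy
  rel := fun i j l =>
    (cPo x && cPo y && sP x y && piS x y (tch Ox.2 2) (tch Oy.2 2) == i && j == l &&
      sd x y (tch Ox.2 2) (tch Oy.2 2) l) ||
    (rgo x && rgo y && R.rel i j l && sd x y (tch Ox.2 2) (tch Oy.2 2) i &&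
      sd x y (tch Ox.2 2) (tch Oy.2 2) j)
  nul := fun i =>
    sym x y (tch Ox.2 2) (tch Oy.2 2) i == 0 ||
    (rgo x && rgo y && R.nul i && sd x y (tch Ox.2 2) (tch Oy.2 2) i)

def oX (P : Blk) (a b : ℤ) : Bool × Op := (look P.σ (rEx P.x a) (rReg P.y b)).tx
def oY (P : Blk) (a b : ℤ) : Bool × Op := (look P.σ (rReg P.x a) (rEx P.y b)).ty
def oR (P : Blk) (a b : ℤ) : Info := look P.σ (rReg P.x a) (rReg P.y b)
def infAt (P : Blk) (a b : ℤ) : Info := inf0 (mv P.x a) (mv P.y b) (oX P a b) (oY P a b) (oR P a b)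
def inf (P : Blk) : Info := infAt P 0 0
def kX (P : Blk) : Bool := tch (oX P 0 0).2 2
def kY (P : Blk) : Bool := tch (oY P 0 0).2 2
def G (P : Blk) : Win := fun i j =>
  if win (od P.x) (vo i) && win (od P.y) (vo j) then infAt P (vo i) (vo j) else dflt

def bdv (a b : ℤ) (P : Blk) : Blk :=
  ⟨mv P.x a, mv P.y b,
    if dS P.x a = 0 ∧ dS P.y b = 0 then P.σ
    else sh (dS P.x a) (dS P.y b) (cSo (mv P.x a)) (cSo (mv P.y b)) P.σ⟩
def bd (d : Dir) (P : Blk) : Blk := bdv (dx d) (dy d) P

def side (d : Dir) (t : Bool × Op) : Op := if t.1 = d.2 then t.2 else 0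
def opAt (d : Dir) (E : Blk) : Op := side d (if d.1 then (inf E).ty else (inf E).tx)
def act (op : Op) (d : Dir) (s : Fin 4 → Option Blk) : Fin 4 → Option Blk := fun i =>
  if mode op i = 0 then s (src op i) else if mode op i = 1 then none else (s i).map (bd d)
/-- The operation applied to the slots of a cell with block `P` in direction `d`. -/
def opOf (d : Dir) (P : Blk) : Op := opAt d (bd d P)
/-- Facet of a cell. -/
def bdC (d : Dir) (c : Cell) : Cell := ⟨bd d c.P, act (opOf d c.P) d c.s⟩

def tile (P : Blk) : Prop := od P.x = true ∧ od P.y = true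
def ok (P : Blk) : Prop := ∀ (sx sy : Bool) (i : Fin 4),
  mode (opOf (false, sx) P) i ≠ 0 → mode (opOf (true, sy) P) i ≠ 0 →
    mode (opOf (false, sx) P) i = 2 ∧ mode (opOf (true, sy) P) i = 2 ∧
      ∃ j, j ≠ i ∧ (inf P).rel i j (xc sx sy) = true
def dsp (P : Blk) (l : Fin 4) : Prop := sP P.x P.y = true ∧ piS P.x P.y (kX P) (kY P) = l
def core (u : Blk) (ow : Option Blk) : Prop := ∃ w, ow = some w ∧ od w.x = cPo u.x ∧
  od w.y = cPo u.y ∧ u.σ = sh (dP u.x) (dP u.y) (cSo u.x) (cSo u.y) (G w) ∧ (tile w → ok w)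
def Rel3 (oi oj : Option Blk) (l : Fin 4) : Prop :=
  ∀ u, oi = some u → tile u ∧ (dsp u l → core u oj)

structure Valid (t : Cell) : Prop where
  tl : tile t.P
  okk : ok t.P
  cr : ∀ l, dsp t.P l → core t.P (t.s l)
  rl : ∀ i j l, (inf t.P).rel i j l = true → Rel3 (t.s i) (t.s j) l
  nl : ∀ i, (inf t.P).nul i = true → t.s i = none

def chP (P : Blk) (x y : U) : Blk := ⟨x, y, sh (dR x) (dR y) (cSo x) (cSo y) (G P)⟩
def chS (c : Cell) (x y : U) (kx ky : Bool) : Fin 4 → Option Blk := fun i =>
  if sym x y kx ky i = 1 then c.s i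
  else if sym x y kx ky i = 2 then some (bdv (dQ x) (dQ y) c.P) else none
/-- The child of the cell `c` at position `(x,y)`. -/
def child (c : Cell) (x y : U) : Cell :=
  ⟨chP c.P x y, chS c x y (kX (chP c.P x y)) (kY (chP c.P x y))⟩

def good (u : U) (sg : Bool) : Bool := fIn u sg || pIn u sg
def hit (op : Op) : Bool := decide (1 ≤ op.val ∧ op.val ≤ 8)
/-- Wall or good line at the side `d` of the tile position `(x,y)`. -/
def wg (x y : U) (d : Dir) : Bool :=
  good (co d.1 x y) d.2 || hit (pop x y d false false) || hit (pop x y d true true)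

def frc (n : ℕ) (f : ℕ → Bool) : Bool :=
  Nat.rec (motive := fun _ => Bool) (f 0) (fun m _ => f (m + 1)) n

theorem frc_eq (n : ℕ) (f : ℕ → Bool) : frc n f = f n := by cases n <;> rfl

def frb (b : Bool) (f : Bool → Bool) : Bool := Bool.rec (motive := fun _ => Bool) (f false) (f true) b

theorem frb_eq (b : Bool) (f : Bool → Bool) : frb b f = f b := by cases b <;> rfl

def all4 (f : Fin 4 → Bool) : Bool := f 0 && f 1 && f 2 && f 3

theorem all4_spec {f : Fin 4 → Bool} (h : all4 f = true) (i : Fin 4) : f i = true := by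
  simp only [all4, Bool.and_eq_true] at h
  fin_cases i
  · exact h.1.1.1
  · exact h.1.1.2
  · exact h.1.2
  · exact h.2

def allB (f : Bool → Bool) : Bool := f false && f true

theorem allB_spec {f : Bool → Bool} (h : allB f = true) (b : Bool) : f b = true := by
  simp only [allB, Bool.and_eq_true] at h
  cases b
  · exact h.1
  · exact h.2

def isF (u : U) : Bool := u.val == 58 || u.val == 66

def allU (f : U → Bool) : Bool :=
  Nat.rec (motive := fun _ => Bool) true (fun k r => f (Fin.ofNat 84 k) && r) 84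

theorem allU_spec {f : U → Bool} (h : allU f = true) (u : U) : f u = true := by
  have key : ∀ n : ℕ, Nat.rec (motive := fun _ => Bool) true (fun k r => f (Fin.ofNat 84 k) && r) n = true →
      ∀ k < n, f (Fin.ofNat 84 k) = true := by
    intro n
    induction n with
    | zero => intro _ k hk; omega
    | succ n ih =>
      intro h k hk
      simp only [Bool.and_eq_true] at h
      rcases Nat.lt_succ_iff_lt_or_eq.1 hk with h1 | h1
      · exact ih h.2 k h1
      · subst h1; exact h.1
  have := key 84 h u.val u.isLt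
  rwa [Fin.ofNat_val_eq_self] at this

end Pool.Agent.FC
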