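import Pool.Agent.K.MP_5e292f_al.C5

set_option autoImplicit false

namespace Pool.Agent.FC

def allN (n : ℕ) (f : ℕ → Bool) : Bool :=
  Nat.rec (motive := fun _ => Bool) true (fun k r => r && f k) n

theorem allN_iff (n : ℕ) (f : ℕ → Bool) : allN n f = true ↔ ∀ k < n, f k = true := by
  induction n with
  | zero => simp [allN]
  | succ n ih =>
    have : allN (n + 1) f = (allN n f && f n) := rfl
    rw [this, Bool.and_eq_true, ih]
    constructor
    · rintro ⟨h1, h2⟩ k hk
      rcases Nat.lt_succ_iff_lt_or_eq.1 hk with h | h
      · exact h1 k h
      · subst h; exact h2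
    · intro h
      exact ⟨fun k hk => h k (by omega), h n (by omega)⟩

/-- Tile position of the natural number `i`. -/
def tn (i : ℕ) : U := Fin.ofNat 84 (2 * i + 1)

/-- The interval of `W` tile columns from column `i` misses some column of `3..16` in each period. -/
def short (i W : ℕ) : Bool := decide (W < (45 - i) % 42 + 14)

/-- On a line that is not good some row among `3..16` carries no wall. -/
def cRun (d : Dir) (i : ℕ) : Bool :=
  good (tn i) d.2 ||
    !allN 14 fun k => if d.1 then wg (tn (3 + k)) (tn i) d else wg (tn i) (tn (3 + k)) d

def cRect (i j : ℕ) : Bool :=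
  !(wg (tn i) (tn j) (false, false) && wg (tn i) (tn j) (true, false)) ||
    allN 55 fun W => !(short i (W + 1) && wg (tn (i + W)) (tn j) (false, true) &&
        allN (W + 1) fun k => wg (tn (i + k)) (tn j) (true, false)) ||
      allN 55 fun H => !(short j (H + 1) &&
        (allN (H + 1) fun k => wg (tn i) (tn (j + k)) (false, false) &&
          wg (tn (i + W)) (tn (j + k)) (false, true)) &&
        allN (W + 1) fun k => wg (tn (i + k)) (tn (j + H)) (true, true))

theorem chkRun : (allB fun a => allB fun s => allN 42 (cRun (a, s))) = true := by decide +kernel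

theorem chkRect : (allN 42 fun i => allN 42 (cRect i)) = true := by decide +kernel

end Pool.Agent.FC
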